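import Mathlib
import Pool.Agent.Lib.MP_15f9af_an.Space

/-!
# The Arveson–Douglas conjecture: basic definitions for the proof

* `Pol d V`: polynomials in `d` variables with coefficients in `V`, as finitely supported
  families of coefficients;
* `Hol F U`: `F` is continuous on `U` and holomorphic in each variable;
* `N2 τ F U = ∫_U ‖τ_z F(z)‖² e^{-|z|²}`;
* `Lift S Adm τ₀ τ₁ D`: lifting with bounds through `D` on the sets
  `Om S a t = {z | ∀ i ∉ S, |z_i - a_i| < t}`.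
-/

namespace Pool.Agent.Lib.MP_15f9af_an.AD

open scoped ENNReal NNReal
open MeasureTheory

universe u v

variable {d : ℕ}

/-! ### polynomials -/

/-- the monomial `z^α` -/
noncomputable def mon (z : Fin d → ℂ) (α : Fin d → ℕ) : ℂ := ∏ j, z j ^ α j

/-- polynomials in `d` variables with coefficients in `V` -/
abbrev Pol (d : ℕ) (V : Type u) [Zero V] : Type u := (Fin d → ℕ) →₀ V

section pol

variable {V : Type u} [AddCommGroup V] [Module ℂ V]

/-- multiplication by `z^γ` -/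
noncomputable def shift (γ : Fin d → ℕ) : Pol d V →ₗ[ℂ] Pol d V :=
  Finsupp.lmapDomain V ℂ fun α => γ + α

/-- the value at `z` -/
noncomputable def ev (z : Fin d → ℂ) : Pol d V →ₗ[ℂ] V :=
  Finsupp.lsum ℂ fun α => mon z α • LinearMap.id

/-- multi-indices of degree at most `n` -/
def degLe (d n : ℕ) : Finset (Fin d → ℕ) :=
  (Fintype.piFinset fun _ => Finset.range (n + 1)).filter fun α => deg α ≤ n

/-- polynomials of degree at most `n` -/
def polLe (d : ℕ) (V : Type u) [AddCommGroup V] [Module ℂ V] (n : ℕ) :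
    Submodule ℂ (Pol d V) where
  carrier := {f | ∀ α, n < deg α → f α = 0}
  add_mem' := fun {a b} ha hb α h => by simp [ha α h, hb α h]
  zero_mem' := fun _ _ => rfl
  smul_mem' := fun c x hx α h => by simp [hx α h]

/-- subspaces closed under multiplication by polynomials -/
def IsMod (M : Submodule ℂ (Pol d V)) : Prop := ∀ γ, ∀ f ∈ M, shift γ f ∈ M

/-- the coefficients of `(a + w)^α`: `(a + w)^α = ∑_{β ≤ α} binc a α β w^β` -/
noncomputable def binc (a : Fin d → ℂ) (α β : Fin d → ℕ) : ℂ :=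
  ∏ j, ((α j).choose (β j) : ℂ) * a j ^ (α j - β j)

/-- `f ↦ f(a + ·)` -/
noncomputable def recentre (a : Fin d → ℂ) : Pol d V →ₗ[ℂ] Pol d V :=
  Finsupp.lsum ℂ fun α => ∑ β ∈ Finset.Iic α, binc a α β • Finsupp.lsingle β

/-- apply a linear map to the coefficients -/
noncomputable def mapc {W : Type v} [AddCommGroup W] [Module ℂ W] (L : V →ₗ[ℂ] W) :
    Pol d V →ₗ[ℂ] Pol d W := Finsupp.mapRange.linearMap L

/-- the polynomial of degree at most `m` with the given coefficients -/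
noncomputable def toPol (m : ℕ) : (degLe d m → V) →ₗ[ℂ] Pol d V :=
  ∑ α : degLe d m, Finsupp.lsingle (α : Fin d → ℕ) ∘ₗ LinearMap.proj α

/-- `M_{≤ m}`, as a space of families of coefficients -/
noncomputable def Wsp (M : Submodule ℂ (Pol d V)) (m : ℕ) : Submodule ℂ (degLe d m → V) :=
  M.comap (toPol m)

end pol

/-- the `ℓ¹` norm of radius `t` of the coefficients -/
noncomputable def l1 {V : Type u} [NormedAddCommGroup V] (t : ℝ) (f : Pol d V) : ℝ :=
  f.sum fun α v => t ^ deg α * ‖v‖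

/-! ### holomorphic functions and weighted norms -/

section hol

variable {E : Type u} {V : Type v} [NormedAddCommGroup E] [NormedSpace ℂ E]
  [NormedAddCommGroup V] [NormedSpace ℂ V]

/-- holomorphic functions of several variables: continuous, and holomorphic in each variable -/
def Hol (F : (Fin d → ℂ) → E) (U : Set (Fin d → ℂ)) : Prop :=
  ContinuousOn F U ∧ ∀ z ∈ U, ∀ i, DifferentiableAt ℂ (fun x => F (Function.update z i x)) (z i)

/-- `|z|²` -/
noncomputable def nsq (z : Fin d → ℂ) : ℝ := ∑ i, ‖z i‖ ^ 2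

/-- `⟨w, a⟩ = ∑ w_i conj(a_i)` -/
noncomputable def dotc (w a : Fin d → ℂ) : ℂ := ∑ i, w i * (starRingEnd ℂ) (a i)

/-- `‖τ_z F(z)‖² e^{-|z|²}` -/
noncomputable def Wt (τ : (Fin d → ℂ) → E →L[ℂ] V) (F : (Fin d → ℂ) → E) (z : Fin d → ℂ) :
    ℝ≥0∞ := ENNReal.ofReal (‖τ z (F z)‖ ^ 2 * Real.exp (-nsq z))

/-- `∫_U ‖τ_z F(z)‖² e^{-|z|²}` -/
noncomputable def N2 (τ : (Fin d → ℂ) → E →L[ℂ] V) (F : (Fin d → ℂ) → E)
    (U : Set (Fin d → ℂ)) : ℝ≥0∞ := ∫⁻ z in U, Wt τ F z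

/-- the variables in `S` are free, the others are in the disc of radius `t` around `a_i` -/
def Om (S : Finset (Fin d)) (a : Fin d → ℂ) (t : ℝ) : Set (Fin d → ℂ) :=
  {z | ∀ i, i ∉ S → ‖z i - a i‖ < t}

/-- families of norms `‖τ_z v‖` with moderate growth -/
structure Moderate (τ : (Fin d → ℂ) → E →L[ℂ] V) : Prop where
  cont : Continuous τ
  growth : ∃ (A : ℝ) (m : ℕ), 0 ≤ A ∧ ∀ z w v, ‖τ z v‖ ≤ A * (1 + ‖z - w‖) ^ m * ‖τ w v‖
  inj : ∃ c : ℝ, 0 ≤ c ∧ ∀ v, ‖v‖ ≤ c * ‖τ 0 v‖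

end hol

section lift

variable {E₀ : Type u} {E₁ : Type u} {V₀ : Type u} {V₁ : Type u}
  [NormedAddCommGroup E₀] [NormedSpace ℂ E₀] [NormedAddCommGroup E₁] [NormedSpace ℂ E₁]
  [NormedAddCommGroup V₀] [NormedSpace ℂ V₀] [NormedAddCommGroup V₁] [NormedSpace ℂ V₁]

/-- Lifting through `D` on the sets `Om S a t`, with bounds uniform in `a`. -/
def Lift (S : Finset (Fin d)) (Adm : Set (Fin d → ℂ) → ((Fin d → ℂ) → E₀) → Prop)
    (τ₀ : (Fin d → ℂ) → E₀ →L[ℂ] V₀) (τ₁ : (Fin d → ℂ) → E₁ →L[ℂ] V₁)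
    (D : (Fin d → ℂ) → E₁ →L[ℂ] E₀) : Prop :=
  ∀ t : ℝ, 0 < t → t ≤ 1 → ∃ t' : ℝ, 0 < t' ∧ t' ≤ t ∧ ∃ C : ℝ≥0,
    ∀ (a : Fin d → ℂ) (F : (Fin d → ℂ) → E₀), Hol F (Om S a t) → Adm (Om S a t) F →
      N2 τ₀ F (Om S a t) < ∞ →
      ∃ F' : (Fin d → ℂ) → E₁, Hol F' (Om S a t') ∧ (∀ z ∈ Om S a t', D z (F' z) = F z) ∧
        N2 τ₁ F' (Om S a t') ≤ C * N2 τ₀ F (Om S a t)

end lift

/-- The twisted Cauchy transform in the variable `z_i` of the function `z ↦ ψ(z_i) f(z)`: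
`z ↦ (1/π) ∫ e^{(z_i - w) conj q} ψ(w) f(z; z_i := w) / (z_i - w) dA(w)`. -/
noncomputable def CT {E : Type u} [NormedAddCommGroup E] [NormedSpace ℂ E] (i : Fin d) (q : ℂ)
    (ψ : ℂ → ℂ) (f : (Fin d → ℂ) → E) (z : Fin d → ℂ) : E :=
  ∫ ζ : ℂ, (((Real.pi : ℂ) * ζ)⁻¹ * Complex.exp (ζ * (starRingEnd ℂ) q) * ψ (z i - ζ)) •
    f (Function.update z i (z i - ζ))

/-- the point `δ (k₁ + i k₂)` of the lattice `δ ℤ[i]` -/
noncomputable def lat (δ : ℝ) (k : ℤ × ℤ) : ℂ := ⟨δ * k.1, δ * k.2⟩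

/-- `e^{-|y|²/2} (1 + |y|)^m` -/
noncomputable def gau (m : ℕ) (y : ℂ) : ℝ := (1 + ‖y‖) ^ m * Real.exp (-‖y‖ ^ 2 / 2)

/-- a partition of unity subordinate to the squares of side `2δ` around the lattice points -/
noncomputable def chi (δ : ℝ) (k : ℤ × ℤ) (x : ℂ) : ℝ :=
  (Real.smoothTransition (x.re / δ - k.1 + 1) - Real.smoothTransition (x.re / δ - k.1)) *
  (Real.smoothTransition (x.im / δ - k.2 + 1) - Real.smoothTransition (x.im / δ - k.2))

/-- `2 ∂̄ χ_k` -/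
noncomputable def dchi (δ : ℝ) (k : ℤ × ℤ) (x : ℂ) : ℂ :=
  (fderiv ℝ (chi δ k) x 1 : ℂ) + Complex.I * (fderiv ℝ (chi δ k) x Complex.I : ℂ)

/-- the hypotheses on the data of the Cauchy transform -/
structure CTData {E : Type u} [NormedAddCommGroup E] [NormedSpace ℂ E] (i : Fin d) (q : ℂ)
    (ρ' ρ : ℝ) (ψ : ℂ → ℂ) (U : Set (Fin d → ℂ)) (f : (Fin d → ℂ) → E) : Prop where
  pos : 0 < ρ'
  lt : ρ' < ρ
  smooth : ContDiff ℝ 1 ψ
  zero : ∀ x, ρ' ≤ ‖x - q‖ → ψ x = 0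
  isOpen : IsOpen U
  cyl : ∀ z ∈ U, ∀ x, Function.update z i x ∈ U
  hol : Hol f (U ∩ {z | ‖z i - q‖ < ρ})

/-! ### the tower -/

section level
variable {E : Type u} {V : Type u} [NormedAddCommGroup E] [NormedSpace ℂ E]
  [FiniteDimensional ℂ E] [NormedAddCommGroup V] [NormedSpace ℂ V] [FiniteDimensional ℂ V]

/-- the evaluation map `D_z : M_{≤ m} → E` -/
noncomputable def Dop (M : Submodule ℂ (Pol d E)) (m : ℕ) (z : Fin d → ℂ) :
    Wsp M m →L[ℂ] E :=
  LinearMap.toContinuousLinearMap (ev z ∘ₗ toPol m ∘ₗ (Wsp M m).subtype)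

/-- the norms of the next level: `q ↦ (τ_z ((T_z q)_β))_β` -/
noncomputable def tauNext (τ : (Fin d → ℂ) → E →L[ℂ] V) (M : Submodule ℂ (Pol d E)) (m : ℕ)
    (z : Fin d → ℂ) : Wsp M m →L[ℂ] (degLe d m → V) :=
  LinearMap.toContinuousLinearMap (LinearMap.pi fun β : degLe d m =>
    (τ z : E →ₗ[ℂ] V) ∘ₗ Finsupp.lapply (β : Fin d → ℕ) ∘ₗ recentre z ∘ₗ toPol m ∘ₗ
      (Wsp M m).subtype)

/-- the relations: polynomials `c` with values in `M_{≤ m}` and `D_z c(z) = 0` -/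
def relM (M : Submodule ℂ (Pol d E)) (m : ℕ) : Submodule ℂ (Pol d (Wsp M m)) where
  carrier := {c | ∀ z, Dop M m z (ev z c) = 0}
  add_mem' := fun {a b} ha hb z => by rw [map_add, map_add, ha z, hb z, add_zero]
  zero_mem' := fun z => by simp
  smul_mem' := fun c x hx z => by rw [map_smul, map_smul, hx z, smul_zero]

end level

/-- admissible functions are locally limits of twisted elements of `M` -/
def Approx {E : Type u} [NormedAddCommGroup E] [NormedSpace ℂ E] (M : Submodule ℂ (Pol d E))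
    (Adm : Set (Fin d → ℂ) → ((Fin d → ℂ) → E) → Prop) : Prop :=
  ∀ t : ℝ, 0 < t → t ≤ 1 → ∃ t₂ : ℝ, 0 < t₂ ∧ t₂ ≤ t ∧
    ∀ (a : Fin d → ℂ) (F : (Fin d → ℂ) → E), Hol F (Metric.ball a t) → Adm (Metric.ball a t) F →
      ∀ G : (Fin d → ℕ) → E, (Summable fun γ => t ^ deg γ * ‖G γ‖) →
        (∀ w : Fin d → ℂ, ‖w‖ < t →
          HasSum (fun γ => mon w γ • G γ) (Complex.exp (-dotc w a) • F (a + w))) →
        ∀ ε : ℝ, 0 < ε → ∃ c ∈ M, ∑' γ, t₂ ^ deg γ * ‖G γ - recentre a c γ‖ ≤ ε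

/-- a level of the tower -/
structure Level (d : ℕ) : Type (u + 1) where
  E : Type u
  V : Type u
  [nE : NormedAddCommGroup E] [sE : NormedSpace ℂ E] [fE : FiniteDimensional ℂ E]
  [nV : NormedAddCommGroup V] [sV : NormedSpace ℂ V] [fV : FiniteDimensional ℂ V]
  τ : (Fin d → ℂ) → E →L[ℂ] V
  M : Submodule ℂ (Pol d E)
  Adm : Set (Fin d → ℂ) → ((Fin d → ℂ) → E) → Prop
  hτ : Moderate τ
  hM : IsMod M
  mono : ∀ U U' F, U' ⊆ U → Adm U F → Adm U' F
  approx : Approx M Adm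

attribute [instance] Level.nE Level.sE Level.fE Level.nV Level.sV Level.fV

/-! ### homogeneous components, the Fock inner product -/

section fock

variable {K : Type u} [NormedAddCommGroup K] [InnerProductSpace ℂ K]

/-- homogeneous component -/
noncomputable def comp (n : ℕ) : Pol d K →ₗ[ℂ] Pol d K where
  toFun := fun f => f.filter fun α => deg α = n
  map_add' := fun f g => Finsupp.filter_add
  map_smul' := fun c f => by ext α; by_cases h : deg α = n <;> simp [h]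

/-- the Fock inner product -/
noncomputable def fock (f g : Pol d K) : ℂ := f.sum fun α v => (mfact α : ℂ) * inner ℂ v (g α)

/-- `∂_i` -/
noncomputable def pd (i : Fin d) : Pol d K →ₗ[ℂ] Pol d K :=
  Finsupp.lsum ℂ fun α => (α i : ℂ) • Finsupp.lsingle (dec i α)

end fock

end Pool.Agent.Lib.MP_15f9af_an.AD
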