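import Mathlib

/-!
# Arveson–Douglas, module M1b (helper91): weights, leading monomials

`K d N = (Fin d →₀ ℕ) × Fin N` indexes the monomials `z^a e_i`; polynomials are `K d N →₀ ℂ`.
-/

namespace Pool.Agent.Lib.MP_15f9af_an.AD.UD

open Filter Topology

variable {d N : ℕ}

/-- monomials `z^a e_i` -/
abbrev K (d N : ℕ) : Type := (Fin d →₀ ℕ) × Fin N

/-- a sequence of distinct primes -/
noncomputable def pr (l : ℕ) : ℕ := Nat.nth Nat.Prime l

theorem pr_prime (l : ℕ) : (pr l).Prime := Nat.prime_nth_prime l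

theorem pr_inj {l l' : ℕ} (h : pr l = pr l') : l = l' :=
  Nat.nth_injective Nat.infinite_setOfPred_prime h

/-- the weight of the monomial `z^b` -/
noncomputable def nb (b : Fin d →₀ ℕ) : ℕ := ∏ l : Fin d, pr l ^ b l

/-- the weight of the monomial `z^a e_i` -/
noncomputable def nu (k : K d N) : ℕ := nb k.1 * pr (d + k.2)

/-- multiplication by `z^b` on monomials -/
noncomputable def sh (b : Fin d →₀ ℕ) (k : K d N) : K d N := (k.1 + b, k.2)

theorem nb_add (a b : Fin d →₀ ℕ) : nb (a + b) = nb a * nb b := by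
  unfold nb
  rw [← Finset.prod_mul_distrib]
  apply Finset.prod_congr rfl
  intro l _
  rw [Finsupp.add_apply, pow_add]

theorem nb_pos (b : Fin d →₀ ℕ) : 0 < nb b :=
  Finset.prod_pos (fun l _ => pow_pos (pr_prime l).pos _)

theorem nu_pos (k : K d N) : 0 < nu k := Nat.mul_pos (nb_pos _) (pr_prime _).pos

theorem nu_sh (b : Fin d →₀ ℕ) (k : K d N) : nu (sh b k) = nb b * nu k := by
  unfold nu sh
  simp only
  rw [nb_add]; ring

theorem sh_inj (b : Fin d →₀ ℕ) : Function.Injective (sh b : K d N → K d N) := by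
  rintro ⟨a, i⟩ ⟨a', i'⟩ h
  simp only [sh, Prod.mk.injEq, add_left_inj] at h
  rw [Prod.mk.injEq]; exact h

theorem sh_sh (b c : Fin d →₀ ℕ) (k : K d N) : sh b (sh c k) = sh (b + c) k := by
  simp only [sh]; rw [add_assoc, add_comm c b]

theorem factorization_nb (b : Fin d →₀ ℕ) (l : Fin d) : (nb b).factorization (pr l) = b l := by
  unfold nb
  rw [Nat.factorization_prod (S := Finset.univ) (g := fun i : Fin d => pr i ^ b i)
    (fun i _ => (pow_pos (pr_prime i).pos _).ne')]
  rw [Finset.sum_apply']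
  rw [Finset.sum_eq_single l]
  · rw [(pr_prime l).factorization_pow]; simp
  · intro i _ hil
    rw [(pr_prime i).factorization_pow, Finsupp.single_apply, if_neg]
    intro h
    exact hil (Fin.ext (pr_inj h))
  · intro h; exact absurd (Finset.mem_univ l) h

theorem factorization_nb_ge (b : Fin d →₀ ℕ) (l : ℕ) (hl : d ≤ l) :
    (nb b).factorization (pr l) = 0 := by
  unfold nb
  rw [Nat.factorization_prod (S := Finset.univ) (g := fun i : Fin d => pr i ^ b i)
    (fun i _ => (pow_pos (pr_prime i).pos _).ne')]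
  rw [Finset.sum_apply']
  apply Finset.sum_eq_zero
  intro i _
  rw [(pr_prime i).factorization_pow, Finsupp.single_apply, if_neg]
  intro h
  have := pr_inj h
  have := i.2
  omega

theorem nu_injective : Function.Injective (nu : K d N → ℕ) := by
  rintro ⟨a, i⟩ ⟨a', i'⟩ h
  have hfac : ∀ (k : K d N) (p : ℕ), (nu k).factorization p =
      (nb k.1).factorization p + (pr (d + k.2)).factorization p := by
    intro k p
    unfold nu
    rw [Nat.factorization_mul (nb_pos _).ne' (pr_prime _).pos.ne', Finsupp.add_apply]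
  have h1 : ∀ p, (nu (a, i)).factorization p = (nu (a', i')).factorization p := by
    intro p; rw [h]
  have hi : i = i' := by
    by_contra hne
    have h2 := h1 (pr (d + i))
    rw [hfac, hfac] at h2
    simp only at h2
    rw [factorization_nb_ge _ _ (Nat.le_add_right _ _),
      factorization_nb_ge _ _ (Nat.le_add_right _ _), (pr_prime _).factorization,
      (pr_prime _).factorization, Finsupp.single_apply, Finsupp.single_apply, if_pos rfl,
      if_neg] at h2
    · omega
    · intro h3
      have := pr_inj h3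
      exact hne (Fin.ext (by omega))
  subst hi
  have ha : a = a' := by
    ext l
    have h2 := h1 (pr l)
    rw [hfac, hfac] at h2
    simp only at h2
    rw [factorization_nb, factorization_nb] at h2
    omega
  rw [ha]

/-- the degree-`≤ n` part -/
def Ple (d N n : ℕ) : Submodule ℂ (K d N →₀ ℂ) :=
  Finsupp.supported ℂ ℂ {k | k.1.degree ≤ n}

theorem mem_Ple {n : ℕ} {f : K d N →₀ ℂ} : f ∈ Ple d N n ↔ ∀ k ∈ f.support, k.1.degree ≤ n := by
  unfold Ple
  rw [Finsupp.mem_supported]
  rfl

theorem finite_deg (n : ℕ) : {k : K d N | k.1.degree ≤ n}.Finite := by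
  have h : {k : K d N | k.1.degree ≤ n} = {a : Fin d →₀ ℕ | a.degree ≤ n} ×ˢ Set.univ := by
    ext k; simp
  rw [h]
  exact (Finsupp.finite_of_degree_le n).prod Set.finite_univ

/-- multiplication by `z^b` -/
noncomputable def shift (b : Fin d →₀ ℕ) : (K d N →₀ ℂ) →ₗ[ℂ] (K d N →₀ ℂ) :=
  Finsupp.lmapDomain ℂ ℂ (sh b)

theorem shift_single (b : Fin d →₀ ℕ) (k : K d N) (c : ℂ) :
    shift b (Finsupp.single k c) = Finsupp.single (sh b k) c := by
  unfold shift
  rw [Finsupp.lmapDomain_apply, Finsupp.mapDomain_single]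

theorem shift_apply_sh (b : Fin d →₀ ℕ) (f : K d N →₀ ℂ) (k : K d N) :
    shift b f (sh b k) = f k := by
  unfold shift
  rw [Finsupp.lmapDomain_apply, Finsupp.mapDomain_apply (sh_inj b)]

theorem support_shift (b : Fin d →₀ ℕ) (f : K d N →₀ ℂ) :
    (shift b f).support = f.support.map ⟨sh b, sh_inj b⟩ := by
  classical
  unfold shift
  rw [Finsupp.lmapDomain_apply, Finsupp.mapDomain_support_of_injective (sh_inj b),
    Finset.map_eq_image]
  rfl

theorem shift_mem_Ple {n : ℕ} {f : K d N →₀ ℂ} (hf : f ∈ Ple d N n) (b : Fin d →₀ ℕ) :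
    shift b f ∈ Ple d N (n + b.degree) := by
  rw [mem_Ple] at *
  intro k hk
  rw [support_shift, Finset.mem_map] at hk
  obtain ⟨k', hk', rfl⟩ := hk
  have := hf k' hk'
  simp only [Function.Embedding.coeFn_mk, sh, map_add]
  omega

theorem Ple_mono {n n' : ℕ} (h : n ≤ n') : Ple d N n ≤ Ple d N n' := by
  intro f hf
  rw [mem_Ple] at *
  intro k hk
  exact (hf k hk).trans h

/-- `k` is the leading monomial (smallest weight) of `f` -/
def IsLead (f : K d N →₀ ℂ) (k : K d N) : Prop := k ∈ f.support ∧ ∀ k' ∈ f.support, nu k ≤ nu k'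

/-- leading monomials of a subspace -/
def Lead (W : Submodule ℂ (K d N →₀ ℂ)) : Set (K d N) := {k | ∃ f ∈ W, IsLead f k}

theorem exists_isLead {f : K d N →₀ ℂ} (hf : f ≠ 0) : ∃ k, IsLead f k := by
  obtain ⟨k, hk, hmin⟩ := Finset.exists_min_image f.support nu
    (Finsupp.support_nonempty_iff.2 hf)
  exact ⟨k, hk, hmin⟩

theorem IsLead.shift {f : K d N →₀ ℂ} {k : K d N} (h : IsLead f k) (b : Fin d →₀ ℕ) :
    IsLead (shift b f) (sh b k) := by
  unfold IsLead
  rw [support_shift]
  constructor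
  · rw [Finset.mem_map]
    exact ⟨k, h.1, rfl⟩
  · intro k' hk'
    rw [Finset.mem_map] at hk'
    obtain ⟨k'', hk'', rfl⟩ := hk'
    simp only [Function.Embedding.coeFn_mk]
    rw [nu_sh, nu_sh]
    exact Nat.mul_le_mul_left _ (h.2 k'' hk'')

theorem Lead_subset {n : ℕ} {W : Submodule ℂ (K d N →₀ ℂ)} (hW : W ≤ Ple d N n) :
    Lead W ⊆ {k | k.1.degree ≤ n} := by
  rintro k ⟨f, hf, hk⟩
  exact mem_Ple.1 (hW hf) k hk.1

theorem finite_Lead {n : ℕ} {W : Submodule ℂ (K d N →₀ ℂ)} (hW : W ≤ Ple d N n) :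
    (Lead W).Finite := (finite_deg n).subset (Lead_subset hW)

/-- the dimension is at most the number of leading monomials -/
theorem finrank_le_Lead {n : ℕ} {W : Submodule ℂ (K d N →₀ ℂ)} (hW : W ≤ Ple d N n) :
    Module.finrank ℂ W ≤ (Lead W).ncard := by
  classical
  have hfin := finite_Lead hW
  let _ : Fintype (Lead W) := hfin.fintype
  let Φ : W →ₗ[ℂ] (Lead W → ℂ) :=
    { toFun := fun f k => (f : K d N →₀ ℂ) k
      map_add' := by intro f g; funext k; simp
      map_smul' := by intro c f; funext k; simp }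
  have hinj : Function.Injective Φ := by
    rw [injective_iff_map_eq_zero]
    intro f hf
    by_contra hne
    have hne' : (f : K d N →₀ ℂ) ≠ 0 := by
      intro h; exact hne (Subtype.ext h)
    obtain ⟨k, hk⟩ := exists_isLead hne'
    have h1 := congrFun hf ⟨k, ⟨f, f.2, hk⟩⟩
    have h2 : (f : K d N →₀ ℂ) k ≠ 0 := Finsupp.mem_support_iff.1 hk.1
    exact h2 h1
  have h1 := LinearMap.finrank_le_finrank_of_injective hinj
  rw [Module.finrank_fintype_fun_eq_card] at h1
  rw [Set.ncard_eq_toFinset_card' (Lead W), Set.toFinset_card]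
  convert h1

end Pool.Agent.Lib.MP_15f9af_an.AD.UD
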