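import Mathlib
import Pool.Agent.Lib.MP_15f9af_an.AD.UDWeight

/-!
# Arveson–Douglas, module M1b (helper91): weighted norms and the contraction argument
-/

namespace Pool.Agent.Lib.MP_15f9af_an.AD.UD

open Filter Topology

variable {d N : ℕ}

/-- the weighted `ℓ¹` norm with weight `w` -/
noncomputable def nW {κ : Type*} (w : κ → ℝ) (f : κ →₀ ℂ) : ℝ := f.sum (fun k c => ‖c‖ * w k)

section nW
variable {κ : Type*} {w : κ → ℝ}

theorem nW_nonneg (hw : ∀ k, 0 ≤ w k) (f : κ →₀ ℂ) : 0 ≤ nW w f :=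
  Finset.sum_nonneg (fun k _ => mul_nonneg (norm_nonneg _) (hw k))

theorem nW_eq_sum (f : κ →₀ ℂ) {s : Finset κ} (hs : f.support ⊆ s) :
    nW w f = ∑ k ∈ s, ‖f k‖ * w k :=
  Finsupp.sum_of_support_subset f hs _ (fun k _ => by simp)

theorem nW_zero : nW w 0 = 0 := by simp [nW]

theorem nW_single (k : κ) (c : ℂ) : nW w (Finsupp.single k c) = ‖c‖ * w k := by
  unfold nW
  rw [Finsupp.sum_single_index]
  simp

theorem nW_add_le (hw : ∀ k, 0 ≤ w k) (f g : κ →₀ ℂ) : nW w (f + g) ≤ nW w f + nW w g := by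
  classical
  have h1 : (f + g).support ⊆ f.support ∪ g.support := Finsupp.support_add
  rw [nW_eq_sum (f + g) h1, nW_eq_sum f Finset.subset_union_left,
    nW_eq_sum g Finset.subset_union_right, ← Finset.sum_add_distrib]
  apply Finset.sum_le_sum
  intro k _
  rw [Finsupp.add_apply, ← add_mul]
  exact mul_le_mul_of_nonneg_right (norm_add_le _ _) (hw k)

theorem nW_smul (c : ℂ) (f : κ →₀ ℂ) : nW w (c • f) = ‖c‖ * nW w f := by
  rw [nW_eq_sum (c • f) Finsupp.support_smul, nW_eq_sum f (Finset.Subset.refl _),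
    Finset.mul_sum]
  apply Finset.sum_congr rfl
  intro k _
  rw [Finsupp.smul_apply, norm_smul, mul_assoc]

theorem nW_neg (f : κ →₀ ℂ) : nW w (-f) = nW w f := by
  have h : -f = (-1 : ℂ) • f := by simp
  rw [h, nW_smul]; simp

theorem nW_sum_le (hw : ∀ k, 0 ≤ w k) {ι : Type*} (s : Finset ι) (F : ι → κ →₀ ℂ) :
    nW w (∑ i ∈ s, F i) ≤ ∑ i ∈ s, nW w (F i) := by
  classical
  induction s using Finset.induction_on with
  | empty => simp [nW_zero]
  | insert a s ha ih =>
    rw [Finset.sum_insert ha, Finset.sum_insert ha]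
    exact (nW_add_le hw _ _).trans (add_le_add le_rfl ih)

theorem nW_eq_zero (hw : ∀ k, 0 < w k) {f : κ →₀ ℂ} (h : nW w f = 0) : f = 0 := by
  ext k
  by_contra hk
  rw [Finsupp.coe_zero, Pi.zero_apply] at hk
  have h1 : k ∈ f.support := Finsupp.mem_support_iff.2 hk
  have h2 : ‖f k‖ * w k ≤ nW w f :=
    Finset.single_le_sum (f := fun k => ‖f k‖ * w k)
      (fun k _ => mul_nonneg (norm_nonneg _) (hw k).le) h1
  have h3 : 0 < ‖f k‖ * w k := mul_pos (norm_pos_iff.2 hk) (hw k)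
  linarith

theorem nW_mono {w' : κ → ℝ} (h : ∀ k, w k ≤ w' k) (f : κ →₀ ℂ) : nW w f ≤ nW w' f :=
  Finset.sum_le_sum (fun k _ => mul_le_mul_of_nonneg_left (h k) (norm_nonneg _))

end nW

/-- the weight `ν(k)^{-σ}` -/
noncomputable def wσ (σ : ℕ) (k : K d N) : ℝ := ((nu k : ℝ)⁻¹) ^ σ

theorem wσ_pos (σ : ℕ) (k : K d N) : 0 < wσ σ k :=
  pow_pos (inv_pos.2 (Nat.cast_pos.2 (nu_pos k))) _

theorem wσ_le_one (σ : ℕ) (k : K d N) : wσ σ k ≤ 1 := by
  apply pow_le_one₀ (inv_nonneg.2 (Nat.cast_nonneg _))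
  apply inv_le_one_of_one_le₀
  exact_mod_cast nu_pos k

theorem wσ_sh (σ : ℕ) (b : Fin d →₀ ℕ) (k : K d N) :
    wσ σ (sh b k) = ((nb b : ℝ)⁻¹) ^ σ * wσ σ k := by
  unfold wσ
  rw [nu_sh, ← mul_pow]
  push_cast
  rw [mul_inv]

theorem nW_shift (σ : ℕ) (b : Fin d →₀ ℕ) (f : K d N →₀ ℂ) :
    nW (wσ σ) (shift b f) = ((nb b : ℝ)⁻¹) ^ σ * nW (wσ σ) f := by
  unfold nW Finsupp.sum
  rw [support_shift, Finset.sum_map, Finset.mul_sum]
  apply Finset.sum_congr rfl
  intro k _
  simp only [Function.Embedding.coeFn_mk]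
  rw [shift_apply_sh, wσ_sh]
  ring

theorem nW_one_shift (b : Fin d →₀ ℕ) (f : K d N →₀ ℂ) :
    nW (fun _ => 1) (shift b f) = nW (fun _ => 1) f := by
  unfold nW Finsupp.sum
  rw [support_shift, Finset.sum_map]
  apply Finset.sum_congr rfl
  intro k _
  simp only [Function.Embedding.coeFn_mk]
  rw [shift_apply_sh]

/-- The contraction argument: a family `G k`, `k ∈ L`, of elements of a subspace `M`
(of dimension `≤ #L`) with `G k` close to `e_k` in the weighted norm divides the elements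
of `M` with a bound `2`. -/
theorem contraction {κ : Type*} (w : κ → ℝ) (hw : ∀ k, 0 < w k) (M : Submodule ℂ (κ →₀ ℂ))
    [FiniteDimensional ℂ M] (L : Finset κ) (hL : Module.finrank ℂ M ≤ L.card)
    (G : κ → κ →₀ ℂ) (hG : ∀ k ∈ L, G k ∈ M)
    (hclose : ∀ k ∈ L, nW w (G k - Finsupp.single k 1) ≤ 1 / 2 * w k) :
    ∀ f ∈ M, ∃ h : κ →₀ ℂ, h.support ⊆ L ∧ f = h.sum (fun k c => c • G k) ∧
      nW w h ≤ 2 * nW w f := by
  classical
  have hw' : ∀ k, 0 ≤ w k := fun k => (hw k).le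
  let T : (κ →₀ ℂ) →ₗ[ℂ] (κ →₀ ℂ) := Finsupp.linearCombination ℂ G
  have hT : ∀ h : κ →₀ ℂ, T h = h.sum (fun k c => c • G k) := fun h =>
    Finsupp.linearCombination_apply ℂ h
  have hdiff : ∀ h : κ →₀ ℂ, h.support ⊆ L → nW w (T h - h) ≤ 1 / 2 * nW w h := by
    intro h hh
    have e1 : T h - h = ∑ k ∈ h.support, h k • (G k - Finsupp.single k 1) := by
      rw [hT]
      unfold Finsupp.sum
      have e2 : h = ∑ k ∈ h.support, h k • (Finsupp.single k (1 : ℂ)) := by
        conv_lhs => rw [← Finsupp.sum_single h]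
        unfold Finsupp.sum
        apply Finset.sum_congr rfl
        intro k _
        rw [Finsupp.smul_single, smul_eq_mul, mul_one]
      conv_lhs => rhs; rw [e2]
      rw [← Finset.sum_sub_distrib]
      apply Finset.sum_congr rfl
      intro k _
      rw [smul_sub]
    rw [e1]
    refine (nW_sum_le hw' _ _).trans ?_
    unfold nW Finsupp.sum
    rw [Finset.mul_sum]
    apply Finset.sum_le_sum
    intro k hk
    have e3 := nW_smul (w := w) (h k) (G k - Finsupp.single k 1)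
    unfold nW Finsupp.sum at e3
    rw [e3]
    have e4 := hclose k (hh hk)
    unfold nW Finsupp.sum at e4
    calc ‖h k‖ * _ ≤ ‖h k‖ * (1 / 2 * w k) := mul_le_mul_of_nonneg_left e4 (norm_nonneg _)
      _ = 1 / 2 * (‖h k‖ * w k) := by ring
  have hbound : ∀ h : κ →₀ ℂ, h.support ⊆ L → nW w h ≤ 2 * nW w (T h) := by
    intro h hh
    have e1 : h = T h + (-(T h - h)) := by abel
    have e2 := nW_add_le hw' (T h) (-(T h - h))
    rw [← e1, nW_neg] at e2
    have e3 := hdiff h hh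
    linarith
  -- the restriction of `T` to the functions supported in `L`
  let A : Submodule ℂ (κ →₀ ℂ) := Finsupp.supported ℂ ℂ (L : Set κ)
  have hA : ∀ h, h ∈ A ↔ h.support ⊆ L := by
    intro h
    rw [Finsupp.mem_supported]
    exact Finset.coe_subset
  have hTM : ∀ h ∈ A, T h ∈ M := by
    intro h hh
    rw [hT]
    apply Submodule.sum_mem
    intro k hk
    exact M.smul_mem _ (hG k ((hA h).1 hh hk))
  let TA : A →ₗ[ℂ] M := LinearMap.restrict T hTM
  have hinj : Function.Injective TA := by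
    rw [injective_iff_map_eq_zero]
    intro h hh
    have e1 : T (h : κ →₀ ℂ) = 0 := congrArg Subtype.val hh
    have e2 := hbound h ((hA h).1 h.2)
    rw [e1, nW_zero, mul_zero] at e2
    exact Subtype.ext (nW_eq_zero hw (le_antisymm e2 (nW_nonneg hw' _)))
  have hdimA : Module.finrank ℂ A = L.card := by
    have e := (Finsupp.supportedEquivFinsupp (M := ℂ) (R := ℂ) (L : Set κ)).finrank_eq
    rw [e, Module.finrank_finsupp_self]
    simp
  have hfA : FiniteDimensional ℂ A := by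
    have e := (Finsupp.supportedEquivFinsupp (M := ℂ) (R := ℂ) (L : Set κ))
    exact Module.Finite.equiv e.symm
  have hsurj : Function.Surjective TA := by
    have e1 : Module.finrank ℂ A = Module.finrank ℂ M := by
      apply le_antisymm
      · exact LinearMap.finrank_le_finrank_of_injective hinj
      · rw [hdimA]; exact hL
    have key := LinearMap.injective_iff_surjective_of_finrank_eq_finrank (K := ℂ) (V := A)
      (V₂ := M) e1 (f := TA)
    exact key.1 hinj
  intro f hf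
  obtain ⟨h, hh⟩ := hsurj ⟨f, hf⟩
  have e1 : T (h : κ →₀ ℂ) = f := congrArg Subtype.val hh
  refine ⟨h, (hA h).1 h.2, ?_, ?_⟩
  · rw [← hT, e1]
  · rw [← e1]; exact hbound h ((hA h).1 h.2)

end Pool.Agent.Lib.MP_15f9af_an.AD.UD
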