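import Mathlib
import Pool.Agent.Lib.MP_15f9af_an.AD.UDCore

/-!
# Arveson–Douglas, module M1b (helper91): division in one module from approximate leading terms
-/

namespace Pool.Agent.Lib.MP_15f9af_an.AD.UD

open Filter Topology

variable {d N : ℕ}

/-- the norm `∑_b r^{|b|} ‖q_b‖₁` -/
noncomputable def nQ (r : ℝ) (q : (Fin d →₀ ℕ) →₀ (K d N →₀ ℂ)) : ℝ :=
  q.sum (fun b p => r ^ b.degree * nW (fun _ => 1) p)

theorem nQ_eq_sum (r : ℝ) (q : (Fin d →₀ ℕ) →₀ (K d N →₀ ℂ)) {s : Finset (Fin d →₀ ℕ)}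
    (hs : q.support ⊆ s) : nQ r q = ∑ b ∈ s, r ^ b.degree * nW (fun _ => 1) (q b) :=
  Finsupp.sum_of_support_subset q hs _ (fun k _ => by simp [nW_zero])

theorem nQ_zero (r : ℝ) : nQ r (0 : (Fin d →₀ ℕ) →₀ (K d N →₀ ℂ)) = 0 := by simp [nQ]

theorem nQ_single (r : ℝ) (b : Fin d →₀ ℕ) (p : K d N →₀ ℂ) :
    nQ r (Finsupp.single b p) = r ^ b.degree * nW (fun _ => 1) p := by
  unfold nQ
  rw [Finsupp.sum_single_index]
  simp [nW_zero]

theorem nQ_add_le {r : ℝ} (hr : 0 ≤ r) (q q' : (Fin d →₀ ℕ) →₀ (K d N →₀ ℂ)) :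
    nQ r (q + q') ≤ nQ r q + nQ r q' := by
  classical
  have h1 : (q + q').support ⊆ q.support ∪ q'.support := Finsupp.support_add
  rw [nQ_eq_sum r (q + q') h1, nQ_eq_sum r q Finset.subset_union_left,
    nQ_eq_sum r q' Finset.subset_union_right, ← Finset.sum_add_distrib]
  apply Finset.sum_le_sum
  intro b _
  rw [Finsupp.add_apply, ← mul_add]
  exact mul_le_mul_of_nonneg_left (nW_add_le (fun _ => zero_le_one) _ _) (pow_nonneg hr _)

theorem nQ_sum_le {r : ℝ} (hr : 0 ≤ r) {ι : Type*} (s : Finset ι)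
    (F : ι → (Fin d →₀ ℕ) →₀ (K d N →₀ ℂ)) : nQ r (∑ i ∈ s, F i) ≤ ∑ i ∈ s, nQ r (F i) := by
  classical
  induction s using Finset.induction_on with
  | empty => simp [nQ_zero]
  | insert a s ha ih =>
    rw [Finset.sum_insert ha, Finset.sum_insert ha]
    exact (nQ_add_le hr _ _).trans (add_le_add le_rfl ih)

/-- bound for the weight of a monomial by a power of its degree -/
theorem nb_le_pow {P : ℕ} (hP : ∀ l : Fin d, pr l ≤ P) (b : Fin d →₀ ℕ) :
    nb b ≤ P ^ b.degree := by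
  unfold nb
  rw [Finsupp.degree_eq_sum, ← Finset.prod_pow_eq_pow_sum]
  apply Finset.prod_le_prod'
  intro l _
  exact Nat.pow_le_pow_left (hP l) _

theorem finiteDimensional_Ple (n : ℕ) : FiniteDimensional ℂ (Ple d N n) := by
  have : Finite {k : K d N | k.1.degree ≤ n} := (finite_deg n).to_subtype
  exact Module.Finite.equiv (Finsupp.supportedEquivFinsupp (M := ℂ) (R := ℂ)
    {k : K d N | k.1.degree ≤ n}).symm

/-- division in one module -/
theorem divide {ι : Type*} (M : Submodule ℂ (K d N →₀ ℂ))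
    (hM : ∀ b, ∀ f ∈ M, shift b f ∈ M) (σ P m0 : ℕ) (A B : ℝ) (hP1 : 1 ≤ P)
    (hP : ∀ l : Fin d, pr l ≤ P) (ks : ι → K d N) (ns : ι → ℕ) (g : ι → K d N →₀ ℂ)
    (hns : ∀ s, ns s ≤ m0) (hg : ∀ s, g s ∈ M ⊓ Ple d N (ns s))
    (hclose : ∀ s, nW (wσ σ) (g s - Finsupp.single (ks s) 1) ≤ 1 / 2 * wσ σ (ks s))
    (hA : ∀ s, (wσ σ (ks s))⁻¹ ≤ A) (hB : ∀ s, nW (fun _ => 1) (g s) ≤ B) (hA0 : 0 ≤ A)
    (hB0 : 0 ≤ B) (L : ℕ → Finset (K d N))
    (hL : ∀ n, Module.finrank ℂ (M ⊓ Ple d N n : Submodule ℂ (K d N →₀ ℂ)) ≤ (L n).card)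
    (hcov : ∀ n, ∀ k ∈ L n, ∃ s b, k = sh b (ks s) ∧ ns s + b.degree ≤ n) :
    ∀ f ∈ M, ∃ q : (Fin d →₀ ℕ) →₀ (K d N →₀ ℂ), (∀ b, q b ∈ M ⊓ Ple d N m0) ∧
      q.sum (fun b p => shift b p) = f ∧
      nQ (((P : ℝ)⁻¹) ^ σ) q ≤ 2 * A * B * nW (fun _ => 1) f := by
  classical
  intro f hf
  -- a degree bound for `f`
  obtain ⟨n, hn⟩ : ∃ n, f ∈ Ple d N n := by
    refine ⟨f.support.sup (fun k => k.1.degree), ?_⟩
    rw [mem_Ple]
    intro k hk
    exact Finset.le_sup (f := fun k : K d N => k.1.degree) hk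
  have hfd : FiniteDimensional ℂ (Ple d N n) := finiteDimensional_Ple n
  have hfd' : FiniteDimensional ℂ (M ⊓ Ple d N n : Submodule ℂ (K d N →₀ ℂ)) :=
    Submodule.finiteDimensional_inf_right M (Ple d N n)
  by_cases hf0 : f = 0
  · refine ⟨0, fun b => by simp, ?_, ?_⟩
    · rw [hf0]; simp
    · rw [nQ_zero]
      exact mul_nonneg (mul_nonneg (mul_nonneg zero_le_two hA0) hB0)
        (nW_nonneg (fun _ => zero_le_one) _)
  have hι : Nonempty ι := by
    have h1 : Nontrivial (M ⊓ Ple d N n : Submodule ℂ (K d N →₀ ℂ)) :=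
      ⟨⟨⟨f, hf, hn⟩, 0, fun h => hf0 (congrArg Subtype.val h)⟩⟩
    have h2 := Module.finrank_pos (R := ℂ) (M := (M ⊓ Ple d N n : Submodule ℂ (K d N →₀ ℂ)))
    have h3 : 0 < (L n).card := lt_of_lt_of_le h2 (hL n)
    obtain ⟨k, hk⟩ := Finset.card_pos.1 h3
    obtain ⟨s, -⟩ := hcov n k hk
    exact ⟨s⟩
  choose! s b hk hdeg using hcov n
  obtain ⟨h, hsupp, hsum, hnorm⟩ := contraction (wσ σ) (wσ_pos σ) (M ⊓ Ple d N n) (L n) (hL n)
    (fun k => shift (b k) (g (s k)))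
    (by
      intro k hkL
      refine ⟨hM _ _ (hg (s k)).1, ?_⟩
      exact Ple_mono (hdeg k hkL) (shift_mem_Ple (hg (s k)).2 (b k)))
    (by
      intro k hkL
      have e1 : shift (b k) (g (s k)) - Finsupp.single k 1
          = shift (b k) (g (s k) - Finsupp.single (ks (s k)) 1) := by
        rw [map_sub, shift_single, ← hk k hkL]
      rw [e1, nW_shift]
      have e2 : wσ σ k = ((nb (b k) : ℝ)⁻¹) ^ σ * wσ σ (ks (s k)) := by
        conv_lhs => rw [hk k hkL]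
        rw [wσ_sh]
      rw [e2]
      have e3 := mul_le_mul_of_nonneg_left (hclose (s k))
        (pow_nonneg (inv_nonneg.2 (Nat.cast_nonneg (nb (b k)))) σ :
          (0 : ℝ) ≤ ((nb (b k) : ℝ)⁻¹) ^ σ)
      linarith) f ⟨hf, hn⟩
  set q : (Fin d →₀ ℕ) →₀ (K d N →₀ ℂ) :=
    ∑ k ∈ h.support, Finsupp.single (b k) (h k • g (s k)) with hq
  refine ⟨q, ?_, ?_, ?_⟩
  · intro c
    rw [hq, Finsupp.finsetSum_apply]
    apply Submodule.sum_mem
    intro k _
    rw [Finsupp.single_apply]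
    split_ifs
    · exact Submodule.smul_mem _ _ ⟨(hg (s k)).1, Ple_mono (hns _) (hg (s k)).2⟩
    · exact Submodule.zero_mem _
  · rw [hq, ← Finsupp.sum_finsetSum_index]
    · conv_rhs => rw [hsum]
      unfold Finsupp.sum
      apply Finset.sum_congr rfl
      intro k _
      have e := Finsupp.sum_single_index (a := b k) (b := h k • g (s k))
        (h := fun b p => shift b p) (map_zero _)
      unfold Finsupp.sum at e
      rw [e]
      simp only
      rw [map_smul]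
    · intro c; exact map_zero _
    · intro c p p'; exact map_add _ _ _
  · have hr : (0 : ℝ) ≤ ((P : ℝ)⁻¹) ^ σ := pow_nonneg (inv_nonneg.2 (Nat.cast_nonneg _)) _
    have hPpos : (0 : ℝ) < P := by exact_mod_cast hP1
    refine (nQ_sum_le hr _ _).trans ?_
    have hterm : ∀ k ∈ h.support, nQ (((P : ℝ)⁻¹) ^ σ) (Finsupp.single (b k) (h k • g (s k)))
        ≤ A * B * (‖h k‖ * wσ σ k) := by
      intro k hkh
      have hkL := hsupp hkh
      rw [nQ_single, nW_smul]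
      have e1 : (((P : ℝ)⁻¹) ^ σ) ^ (b k).degree ≤ A * wσ σ k := by
        have e2 : wσ σ k = ((nb (b k) : ℝ)⁻¹) ^ σ * wσ σ (ks (s k)) := by
          conv_lhs => rw [hk k hkL]
          rw [wσ_sh]
        have e3 : (((P : ℝ)⁻¹) ^ σ) ^ (b k).degree ≤ ((nb (b k) : ℝ)⁻¹) ^ σ := by
          rw [← pow_mul, mul_comm, pow_mul]
          apply pow_le_pow_left₀ (pow_nonneg (inv_nonneg.2 hPpos.le) _)
          rw [inv_pow]
          apply inv_anti₀
          · exact_mod_cast nb_pos (b k)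
          · exact_mod_cast nb_le_pow hP (b k)
        have e4 : 1 ≤ A * wσ σ (ks (s k)) := by
          have := mul_le_mul_of_nonneg_right (hA (s k)) (wσ_pos σ (ks (s k))).le
          rwa [inv_mul_cancel₀ (wσ_pos σ (ks (s k))).ne'] at this
        have e5 : (0 : ℝ) ≤ ((nb (b k) : ℝ)⁻¹) ^ σ :=
          pow_nonneg (inv_nonneg.2 (Nat.cast_nonneg _)) _
        calc (((P : ℝ)⁻¹) ^ σ) ^ (b k).degree ≤ ((nb (b k) : ℝ)⁻¹) ^ σ * 1 := by
              rw [mul_one]; exact e3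
          _ ≤ ((nb (b k) : ℝ)⁻¹) ^ σ * (A * wσ σ (ks (s k))) := mul_le_mul_of_nonneg_left e4 e5
          _ = A * wσ σ k := by rw [e2]; ring
      have e6 := hB (s k)
      have e7 : 0 ≤ nW (fun _ => 1) (g (s k)) := nW_nonneg (fun _ => zero_le_one) _
      have e8 : (0 : ℝ) ≤ A * wσ σ k := mul_nonneg hA0 (wσ_pos σ k).le
      calc (((P : ℝ)⁻¹) ^ σ) ^ (b k).degree * (‖h k‖ * nW (fun _ => 1) (g (s k)))
          ≤ (A * wσ σ k) * (‖h k‖ * B) := by
            apply mul_le_mul e1 _ (mul_nonneg (norm_nonneg _) e7) e8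
            exact mul_le_mul_of_nonneg_left e6 (norm_nonneg _)
        _ = A * B * (‖h k‖ * wσ σ k) := by ring
    refine (Finset.sum_le_sum hterm).trans ?_
    rw [← Finset.mul_sum]
    have e1 : ∑ k ∈ h.support, ‖h k‖ * wσ σ k = nW (wσ σ) h := rfl
    rw [e1]
    have e2 : nW (wσ σ) f ≤ nW (fun _ => 1) f := nW_mono (wσ_le_one σ) f
    have e3 : (0 : ℝ) ≤ A * B := mul_nonneg hA0 hB0
    have e4 : nW (wσ σ) h ≤ 2 * nW (fun _ => 1) f := by linarith
    calc A * B * nW (wσ σ) h ≤ A * B * (2 * nW (fun _ => 1) f) :=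
          mul_le_mul_of_nonneg_left e4 e3
      _ = 2 * A * B * nW (fun _ => 1) f := by ring

end Pool.Agent.Lib.MP_15f9af_an.AD.UD
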