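import Mathlib
import Pool.Agent.Lib.MP_15f9af_an.AD.UDDiv

/-!
# Arveson–Douglas, module M1 (helper91): limits of submodules, Dickson's lemma, uniform division
-/

namespace Pool.Agent.Lib.MP_15f9af_an.AD.UD

open Filter Topology

variable {d N : ℕ}

/-- limits (along an ultrafilter) of subspaces of a fixed dimension -/
theorem ultra {F : Type*} [NormedAddCommGroup F] [InnerProductSpace ℂ F] [FiniteDimensional ℂ F]
    (S : ℕ → Submodule ℂ F) (k : ℕ) (hS : ∀ j, Module.finrank ℂ (S j) = k)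
    (U : Ultrafilter ℕ) : ∃ e : Fin k → F, LinearIndependent ℂ e ∧
      ∀ i, ∃ v : ℕ → F, (∀ j, v j ∈ S j) ∧ Tendsto v U (𝓝 (e i)) := by
  have hb : ∀ j, ∃ b : Fin k → F, Orthonormal ℂ b ∧ ∀ i, b i ∈ S j := by
    intro j
    have b := (stdOrthonormalBasis ℂ (S j)).reindex (finCongr (hS j))
    refine ⟨fun i => (b i : F), ?_, fun i => (b i).2⟩
    have := b.orthonormal
    exact this.comp_linearIsometry (S j).subtypeₗᵢ
  choose b hb1 hb2 using hb
  have hlim : ∀ i, ∃ e : F, Tendsto (fun j => b j i) U (𝓝 e) := by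
    intro i
    have hc : IsCompact (Metric.closedBall (0 : F) 1) := by
      have : ProperSpace F := FiniteDimensional.proper_rclike ℂ F
      exact isCompact_closedBall 0 1
    obtain ⟨e, -, he⟩ := hc.ultrafilter_le_nhds (U.map (fun j => b j i)) (by
      rw [Ultrafilter.coe_map, le_principal_iff, mem_map]
      apply Filter.univ_mem'
      intro j
      rw [Set.mem_preimage, mem_closedBall_zero_iff, (hb1 j).1 i])
    exact ⟨e, he⟩
  choose e he using hlim
  refine ⟨e, ?_, fun i => ⟨fun j => b j i, fun j => hb2 j i, he i⟩⟩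
  have horth : Orthonormal ℂ e := by
    rw [orthonormal_iff_ite]
    intro i i'
    have h1 : Tendsto (fun j => inner ℂ (b j i) (b j i')) U (𝓝 (inner ℂ (e i) (e i'))) :=
      (he i).inner (he i')
    have h2 : (fun j => inner ℂ (b j i) (b j i')) = fun _ => if i = i' then (1 : ℂ) else 0 := by
      funext j
      exact (orthonormal_iff_ite.1 (hb1 j)) i i'
    rw [h2] at h1
    exact tendsto_nhds_unique h1 tendsto_const_nhds
  exact horth.linearIndependent

/-- Dickson's lemma -/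
theorem dickson (Λ : Set ((Fin d →₀ ℕ) × ℕ × Fin N)) :
    ∃ T : Finset ((Fin d →₀ ℕ) × ℕ × Fin N), (∀ y ∈ T, y ∈ Λ) ∧
      ∀ x ∈ Λ, ∃ y ∈ T, y.1 ≤ x.1 ∧ y.2.1 ≤ x.2.1 ∧ y.2.2 = x.2.2 := by
  classical
  have h : ∀ i : Fin N, {x : (Fin d →₀ ℕ) × ℕ | Minimal (fun x => (x.1, x.2, i) ∈ Λ) x}.Finite := by
    intro i
    apply WellQuasiOrderedLE.finite_of_isAntichain
    exact setOfPred_minimal_antichain _
  let T : Finset ((Fin d →₀ ℕ) × ℕ × Fin N) :=
    Finset.univ.biUnion (fun i => (h i).toFinset.image (fun x => (x.1, x.2, i)))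
  refine ⟨T, ?_, ?_⟩
  · intro y hy
    simp only [T, Finset.mem_biUnion, Finset.mem_univ, true_and, Finset.mem_image,
      Set.Finite.mem_toFinset] at hy
    obtain ⟨i, x, hx, rfl⟩ := hy
    exact hx.1
  · rintro ⟨a, c, i⟩ hx
    obtain ⟨y, hy1, hy2⟩ := exists_minimal_le_of_wellFoundedLT
      (fun x : (Fin d →₀ ℕ) × ℕ => (x.1, x.2, i) ∈ Λ) (a, c) hx
    refine ⟨(y.1, y.2, i), ?_, hy1.1, hy1.2, rfl⟩
    simp only [T, Finset.mem_biUnion, Finset.mem_univ, true_and, Finset.mem_image,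
      Set.Finite.mem_toFinset]
    exact ⟨i, y, hy2, rfl⟩

/-- the limit of the degree-`≤ n` parts -/
def Wlim (U : Ultrafilter ℕ) (M : ℕ → Submodule ℂ (K d N →₀ ℂ)) (n : ℕ) :
    Submodule ℂ (K d N →₀ ℂ) where
  carrier := {w | w ∈ Ple d N n ∧ ∃ v : ℕ → (K d N →₀ ℂ), (∀ j, v j ∈ M j ⊓ Ple d N n) ∧
    ∀ k, Tendsto (fun j => v j k) U (𝓝 (w k))}
  add_mem' := by
    rintro w w' ⟨hw, v, hv, hvt⟩ ⟨hw', v', hv', hvt'⟩
    refine ⟨Submodule.add_mem _ hw hw', fun j => v j + v' j,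
      fun j => Submodule.add_mem _ (hv j) (hv' j), ?_⟩
    intro k
    exact (hvt k).add (hvt' k)
  zero_mem' := ⟨Submodule.zero_mem _, fun _ => 0, fun _ => Submodule.zero_mem _,
    fun _ => tendsto_const_nhds⟩
  smul_mem' := by
    rintro c w ⟨hw, v, hv, hvt⟩
    refine ⟨Submodule.smul_mem _ c hw, fun j => c • v j,
      fun j => Submodule.smul_mem _ c (hv j), ?_⟩
    intro k
    exact (hvt k).const_smul c

theorem mem_Wlim {U : Ultrafilter ℕ} {M : ℕ → Submodule ℂ (K d N →₀ ℂ)} {n : ℕ}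
    {w : K d N →₀ ℂ} (hw : w ∈ Ple d N n) (v : ℕ → (K d N →₀ ℂ))
    (hv : ∀ j, v j ∈ M j ⊓ Ple d N n) (hvt : ∀ k, Tendsto (fun j => v j k) U (𝓝 (w k))) :
    w ∈ Wlim U M n := ⟨hw, v, hv, hvt⟩

/-- coordinates on the polynomials of degree at most `n` -/
theorem exists_coord (d N n : ℕ) : ∃ (F : Type) (_ : NormedAddCommGroup F)
    (_ : InnerProductSpace ℂ F) (_ : FiniteDimensional ℂ F) (Ψ : Ple d N n ≃ₗ[ℂ] F)
    (c : K d N → F → ℂ), (∀ k, Continuous (c k)) ∧
    ∀ (f : Ple d N n) (k : K d N), c k (Ψ f) = (f : K d N →₀ ℂ) k := by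
  classical
  have hfin : Finite {k : K d N | k.1.degree ≤ n} := (finite_deg n).to_subtype
  obtain ⟨k0, ⟨e⟩⟩ := Finite.exists_equiv_fin {k : K d N | k.1.degree ≤ n}
  obtain ⟨Ψ0, h0⟩ : ∃ Ψ0 : Ple d N n ≃ₗ[ℂ] (Fin k0 → ℂ), ∀ f i, Ψ0 f i =
      (f : K d N →₀ ℂ) (e.symm i : K d N) :=
    ⟨(Finsupp.supportedEquivFinsupp (M := ℂ) (R := ℂ) {k : K d N | k.1.degree ≤ n}).trans
      ((Finsupp.domLCongr e).trans (Finsupp.linearEquivFunOnFinite ℂ ℂ (Fin k0))),
      fun f i => rfl⟩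
  let Ψ : Ple d N n ≃ₗ[ℂ] EuclideanSpace ℂ (Fin k0) :=
    Ψ0.trans (WithLp.linearEquiv 2 ℂ (Fin k0 → ℂ)).symm
  let c : K d N → EuclideanSpace ℂ (Fin k0) → ℂ :=
    fun k y => if hk : k.1.degree ≤ n then y (e ⟨k, hk⟩) else 0
  refine ⟨EuclideanSpace ℂ (Fin k0), inferInstance, inferInstance, inferInstance, Ψ, c, ?_, ?_⟩
  · intro k
    by_cases hk : k.1.degree ≤ n
    · have : c k = fun y => y (e ⟨k, hk⟩) := by
        funext y
        exact dif_pos hk
      rw [this]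
      fun_prop
    · have : c k = fun y => 0 := by
        funext y
        exact dif_neg hk
      rw [this]
      exact continuous_const
  · intro f k
    by_cases hk : k.1.degree ≤ n
    · have h1 : c k (Ψ f) = (Ψ f) (e ⟨k, hk⟩) := dif_pos hk
      have h2 : (Ψ f) (e ⟨k, hk⟩) = Ψ0 f (e ⟨k, hk⟩) := rfl
      rw [h1, h2, h0, e.symm_apply_apply]
    · have h1 : c k (Ψ f) = 0 := dif_neg hk
      rw [h1]
      by_contra hne
      exact hk (mem_Ple.1 f.2 k (Finsupp.mem_support_iff.2 (Ne.symm hne)))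

theorem finrank_Wlim (U : Ultrafilter ℕ) (M : ℕ → Submodule ℂ (K d N →₀ ℂ)) (n k : ℕ)
    (hM : ∀ j, Module.finrank ℂ (M j ⊓ Ple d N n : Submodule ℂ (K d N →₀ ℂ)) = k) :
    k ≤ Module.finrank ℂ (Wlim U M n) := by
  classical
  obtain ⟨F, iF1, iF2, iF3, Ψ, c, hc, hΨ⟩ := exists_coord d N n
  let S : ℕ → Submodule ℂ F := fun j =>
    ((M j ⊓ Ple d N n).comap (Ple d N n).subtype).map (Ψ : Ple d N n →ₗ[ℂ] F)
  have hS : ∀ j, Module.finrank ℂ (S j) = k := by
    intro j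
    have e1 : Module.finrank ℂ (S j) =
        Module.finrank ℂ ((M j ⊓ Ple d N n).comap (Ple d N n).subtype) :=
      LinearEquiv.finrank_map_eq Ψ _
    have e2 : Module.finrank ℂ ((M j ⊓ Ple d N n).comap (Ple d N n).subtype) =
        Module.finrank ℂ (M j ⊓ Ple d N n : Submodule ℂ (K d N →₀ ℂ)) :=
      (Submodule.comapSubtypeEquivOfLe inf_le_right).finrank_eq
    rw [e1, e2, hM]
  obtain ⟨e, he, hlim⟩ := ultra S k hS U
  choose v hv hvt using hlim
  have e1 : ∀ (y : F) (k' : K d N), ((Ψ.symm y : Ple d N n) : K d N →₀ ℂ) k' = c k' y := by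
    intro y k'
    rw [← hΨ (Ψ.symm y) k', Ψ.apply_symm_apply]
  -- back to polynomials
  have hfW : FiniteDimensional ℂ (Wlim U M n) := by
    have := finiteDimensional_Ple (d := d) (N := N) n
    exact Submodule.finiteDimensional_of_le (fun w hw => hw.1)
  have hmem : ∀ i, ((Ψ.symm (e i) : Ple d N n) : K d N →₀ ℂ) ∈ Wlim U M n := by
    intro i
    apply mem_Wlim (Subtype.property _)
      (fun j => ((Ψ.symm (v i j) : Ple d N n) : K d N →₀ ℂ))
    · intro j
      obtain ⟨x, hx, hx'⟩ := hv i j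
      have e1 : Ψ.symm (v i j) = x := by
        rw [← hx']
        exact Ψ.symm_apply_apply x
      have e2 : ((Ψ.symm (v i j) : Ple d N n) : K d N →₀ ℂ) = (x : K d N →₀ ℂ) :=
        congrArg Subtype.val e1
      have e3 : ((x : Ple d N n) : K d N →₀ ℂ) ∈ M j ⊓ Ple d N n := hx
      change ((Ψ.symm (v i j) : Ple d N n) : K d N →₀ ℂ) ∈ M j ⊓ Ple d N n
      rw [e2]
      exact e3
    · intro k'
      simp only [e1]
      exact ((hc k').tendsto _).comp (hvt i)
  let g : Fin k → Wlim U M n := fun i => ⟨_, hmem i⟩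
  have hg : LinearIndependent ℂ g := by
    let T : F →ₗ[ℂ] (K d N →₀ ℂ) := (Ple d N n).subtype ∘ₗ (Ψ.symm : F →ₗ[ℂ] Ple d N n)
    have hT : LinearMap.ker T = ⊥ := by
      rw [LinearMap.ker_eq_bot]
      intro x y hxy
      exact Ψ.symm.injective (Subtype.ext hxy)
    have h2 : LinearIndependent ℂ (fun i => ((Ψ.symm (e i) : Ple d N n) : K d N →₀ ℂ)) :=
      he.map' T hT
    exact LinearIndependent.of_comp (Wlim U M n).subtype h2
  have := hg.fintype_card_le_finrank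
  simpa using this

/-- convergence of the weighted norms -/
theorem tendsto_nW {U : Filter ℕ} (w : K d N → ℝ) (n : ℕ) (v : ℕ → (K d N →₀ ℂ))
    (g : K d N →₀ ℂ) (hv : ∀ j, v j ∈ Ple d N n) (hg : g ∈ Ple d N n)
    (hc : ∀ k, Tendsto (fun j => v j k) U (𝓝 (g k))) :
    Tendsto (fun j => nW w (v j)) U (𝓝 (nW w g)) := by
  have hsub : ∀ f : K d N →₀ ℂ, f ∈ Ple d N n → f.support ⊆ (finite_deg n).toFinset := by
    intro f hf k hk
    rw [Set.Finite.mem_toFinset]
    exact mem_Ple.1 hf k hk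
  have e1 : (fun j => nW w (v j)) = fun j => ∑ k ∈ (finite_deg (d := d) (N := N) n).toFinset,
      ‖v j k‖ * w k := by
    funext j
    exact nW_eq_sum _ (hsub _ (hv j))
  rw [e1, nW_eq_sum _ (hsub _ hg)]
  apply tendsto_finsetSum
  intro k _
  exact (hc k).norm.mul_const _

/-- for large `σ` the leading term dominates -/
theorem eventually_close {g : K d N →₀ ℂ} {k : K d N} (hk : IsLead g k) (hg1 : g k = 1) :
    ∀ᶠ σ : ℕ in atTop, nW (wσ σ) (g - Finsupp.single k 1) ≤ 1 / 4 * wσ σ k := by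
  classical
  set g' := g - Finsupp.single k 1 with hg'
  have hsupp : ∀ k' ∈ g'.support, nu k < nu k' := by
    intro k' hk'
    have hne : k' ≠ k := by
      rintro rfl
      rw [Finsupp.mem_support_iff] at hk'
      apply hk'
      rw [hg', Finsupp.sub_apply, hg1, Finsupp.single_eq_same, sub_self]
    have hmem : k' ∈ g.support := by
      rw [Finsupp.mem_support_iff] at hk' ⊢
      intro h0
      apply hk'
      rw [hg', Finsupp.sub_apply, h0, Finsupp.single_eq_of_ne hne, sub_zero]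
    exact lt_of_le_of_ne (hk.2 k' hmem) (fun h => hne (nu_injective h).symm)
  have hlim : Tendsto (fun σ : ℕ => ∑ k' ∈ g'.support, ‖g' k'‖ * ((nu k : ℝ) / nu k') ^ σ) atTop
      (𝓝 (∑ k' ∈ g'.support, ‖g' k'‖ * 0)) := by
    apply tendsto_finsetSum
    intro k' hk'
    apply Tendsto.const_mul
    apply tendsto_pow_atTop_nhds_zero_of_lt_one
    · positivity
    · rw [div_lt_one (by exact_mod_cast nu_pos k')]
      exact_mod_cast hsupp k' hk'
  simp only [mul_zero, Finset.sum_const_zero] at hlim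
  have hev := hlim.eventually (gt_mem_nhds (show (0 : ℝ) < 1 / 4 by norm_num))
  filter_upwards [hev] with σ hσ
  have e1 : nW (wσ σ) g' = (∑ k' ∈ g'.support, ‖g' k'‖ * ((nu k : ℝ) / nu k') ^ σ) * wσ σ k := by
    unfold nW Finsupp.sum
    rw [Finset.sum_mul]
    apply Finset.sum_congr rfl
    intro k' _
    unfold wσ
    rw [mul_assoc, ← mul_pow]
    have h1 : (nu k : ℝ) ≠ 0 := by exact_mod_cast (nu_pos k).ne'
    field_simp
  rw [e1]
  exact mul_le_mul_of_nonneg_right hσ.le (wσ_pos σ k).le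

/-- **Uniform division**, coordinate form -/
theorem UDcore (d N : ℕ) (φ : ℕ → ℕ) : ∃ (m : ℕ) (r C : ℝ), 0 < r ∧ r ≤ 1 ∧ 0 ≤ C ∧
    ∀ M : Submodule ℂ (K d N →₀ ℂ), (∀ b, ∀ f ∈ M, shift b f ∈ M) →
      (∀ n, Module.finrank ℂ (M ⊓ Ple d N n : Submodule ℂ (K d N →₀ ℂ)) = φ n) →
      ∀ f ∈ M, ∃ q : (Fin d →₀ ℕ) →₀ (K d N →₀ ℂ), (∀ b, q b ∈ M ⊓ Ple d N m) ∧
        q.sum (fun b p => shift b p) = f ∧ nQ r q ≤ C * nW (fun _ => 1) f := by
  classical
  by_contra hcon
  push Not at hcon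
  have hfail : ∀ j : ℕ, ∃ M : Submodule ℂ (K d N →₀ ℂ), (∀ b, ∀ f ∈ M, shift b f ∈ M) ∧
      (∀ n, Module.finrank ℂ (M ⊓ Ple d N n : Submodule ℂ (K d N →₀ ℂ)) = φ n) ∧
      ∃ f ∈ M, ∀ q : (Fin d →₀ ℕ) →₀ (K d N →₀ ℂ), (∀ b, q b ∈ M ⊓ Ple d N j) →
        q.sum (fun b p => shift b p) = f →
          (j : ℝ) * nW (fun _ => 1) f < nQ (1 / ((j : ℝ) + 1)) q := by
    intro j
    have h1 : (0 : ℝ) < (j : ℝ) + 1 := by positivity
    obtain ⟨M, hM1, hM2, f, hf, hq⟩ := hcon j (1 / ((j : ℝ) + 1)) j (by positivity)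
      (by rw [div_le_one h1]; linarith [Nat.cast_nonneg (α := ℝ) j]) (Nat.cast_nonneg _)
    exact ⟨M, hM1, hM2, f, hf, hq⟩
  choose M hM1 hM2 f hf hq using hfail
  let U : Ultrafilter ℕ := hyperfilter ℕ
  set W : ℕ → Submodule ℂ (K d N →₀ ℂ) := Wlim U M with hW
  have hWle : ∀ n, W n ≤ Ple d N n := fun n w hw => hw.1
  obtain ⟨T, hT1, hT2⟩ := dickson {x : (Fin d →₀ ℕ) × ℕ × Fin N |
    (x.1, x.2.2) ∈ Lead (W (x.1.degree + x.2.1))}
  -- leading monomials, degrees, limit generators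
  let ks : T → K d N := fun y => (y.1.1, y.1.2.2)
  let ns : T → ℕ := fun y => y.1.1.degree + y.1.2.1
  have hg0 : ∀ y : T, ∃ g ∈ W (ns y), IsLead g (ks y) ∧ g (ks y) = 1 := by
    intro y
    obtain ⟨g, hg, hlead⟩ := hT1 y.1 y.2
    have hne : g (ks y) ≠ 0 := Finsupp.mem_support_iff.1 hlead.1
    refine ⟨(g (ks y))⁻¹ • g, Submodule.smul_mem _ _ hg, ?_, ?_⟩
    · have hs : ((g (ks y))⁻¹ • g).support = g.support := by
        ext k
        simp [Finsupp.mem_support_iff, hne]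
      unfold IsLead
      rw [hs]
      exact hlead
    · rw [Finsupp.smul_apply, smul_eq_mul, inv_mul_cancel₀ hne]
  choose g hgW hglead hg1 using hg0
  obtain ⟨σ, hσ⟩ : ∃ σ : ℕ, ∀ y : T,
      nW (wσ σ) (g y - Finsupp.single (ks y) 1) ≤ 1 / 4 * wσ σ (ks y) := by
    have h1 : ∀ᶠ σ : ℕ in atTop, ∀ y : T,
        nW (wσ σ) (g y - Finsupp.single (ks y) 1) ≤ 1 / 4 * wσ σ (ks y) := by
      rw [eventually_all]
      intro y
      exact eventually_close (hglead y) (hg1 y)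
    exact h1.exists
  have hv0 : ∀ y : T, ∃ v : ℕ → (K d N →₀ ℂ), (∀ j, v j ∈ M j ⊓ Ple d N (ns y)) ∧
      ∀ k, Tendsto (fun j => v j k) U (𝓝 (g y k)) := fun y => (hgW y).2
  choose v hvM hvt using hv0
  have hkdeg : ∀ y : T, (ks y).1.degree ≤ ns y := fun y => Nat.le_add_right _ _
  have hsing : ∀ y : T, Finsupp.single (ks y) (1 : ℂ) ∈ Ple d N (ns y) := by
    intro y
    rw [mem_Ple]
    intro k hk
    have := Finsupp.support_single_subset hk
    rw [Finset.mem_singleton] at this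
    rw [this]; exact hkdeg y
  have hev1 : ∀ᶠ j in (U : Filter ℕ), ∀ y : T,
      nW (wσ σ) (v y j - Finsupp.single (ks y) 1) ≤ 1 / 2 * wσ σ (ks y) := by
    rw [eventually_all]
    intro y
    have h1 : Tendsto (fun j => nW (wσ σ) (v y j - Finsupp.single (ks y) 1)) U
        (𝓝 (nW (wσ σ) (g y - Finsupp.single (ks y) 1))) := by
      apply tendsto_nW (wσ σ) (ns y)
      · intro j; exact Submodule.sub_mem _ (hvM y j).2 (hsing y)
      · exact Submodule.sub_mem _ (hgW y).1 (hsing y)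
      · intro k
        simp only [Finsupp.sub_apply]
        exact (hvt y k).sub_const _
    have h2 : nW (wσ σ) (g y - Finsupp.single (ks y) 1) < 1 / 2 * wσ σ (ks y) := by
      have h3 := hσ y
      have h4 := wσ_pos σ (ks y)
      linarith
    filter_upwards [h1.eventually (gt_mem_nhds h2)] with j hj
    exact hj.le
  have hev2 : ∀ᶠ j in (U : Filter ℕ), ∀ y : T,
      nW (fun _ => 1) (v y j) ≤ nW (fun _ => 1) (g y) + 1 := by
    rw [eventually_all]
    intro y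
    have h1 : Tendsto (fun j => nW (fun _ => (1 : ℝ)) (v y j)) U
        (𝓝 (nW (fun _ => (1 : ℝ)) (g y))) :=
      tendsto_nW _ (ns y) _ _ (fun j => (hvM y j).2) (hgW y).1 (hvt y)
    filter_upwards [h1.eventually (gt_mem_nhds (lt_add_one _))] with j hj
    exact hj.le
  -- constants
  set P : ℕ := 1 + ∑ l : Fin d, pr l with hPdef
  have hP : ∀ l : Fin d, pr l ≤ P := by
    intro l
    have := Finset.single_le_sum (f := fun l : Fin d => pr l) (fun _ _ => Nat.zero_le _)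
      (Finset.mem_univ l)
    rw [hPdef]
    have h2 : pr l ≤ ∑ l : Fin d, pr l := this
    omega
  set m0 : ℕ := Finset.univ.sup ns with hm0
  set A : ℝ := ∑ y : T, (wσ σ (ks y))⁻¹ with hAdef
  set B : ℝ := ∑ y : T, (nW (fun _ => 1) (g y) + 1) with hBdef
  have hA : ∀ y : T, (wσ σ (ks y))⁻¹ ≤ A := by
    intro y
    exact Finset.single_le_sum (f := fun y : T => (wσ σ (ks y))⁻¹)
      (fun y _ => (inv_pos.2 (wσ_pos σ (ks y))).le) (Finset.mem_univ y)
  have hgn : ∀ y : T, 0 ≤ nW (fun _ => 1) (g y) := fun y => nW_nonneg (fun _ => zero_le_one) _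
  have hB : ∀ y : T, nW (fun _ => 1) (g y) + 1 ≤ B := by
    intro y
    exact Finset.single_le_sum (f := fun y : T => nW (fun _ => (1 : ℝ)) (g y) + 1)
      (fun y _ => by have := hgn y; linarith) (Finset.mem_univ y)
  have hA0 : 0 ≤ A := Finset.sum_nonneg (fun y _ => (inv_pos.2 (wσ_pos σ (ks y))).le)
  have hB0 : 0 ≤ B := Finset.sum_nonneg (fun y _ => by have := hgn y; linarith)
  have hPpos : (0 : ℝ) < P := by
    have : 0 < P := by rw [hPdef]; omega
    exact_mod_cast this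
  have hr0 : (0 : ℝ) < ((P : ℝ)⁻¹) ^ σ := pow_pos (inv_pos.2 hPpos) _
  -- a good large index
  obtain ⟨J, hJ⟩ := exists_nat_ge (max (max (m0 : ℝ) (1 / ((P : ℝ)⁻¹) ^ σ)) (2 * A * B))
  have hev3 : ∀ᶠ j in (U : Filter ℕ), J ≤ j := by
    have h1 : (hyperfilter ℕ : Filter ℕ) ≤ atTop := by
      rw [← Nat.cofinite_eq_atTop]; exact hyperfilter_le_cofinite
    exact h1 (eventually_ge_atTop J)
  obtain ⟨j, ⟨hj1, hj2⟩, hj3⟩ := ((hev1.and hev2).and hev3).exists
  have hJj : (J : ℝ) ≤ j := by exact_mod_cast hj3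
  obtain ⟨q, hq1, hq2, hq3⟩ := divide (M j) (hM1 j) σ P m0 A B (by rw [hPdef]; omega) hP ks ns
    (fun y => v y j) (fun y => Finset.le_sup (f := ns) (Finset.mem_univ y)) (fun y => hvM y j)
    hj1 hA (fun y => (hj2 y).trans (hB y)) hA0 hB0
    (fun n => (finite_Lead (hWle n)).toFinset)
    (by
      intro n
      rw [hM2 j n]
      have h1 := finrank_Wlim U M n (φ n) (fun j => hM2 j n)
      have h2 := finrank_le_Lead (hWle n)
      rw [Set.ncard_eq_toFinset_card _ (finite_Lead (hWle n))] at h2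
      exact h1.trans h2)
    (by
      intro n k hk
      rw [Set.Finite.mem_toFinset] at hk
      have hkn : k.1.degree ≤ n := Lead_subset (hWle n) hk
      obtain ⟨y, hyT, hy1, hy2, hy3⟩ := hT2 (k.1, n - k.1.degree, k.2) (by
        rw [Set.mem_ofPred_eq]
        simp only
        rw [Nat.add_sub_cancel' hkn]
        exact hk)
      refine ⟨⟨y, hyT⟩, k.1 - y.1, ?_, ?_⟩
      · simp only [ks, sh]
        rw [add_tsub_cancel_of_le hy1, hy3]
      · simp only [ns]
        have h1 : y.1.degree + (k.1 - y.1).degree = k.1.degree := by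
          rw [← map_add, add_tsub_cancel_of_le hy1]
        simp only at hy2
        omega) (f j) (hf j)
  have hbound := hq j q (fun b => ⟨(hq1 b).1, Ple_mono (by
      have h1 : (m0 : ℝ) ≤ J := (le_max_left _ _).trans ((le_max_left _ _).trans hJ)
      exact_mod_cast h1.trans hJj) (hq1 b).2⟩) hq2
  have h1 : (1 / ((j : ℝ) + 1)) ≤ ((P : ℝ)⁻¹) ^ σ := by
    have h2 : 1 / ((P : ℝ)⁻¹) ^ σ ≤ J := (le_max_right _ _).trans ((le_max_left _ _).trans hJ)
    rw [div_le_iff₀ (by positivity)]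
    rw [div_le_iff₀ hr0] at h2
    nlinarith [hr0]
  have h2 : nQ (1 / ((j : ℝ) + 1)) q ≤ nQ (((P : ℝ)⁻¹) ^ σ) q := by
    unfold nQ
    apply Finset.sum_le_sum
    intro b _
    apply mul_le_mul_of_nonneg_right _ (nW_nonneg (fun _ => zero_le_one) _)
    exact pow_le_pow_left₀ (by positivity) h1 _
  have h3 : 2 * A * B * nW (fun _ => 1) (f j) ≤ (j : ℝ) * nW (fun _ => 1) (f j) := by
    apply mul_le_mul_of_nonneg_right _ (nW_nonneg (fun _ => zero_le_one) _)
    exact (le_max_right _ _).trans (hJ.trans hJj)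
  linarith

end Pool.Agent.Lib.MP_15f9af_an.AD.UD
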