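import Mathlib
import Pool.Agent.Lib.MP_15f9af_an.AD.Defs
import Pool.Agent.Lib.MP_15f9af_an.AD.UDLim

/-!
# Arveson–Douglas, module UD (helper91): uniform division

All submodules of `V[z]` with the Hilbert function `φ` have a division with the same constants.
-/

namespace Pool.Agent.Lib.MP_15f9af_an.AD

universe u

variable {d : ℕ}

namespace UD

theorem deg_eq_degree (a : Fin d →₀ ℕ) : deg (a : Fin d → ℕ) = a.degree := by
  rw [Finsupp.degree_eq_sum]; rfl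

section coord
variable {V : Type u} [NormedAddCommGroup V] [NormedSpace ℂ V]

theorem shift_apply_add' (γ α : Fin d → ℕ) (f : Pol d V) :
    AD.shift γ f (γ + α) = f α := by
  unfold AD.shift
  rw [Finsupp.lmapDomain_apply]
  exact Finsupp.mapDomain_apply (fun a b h => add_left_cancel h) f α

theorem shift_apply_not' {γ β : Fin d → ℕ} (h : ∀ α, γ + α ≠ β) (f : Pol d V) :
    AD.shift γ f β = 0 := by
  unfold AD.shift
  rw [Finsupp.lmapDomain_apply]
  exact Finsupp.mapDomain_of_notMem_range f β (by rintro ⟨α, hα⟩; exact h α hα)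

theorem shift_apply_not {N : ℕ} {b : Fin d →₀ ℕ} {k : K d N} (h : ∀ k', sh b k' ≠ k)
    (f : K d N →₀ ℂ) : UD.shift b f k = 0 := by
  unfold UD.shift
  rw [Finsupp.lmapDomain_apply]
  exact Finsupp.mapDomain_of_notMem_range f k (by rintro ⟨α, hα⟩; exact h α hα)

/-- scaled coordinates -/
theorem exists_coord_equiv {N : ℕ} (b : Module.Basis (Fin N) ℂ V) (t : ℝ) (ht : 0 < t) :
    ∃ Φ : Pol d V ≃ₗ[ℂ] (K d N →₀ ℂ), ∀ (f : Pol d V) (k : K d N),
      Φ f k = (t : ℂ) ^ k.1.degree * b.repr (f k.1) k.2 := by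
  classical
  let Φ1 : Pol d V ≃ₗ[ℂ] ((Fin d → ℕ) →₀ (Fin N →₀ ℂ)) := Finsupp.mapRange.linearEquiv b.repr
  let Φ2 : ((Fin d → ℕ) →₀ (Fin N →₀ ℂ)) ≃ₗ[ℂ] ((Fin d → ℕ) × Fin N →₀ ℂ) :=
    (Finsupp.curryLinearEquiv ℂ).symm
  let e : (Fin d → ℕ) × Fin N ≃ K d N :=
    Equiv.prodCongr Finsupp.equivFunOnFinite.symm (Equiv.refl _)
  let Φ3 : ((Fin d → ℕ) × Fin N →₀ ℂ) ≃ₗ[ℂ] (K d N →₀ ℂ) := Finsupp.domLCongr e
  let Φ0 : Pol d V ≃ₗ[ℂ] (K d N →₀ ℂ) := (Φ1.trans Φ2).trans Φ3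
  have h0 : ∀ (f : Pol d V) (k : K d N), Φ0 f k = b.repr (f k.1) k.2 := by
    intro f k
    rfl
  have hne : ∀ k : K d N, (t : ℂ) ^ k.1.degree ≠ 0 := fun k =>
    pow_ne_zero _ (by exact_mod_cast ht.ne')
  -- diagonal scaling
  let D : (K d N → ℂ) → (K d N →₀ ℂ) →ₗ[ℂ] (K d N →₀ ℂ) := fun c =>
    Finsupp.lsum ℂ fun k => c k • Finsupp.lsingle k
  have hD : ∀ c (f : K d N →₀ ℂ) k, D c f k = c k * f k := by
    intro c f k
    have h1 : ∀ k', ((c k' • Finsupp.lsingle k' : ℂ →ₗ[ℂ] (K d N →₀ ℂ)) (f k')) k =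
        if k' = k then c k' * f k' else 0 := by
      intro k'
      rw [LinearMap.smul_apply, Finsupp.smul_apply, Finsupp.lsingle_apply, Finsupp.single_apply,
        smul_eq_mul]
      split_ifs <;> simp
    change (f.sum fun k' x => (c k' • Finsupp.lsingle k' : ℂ →ₗ[ℂ] (K d N →₀ ℂ)) x) k = _
    rw [Finsupp.sum_apply]
    unfold Finsupp.sum
    simp only [h1]
    rw [Finset.sum_ite_eq' f.support k]
    split_ifs with h
    · rfl
    · rw [Finsupp.notMem_support_iff.1 h, mul_zero]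
  let S : (K d N →₀ ℂ) ≃ₗ[ℂ] (K d N →₀ ℂ) := LinearEquiv.ofLinearMap
    (D fun k => (t : ℂ) ^ k.1.degree) (D fun k => ((t : ℂ) ^ k.1.degree)⁻¹)
    (by
      ext k k'
      simp only [LinearMap.comp_apply, LinearMap.id_apply, hD]
      rw [← mul_assoc, mul_inv_cancel₀ (hne k'), one_mul])
    (by
      ext k k'
      simp only [LinearMap.comp_apply, LinearMap.id_apply, hD]
      rw [← mul_assoc, inv_mul_cancel₀ (hne k'), one_mul])
  refine ⟨Φ0.trans S, ?_⟩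
  intro f k
  have h1 : (Φ0.trans S) f k = (D fun k => (t : ℂ) ^ k.1.degree) (Φ0 f) k := rfl
  rw [h1, hD, h0]

/-- comparison of the norm of `V` with the coordinates -/
theorem exists_norm_bounds {N : ℕ} (b : Module.Basis (Fin N) ℂ V) :
    ∃ c1 c2 : ℝ, 0 ≤ c1 ∧ 0 ≤ c2 ∧ (∀ v, ‖v‖ ≤ c1 * ∑ i, ‖b.repr v i‖) ∧
      (∀ v, ∑ i, ‖b.repr v i‖ ≤ c2 * ‖v‖) := by
  have : FiniteDimensional ℂ V := b.finiteDimensional_of_finite
  refine ⟨∑ i, ‖b i‖, ∑ i, ‖LinearMap.toContinuousLinearMap (b.coord i)‖,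
    Finset.sum_nonneg fun _ _ => norm_nonneg _, Finset.sum_nonneg fun _ _ => norm_nonneg _,
    ?_, ?_⟩
  · intro v
    conv_lhs => rw [← b.sum_repr v]
    refine (norm_sum_le _ _).trans ?_
    rw [Finset.mul_sum]
    apply Finset.sum_le_sum
    intro i _
    rw [norm_smul, mul_comm]
    exact mul_le_mul_of_nonneg_right
      (Finset.single_le_sum (f := fun i => ‖b i‖) (fun _ _ => norm_nonneg _)
        (Finset.mem_univ i)) (norm_nonneg _)
  · intro v
    rw [Finset.sum_mul]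
    apply Finset.sum_le_sum
    intro i _
    have := (LinearMap.toContinuousLinearMap (b.coord i)).le_opNorm v
    simpa using this

variable {N : ℕ} {b : Module.Basis (Fin N) ℂ V} {t : ℝ}
  {Φ : Pol d V ≃ₗ[ℂ] (K d N →₀ ℂ)}

theorem nW_coord (ht : 0 < t)
    (hΦ : ∀ (f : Pol d V) (k : K d N), Φ f k = (t : ℂ) ^ k.1.degree * b.repr (f k.1) k.2)
    (f : Pol d V) :
    nW (fun _ => 1) (Φ f) = ∑ α ∈ f.support, t ^ deg α * ∑ i, ‖b.repr (f α) i‖ := by
  classical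
  have h1 : (Φ f).support ⊆
      (f.support.map Finsupp.equivFunOnFinite.symm.toEmbedding) ×ˢ Finset.univ := by
    intro k hk
    rw [Finset.mem_product]
    refine ⟨?_, Finset.mem_univ _⟩
    rw [Finset.mem_map]
    refine ⟨k.1, ?_, ?_⟩
    · rw [Finsupp.mem_support_iff] at hk ⊢
      intro h0
      apply hk
      rw [hΦ, h0]
      simp
    · exact Finsupp.equivFunOnFinite.symm_apply_apply k.1
  rw [nW_eq_sum _ h1, Finset.sum_product, Finset.sum_map]
  apply Finset.sum_congr rfl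
  intro α _
  rw [Finset.mul_sum]
  apply Finset.sum_congr rfl
  intro i _
  have e1 : ((Finsupp.equivFunOnFinite.symm.toEmbedding α : Fin d →₀ ℕ) : Fin d → ℕ) = α := by
    exact Finsupp.equivFunOnFinite.apply_symm_apply α
  rw [hΦ, mul_one, norm_mul, norm_pow, Complex.norm_real, Real.norm_of_nonneg ht.le]
  simp only [e1, ← deg_eq_degree]

theorem nW_coord_le (ht : 0 < t)
    (hΦ : ∀ (f : Pol d V) (k : K d N), Φ f k = (t : ℂ) ^ k.1.degree * b.repr (f k.1) k.2)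
    {c2 : ℝ} (h2 : ∀ v, ∑ i, ‖b.repr v i‖ ≤ c2 * ‖v‖) (f : Pol d V) :
    nW (fun _ => 1) (Φ f) ≤ c2 * l1 t f := by
  rw [nW_coord ht hΦ]
  unfold l1 Finsupp.sum
  rw [Finset.mul_sum]
  apply Finset.sum_le_sum
  intro α _
  have h3 := mul_le_mul_of_nonneg_left (h2 (f α)) (pow_nonneg ht.le (deg α))
  linarith

theorem l1_coord_le (ht : 0 < t) (ht1 : t ≤ 1)
    (hΦ : ∀ (f : Pol d V) (k : K d N), Φ f k = (t : ℂ) ^ k.1.degree * b.repr (f k.1) k.2)
    {c1 : ℝ} (hc1 : 0 ≤ c1) (h1 : ∀ v, ‖v‖ ≤ c1 * ∑ i, ‖b.repr v i‖) {m : ℕ} {f : Pol d V}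
    (hf : f ∈ polLe d V m) :
    l1 1 f ≤ c1 * (t ^ m)⁻¹ * nW (fun _ => 1) (Φ f) := by
  rw [nW_coord ht hΦ]
  unfold l1 Finsupp.sum
  rw [Finset.mul_sum]
  apply Finset.sum_le_sum
  intro α hα
  have hdeg : deg α ≤ m := by
    by_contra hlt
    exact (Finsupp.mem_support_iff.1 hα) (hf α (not_le.1 hlt))
  change 1 ^ deg α * ‖f α‖ ≤ _
  rw [one_pow, one_mul]
  have hs : 0 ≤ ∑ i, ‖b.repr (f α) i‖ := Finset.sum_nonneg fun _ _ => norm_nonneg _
  have h3 : 1 ≤ (t ^ m)⁻¹ * t ^ deg α := by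
    rw [inv_mul_eq_div, le_div_iff₀ (pow_pos ht m), one_mul]
    exact pow_le_pow_of_le_one ht.le ht1 hdeg
  calc ‖f α‖ ≤ c1 * ∑ i, ‖b.repr (f α) i‖ := h1 _
    _ = (c1 * ∑ i, ‖b.repr (f α) i‖) * 1 := (mul_one _).symm
    _ ≤ (c1 * ∑ i, ‖b.repr (f α) i‖) * ((t ^ m)⁻¹ * t ^ deg α) :=
        mul_le_mul_of_nonneg_left h3 (mul_nonneg hc1 hs)
    _ = _ := by ring

theorem coord_shift
    (hΦ : ∀ (f : Pol d V) (k : K d N), Φ f k = (t : ℂ) ^ k.1.degree * b.repr (f k.1) k.2)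
    (c : Fin d →₀ ℕ) (f : Pol d V) :
    Φ (AD.shift (c : Fin d → ℕ) f) = (t : ℂ) ^ c.degree • UD.shift c (Φ f) := by
  ext k
  rw [Finsupp.smul_apply, smul_eq_mul, hΦ]
  by_cases hk : ∃ k', sh c k' = k
  · obtain ⟨k', rfl⟩ := hk
    rw [UD.shift_apply_sh, hΦ]
    have e1 : ((sh c k').1 : Fin d → ℕ) = (c : Fin d → ℕ) + (k'.1 : Fin d → ℕ) := by
      rw [add_comm]; rfl
    have e2 : (sh c k').1.degree = c.degree + k'.1.degree := by
      change (k'.1 + c).degree = _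
      rw [map_add, add_comm]
    have e3 : (sh c k').2 = k'.2 := rfl
    rw [e1, shift_apply_add', e2, e3, pow_add, mul_assoc]
  · push Not at hk
    rw [UD.shift_apply_not hk, mul_zero]
    rw [shift_apply_not']
    · simp
    · intro α hα
      apply hk (Finsupp.equivFunOnFinite.symm α, k.2)
      refine Prod.ext ?_ rfl
      change Finsupp.equivFunOnFinite.symm α + c = k.1
      ext l
      rw [Finsupp.add_apply, add_comm]
      exact congrFun hα l

theorem coord_mem (ht : 0 < t)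
    (hΦ : ∀ (f : Pol d V) (k : K d N), Φ f k = (t : ℂ) ^ k.1.degree * b.repr (f k.1) k.2)
    (n : ℕ) (f : Pol d V) : Φ f ∈ Ple d N n ↔ f ∈ polLe d V n := by
  rw [mem_Ple]
  constructor
  · intro h α hα
    have h1 : b.repr (f α) = 0 := by
      ext i
      by_contra hne
      have h2 := h (Finsupp.equivFunOnFinite.symm α, i) (by
        rw [Finsupp.mem_support_iff, hΦ]
        exact mul_ne_zero (pow_ne_zero _ (by exact_mod_cast ht.ne')) hne)
      rw [← deg_eq_degree] at h2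
      exact absurd hα (not_lt.2 h2)
    simpa using h1
  · intro h k hk
    by_contra hlt
    rw [Finsupp.mem_support_iff] at hk
    apply hk
    rw [hΦ, h k.1 (by rw [deg_eq_degree]; exact not_le.1 hlt)]
    simp

theorem l1_smul' (s : ℝ) (c : ℂ) (f : Pol d V) : l1 s (c • f) = ‖c‖ * l1 s f := by
  have h1 : l1 s (c • f) = ∑ α ∈ f.support, s ^ deg α * ‖(c • f) α‖ :=
    Finsupp.sum_of_support_subset _ Finsupp.support_smul _ (fun α _ => by simp)
  have h2 : l1 s f = ∑ α ∈ f.support, s ^ deg α * ‖f α‖ := rfl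
  rw [h1, h2, Finset.mul_sum]
  apply Finset.sum_congr rfl
  intro α _
  rw [Finsupp.smul_apply, norm_smul]
  ring

theorem sum_onFinset' {A : Type*} [AddCommMonoid A] {W : Type*} [AddCommMonoid W]
    (s : Finset (Fin d →₀ ℕ)) (F : (Fin d →₀ ℕ) → W) (h) (g : (Fin d → ℕ) → W → A)
    (hg : ∀ γ, g γ 0 = 0) :
    (Finsupp.onFinset (s.map Finsupp.equivFunOnFinite.toEmbedding)
      (fun γ => F (Finsupp.equivFunOnFinite.symm γ)) h).sum g =
      ∑ a ∈ s, g (a : Fin d → ℕ) (F a) := by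
  rw [Finsupp.onFinset_sum _ hg, Finset.sum_map]
  apply Finset.sum_congr rfl
  intro a _
  have e1 : Finsupp.equivFunOnFinite.symm (Finsupp.equivFunOnFinite.toEmbedding a) = a :=
    Finsupp.equivFunOnFinite.symm_apply_apply a
  rw [e1]
  rfl

end coord

end UD

/-- **Uniform division.** All submodules of `V[z]` with the Hilbert function `φ` have a division
with the same constants. -/
theorem uniform_division (d : ℕ) (V : Type u) [NormedAddCommGroup V] [NormedSpace ℂ V]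
    [FiniteDimensional ℂ V] (φ : ℕ → ℕ) :
    ∃ (m : ℕ) (r C : ℝ), 0 < r ∧ r ≤ 1 ∧ 0 ≤ C ∧ ∀ M : Submodule ℂ (Pol d V), IsMod M →
      (∀ n, Module.finrank ℂ ↥(M ⊓ polLe d V n) = φ n) →
      ∀ t : ℝ, 0 < t → t ≤ 1 → ∀ f ∈ M, ∃ c : (Fin d → ℕ) →₀ Pol d V,
        (∀ γ, c γ ∈ M ⊓ polLe d V m) ∧ (c.sum fun γ q => shift γ q) = f ∧
        (c.sum fun γ q => (r * t) ^ deg γ * l1 1 q) ≤ C / t ^ m * l1 t f := by
  classical
  obtain ⟨m, r, C, hr0, hr1, hC, H⟩ := UD.UDcore d (Module.finrank ℂ V) φ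
  set b := Module.finBasis ℂ V with hb
  obtain ⟨c1, c2, hc1, hc2, hv1, hv2⟩ := UD.exists_norm_bounds b
  refine ⟨m, r, C * c1 * c2, hr0, hr1, by positivity, ?_⟩
  intro M hM hφ t ht ht1 f hf
  obtain ⟨Φ, hΦ⟩ := UD.exists_coord_equiv (d := d) b t ht
  have htc : ∀ n : ℕ, (t : ℂ) ^ n ≠ 0 := fun n => pow_ne_zero _ (by exact_mod_cast ht.ne')
  set M' : Submodule ℂ (UD.K d (Module.finrank ℂ V) →₀ ℂ) := M.map (Φ : Pol d V →ₗ[ℂ] _) with hM'
  have hmem : ∀ g, g ∈ M' ↔ Φ.symm g ∈ M := by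
    intro g
    rw [hM', Submodule.mem_map]
    constructor
    · rintro ⟨x, hx, rfl⟩
      have : Φ.symm (Φ x) = x := Φ.symm_apply_apply x
      exact this.symm ▸ hx
    · intro h
      exact ⟨Φ.symm g, h, Φ.apply_symm_apply g⟩
  have hsh : ∀ (c : Fin d →₀ ℕ) (p : UD.K d (Module.finrank ℂ V) →₀ ℂ),
      Φ.symm (UD.shift c p) = ((t : ℂ) ^ c.degree)⁻¹ • shift (c : Fin d → ℕ) (Φ.symm p) := by
    intro c p
    rw [LinearEquiv.symm_apply_eq, map_smul, UD.coord_shift hΦ, LinearEquiv.apply_symm_apply,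
      smul_smul, inv_mul_cancel₀ (htc _), one_smul]
  have hM's : ∀ c, ∀ g ∈ M', UD.shift c g ∈ M' := by
    intro c g hg
    rw [hmem, hsh]
    exact M.smul_mem _ (hM _ _ ((hmem g).1 hg))
  have hM'f : ∀ n, Module.finrank ℂ (M' ⊓ UD.Ple d (Module.finrank ℂ V) n :
      Submodule ℂ (UD.K d (Module.finrank ℂ V) →₀ ℂ)) = φ n := by
    intro n
    rw [← hφ n]
    have e1 : M' ⊓ UD.Ple d (Module.finrank ℂ V) n =
        (M ⊓ polLe d V n).map (Φ : Pol d V →ₗ[ℂ] _) := by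
      ext g
      rw [Submodule.mem_inf, hmem, Submodule.mem_map]
      constructor
      · rintro ⟨h1, h2⟩
        refine ⟨Φ.symm g, ⟨h1, ?_⟩, Φ.apply_symm_apply g⟩
        rw [SetLike.mem_coe, ← UD.coord_mem ht hΦ n, Φ.apply_symm_apply]
        exact h2
      · rintro ⟨x, ⟨hx1, hx2⟩, rfl⟩
        refine ⟨?_, (UD.coord_mem ht hΦ n x).2 hx2⟩
        have : Φ.symm (Φ x) = x := Φ.symm_apply_apply x
        exact this.symm ▸ hx1
    rw [e1]
    exact LinearEquiv.finrank_map_eq Φ _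
  obtain ⟨q, hq1, hq2, hq3⟩ := H M' hM's hM'f (Φ f) (Submodule.mem_map_of_mem hf)
  -- the coefficients
  set F : (Fin d →₀ ℕ) → Pol d V := fun c => ((t : ℂ) ^ c.degree)⁻¹ • Φ.symm (q c) with hF
  set c : (Fin d → ℕ) →₀ Pol d V := Finsupp.onFinset
    (q.support.map Finsupp.equivFunOnFinite.toEmbedding)
    (fun γ => F (Finsupp.equivFunOnFinite.symm γ)) (by
      intro γ hγ
      rw [Finset.mem_map]
      refine ⟨Finsupp.equivFunOnFinite.symm γ, ?_, Finsupp.equivFunOnFinite.apply_symm_apply γ⟩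
      rw [Finsupp.mem_support_iff]
      intro h0
      apply hγ
      simp only [hF, h0, map_zero, smul_zero]) with hc
  have hqF : ∀ a, F a ∈ M ⊓ polLe d V m := by
    intro a
    have h1 := hq1 a
    rw [Submodule.mem_inf] at h1 ⊢
    refine ⟨M.smul_mem _ ((hmem _).1 h1.1), ?_⟩
    apply Submodule.smul_mem
    rw [← UD.coord_mem ht hΦ m, Φ.apply_symm_apply]
    exact h1.2
  refine ⟨c, ?_, ?_, ?_⟩
  · intro γ
    exact hqF _
  · rw [hc, UD.sum_onFinset' q.support F _ _ (fun γ => map_zero _)]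
    have e1 : ∀ a ∈ q.support, shift (a : Fin d → ℕ) (F a) = Φ.symm (UD.shift a (q a)) := by
      intro a _
      rw [hsh, hF, map_smul]
    rw [Finset.sum_congr rfl e1, ← map_sum]
    have e2 : ∑ a ∈ q.support, UD.shift a (q a) = Φ f := hq2
    rw [e2, Φ.symm_apply_apply]
  · rw [hc, UD.sum_onFinset' q.support F _ _ (fun γ => by simp [l1])]
    have e1 : ∀ a ∈ q.support, (r * t) ^ deg (a : Fin d → ℕ) * l1 1 (F a) ≤
        (c1 * (t ^ m)⁻¹) * (r ^ a.degree * UD.nW (fun _ => 1) (q a)) := by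
      intro a _
      have h1 : Φ.symm (q a) ∈ polLe d V m := by
        rw [← UD.coord_mem ht hΦ m, Φ.apply_symm_apply]
        exact (hq1 a).2
      have h2 := UD.l1_coord_le ht ht1 hΦ hc1 hv1 h1
      rw [Φ.apply_symm_apply] at h2
      have h3 : l1 1 (F a) = (t ^ a.degree)⁻¹ * l1 1 (Φ.symm (q a)) := by
        rw [hF, UD.l1_smul', norm_inv, norm_pow, Complex.norm_real, Real.norm_of_nonneg ht.le]
      rw [h3, UD.deg_eq_degree, mul_pow]
      have h4 : r ^ a.degree * t ^ a.degree * ((t ^ a.degree)⁻¹ * l1 1 (Φ.symm (q a))) =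
          r ^ a.degree * l1 1 (Φ.symm (q a)) := by
        have : t ^ a.degree ≠ 0 := (pow_pos ht _).ne'
        field_simp
      rw [h4]
      have h5 := mul_le_mul_of_nonneg_left h2 (pow_nonneg hr0.le a.degree)
      linarith
    refine (Finset.sum_le_sum e1).trans ?_
    rw [← Finset.mul_sum]
    have e2 : ∑ a ∈ q.support, r ^ a.degree * UD.nW (fun _ => 1) (q a) = UD.nQ r q := rfl
    rw [e2]
    have h6 := UD.nW_coord_le ht hΦ hv2 f
    have h7 : 0 ≤ c1 * (t ^ m)⁻¹ := mul_nonneg hc1 (inv_nonneg.2 (pow_nonneg ht.le _))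
    calc c1 * (t ^ m)⁻¹ * UD.nQ r q
        ≤ c1 * (t ^ m)⁻¹ * (C * (c2 * l1 t f)) :=
          mul_le_mul_of_nonneg_left (hq3.trans (mul_le_mul_of_nonneg_left h6 hC)) h7
      _ = _ := by rw [div_eq_mul_inv]; ring

end Pool.Agent.Lib.MP_15f9af_an.AD
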