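import Mathlib
import Pool.Agent.Lib.MP_15f9af_an.AD.Defs

/-!
# Polynomials with coefficients in a vector space

The basic facts on `Pol d V`: shifts, evaluation, recentring, coefficientwise linear maps.
-/

namespace Pool.Agent.Lib.MP_15f9af_an.AD

open scoped ENNReal NNReal
open MeasureTheory

universe u v

variable {d : ℕ}

section PB
variable {V : Type u} [AddCommGroup V] [Module ℂ V]

theorem mem_degLe {n : ℕ} {α : Fin d → ℕ} : α ∈ degLe d n ↔ deg α ≤ n := by
  unfold degLe
  simp only [Finset.mem_filter, Fintype.mem_piFinset, Finset.mem_range, and_iff_right_iff_imp]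
  intro h j
  have := le_deg j α
  omega

theorem deg_add (α β : Fin d → ℕ) : deg (α + β) = deg α + deg β := by
  simp [deg, Finset.sum_add_distrib]

theorem deg_zero : deg (0 : Fin d → ℕ) = 0 := by simp [deg]

theorem deg_mono {α β : Fin d → ℕ} (h : α ≤ β) : deg α ≤ deg β :=
  Finset.sum_le_sum fun j _ => h j

theorem mon_add (z : Fin d → ℂ) (α β : Fin d → ℕ) : mon z (α + β) = mon z α * mon z β := by
  simp [mon, pow_add, Finset.prod_mul_distrib]

theorem mon_zero (z : Fin d → ℂ) : mon z 0 = 1 := by simp [mon]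

theorem norm_mon (z : Fin d → ℂ) (α : Fin d → ℕ) : ‖mon z α‖ = ∏ j, ‖z j‖ ^ α j := by
  simp [mon, norm_prod, norm_pow]

theorem norm_mon_le (z : Fin d → ℂ) (α : Fin d → ℕ) : ‖mon z α‖ ≤ ‖z‖ ^ deg α := by
  rw [norm_mon, deg, ← Finset.prod_pow_eq_pow_sum]
  exact Finset.prod_le_prod (fun j _ => by positivity) fun j _ =>
    pow_le_pow_left₀ (norm_nonneg _) (norm_le_pi_norm z j) _

theorem continuous_mon (α : Fin d → ℕ) : Continuous fun z : Fin d → ℂ => mon z α := by
  unfold mon
  fun_prop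

theorem shift_def (γ : Fin d → ℕ) (f : Pol d V) :
    shift γ f = Finsupp.mapDomain (fun α => γ + α) f := rfl

theorem shift_single (γ α : Fin d → ℕ) (v : V) :
    shift γ (Finsupp.single α v) = Finsupp.single (γ + α) v := by
  rw [shift_def, Finsupp.mapDomain_single]

theorem add_left_inj_pol (γ : Fin d → ℕ) :
    Function.Injective fun α : Fin d → ℕ => γ + α := fun a b h => by simpa using h

theorem shift_apply_add (γ α : Fin d → ℕ) (f : Pol d V) : shift γ f (γ + α) = f α := by
  rw [shift_def]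
  exact Finsupp.mapDomain_apply (add_left_inj_pol γ) f α

theorem shift_apply_of_not_le {γ α : Fin d → ℕ} (h : ¬ γ ≤ α) (f : Pol d V) :
    shift γ f α = 0 := by
  rw [shift_def]
  apply Finsupp.mapDomain_of_notMem_range
  rintro ⟨β, hβ⟩
  apply h
  rw [← hβ]
  intro j
  simp

theorem shift_apply_of_le {γ α : Fin d → ℕ} (h : γ ≤ α) (f : Pol d V) :
    shift γ f α = f (α - γ) := by
  have h1 : γ + (α - γ) = α := add_tsub_cancel_of_le h
  conv_lhs => rw [← h1]
  rw [shift_apply_add]

theorem shift_shift (γ γ' : Fin d → ℕ) (f : Pol d V) :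
    shift γ (shift γ' f) = shift (γ + γ') f := by
  rw [shift_def, shift_def, shift_def, ← Finsupp.mapDomain_comp]
  congr 1
  funext α
  simp [add_assoc]

theorem shift_zero_left (f : Pol d V) : shift 0 f = f := by
  rw [shift_def]
  have : (fun α : Fin d → ℕ => 0 + α) = id := by funext α; simp
  rw [this, Finsupp.mapDomain_id]

theorem mem_polLe {n : ℕ} {f : Pol d V} : f ∈ polLe d V n ↔ ∀ α, n < deg α → f α = 0 := Iff.rfl

theorem polLe_mono {m n : ℕ} (h : m ≤ n) : polLe d V m ≤ polLe d V n :=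
  fun _ hf α hα => hf α (lt_of_le_of_lt h hα)

theorem mem_polLe_iff_support {n : ℕ} {f : Pol d V} :
    f ∈ polLe d V n ↔ ∀ α ∈ f.support, deg α ≤ n := by
  rw [mem_polLe]
  constructor
  · intro h α hα
    by_contra hc
    exact (Finsupp.mem_support_iff.1 hα) (h α (not_le.1 hc))
  · intro h α hα
    by_contra hc
    exact absurd (h α (Finsupp.mem_support_iff.2 hc)) (not_le.2 hα)

theorem exists_mem_polLe (f : Pol d V) : ∃ n, f ∈ polLe d V n := by
  refine ⟨f.support.sup deg, mem_polLe_iff_support.2 fun α hα => Finset.le_sup hα⟩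

theorem single_mem_polLe {n : ℕ} {α : Fin d → ℕ} (h : deg α ≤ n) (v : V) :
    (Finsupp.single α v : Pol d V) ∈ polLe d V n := by
  classical
  intro β hβ
  rw [Finsupp.single_apply, if_neg]
  rintro rfl
  omega

theorem shift_polLe {γ : Fin d → ℕ} {n : ℕ} {f : Pol d V} (h : f ∈ polLe d V n) :
    shift γ f ∈ polLe d V (deg γ + n) := by
  intro α hα
  by_cases hle : γ ≤ α
  · rw [shift_apply_of_le hle]
    apply h
    have h1 : γ + (α - γ) = α := add_tsub_cancel_of_le hle
    have h2 : deg γ + deg (α - γ) = deg α := by rw [← deg_add, h1]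
    omega
  · exact shift_apply_of_not_le hle f

theorem ev_apply (z : Fin d → ℂ) (f : Pol d V) : ev z f = f.sum fun α v => mon z α • v := rfl

theorem ev_single (z : Fin d → ℂ) (α : Fin d → ℕ) (v : V) :
    ev z (Finsupp.single α v) = mon z α • v := by
  rw [ev_apply]
  exact Finsupp.sum_single_index (smul_zero _)

theorem ev_shift (z : Fin d → ℂ) (γ : Fin d → ℕ) (f : Pol d V) :
    ev z (shift γ f) = mon z γ • ev z f := by
  have : ev z ∘ₗ shift γ = mon z γ • (ev z : Pol d V →ₗ[ℂ] V) := by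
    refine Finsupp.lhom_ext fun α v => ?_
    simp only [LinearMap.comp_apply, LinearMap.smul_apply, shift_single, ev_single, mon_add,
      smul_smul]
  exact LinearMap.congr_fun this f

theorem eq_zero_of_ev {f : Pol d V} (h : ∀ z, ev z f = 0) : f = 0 := by
  classical
  ext α
  rw [Finsupp.coe_zero, Pi.zero_apply]
  rw [← Module.forall_dual_apply_eq_zero_iff ℂ]
  intro φ
  let p : MvPolynomial (Fin d) ℂ :=
    f.sum fun β v => MvPolynomial.monomial (Finsupp.equivFunOnFinite.symm β) (φ v)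
  have hp : p = 0 := by
    apply MvPolynomial.funext
    intro z
    simp only [map_zero]
    have h1 := congrArg φ (h z)
    rw [ev_apply, Finsupp.sum, map_sum, map_zero] at h1
    rw [← h1]
    simp only [p, Finsupp.sum, map_sum, MvPolynomial.eval_monomial]
    refine Finset.sum_congr rfl fun β _ => ?_
    rw [map_smul, smul_eq_mul, mul_comm]
    congr 1
    rw [mon, Finsupp.prod_fintype _ _ (fun i => pow_zero _)]
    rfl
  have h2 : MvPolynomial.coeff (Finsupp.equivFunOnFinite.symm α) p = φ (f α) := by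
    simp only [p, Finsupp.sum, MvPolynomial.coeff_sum, MvPolynomial.coeff_monomial,
      EmbeddingLike.apply_eq_iff_eq]
    by_cases hα : α ∈ f.support
    · rw [Finset.sum_eq_single α]
      · simp
      · intro b _ hb
        rw [if_neg hb]
      · intro hc
        exact absurd hα hc
    · rw [Finsupp.notMem_support_iff.1 hα, map_zero]
      refine Finset.sum_eq_zero fun b hb => ?_
      rw [if_neg]
      rintro rfl
      exact hα hb
  rw [← h2, hp, MvPolynomial.coeff_zero]

theorem eq_of_ev {f g : Pol d V} (h : ∀ z, ev z f = ev z g) : f = g := by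
  rw [← sub_eq_zero]
  apply eq_zero_of_ev
  intro z
  rw [map_sub, h z, sub_self]

/-! ### recentring -/

theorem mon_add_eq_sum (a w : Fin d → ℂ) (α : Fin d → ℕ) :
    mon (a + w) α = ∑ β ∈ Finset.Iic α, binc a α β * mon w β := by
  classical
  have hI : Finset.Iic α = Fintype.piFinset fun j => Finset.range (α j + 1) := by
    ext β
    simp only [Finset.mem_Iic, Fintype.mem_piFinset, Finset.mem_range, Nat.lt_succ_iff]
    exact Iff.rfl
  rw [hI]
  unfold mon
  have h1 : ∀ j, (a + w) j ^ α j =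
      ∑ k ∈ Finset.range (α j + 1), ((α j).choose k : ℂ) * a j ^ (α j - k) * w j ^ k := by
    intro j
    rw [Pi.add_apply, add_comm, add_pow]
    exact Finset.sum_congr rfl fun k _ => by ring
  rw [Finset.prod_congr rfl fun j _ => h1 j, Finset.prod_univ_sum]
  refine Finset.sum_congr rfl fun β _ => ?_
  unfold binc
  rw [← Finset.prod_mul_distrib]

theorem recentre_single (a : Fin d → ℂ) (α : Fin d → ℕ) (v : V) :
    recentre a (Finsupp.single α v) =
      ∑ β ∈ Finset.Iic α, binc a α β • Finsupp.single β v := by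
  unfold recentre
  rw [Finsupp.lsum_single, LinearMap.sum_apply]
  rfl

theorem ev_recentre (a w : Fin d → ℂ) (f : Pol d V) :
    ev w (recentre a f) = ev (a + w) f := by
  have : ev w ∘ₗ recentre a = (ev (a + w) : Pol d V →ₗ[ℂ] V) := by
    refine Finsupp.lhom_ext fun α v => ?_
    rw [LinearMap.comp_apply, recentre_single, map_sum, ev_single, mon_add_eq_sum,
      Finset.sum_smul]
    refine Finset.sum_congr rfl fun β _ => ?_
    rw [map_smul, ev_single, smul_smul]
  exact LinearMap.congr_fun this f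

open Classical in
theorem recentre_apply (a : Fin d → ℂ) (f : Pol d V) (β : Fin d → ℕ) :
    recentre a f β = f.sum fun α v => if β ≤ α then binc a α β • v else 0 := by
  have h0 : recentre a f =
      f.sum fun α v => ∑ β ∈ Finset.Iic α, binc a α β • Finsupp.single β v := by
    conv_lhs => rw [← Finsupp.sum_single f]
    rw [Finsupp.sum, map_sum, Finsupp.sum]
    exact Finset.sum_congr rfl fun α _ => recentre_single a α (f α)
  rw [h0, Finsupp.sum_apply]
  refine Finsupp.sum_congr fun α _ => ?_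
  rw [Finsupp.finsetSum_apply]
  by_cases h : β ≤ α
  · rw [if_pos h, Finset.sum_eq_single β]
    · simp
    · intro b _ hb
      simp [hb]
    · intro hc
      exact absurd (Finset.mem_Iic.2 h) hc
  · rw [if_neg h]
    refine Finset.sum_eq_zero fun b hb => ?_
    have hb' : b ≠ β := by
      rintro rfl
      exact h (Finset.mem_Iic.1 hb)
    simp [hb']

theorem binc_zero_right (a : Fin d → ℂ) (α : Fin d → ℕ) : binc a α 0 = mon a α := by
  simp [binc, mon]

theorem recentre_apply_zero (a : Fin d → ℂ) (f : Pol d V) : recentre a f 0 = ev a f := by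
  classical
  rw [recentre_apply, ev_apply]
  refine Finsupp.sum_congr fun α _ => ?_
  rw [if_pos (zero_le : (0 : Fin d → ℕ) ≤ α), binc_zero_right]

theorem recentre_zero (f : Pol d V) : recentre 0 f = f :=
  eq_of_ev fun z => by rw [ev_recentre, zero_add]

theorem recentre_recentre (a b : Fin d → ℂ) (f : Pol d V) :
    recentre a (recentre b f) = recentre (a + b) f :=
  eq_of_ev fun z => by
    rw [ev_recentre, ev_recentre, ev_recentre]
    congr 2
    abel

theorem recentre_neg_recentre (a : Fin d → ℂ) (f : Pol d V) :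
    recentre (-a) (recentre a f) = f := by
  rw [recentre_recentre, neg_add_cancel, recentre_zero]

theorem recentre_recentre_neg (a : Fin d → ℂ) (f : Pol d V) :
    recentre a (recentre (-a) f) = f := by
  rw [recentre_recentre, add_neg_cancel, recentre_zero]

theorem recentre_injective (a : Fin d → ℂ) :
    Function.Injective (recentre a : Pol d V →ₗ[ℂ] Pol d V) :=
  Function.LeftInverse.injective (recentre_neg_recentre a)

theorem recentre_polLe {a : Fin d → ℂ} {n : ℕ} {f : Pol d V} (h : f ∈ polLe d V n) :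
    recentre a f ∈ polLe d V n := by
  classical
  intro β hβ
  rw [recentre_apply, Finsupp.sum]
  refine Finset.sum_eq_zero fun α hα => ?_
  rw [if_neg]
  intro hle
  have h1 := mem_polLe_iff_support.1 h α hα
  have h2 := deg_mono hle
  omega

theorem mapc_apply {W : Type v} [AddCommGroup W] [Module ℂ W] (L : V →ₗ[ℂ] W) (f : Pol d V)
    (α : Fin d → ℕ) : mapc L f α = L (f α) := rfl

theorem mapc_single {W : Type v} [AddCommGroup W] [Module ℂ W] (L : V →ₗ[ℂ] W)
    (α : Fin d → ℕ) (v : V) :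
    mapc L (Finsupp.single α v : Pol d V) = Finsupp.single α (L v) := by
  classical
  ext β
  rw [mapc_apply, Finsupp.single_apply, Finsupp.single_apply]
  split_ifs <;> simp

theorem ev_mapc {W : Type v} [AddCommGroup W] [Module ℂ W] (L : V →ₗ[ℂ] W)
    (z : Fin d → ℂ) (f : Pol d V) : ev z (mapc L f) = L (ev z f) := by
  have : ev z ∘ₗ mapc L = L ∘ₗ (ev z : Pol d V →ₗ[ℂ] V) := by
    refine Finsupp.lhom_ext fun α v => ?_
    rw [LinearMap.comp_apply, LinearMap.comp_apply, mapc_single, ev_single, ev_single, map_smul]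
  exact LinearMap.congr_fun this f

theorem recentre_mapc {W : Type v} [AddCommGroup W] [Module ℂ W] (L : V →ₗ[ℂ] W)
    (a : Fin d → ℂ) (f : Pol d V) : recentre a (mapc L f) = mapc L (recentre a f) :=
  eq_of_ev fun z => by rw [ev_recentre, ev_mapc, ev_mapc, ev_recentre]

theorem mapc_shift {W : Type v} [AddCommGroup W] [Module ℂ W] (L : V →ₗ[ℂ] W)
    (γ : Fin d → ℕ) (f : Pol d V) : mapc L (shift γ f) = shift γ (mapc L f) :=
  eq_of_ev fun z => by rw [ev_shift, ev_mapc, ev_mapc, ev_shift, map_smul]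

theorem mapc_injective {W : Type v} [AddCommGroup W] [Module ℂ W] {L : V →ₗ[ℂ] W}
    (hL : Function.Injective L) :
    Function.Injective (mapc L : Pol d V →ₗ[ℂ] Pol d W) := fun f g h => by
  ext α
  apply hL
  rw [← mapc_apply, ← mapc_apply, h]

theorem mapc_mem_polLe_iff {W : Type v} [AddCommGroup W] [Module ℂ W] {L : V →ₗ[ℂ] W}
    (hL : Function.Injective L) {n : ℕ} {f : Pol d V} :
    mapc L f ∈ polLe d W n ↔ f ∈ polLe d V n := by
  constructor
  · intro h α hα
    apply hL
    rw [← mapc_apply, h α hα, map_zero]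
  · intro h α hα
    rw [mapc_apply, h α hα, map_zero]

theorem mapc_polLe {W : Type v} [AddCommGroup W] [Module ℂ W] {L : V →ₗ[ℂ] W}
    {n : ℕ} {f : Pol d V} (h : f ∈ polLe d V n) : mapc L f ∈ polLe d W n := by
  intro α hα
  rw [mapc_apply, h α hα, map_zero]

theorem recentre_mem_polLe_iff {a : Fin d → ℂ} {n : ℕ} {f : Pol d V} :
    recentre a f ∈ polLe d V n ↔ f ∈ polLe d V n := by
  refine ⟨fun h => ?_, recentre_polLe⟩
  rw [← recentre_neg_recentre a f]
  exact recentre_polLe h

/-- recentring a shift -/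
theorem recentre_shift (a : Fin d → ℂ) (γ : Fin d → ℕ) (f : Pol d V) :
    recentre a (shift γ f) =
      ∑ β ∈ Finset.Iic γ, binc a γ β • shift β (recentre a f) :=
  eq_of_ev fun z => by
    rw [ev_recentre, ev_shift, mon_add_eq_sum, Finset.sum_smul, map_sum]
    refine Finset.sum_congr rfl fun β _ => ?_
    rw [map_smul, ev_shift, ev_recentre, smul_smul]

/-- the shift of a recentred polynomial -/
theorem shift_recentre (a : Fin d → ℂ) (γ : Fin d → ℕ) (f : Pol d V) :
    shift γ (recentre a f) =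
      recentre a (∑ β ∈ Finset.Iic γ, binc (-a) γ β • shift β f) := by
  have h := recentre_shift (-a) γ (recentre a f)
  rw [recentre_neg_recentre] at h
  rw [← h, recentre_recentre_neg]

/-- the recentred module -/
theorem isMod_map_recentre {W : Type v} [AddCommGroup W] [Module ℂ W] {M : Submodule ℂ (Pol d V)}
    (hM : IsMod M) (L : V →ₗ[ℂ] W) (a : Fin d → ℂ) :
    IsMod (M.map (mapc L ∘ₗ recentre a)) := by
  rintro γ _ ⟨g, hg, rfl⟩
  refine ⟨∑ β ∈ Finset.Iic γ, binc (-a) γ β • shift β g,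
    Submodule.sum_mem _ fun β _ => M.smul_mem _ (hM β g hg), ?_⟩
  rw [LinearMap.comp_apply, LinearMap.comp_apply, ← shift_recentre, mapc_shift]

/-- its Hilbert function does not depend on `a` -/
theorem finrank_map_recentre {W : Type v} [AddCommGroup W] [Module ℂ W]
    (M : Submodule ℂ (Pol d V)) {L : V →ₗ[ℂ] W} (hL : Function.Injective L) (a : Fin d → ℂ)
    (n : ℕ) : Module.finrank ℂ ↥((M.map (mapc L ∘ₗ recentre a)) ⊓ polLe d W n) =
      Module.finrank ℂ ↥(M ⊓ polLe d V n) := by
  have hinj : Function.Injective (mapc L ∘ₗ recentre a : Pol d V →ₗ[ℂ] Pol d W) :=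
    (mapc_injective hL).comp (recentre_injective a)
  have h : (M.map (mapc L ∘ₗ recentre a)) ⊓ polLe d W n =
      (M ⊓ polLe d V n).map (mapc L ∘ₗ recentre a) := by
    ext f
    simp only [Submodule.mem_inf, Submodule.mem_map, LinearMap.comp_apply]
    constructor
    · rintro ⟨⟨g, hg, rfl⟩, hf⟩
      refine ⟨g, ⟨hg, ?_⟩, rfl⟩
      rwa [mapc_mem_polLe_iff hL, recentre_mem_polLe_iff] at hf
    · rintro ⟨g, ⟨hg, hn⟩, rfl⟩
      refine ⟨⟨g, hg, rfl⟩, ?_⟩
      rwa [mapc_mem_polLe_iff hL, recentre_mem_polLe_iff]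
  rw [h]
  exact (LinearEquiv.finrank_eq (Submodule.equivMapOfInjective _ hinj _)).symm

/-! ### families of coefficients -/

theorem toPol_apply {m : ℕ} (v : degLe d m → V) (α : Fin d → ℕ) :
    toPol m v α = if h : α ∈ degLe d m then v ⟨α, h⟩ else 0 := by
  classical
  unfold toPol
  rw [LinearMap.sum_apply, Finsupp.finsetSum_apply]
  simp only [LinearMap.comp_apply, LinearMap.proj_apply, Finsupp.lsingle_apply]
  split_ifs with h
  · rw [Finset.sum_eq_single (⟨α, h⟩ : degLe d m)]
    · simp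
    · intro b _ hb
      rw [Finsupp.single_apply, if_neg]
      intro hc
      exact hb (Subtype.ext hc)
    · intro hc
      exact absurd (Finset.mem_univ _) hc
  · refine Finset.sum_eq_zero fun b _ => ?_
    rw [Finsupp.single_apply, if_neg]
    rintro rfl
    exact h b.2

theorem toPol_apply_coe {m : ℕ} (v : degLe d m → V) (α : degLe d m) :
    toPol m v (α : Fin d → ℕ) = v α := by
  rw [toPol_apply, dif_pos α.2]

theorem toPol_mem {m : ℕ} (v : degLe d m → V) : toPol m v ∈ polLe d V m := by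
  intro α hα
  rw [toPol_apply, dif_neg]
  rw [mem_degLe]
  omega

theorem toPol_injective (m : ℕ) : Function.Injective (toPol m : (degLe d m → V) →ₗ[ℂ] Pol d V) :=
  fun v w h => by
    funext α
    rw [← toPol_apply_coe v α, ← toPol_apply_coe w α, h]

theorem exists_toPol {m : ℕ} {f : Pol d V} (h : f ∈ polLe d V m) :
    toPol m (fun α => f α) = f := by
  ext α
  rw [toPol_apply]
  split_ifs with h1
  · rfl
  · rw [mem_degLe, not_le] at h1
    rw [h α h1]

theorem mem_Wsp {M : Submodule ℂ (Pol d V)} {m : ℕ} {v : degLe d m → V} :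
    v ∈ Wsp M m ↔ toPol m v ∈ M := Iff.rfl

/-- an element of `M_{≤ m}`, as an element of `Wsp M m` -/
theorem exists_Wsp {M : Submodule ℂ (Pol d V)} {m : ℕ} {f : Pol d V}
    (h : f ∈ M ⊓ polLe d V m) : ∃ q : Wsp M m, toPol m (q : degLe d m → V) = f := by
  refine ⟨⟨fun α => f α, ?_⟩, exists_toPol h.2⟩
  rw [mem_Wsp, exists_toPol h.2]
  exact h.1

/-! ### sums of powers of the degree -/

theorem hasSum_pow_deg {s : ℝ} (h0 : 0 ≤ s) (h1 : s < 1) :
    ∀ d : ℕ, HasSum (fun γ : Fin d → ℕ => s ^ deg γ) (((1 - s)⁻¹) ^ d) := by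
  intro d
  induction d with
  | zero =>
    simp [deg]
  | succ d ih =>
    have hg := hasSum_geometric_of_lt_one h0 h1
    have hp1 : 0 ≤ fun n : ℕ => s ^ n := fun n => pow_nonneg h0 n
    have hp2 : 0 ≤ fun γ : Fin d → ℕ => s ^ deg γ := fun γ => pow_nonneg h0 (deg γ)
    have hsum := Summable.mul_of_nonneg hg.summable ih.summable hp1 hp2
    have hm := hg.mul ih hsum
    let e : (ℕ × (Fin d → ℕ)) ≃ (Fin (d + 1) → ℕ) := Fin.consEquiv fun _ => ℕ
    rw [← e.hasSum_iff, pow_succ']
    have hfun : (fun γ : Fin (d + 1) → ℕ => s ^ deg γ) ∘ e =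
        fun x : ℕ × (Fin d → ℕ) => s ^ x.1 * s ^ deg x.2 := by
      funext x
      obtain ⟨n, γ⟩ := x
      have he : e (n, γ) = Fin.cons n γ := rfl
      simp only [Function.comp_apply, he, deg, Fin.sum_univ_succ, pow_add, Fin.cons_zero,
        Fin.cons_succ]
    rw [hfun]
    exact hm

theorem summable_pow_deg {s : ℝ} (h0 : 0 ≤ s) (h1 : s < 1) :
    Summable fun γ : Fin d → ℕ => s ^ deg γ := (hasSum_pow_deg h0 h1 d).summable

theorem tsum_pow_deg {s : ℝ} (h0 : 0 ≤ s) (h1 : s < 1) :
    ∑' γ : Fin d → ℕ, s ^ deg γ = ((1 - s)⁻¹) ^ d := (hasSum_pow_deg h0 h1 d).tsum_eq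

theorem ev_toPol {m : ℕ} (z : Fin d → ℂ) (v : degLe d m → V) :
    ev z (toPol m v) = ∑ α : degLe d m, mon z α • v α := by
  unfold toPol
  rw [LinearMap.sum_apply, map_sum]
  refine Finset.sum_congr rfl fun α _ => ?_
  rw [LinearMap.comp_apply, LinearMap.proj_apply, Finsupp.lsingle_apply, ev_single]

theorem continuous_binc (α β : Fin d → ℕ) : Continuous fun a : Fin d → ℂ => binc a α β := by
  unfold binc
  fun_prop

open Classical in
theorem recentre_toPol_apply {m : ℕ} (z : Fin d → ℂ) (v : degLe d m → V) (β : Fin d → ℕ) :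
    recentre z (toPol m v) β =
      ∑ α : degLe d m, (if β ≤ α.1 then binc z α.1 β else 0) • v α := by
  classical
  unfold toPol
  rw [LinearMap.sum_apply, map_sum, Finsupp.finsetSum_apply]
  refine Finset.sum_congr rfl fun α _ => ?_
  rw [LinearMap.comp_apply, LinearMap.proj_apply, Finsupp.lsingle_apply, recentre_apply]
  refine (Finsupp.sum_single_index (by simp)).trans ?_
  split_ifs <;> simp

end PB

/-! ### the weighted norms of the coefficients -/

section l1norm

variable {V : Type u} [NormedAddCommGroup V]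

theorem l1_def (t : ℝ) (f : Pol d V) : l1 t f = ∑ γ ∈ f.support, t ^ deg γ * ‖f γ‖ := rfl

theorem l1_nonneg {t : ℝ} (ht : 0 ≤ t) (f : Pol d V) : 0 ≤ l1 t f :=
  Finset.sum_nonneg fun _ _ => mul_nonneg (pow_nonneg ht _) (norm_nonneg _)

theorem l1_zero (t : ℝ) : l1 t (0 : Pol d V) = 0 := by simp [l1_def]

theorem l1_summable (t : ℝ) (f : Pol d V) : Summable fun γ => t ^ deg γ * ‖f γ‖ :=
  summable_of_ne_finset_zero (s := f.support) fun γ hγ => by
    rw [Finsupp.notMem_support_iff.1 hγ, norm_zero, mul_zero]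

theorem l1_eq_tsum (t : ℝ) (f : Pol d V) : l1 t f = ∑' γ, t ^ deg γ * ‖f γ‖ := by
  rw [l1_def]
  refine (tsum_eq_sum fun γ hγ => ?_).symm
  rw [Finsupp.notMem_support_iff.1 hγ, norm_zero, mul_zero]

theorem l1_eq_sum (t : ℝ) (f : Pol d V) {s : Finset (Fin d → ℕ)} (hs : f.support ⊆ s) :
    l1 t f = ∑ γ ∈ s, t ^ deg γ * ‖f γ‖ :=
  Finset.sum_subset hs fun γ _ hγ => by
    simp only [Finsupp.notMem_support_iff.1 hγ, norm_zero, mul_zero]

theorem l1_single (t : ℝ) (α : Fin d → ℕ) (v : V) :
    l1 t (Finsupp.single α v : Pol d V) = t ^ deg α * ‖v‖ := by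
  unfold l1
  exact Finsupp.sum_single_index (by rw [norm_zero, mul_zero])

theorem l1_add_le {t : ℝ} (ht : 0 ≤ t) (f g : Pol d V) : l1 t (f + g) ≤ l1 t f + l1 t g := by
  classical
  rw [l1_eq_sum t (f + g) (s := f.support ∪ g.support) Finsupp.support_add,
    l1_eq_sum t f Finset.subset_union_left, l1_eq_sum t g Finset.subset_union_right,
    ← Finset.sum_add_distrib]
  refine Finset.sum_le_sum fun γ _ => ?_
  rw [Finsupp.add_apply, ← mul_add]
  exact mul_le_mul_of_nonneg_left (norm_add_le _ _) (pow_nonneg ht _)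

theorem l1_neg (t : ℝ) (f : Pol d V) : l1 t (-f) = l1 t f := by
  rw [l1_def, l1_def, Finsupp.support_neg]
  exact Finset.sum_congr rfl fun γ _ => by rw [Finsupp.neg_apply, norm_neg]

theorem l1_sub_le {t : ℝ} (ht : 0 ≤ t) (f g : Pol d V) : l1 t (f - g) ≤ l1 t f + l1 t g := by
  rw [sub_eq_add_neg, ← l1_neg t g]
  exact l1_add_le ht f (-g)

theorem l1_sum_le {t : ℝ} (ht : 0 ≤ t) {ι : Type*} (s : Finset ι) (f : ι → Pol d V) :
    l1 t (∑ i ∈ s, f i) ≤ ∑ i ∈ s, l1 t (f i) := by
  classical
  induction s using Finset.induction_on with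
  | empty => simp [l1_zero]
  | insert i s hi ih =>
    rw [Finset.sum_insert hi, Finset.sum_insert hi]
    exact (l1_add_le ht _ _).trans (by gcongr)

theorem l1_smul [NormedSpace ℂ V] (t : ℝ) (c : ℂ) (f : Pol d V) : l1 t (c • f) = ‖c‖ * l1 t f := by
  classical
  rw [l1_eq_sum t (c • f) Finsupp.support_smul, l1_def, Finset.mul_sum]
  refine Finset.sum_congr rfl fun γ _ => ?_
  rw [Finsupp.smul_apply, norm_smul]
  ring

theorem l1_mono {s t : ℝ} (hs : 0 ≤ s) (hst : s ≤ t) (f : Pol d V) : l1 s f ≤ l1 t f :=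
  Finset.sum_le_sum fun _ _ =>
    mul_le_mul_of_nonneg_right (pow_le_pow_left₀ hs hst _) (norm_nonneg _)

theorem norm_coeff_le_l1 {t : ℝ} (ht : 0 ≤ t) (f : Pol d V) (γ : Fin d → ℕ) :
    t ^ deg γ * ‖f γ‖ ≤ l1 t f := by
  by_cases h : γ ∈ f.support
  · exact Finset.single_le_sum (f := fun γ => t ^ deg γ * ‖f γ‖)
      (fun _ _ => mul_nonneg (pow_nonneg ht _) (norm_nonneg _)) h
  · rw [Finsupp.notMem_support_iff.1 h, norm_zero, mul_zero]
    exact l1_nonneg ht f

theorem l1_shift [NormedSpace ℂ V] (t : ℝ) (γ : Fin d → ℕ) (f : Pol d V) :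
    l1 t (shift γ f) = t ^ deg γ * l1 t f := by
  rw [shift_def]
  unfold l1
  rw [Finsupp.sum_mapDomain_index_inj (add_left_inj_pol γ), Finsupp.sum, Finsupp.sum,
    Finset.mul_sum]
  refine Finset.sum_congr rfl fun α _ => ?_
  rw [deg_add, pow_add]
  ring

theorem norm_ev_le_l1 [NormedSpace ℂ V] (z : Fin d → ℂ) (f : Pol d V) :
    ‖ev z f‖ ≤ l1 ‖z‖ f := by
  rw [ev_apply, Finsupp.sum]
  refine (norm_sum_le _ _).trans (Finset.sum_le_sum fun γ _ => ?_)
  rw [norm_smul]
  exact mul_le_mul_of_nonneg_right (norm_mon_le z γ) (norm_nonneg _)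

end l1norm

end Pool.Agent.Lib.MP_15f9af_an.AD
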