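import Mathlib
import Pool.Agent.Lib.MP_15f9af_an.AD.Defs
import Pool.Agent.Lib.MP_15f9af_an.AD.PolBasic
import Pool.Agent.Lib.MP_15f9af_an.AD.Division

/-!
# The next level of the tower
-/

namespace Pool.Agent.Lib.MP_15f9af_an.AD

open scoped ENNReal NNReal
open MeasureTheory

universe u v

variable {d : ℕ}

section level
variable {E : Type u} {V : Type u} [NormedAddCommGroup E] [NormedSpace ℂ E]
  [FiniteDimensional ℂ E] [NormedAddCommGroup V] [NormedSpace ℂ V] [FiniteDimensional ℂ V]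

theorem lv_mem_relM {M : Submodule ℂ (Pol d E)} {m : ℕ} {c : Pol d (Wsp M m)} :
    c ∈ relM M m ↔ ∀ z, Dop M m z (ev z c) = 0 := Iff.rfl

theorem lv_Dop_apply (M : Submodule ℂ (Pol d E)) (m : ℕ) (z : Fin d → ℂ) (v : Wsp M m) :
    Dop M m z v = ev z (toPol m (v : degLe d m → E)) := rfl

theorem lv_tauNext_apply (τ : (Fin d → ℂ) → E →L[ℂ] V) (M : Submodule ℂ (Pol d E)) (m : ℕ)
    (z : Fin d → ℂ) (v : Wsp M m) (β : degLe d m) :
    tauNext τ M m z v β = τ z (recentre z (toPol m (v : degLe d m → E)) β) := rfl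

theorem lv_ev_eq_sum {F : Type*} [AddCommGroup F] [Module ℂ F] (w : Fin d → ℂ) (c : Pol d F)
    {s : Finset (Fin d → ℕ)} (hs : c.support ⊆ s) : ev w c = ∑ γ ∈ s, mon w γ • c γ := by
  rw [show ev w c = c.sum fun γ v => mon w γ • v from rfl, Finsupp.sum_of_support_subset _ hs]
  intro γ _
  simp

theorem isMod_relM (M : Submodule ℂ (Pol d E)) (m : ℕ) : IsMod (relM M m) := by
  intro γ f hf z
  rw [ev_shift, map_smul, lv_mem_relM.1 hf z, smul_zero]

theorem lv_norm_binc_le (a : Fin d → ℂ) {α β : Fin d → ℕ} :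
    ‖binc a α β‖ ≤ 2 ^ deg α * (1 + ‖a‖) ^ deg α := by
  unfold binc deg
  rw [norm_prod, ← mul_pow, ← Finset.prod_pow_eq_pow_sum]
  refine Finset.prod_le_prod (fun j _ => norm_nonneg _) fun j _ => ?_
  rw [norm_mul, norm_pow, mul_pow, Complex.norm_natCast]
  have h1 : ((α j).choose (β j) : ℝ) ≤ 2 ^ α j := by
    exact_mod_cast Nat.choose_le_two_pow (α j) (β j)
  have h2 : ‖a j‖ ^ (α j - β j) ≤ (1 + ‖a‖) ^ α j := by
    have h3 : ‖a j‖ ≤ 1 + ‖a‖ := (norm_le_pi_norm a j).trans (by linarith)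
    refine (pow_le_pow_left₀ (norm_nonneg _) h3 _).trans ?_
    exact pow_le_pow_right₀ (by linarith [norm_nonneg a]) (Nat.sub_le _ _)
  exact mul_le_mul h1 h2 (by positivity) (by positivity)

open Classical in
theorem lv_recentre_apply_polLe {m : ℕ} {f : Pol d E} (hf : f ∈ polLe d E m) (a : Fin d → ℂ)
    (β : Fin d → ℕ) :
    recentre a f β = ∑ α ∈ degLe d m, if β ≤ α then binc a α β • f α else 0 := by
  rw [recentre_apply, Finsupp.sum_of_support_subset]
  · intro α hα
    rw [Finsupp.mem_support_iff] at hα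
    rw [mem_degLe]
    by_contra h
    exact hα (hf α (by omega))
  · intro α _
    split_ifs <;> simp

theorem lv_continuous_recentre (f : Pol d E) (β : Fin d → ℕ) :
    Continuous fun z : Fin d → ℂ => recentre z f β := by
  classical
  simp_rw [recentre_apply]
  unfold Finsupp.sum
  refine continuous_finsetSum _ fun α _ => ?_
  show Continuous fun z => if β ≤ α then binc z α β • f α else 0
  split_ifs with h
  · refine Continuous.smul ?_ continuous_const
    unfold binc
    fun_prop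
  · exact continuous_const

theorem lv_norm_recentre_le {τ : (Fin d → ℂ) → E →L[ℂ] V} {A : ℝ} {e : ℕ} (hA : 0 ≤ A)
    (hg : ∀ z w v, ‖τ z v‖ ≤ A * (1 + ‖z - w‖) ^ e * ‖τ w v‖) {m : ℕ} {f : Pol d E}
    (hf : f ∈ polLe d E m) (z w : Fin d → ℂ) {S : ℝ}
    (hS : ∀ α ∈ degLe d m, ‖τ w (f α)‖ ≤ S) (hS0 : 0 ≤ S) (β : Fin d → ℕ) :
    ‖τ z (recentre (z - w) f β)‖ ≤
      ((degLe d m).card * 2 ^ m * A) * (1 + ‖z - w‖) ^ (m + e) * S := by
  classical
  rw [lv_recentre_apply_polLe hf, map_sum]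
  refine (norm_sum_le _ _).trans ?_
  have h1 : ∀ α ∈ degLe d m, ‖τ z (if β ≤ α then binc (z - w) α β • f α else 0)‖ ≤
      2 ^ m * (1 + ‖z - w‖) ^ m * (A * (1 + ‖z - w‖) ^ e * S) := by
    intro α hα
    split_ifs with h
    · rw [map_smul, norm_smul]
      have h2 : ‖binc (z - w) α β‖ ≤ 2 ^ m * (1 + ‖z - w‖) ^ m := by
        refine (lv_norm_binc_le (z - w)).trans ?_
        have hα' := mem_degLe.1 hα
        have h3 : (2 : ℝ) ^ deg α ≤ 2 ^ m := pow_le_pow_right₀ (by norm_num) hα'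
        have h4 : (1 + ‖z - w‖) ^ deg α ≤ (1 + ‖z - w‖) ^ m :=
          pow_le_pow_right₀ (by linarith [norm_nonneg (z - w)]) hα'
        exact mul_le_mul h3 h4 (by positivity) (by positivity)
      refine mul_le_mul h2 ?_ (norm_nonneg _) (by positivity)
      refine (hg z w _).trans ?_
      exact mul_le_mul_of_nonneg_left (hS α hα) (by positivity)
    · rw [map_zero, norm_zero]
      positivity
  refine (Finset.sum_le_card_nsmul _ _ _ h1).trans (le_of_eq ?_)
  rw [nsmul_eq_mul, pow_add]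
  ring

theorem moderate_tauNext {τ : (Fin d → ℂ) → E →L[ℂ] V} (hτ : Moderate τ)
    (M : Submodule ℂ (Pol d E)) (m : ℕ) : Moderate (tauNext τ M m) := by
  classical
  refine ⟨?_, ?_, ?_⟩
  · rw [continuous_clm_apply]
    intro v
    refine continuous_pi fun β => ?_
    exact hτ.cont.clm_apply (lv_continuous_recentre _ _)
  · obtain ⟨A, e, hA, hg⟩ := hτ.growth
    refine ⟨(degLe d m).card * 2 ^ m * A, m + e, by positivity, fun z w v => ?_⟩
    refine (pi_norm_le_iff_of_nonneg (by positivity)).2 fun β => ?_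
    rw [lv_tauNext_apply]
    have h1 : recentre z (toPol m (v : degLe d m → E)) =
        recentre (z - w) (recentre w (toPol m (v : degLe d m → E))) := by
      rw [recentre_recentre, sub_add_cancel]
    rw [h1]
    refine lv_norm_recentre_le hA hg (recentre_polLe (toPol_mem _)) z w ?_ (norm_nonneg _) _
    intro α hα
    have := norm_le_pi_norm (tauNext τ M m w v) ⟨α, hα⟩
    rwa [lv_tauNext_apply] at this
  · obtain ⟨c, hc, hinj⟩ := hτ.inj
    refine ⟨c, hc, fun v => ?_⟩
    have h0 : ‖v‖ = ‖(v : degLe d m → E)‖ := rfl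
    rw [h0]
    refine (pi_norm_le_iff_of_nonneg (by positivity)).2 fun β => ?_
    refine (hinj _).trans (mul_le_mul_of_nonneg_left ?_ hc)
    have h1 := norm_le_pi_norm (tauNext τ M m 0 v) β
    rw [lv_tauNext_apply, recentre_zero, toPol_apply, dif_pos β.2] at h1
    exact h1

theorem lv_hol_mon (α : Fin d → ℕ) (z : Fin d → ℂ) (i : Fin d) :
    DifferentiableAt ℂ (fun x => mon (Function.update z i x) α) (z i) := by
  classical
  unfold mon
  refine DifferentiableAt.fun_finsetProd fun j _ => ?_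
  refine DifferentiableAt.pow ?_ _
  by_cases h : j = i
  · subst h
    simp
  · simp [Function.update_of_ne h]

theorem lv_continuous_mon (α : Fin d → ℕ) : Continuous fun z : Fin d → ℂ => mon z α := by
  unfold mon
  fun_prop

theorem lv_hol_sum {ι F : Type*} [NormedAddCommGroup F] [NormedSpace ℂ F] (A : Finset ι)
    (s : ι → Fin d → ℕ) (c : ι → F) :
    Hol (fun z : Fin d → ℂ => ∑ α ∈ A, mon z (s α) • c α) Set.univ := by
  refine ⟨?_, fun z _ i => ?_⟩
  · refine Continuous.continuousOn ?_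
    refine continuous_finsetSum _ fun α _ => ?_
    exact (lv_continuous_mon _).smul continuous_const
  · refine DifferentiableAt.fun_sum fun α _ => ?_
    exact (lv_hol_mon _ z i).smul_const _

theorem lv_Dop_eq (M : Submodule ℂ (Pol d E)) (m : ℕ) (z : Fin d → ℂ) :
    Dop M m z = ∑ α : degLe d m, mon z α • (LinearMap.toContinuousLinearMap
      ((LinearMap.proj α : (degLe d m → E) →ₗ[ℂ] E) ∘ₗ (Wsp M m).subtype)) := by
  ext v
  rw [lv_Dop_apply, sum_apply]
  unfold toPol
  rw [LinearMap.sum_apply, map_sum]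
  refine Finset.sum_congr rfl fun α _ => ?_
  simp [ev_single]

theorem hol_Dop (M : Submodule ℂ (Pol d E)) (m : ℕ) : Hol (Dop M m) Set.univ := by
  have h : Dop M m = fun z => ∑ α : degLe d m, mon z α • (LinearMap.toContinuousLinearMap
      ((LinearMap.proj α : (degLe d m → E) →ₗ[ℂ] E) ∘ₗ (Wsp M m).subtype)) := by
    funext z
    exact lv_Dop_eq M m z
  rw [h]
  exact lv_hol_sum Finset.univ _ _

theorem Dop_le (τ : (Fin d → ℂ) → E →L[ℂ] V) (M : Submodule ℂ (Pol d E)) (m : ℕ)
    (z : Fin d → ℂ) (v : Wsp M m) : ‖τ z (Dop M m z v)‖ ≤ ‖tauNext τ M m z v‖ := by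
  have h0 : (0 : Fin d → ℕ) ∈ degLe d m := by
    rw [mem_degLe]
    simp [deg]
  have h1 := norm_le_pi_norm (tauNext τ M m z v) ⟨0, h0⟩
  rw [lv_tauNext_apply, recentre_apply_zero] at h1
  exact h1

theorem Dop_Dop (M : Submodule ℂ (Pol d E)) (m m' : ℕ) (z : Fin d → ℂ)
    (v : Wsp (relM M m) m') : Dop M m z (Dop (relM M m) m' z v) = 0 := by
  have h : toPol m' (v : degLe d m' → Wsp M m) ∈ relM M m := v.2
  exact lv_mem_relM.1 h z

theorem lv_tau_injective {τ : (Fin d → ℂ) → E →L[ℂ] V} (hτ : Moderate τ) (a : Fin d → ℂ) :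
    Function.Injective (τ a : E →ₗ[ℂ] V) := by
  obtain ⟨A, e, hA, hg⟩ := hτ.growth
  obtain ⟨c, hc, hinj⟩ := hτ.inj
  rw [← LinearMap.ker_eq_bot, LinearMap.ker_eq_bot']
  intro v hv
  have hv' : τ a v = 0 := hv
  have h1 := hg 0 a v
  rw [hv', norm_zero, mul_zero] at h1
  have h2 := hinj v
  have h3 : ‖v‖ ≤ 0 := h2.trans (by
    have : ‖τ 0 v‖ = 0 := le_antisymm h1 (norm_nonneg _)
    rw [this, mul_zero])
  exact norm_le_zero_iff.1 h3

theorem lv_norm_le_l1 (f : Pol d V) (β : Fin d → ℕ) : ‖f β‖ ≤ l1 1 f := by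
  unfold l1 Finsupp.sum
  by_cases h : β ∈ f.support
  · have := Finset.single_le_sum (f := fun α => (1 : ℝ) ^ deg α * ‖f α‖)
      (fun i _ => by positivity) h
    simpa using this
  · rw [Finsupp.notMem_support_iff] at h
    rw [h, norm_zero]
    exact Finset.sum_nonneg fun i _ => by positivity

/-- uniform division at every point `a`, for one module -/
theorem division_at {τ : (Fin d → ℂ) → E →L[ℂ] V} (hτ : Moderate τ) {M : Submodule ℂ (Pol d E)}
    (hM : IsMod M) : ∃ (m : ℕ) (r C : ℝ), 0 < r ∧ r ≤ 1 ∧ 0 ≤ C ∧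
      ∀ (a : Fin d → ℂ) (t : ℝ), 0 < t → t ≤ 1 → ∀ f ∈ M, ∃ c : Pol d (Wsp M m),
        (∀ w, Dop M m (a + w) (ev w c) = ev (a + w) f) ∧
        (c.sum fun γ q => (r * t) ^ deg γ * ‖tauNext τ M m a q‖) ≤
          C / t ^ m * l1 t (mapc (τ a : E →ₗ[ℂ] V) (recentre a f)) := by
  classical
  obtain ⟨m, r, C, hr0, hr1, hC, hUD⟩ := uniform_division d V
    (fun n => Module.finrank ℂ ↥(M ⊓ polLe d E n))
  refine ⟨m, r, C, hr0, hr1, hC, fun a t ht0 ht1 f hf => ?_⟩
  set L : E →ₗ[ℂ] V := (τ a : E →ₗ[ℂ] V) with hL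
  have hLinj : Function.Injective L := lv_tau_injective hτ a
  have hmapinj : Function.Injective (mapc L : Pol d E →ₗ[ℂ] Pol d V) := by
    intro p q hpq
    ext α
    have := DFunLike.congr_fun hpq α
    simp only [mapc, Finsupp.mapRange.linearMap_apply, Finsupp.mapRange_apply] at this
    exact hLinj this
  obtain ⟨c, hc1, hc2, hc3⟩ := hUD (M.map (mapc L ∘ₗ recentre a)) (isMod_map_recentre hM L a)
    (fun n => finrank_map_recentre M hLinj a n) t ht0 ht1
    (mapc L (recentre a f)) ⟨f, hf, rfl⟩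
  -- the preimages of the quotients
  have hex : ∀ γ, ∃ v : Wsp M m, mapc L (recentre a (toPol m (v : degLe d m → E))) = c γ := by
    intro γ
    obtain ⟨⟨q, hqM, hq⟩, hle⟩ := hc1 γ
    have hq' : mapc L (recentre a q) = c γ := hq
    have hle' : recentre a q ∈ polLe d E m := by
      intro α hα
      have h1 : c γ α = 0 := hle α hα
      rw [← hq'] at h1
      simp only [mapc, Finsupp.mapRange.linearMap_apply, Finsupp.mapRange_apply] at h1
      exact hLinj (by rw [h1, map_zero])
    have hle2 : q ∈ polLe d E m := by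
      have h2 : recentre (-a) (recentre a q) ∈ polLe d E m := recentre_polLe hle'
      rwa [recentre_recentre, neg_add_cancel, recentre_zero] at h2
    have h3 := exists_toPol hle2
    refine ⟨⟨fun α => q α, ?_⟩, ?_⟩
    · show toPol m (fun α : degLe d m => q α) ∈ M
      rw [h3]
      exact hqM
    · show mapc L (recentre a (toPol m (fun α : degLe d m => q α))) = c γ
      rw [h3]
      exact hq'
  choose v hv using hex
  have hv0 : ∀ γ, v γ ≠ 0 → γ ∈ c.support := by
    intro γ hγ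
    rw [Finsupp.mem_support_iff]
    intro h0
    apply hγ
    have h1 := hv γ
    rw [h0] at h1
    have h2 : recentre a (toPol m (v γ : degLe d m → E)) = 0 := hmapinj (by rw [h1, map_zero])
    have h3 : toPol m (v γ : degLe d m → E) = 0 := by
      have h4 : recentre (-a) (recentre a (toPol m (v γ : degLe d m → E))) = 0 := by
        rw [h2, map_zero]
      rwa [recentre_recentre, neg_add_cancel, recentre_zero] at h4
    apply Subtype.ext
    funext α
    have h5 := DFunLike.congr_fun h3 (α : Fin d → ℕ)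
    rw [toPol_apply, dif_pos α.2] at h5
    exact h5
  set c' : Pol d (Wsp M m) := Finsupp.onFinset c.support v hv0 with hc'
  have hsub : c'.support ⊆ c.support := Finsupp.support_onFinset_subset
  have hc'apply : ∀ γ, c' γ = v γ := fun γ => rfl
  refine ⟨c', fun w => ?_, ?_⟩
  · apply hLinj
    have h1 : ev w c' = ∑ γ ∈ c.support, mon w γ • v γ := lv_ev_eq_sum w c' hsub
    have h2 : ∀ γ, L (Dop M m (a + w) (v γ)) = ev w (c γ) := by
      intro γ
      rw [lv_Dop_apply, ← ev_recentre, ← ev_mapc, hv γ]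
    have h3 : ev w (c.sum fun γ q => shift γ q) = ∑ γ ∈ c.support, mon w γ • ev w (c γ) := by
      unfold Finsupp.sum
      rw [map_sum]
      exact Finset.sum_congr rfl fun γ _ => ev_shift _ _ _
    rw [h1, map_sum, map_sum, ← ev_recentre, ← ev_mapc, ← hc2, h3]
    refine Finset.sum_congr rfl fun γ _ => ?_
    rw [map_smul, map_smul, h2]
  · refine le_trans ?_ hc3
    rw [Finsupp.sum_of_support_subset _ hsub _ (by intro γ _; simp)]
    unfold Finsupp.sum
    refine Finset.sum_le_sum fun γ _ => ?_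
    refine mul_le_mul_of_nonneg_left ?_ (by positivity)
    refine (pi_norm_le_iff_of_nonneg ?_).2 fun β => ?_
    · unfold l1 Finsupp.sum
      exact Finset.sum_nonneg fun i _ => by positivity
    · rw [lv_tauNext_apply, hc'apply, ← hv γ]
      have h6 := lv_norm_le_l1 (mapc L (recentre a (toPol m (v γ : degLe d m → E)))) β
      simp only [mapc, Finsupp.mapRange.linearMap_apply, Finsupp.mapRange_apply] at h6 ⊢
      exact h6

end level

namespace Level

/-- the degree chosen at a level -/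
noncomputable def m (X : Level.{u} d) : ℕ := Classical.choose (division_at X.hτ X.hM)

theorem m_spec (X : Level.{u} d) : ∃ (r C : ℝ), 0 < r ∧ r ≤ 1 ∧ 0 ≤ C ∧
      ∀ (a : Fin d → ℂ) (t : ℝ), 0 < t → t ≤ 1 → ∀ f ∈ X.M, ∃ c : Pol d (Wsp X.M X.m),
        (∀ w, Dop X.M X.m (a + w) (ev w c) = ev (a + w) f) ∧
        (c.sum fun γ q => (r * t) ^ deg γ * ‖tauNext X.τ X.M X.m a q‖) ≤
          C / t ^ X.m * l1 t (mapc (X.τ a : X.E →ₗ[ℂ] X.V) (recentre a f)) :=
  Classical.choose_spec (division_at X.hτ X.hM)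

end Level

end Pool.Agent.Lib.MP_15f9af_an.AD
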