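import Mathlib
import Pool.Agent.Lib.MP_15f9af_an.AD.Defs

/-!
# Arveson–Douglas, module M2: holomorphic functions of several variables

`Hol F Ω`: `F` is continuous on `Ω` and holomorphic in each variable separately.
-/

namespace Pool.Agent.Lib.MP_15f9af_an.AD

open Filter Topology MeasureTheory Metric

variable {d : ℕ} {X : Type*} [NormedAddCommGroup X] [NormedSpace ℂ X]

/-! ### holomorphic parameter integrals -/

/-- a bounded holomorphic family has bounded derivatives -/
lemma norm_deriv_le_of_bound {f : ℂ → X} {x₀ : ℂ} {ρ B : ℝ} (hρ : 0 < ρ)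
    (hd : DifferentiableOn ℂ f (ball x₀ ρ)) (hb : ∀ x ∈ ball x₀ ρ, ‖f x‖ ≤ B) {x : ℂ}
    (hx : x ∈ ball x₀ (ρ / 2)) : ‖deriv f x‖ ≤ B / (ρ / 4) := by
  have hsub : closedBall x (ρ / 4) ⊆ ball x₀ ρ := by
    intro y hy
    rw [mem_ball] at *
    rw [mem_closedBall] at hy
    calc dist y x₀ ≤ dist y x + dist x x₀ := dist_triangle _ _ _
      _ < ρ := by linarith
  refine Complex.norm_deriv_le_of_forall_mem_sphere_norm_le (by positivity) ?_ fun z hz =>
    hb z (hsub (sphere_subset_closedBall hz))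
  exact (hd.mono (closure_ball_subset_closedBall.trans hsub)).diffContOnCl

lemma differentiableAt_integral [CompleteSpace X] {α : Type*} [MeasurableSpace α] {μ : Measure α}
    {f : ℂ → α → X} {x₀ : ℂ} {ρ : ℝ} (hρ : 0 < ρ) {bound : α → ℝ}
    (hmeas : ∀ x ∈ ball x₀ ρ, AEStronglyMeasurable (f x) μ)
    (hd : ∀ᵐ a ∂μ, DifferentiableOn ℂ (fun x => f x a) (ball x₀ ρ))
    (hb : ∀ᵐ a ∂μ, ∀ x ∈ ball x₀ ρ, ‖f x a‖ ≤ bound a) (hbi : Integrable bound μ) :
    DifferentiableAt ℂ (fun x => ∫ a, f x a ∂μ) x₀ := by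
  have hx₀ : x₀ ∈ ball x₀ ρ := mem_ball_self hρ
  have h2 : ball x₀ (ρ / 2) ∈ 𝓝 x₀ := ball_mem_nhds _ (by positivity)
  have hsub : ball x₀ (ρ / 2) ⊆ ball x₀ ρ := ball_subset_ball (by linarith)
  refine (hasDerivAt_integral_of_dominated_loc_of_deriv_le (F' := fun x a => deriv (fun x => f x a) x)
    (bound := fun a => bound a / (ρ / 4)) h2 ?_ ?_ ?_ ?_ (hbi.div_const _) ?_).2.differentiableAt
  · filter_upwards [ball_mem_nhds x₀ hρ] with x hx using hmeas x hx
  · exact hbi.mono' (hmeas x₀ hx₀) (hb.mono fun a ha => ha x₀ hx₀)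
  · -- the derivative is a limit of difference quotients
    set u : ℕ → ℂ := fun n => ((ρ / (n + 2) : ℝ) : ℂ) with hu
    have hun : ∀ n, x₀ + u n ∈ ball x₀ ρ := fun n => by
      rw [mem_ball, dist_eq_norm, add_sub_cancel_left, hu, Complex.norm_real, Real.norm_eq_abs,
        abs_of_pos (by positivity)]
      rw [div_lt_iff₀ (by positivity)]
      nlinarith [(Nat.cast_nonneg n : (0 : ℝ) ≤ n)]
    have hu0 : ∀ n, u n ≠ 0 := fun n => by
      simp only [hu, ne_eq, Complex.ofReal_eq_zero]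
      positivity
    have hut : Tendsto u atTop (𝓝 0) := by
      have h1 : Tendsto (fun n : ℕ => ρ / (n + 2)) atTop (𝓝 0) :=
        Tendsto.div_atTop tendsto_const_nhds
          (tendsto_atTop_add_const_right _ _ tendsto_natCast_atTop_atTop)
      have h3 := (Complex.continuous_ofReal.tendsto 0).comp h1
      rw [Complex.ofReal_zero] at h3
      exact h3
    refine aestronglyMeasurable_of_tendsto_ae atTop
      (f := fun n a => (u n)⁻¹ • (f (x₀ + u n) a - f x₀ a)) (fun n => ?_) ?_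
    · exact ((hmeas _ (hun n)).sub (hmeas _ hx₀)).const_smul _
    · filter_upwards [hd] with a ha
      have h3 := (ha.differentiableAt (isOpen_ball.mem_nhds hx₀)).hasDerivAt
      have h4 := h3.tendsto_slope_zero
      refine h4.comp (tendsto_nhdsWithin_iff.mpr ⟨hut, Eventually.of_forall fun n => hu0 n⟩)
  · filter_upwards [hd, hb] with a ha hba x hx
    exact norm_deriv_le_of_bound hρ ha hba hx
  · filter_upwards [hd] with a ha x hx
    exact (ha.differentiableAt (isOpen_ball.mem_nhds (hsub hx))).hasDerivAt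

/-! ### multi-geometric series -/

lemma ty_summable_prod_pow {ρ : Fin d → ℝ} (h0 : ∀ i, 0 ≤ ρ i) (h1 : ∀ i, ρ i < 1) :
    Summable (fun g : Fin d → ℕ => ∏ i, ρ i ^ g i) := by
  induction d with
  | zero => exact Summable.of_finite
  | succ d ih =>
    have h2 := ih (ρ := Fin.tail ρ) (fun i => h0 _) (fun i => h1 _)
    have h3 := summable_geometric_of_lt_one (h0 0) (h1 0)
    have h4 := h3.mul_of_nonneg h2 (fun n => pow_nonneg (h0 0) n)
      (fun g => Finset.prod_nonneg fun i _ => pow_nonneg (h0 _) _)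
    rw [← (Fin.consEquiv (fun _ => ℕ)).summable_iff]
    refine h4.congr fun p => ?_
    simp only [Function.comp, Fin.consEquiv, Equiv.coe_fn_mk, Fin.prod_univ_succ, Fin.cons_zero,
      Fin.cons_succ, Fin.tail]

/-! ### Taylor expansion -/

lemma cons_mem_ball {a : Fin (d + 1) → ℂ} {t : ℝ} {x : ℂ} {z : Fin d → ℂ} (hx : x ∈ ball (a 0) t)
    (hz : z ∈ ball (Fin.tail a) t) (ht : 0 < t) : (Fin.cons x z : (Fin (d + 1) → ℂ)) ∈ ball a t := by
  rw [mem_ball, dist_pi_lt_iff ht] at *
  intro i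
  refine Fin.cases ?_ (fun i => ?_) i
  · simpa using hx
  · simpa [Fin.tail] using hz i

/-- the `k`-th Taylor coefficient in the first variable -/
noncomputable def coeff0 (F : (Fin (d + 1) → ℂ) → X) (a : ℂ) (r : ℝ) (k : ℕ) (z : Fin d → ℂ) : X :=
  cauchyPowerSeries (fun x => F (Fin.cons x z)) a r k (fun _ => 1)

lemma coeff0_eq [CompleteSpace X] (F : (Fin (d + 1) → ℂ) → X) (a : ℂ) (r : ℝ) (k : ℕ) (z : Fin d → ℂ) :
    coeff0 F a r k z = (2 * Real.pi * Complex.I : ℂ)⁻¹ • ∫ θ in (0 : ℝ)..2 * Real.pi,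
      deriv (circleMap a r) θ • ((1 / (circleMap a r θ - a)) ^ k •
        ((circleMap a r θ - a)⁻¹ • F (Fin.cons (circleMap a r θ) z))) := by
  unfold coeff0
  rw [cauchyPowerSeries_apply]
  rfl

lemma hol_coeff0 [CompleteSpace X] {F : (Fin (d + 1) → ℂ) → X} {a : Fin (d + 1) → ℂ} {t : ℝ} {r S : ℝ}
    (hF : Hol F (ball a t)) (hS : ∀ z ∈ ball a t, ‖F z‖ ≤ S) (hr : 0 < r) (hrt : r < t) (k : ℕ) :
    Hol (coeff0 F (a 0) r k) (ball (Fin.tail a) t) ∧
      ∀ z ∈ ball (Fin.tail a) t, ‖coeff0 F (a 0) r k z‖ ≤ S * (r⁻¹) ^ k := by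
  have ht : 0 < t := hr.trans hrt
  have hcirc : ∀ θ : ℝ, circleMap (a 0) r θ ∈ ball (a 0) t := fun θ => by
    rw [mem_ball, dist_eq_norm, circleMap_sub_center, norm_circleMap_zero, abs_of_pos hr]
    exact hrt
  have hmem : ∀ z ∈ ball (Fin.tail a) t, ∀ θ : ℝ,
      (Fin.cons (circleMap (a 0) r θ) z : (Fin (d + 1) → ℂ)) ∈ ball a t := fun z hz θ =>
    cons_mem_ball (hcirc θ) hz ht
  set u : ℝ → ℂ := fun θ => deriv (circleMap (a 0) r) θ * (1 / (circleMap (a 0) r θ - a 0)) ^ k *
    (circleMap (a 0) r θ - a 0)⁻¹ with hu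
  have hne : ∀ θ : ℝ, circleMap (a 0) r θ - a 0 ≠ 0 := fun θ h => by
    have h1 := congrArg norm h
    rw [circleMap_sub_center, norm_circleMap_zero, norm_zero, abs_of_pos hr] at h1
    exact hr.ne' h1
  have huc : Continuous u := by
    have h1 : Continuous (circleMap (a 0) r) := continuous_circleMap _ _
    have h2 : Continuous (deriv (circleMap (a 0) r)) := by
      have h3 : deriv (circleMap (a 0) r) = fun θ => circleMap 0 r θ * Complex.I := by
        funext θ
        exact deriv_circleMap _ _ _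
      rw [h3]
      exact (continuous_circleMap _ _).mul continuous_const
    refine (h2.mul ?_).mul ?_
    · exact (continuous_const.div (h1.sub continuous_const) hne).pow k
    · exact (h1.sub continuous_const).inv₀ hne
  have hun : ∀ θ, ‖u θ‖ = (r⁻¹) ^ k := fun θ => by
    simp only [hu, norm_mul, norm_pow, norm_div, norm_inv, norm_one, circleMap_sub_center,
      norm_circleMap_zero, deriv_circleMap, Complex.norm_I, abs_of_pos hr, mul_one, one_div]
    field_simp
  set G : (Fin d → ℂ) → ℝ → X := fun z θ => u θ • F (Fin.cons (circleMap (a 0) r θ) z) with hG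
  have hcoef : ∀ z, coeff0 F (a 0) r k z = (2 * Real.pi * Complex.I : ℂ)⁻¹ •
      ∫ θ in Set.Ioc 0 (2 * Real.pi), G z θ := fun z => by
    rw [coeff0_eq, intervalIntegral.integral_of_le (by positivity)]
    congr 2
    funext θ
    simp only [hG, hu, smul_smul]
    congr 1
    ring
  have hGc : ∀ z ∈ ball (Fin.tail a) t, Continuous (G z) := fun z hz => by
    refine huc.smul (hF.1.comp_continuous ?_ (hmem z hz))
    exact continuous_pi fun i => by
      refine Fin.cases ?_ (fun i => ?_) i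
      · simpa using continuous_circleMap _ _
      · simpa using continuous_const
  have hGb : ∀ z ∈ ball (Fin.tail a) t, ∀ θ, ‖G z θ‖ ≤ (r⁻¹) ^ k * S := fun z hz θ => by
    simp only [hG, norm_smul, hun]
    have := hS _ (hmem z hz θ)
    gcongr
  refine ⟨⟨?_, ?_⟩, ?_⟩
  · have h1 : ContinuousOn (fun z => ∫ θ in Set.Ioc 0 (2 * Real.pi), G z θ)
        (ball (Fin.tail a) t) := by
      refine continuousOn_of_dominated (bound := fun _ => (r⁻¹) ^ k * S)
        (fun z hz => (hGc z hz).aestronglyMeasurable)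
        (fun z hz => Eventually.of_forall (hGb z hz)) ?_ (Eventually.of_forall fun θ => ?_)
      · exact integrable_const _
      · refine ContinuousOn.const_smul (ContinuousOn.comp hF.1 ?_ fun z hz => hmem z hz θ) _
        refine Continuous.continuousOn (continuous_pi fun i => ?_)
        refine Fin.cases ?_ (fun i => ?_) i
        · simpa using continuous_const
        · simpa using continuous_apply i
    have h2 : coeff0 F (a 0) r k = fun z => (2 * Real.pi * Complex.I : ℂ)⁻¹ •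
      ∫ θ in Set.Ioc 0 (2 * Real.pi), G z θ := funext hcoef
    rw [h2]
    exact h1.const_smul _
  · intro z hz i
    have h2 : (fun x => coeff0 F (a 0) r k (Function.update z i x)) =
        fun x => (2 * Real.pi * Complex.I : ℂ)⁻¹ •
      ∫ θ in Set.Ioc 0 (2 * Real.pi), G (Function.update z i x) θ := by
      funext x
      exact hcoef _
    rw [h2]
    refine DifferentiableAt.const_smul ?_ _
    have hzi := hz
    rw [mem_ball, dist_pi_lt_iff ht] at hzi
    have hup : ∀ x ∈ ball (z i) (t - dist (z i) (Fin.tail a i)),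
        Function.update z i x ∈ ball (Fin.tail a) t := by
      intro x hx
      rw [mem_ball, dist_pi_lt_iff ht]
      intro j
      by_cases hj : j = i
      · subst hj
        rw [Function.update_self]
        rw [mem_ball] at hx
        calc dist x (Fin.tail a j) ≤ dist x (z j) + dist (z j) (Fin.tail a j) :=
              dist_triangle _ _ _
          _ < t := by linarith
      · rw [Function.update_of_ne hj]
        exact hzi j
    refine differentiableAt_integral (ρ := t - dist (z i) (Fin.tail a i))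
      (by linarith [hzi i]) (bound := fun _ => (r⁻¹) ^ k * S)
      (fun x hx => (hGc _ (hup x hx)).aestronglyMeasurable)
      (Eventually.of_forall fun θ x hx => ?_)
      (Eventually.of_forall fun θ x hx => hGb _ (hup x hx) θ)
      (integrable_const _)
    refine DifferentiableAt.differentiableWithinAt (DifferentiableAt.const_smul ?_ _)
    have h3 := hF.2 _ (hmem _ (hup x hx) θ) i.succ
    simp only [← Fin.cons_update, Function.update_idem, Fin.cons_succ,
      Function.update_self] at h3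
    exact h3
  · intro z hz
    have h1 := norm_cauchyPowerSeries_le (fun x => F (Fin.cons x z)) (a 0) r k
    have h2 : ‖coeff0 F (a 0) r k z‖ ≤
        ‖cauchyPowerSeries (fun x => F (Fin.cons x z)) (a 0) r k‖ := by
      unfold coeff0
      refine (ContinuousMultilinearMap.le_opNorm _ _).trans ?_
      simp
    refine h2.trans (h1.trans ?_)
    rw [abs_of_pos hr]
    have h3 : (2 * Real.pi)⁻¹ * ∫ θ in (0 : ℝ)..2 * Real.pi,
        ‖F (Fin.cons (circleMap (a 0) r θ) z)‖ ≤ S := by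
      have h4 := intervalIntegral.norm_integral_le_of_norm_le_const (a := 0) (b := 2 * Real.pi)
        (f := fun θ => ‖F (Fin.cons (circleMap (a 0) r θ) z)‖) (C := S) (fun θ _ => by
          rw [norm_norm]
          exact hS _ (hmem z hz θ))
      rw [sub_zero, abs_of_pos (by positivity : (0 : ℝ) < 2 * Real.pi), Real.norm_eq_abs] at h4
      rw [inv_mul_le_iff₀ (by positivity), mul_comm (2 * Real.pi)]
      exact (le_abs_self _).trans h4
    gcongr

/-- the expansion in the first variable -/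
lemma hasSum_coeff0 [CompleteSpace X] {F : (Fin (d + 1) → ℂ) → X} {a : Fin (d + 1) → ℂ} {t : ℝ} {r : ℝ}
    (hF : Hol F (ball a t)) (hr : 0 < r) (hrt : r < t) {z : Fin d → ℂ} (hz : z ∈ ball (Fin.tail a) t)
    {w : ℂ} (hw : ‖w‖ < r) :
    HasSum (fun k => w ^ k • coeff0 F (a 0) r k z) (F (Fin.cons (a 0 + w) z)) := by
  have ht : 0 < t := hr.trans hrt
  obtain ⟨R, hR⟩ : ∃ R : NNReal, (R : ℝ) = r := ⟨⟨r, hr.le⟩, rfl⟩
  have hd : DifferentiableOn ℂ (fun x => F (Fin.cons x z)) (closedBall (a 0) R) := by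
    intro x hx
    have hx' : x ∈ ball (a 0) t := by
      rw [mem_ball]
      exact lt_of_le_of_lt hx (hR ▸ hrt)
    have h3 := hF.2 _ (cons_mem_ball hx' hz ht) 0
    simp only [Fin.cons_zero, Fin.update_cons_zero] at h3
    exact h3.differentiableWithinAt
  have h0 : w ∈ Metric.eball (0 : ℂ) (R : ENNReal) := by
    rw [Metric.eball_coe, mem_ball_zero_iff, hR]
    exact hw
  have h1 := (hd.hasFPowerSeriesOnBall (by rw [← NNReal.coe_pos, hR]; exact hr)).hasSum (y := w) h0
  rw [hR] at h1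
  refine h1.congr_fun fun k => ?_
  exact (FormalMultilinearSeries.apply_eq_pow_smul_coeff
    (p := cauchyPowerSeries (fun x => F (Fin.cons x z)) (a 0) r) (n := k) (z := w)).symm

lemma deg_cons' (g : Fin (d + 1) → ℕ) : deg g = g 0 + deg (Fin.tail g) := by
  rw [deg, Fin.sum_univ_succ]
  rfl

lemma taylor_fun [CompleteSpace X] {F : (Fin d → ℂ) → X} {a : Fin d → ℂ} {t r S : ℝ} (hF : Hol F (ball a t))
    (hS : ∀ z ∈ ball a t, ‖F z‖ ≤ S) (hr : 0 < r) (hrt : r < t) :
    ∃ c : (Fin d → ℕ) → X, (∀ g, ‖c g‖ ≤ S * (r⁻¹) ^ deg g) ∧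
      ∀ w : (Fin d → ℂ), (∀ i, ‖w i‖ < r) → HasSum (fun g => (∏ i, w i ^ g i) • c g) (F (a + w)) := by
  induction d generalizing S with
  | zero =>
    refine ⟨fun _ => F a, fun g => ?_, fun w _ => ?_⟩
    · simpa [deg] using hS a (mem_ball_self (hr.trans hrt))
    · have h2 : a + w = a := Subsingleton.elim _ _
      rw [h2]
      simp
  | succ d ih =>
    have hk := fun k => ih (hol_coeff0 hF hS hr hrt k).1 (hol_coeff0 hF hS hr hrt k).2
    choose c hc1 hc2 using hk
    refine ⟨fun g => c (g 0) (Fin.tail g), fun g => ?_, fun w hw => ?_⟩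
    · refine (hc1 _ _).trans (le_of_eq ?_)
      rw [deg_cons' g, pow_add, mul_assoc]
    · have ht : 0 < t := hr.trans hrt
      have hS0 : 0 ≤ S := (norm_nonneg _).trans (hS a (mem_ball_self ht))
      have hs : Summable (fun g : Fin (d + 1) → ℕ => (∏ i, w i ^ g i) • c (g 0) (Fin.tail g)) := by
        refine Summable.of_norm_bounded (g := fun g => S * ∏ i, (‖w i‖ / r) ^ g i)
          ((ty_summable_prod_pow (fun i => by positivity) fun i => ?_).mul_left S) fun g => ?_
        · rw [div_lt_one hr]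
          exact hw i
        · rw [norm_smul, norm_prod]
          have h1 : ‖c (g 0) (Fin.tail g)‖ ≤ S * (r⁻¹) ^ deg g := by
            refine (hc1 _ _).trans (le_of_eq ?_)
            rw [deg_cons' g, pow_add, mul_assoc]
          calc (∏ i, ‖w i ^ g i‖) * ‖c (g 0) (Fin.tail g)‖
              ≤ (∏ i, ‖w i ^ g i‖) * (S * (r⁻¹) ^ deg g) := by gcongr
            _ = S * ∏ i, (‖w i‖ / r) ^ g i := by
              rw [deg, ← Finset.prod_pow_eq_pow_sum, mul_left_comm, ← Finset.prod_mul_distrib]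
              simp only [norm_pow, div_eq_mul_inv, mul_pow]
      have hs' := (Fin.consEquiv (fun _ => ℕ)).summable_iff.mpr hs
      have hz : Fin.tail a + Fin.tail w ∈ ball (Fin.tail a) t := by
        rw [mem_ball, dist_pi_lt_iff ht]
        intro i
        rw [dist_eq_norm]
        simpa [Fin.tail] using (hw _).trans hrt
      have h1 : ∀ k, HasSum (fun g' : Fin d → ℕ => ((fun g : Fin (d + 1) → ℕ =>
          (∏ i, w i ^ g i) • c (g 0) (Fin.tail g)) ∘ (Fin.consEquiv (fun _ => ℕ))) (k, g'))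
          (w 0 ^ k • coeff0 F (a 0) r k (Fin.tail a + Fin.tail w)) := fun k => by
        have h2 := (hc2 k (Fin.tail w) fun i => hw _).const_smul (w 0 ^ k)
        refine h2.congr_fun fun g' => ?_
        simp only [Function.comp, Fin.consEquiv, Equiv.coe_fn_mk, Fin.prod_univ_succ, Fin.cons_zero,
          Fin.cons_succ, Fin.tail_cons, smul_smul, Fin.tail]
      have h2 := hs'.hasSum.prod_fiberwise h1
      have h3 := hasSum_coeff0 hF hr hrt hz (hw 0)
      have h4 : (Fin.cons (a 0 + w 0) (Fin.tail a + Fin.tail w) : (Fin (d + 1) → ℂ)) = a + w := by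
        funext i
        refine Fin.cases ?_ (fun i => ?_) i <;> simp [Fin.tail]
      rw [h4] at h3
      rw [← (Fin.consEquiv (fun _ => ℕ)).hasSum_iff, ← h2.unique h3]
      exact hs'.hasSum

/-! ### uniqueness of power series -/

lemma unique_one {c : ℕ → X} {r : ℝ} (hr : 0 < r)
    (h : ∀ w : ℂ, ‖w‖ < r → HasSum (fun k => w ^ k • c k) 0) : ∀ k, c k = 0 := by
  set p : FormalMultilinearSeries ℂ ℂ X :=
    fun n => ContinuousMultilinearMap.mkPiRing ℂ (Fin n) (c n) with hp
  have h1 : ∀ n, p.coeff n = c n := fun n => by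
    simp [hp, FormalMultilinearSeries.coeff]
  have h2 : HasFPowerSeriesAt (0 : ℂ → X) p 0 := by
    rw [hasFPowerSeriesAt_iff]
    filter_upwards [ball_mem_nhds (0 : ℂ) hr] with w hw
    simp only [h1]
    exact h w (by simpa using hw)
  have h3 := h2.eq_zero
  intro k
  rw [← h1, h3]
  rfl

lemma unique_fun [CompleteSpace X] {c : (Fin d → ℕ) → X} {r : ℝ} (hr : 0 < r)
    (h : ∀ w : (Fin d → ℂ), (∀ i, ‖w i‖ < r) → HasSum (fun g => (∏ i, w i ^ g i) • c g) 0) :
    ∀ g, c g = 0 := by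
  induction d with
  | zero =>
    intro g
    have h1 := h 0 (fun i => i.elim0)
    have h2 := hasSum_unique (fun g : Fin 0 → ℕ => (∏ i, (0 : (Fin 0 → ℂ)) i ^ g i) • c g)
    have h3 := h2.unique h1
    simp only [Finset.univ_eq_empty, Finset.prod_empty, one_smul] at h3
    rw [Subsingleton.elim g (@default (Fin 0 → ℕ) Unique.instInhabited)]
    exact h3
  | succ d ih =>
    -- fibres
    have key : ∀ k : ℕ, ∀ w' : (Fin d → ℂ), (∀ i, ‖w' i‖ < r) →
        Summable (fun g' : Fin d → ℕ => (∏ i, w' i ^ g' i) • c (Fin.cons k g')) := by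
      intro k w' hw'
      have h1 := (Fin.consEquiv (fun _ => ℕ)).summable_iff.mpr
        (h (Fin.cons ((r / 2 : ℝ) : ℂ) w') (fun i => by
          refine Fin.cases ?_ (fun i => ?_) i
          · rw [Fin.cons_zero, Complex.norm_real, Real.norm_eq_abs, abs_of_pos (by positivity)]
            linarith
          · simpa using hw' i)).summable
      have h2 := (h1.prod_factor k).const_smul ((((r / 2 : ℝ) : ℂ) ^ k)⁻¹)
      refine h2.congr fun g' => ?_
      have h3 : (((r / 2 : ℝ) : ℂ) ^ k) ≠ 0 := pow_ne_zero _ (by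
        rw [ne_eq, Complex.ofReal_eq_zero]
        positivity)
      simp only [Function.comp, Fin.consEquiv, Equiv.coe_fn_mk, Fin.prod_univ_succ, Fin.cons_zero,
        Fin.cons_succ, smul_smul]
      rw [← mul_assoc, inv_mul_cancel₀ h3, one_mul]
    have key2 : ∀ w' : (Fin d → ℂ), (∀ i, ‖w' i‖ < r) → ∀ k : ℕ,
        ∑' g' : Fin d → ℕ, (∏ i, w' i ^ g' i) • c (Fin.cons k g') = 0 := by
      intro w' hw'
      refine unique_one hr fun w hw => ?_
      have h1 := (Fin.consEquiv (fun _ => ℕ)).hasSum_iff.mpr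
        (h (Fin.cons w w') (fun i => by
          refine Fin.cases ?_ (fun i => ?_) i
          · simpa using hw
          · simpa using hw' i))
      refine h1.prod_fiberwise fun k => ?_
      refine ((key k w' hw').hasSum.const_smul (w ^ k)).congr_fun fun g' => ?_
      simp only [Function.comp, Fin.consEquiv, Equiv.coe_fn_mk, Fin.prod_univ_succ, Fin.cons_zero,
        Fin.cons_succ, smul_smul]
    intro g
    have h1 := ih (c := fun g' => c (Fin.cons (g 0) g')) (fun w' hw' => by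
      rw [← key2 w' hw' (g 0)]
      exact (key (g 0) w' hw').hasSum) (Fin.tail g)
    simpa using h1

/-! ### Taylor families -/

/-- `G` is the Taylor family of `F` at `a`, absolutely convergent on the polydisc of radius `t` -/
def HasTaylor (F : (Fin d → ℂ) → X) (a : Fin d → ℂ) (t : ℝ) (G : (Fin d → ℕ) → X) : Prop :=
  (∀ s, 0 ≤ s → s < t → Summable (fun γ => s ^ deg γ * ‖G γ‖)) ∧
    ∀ w : Fin d → ℂ, ‖w‖ < t → HasSum (fun γ => mon w γ • G γ) (F (a + w))

lemma ty_norm_mon (w : Fin d → ℂ) (γ : Fin d → ℕ) : ‖mon w γ‖ = ∏ i, ‖w i‖ ^ γ i := by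
  simp [mon, norm_prod]

lemma ty_norm_mon_le (w : Fin d → ℂ) (γ : Fin d → ℕ) : ‖mon w γ‖ ≤ ‖w‖ ^ deg γ := by
  rw [ty_norm_mon, deg, ← Finset.prod_pow_eq_pow_sum]
  exact Finset.prod_le_prod (fun i _ => by positivity) fun i _ =>
    pow_le_pow_left₀ (norm_nonneg _) (norm_le_pi_norm w i) _

lemma ty_summable_pow_deg {ρ : ℝ} (h0 : 0 ≤ ρ) (h1 : ρ < 1) :
    Summable (fun γ : Fin d → ℕ => ρ ^ deg γ) := by
  refine (ty_summable_prod_pow (ρ := fun _ : Fin d => ρ) (fun _ => h0) fun _ => h1).congr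
    fun g => ?_
  rw [deg, Finset.prod_pow_eq_pow_sum]

lemma HasTaylor.of_le {F : (Fin d → ℂ) → X} {a : Fin d → ℂ} {t t' : ℝ} {G : (Fin d → ℕ) → X}
    (h : HasTaylor F a t G) (ht : t' ≤ t) : HasTaylor F a t' G :=
  ⟨fun s h0 hs => h.1 s h0 (hs.trans_le ht), fun w hw => h.2 w (hw.trans_le ht)⟩

lemma HasTaylor.congr {F F' : (Fin d → ℂ) → X} {a : Fin d → ℂ} {t : ℝ} {G : (Fin d → ℕ) → X}
    (h : HasTaylor F a t G) (hF : ∀ z ∈ ball a t, F' z = F z) : HasTaylor F' a t G :=
  ⟨h.1, fun w hw => by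
    rw [hF _ (by simpa [mem_ball, dist_eq_norm] using hw)]
    exact h.2 w hw⟩

/-- uniqueness of the Taylor family -/
theorem HasTaylor.unique [CompleteSpace X] {F : (Fin d → ℂ) → X} {a : Fin d → ℂ} {t : ℝ}
    (ht : 0 < t) {G G' : (Fin d → ℕ) → X} (h : HasTaylor F a t G) (h' : HasTaylor F a t G') :
    G = G' := by
  have h1 := unique_fun (c := G - G') ht (fun w hw => by
      have hw' : ‖w‖ < t := (pi_norm_lt_iff ht).mpr hw
      have h2 := (h.2 w hw').sub (h'.2 w hw')
      rw [sub_self] at h2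
      refine h2.congr_fun fun γ => ?_
      simp [smul_sub, mon])
  funext γ
  simpa [sub_eq_zero] using h1 γ

/-- for a bounded function and a smaller radius -/
lemma taylor_aux [CompleteSpace X] {F : (Fin d → ℂ) → X} {a : Fin d → ℂ} {t r S : ℝ}
    (hF : Hol F (ball a t)) (hS : ∀ z ∈ ball a t, ‖F z‖ ≤ S) (hr : 0 < r) (hrt : r < t) :
    ∃ G : (Fin d → ℕ) → X, (∀ γ, ‖G γ‖ ≤ S / r ^ deg γ) ∧ HasTaylor F a r G := by
  obtain ⟨c, hc1, hc2⟩ := taylor_fun hF hS hr hrt
  have hS0 : 0 ≤ S := (norm_nonneg _).trans (hS a (mem_ball_self (hr.trans hrt)))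
  have hb : ∀ γ : Fin d → ℕ, ‖c γ‖ ≤ S / r ^ deg γ := fun γ => by
    refine (hc1 _).trans (le_of_eq ?_)
    rw [inv_pow, div_eq_mul_inv]
  refine ⟨c, hb, fun s h0 hs => ?_, fun w hw => ?_⟩
  · refine Summable.of_nonneg_of_le (fun γ => by positivity) (fun γ => ?_)
      ((ty_summable_pow_deg (d := d) (ρ := s / r) (by positivity)
        ((div_lt_one hr).mpr hs)).mul_left S)
    calc s ^ deg γ * ‖c γ‖ ≤ s ^ deg γ * (S / r ^ deg γ) := by gcongr; exact hb γ
      _ = S * (s / r) ^ deg γ := by rw [div_pow]; ring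
  · exact hc2 w fun i => (norm_le_pi_norm w i).trans_lt hw

/-- **Taylor's theorem on polydiscs** -/
theorem exists_hasTaylor [CompleteSpace X] {F : (Fin d → ℂ) → X} {a : Fin d → ℂ} {t : ℝ} (ht : 0 < t)
    (hF : Hol F (ball a t)) : ∃ G, HasTaylor F a t G := by
  -- on smaller polydiscs `F` is bounded
  have hbd : ∀ s, s < t → ∃ S, ∀ z ∈ ball a s, ‖F z‖ ≤ S := by
    intro s hs
    obtain ⟨S, hS⟩ := (isCompact_closedBall a s).exists_bound_of_continuousOn
      (hF.1.mono (closedBall_subset_ball hs))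
    exact ⟨S, fun z hz => hS z (ball_subset_closedBall hz)⟩
  have hmono : ∀ s, s < t → Hol F (ball a s) := fun s hs =>
    ⟨hF.1.mono (ball_subset_ball hs.le), fun z hz => hF.2 z (ball_subset_ball hs.le hz)⟩
  have hr : ∀ r, 0 < r → r < t → ∃ G, HasTaylor F a r G := by
    intro r h0 hrt
    obtain ⟨S, hS⟩ := hbd ((r + t) / 2) (by linarith)
    obtain ⟨G, -, hG⟩ := taylor_aux (hmono ((r + t) / 2) (by linarith)) hS h0 (by linarith)
    exact ⟨G, hG⟩
  obtain ⟨G, hG⟩ := hr (t / 2) (by positivity) (by linarith)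
  have hGr : ∀ r, 0 < r → r < t → HasTaylor F a r G := by
    intro r h0 hrt
    obtain ⟨G', hG'⟩ := hr r h0 hrt
    have h1 : G = G' := HasTaylor.unique (t := min r (t / 2)) (lt_min h0 (by positivity))
      (hG.of_le (min_le_right _ _)) (hG'.of_le (min_le_left _ _))
    rw [h1]
    exact hG'
  refine ⟨G, fun s h0 hs => ?_, fun w hw => ?_⟩
  · exact (hGr ((s + t) / 2) (by linarith) (by linarith)).1 s h0 (by linarith)
  · exact (hGr ((‖w‖ + t) / 2) (by linarith [norm_nonneg w]) (by linarith)).2 w (by linarith)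

/-- Cauchy's estimates -/
theorem HasTaylor.bound [CompleteSpace X] {F : (Fin d → ℂ) → X} {a : Fin d → ℂ} {t S : ℝ} (ht : 0 < t)
    {G : (Fin d → ℕ) → X} (h : HasTaylor F a t G) (hF : Hol F (ball a t))
    (hS : ∀ z ∈ ball a t, ‖F z‖ ≤ S) (γ : Fin d → ℕ) : ‖G γ‖ ≤ S / t ^ deg γ := by
  have h1 : ∀ r, 0 < r → r < t → r ^ deg γ * ‖G γ‖ ≤ S := by
    intro r h0 hrt
    obtain ⟨G', h2, h3⟩ := taylor_aux hF hS h0 hrt
    have h4 : G = G' := HasTaylor.unique h0 (h.of_le hrt.le) h3
    have h5 := h2 γ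
    rw [← h4, le_div_iff₀ (by positivity), mul_comm] at h5
    exact h5
  rw [le_div_iff₀ (by positivity), mul_comm]
  have h2 : Tendsto (fun r : ℝ => r ^ deg γ * ‖G γ‖) (𝓝[<] t) (𝓝 (t ^ deg γ * ‖G γ‖)) :=
    (((continuous_id.pow _).mul continuous_const).tendsto t).mono_left nhdsWithin_le_nhds
  refine le_of_tendsto h2 ?_
  filter_upwards [Ioo_mem_nhdsLT ht] with r hr using h1 r hr.1 hr.2

/-! ### images under linear maps -/

section map

variable {Y : Type*} [NormedAddCommGroup Y] [NormedSpace ℂ Y]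

lemma Hol.map {F : (Fin d → ℂ) → X} {Ω : Set (Fin d → ℂ)} (h : Hol F Ω) (ℓ : X →L[ℂ] Y) :
    Hol (fun z => ℓ (F z)) Ω :=
  ⟨ℓ.continuous.comp_continuousOn h.1, fun z hz i =>
    ℓ.differentiableAt.comp (z i) (h.2 z hz i)⟩

lemma HasTaylor.map {F : (Fin d → ℂ) → X} {a : Fin d → ℂ} {t : ℝ} {G : (Fin d → ℕ) → X}
    (h : HasTaylor F a t G) (ℓ : X →L[ℂ] Y) :
    HasTaylor (fun z => ℓ (F z)) a t (fun γ => ℓ (G γ)) := by
  refine ⟨fun s h0 hs => ?_, fun w hw => ?_⟩
  · refine Summable.of_nonneg_of_le (fun γ => by positivity) (fun γ => ?_)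
      ((h.1 s h0 hs).mul_left ‖ℓ‖)
    calc s ^ deg γ * ‖ℓ (G γ)‖ ≤ s ^ deg γ * (‖ℓ‖ * ‖G γ‖) := by
          gcongr
          exact ℓ.le_opNorm _
      _ = ‖ℓ‖ * (s ^ deg γ * ‖G γ‖) := by ring
  · refine ((h.2 w hw).mapL ℓ).congr_fun fun γ => ?_
    simp

end map

/-- Cauchy's estimates for the image under a linear map -/
theorem HasTaylor.bound_map [CompleteSpace X] {Y : Type*} [NormedAddCommGroup Y] [NormedSpace ℂ Y]
    [CompleteSpace Y] {F : (Fin d → ℂ) → X} {a : Fin d → ℂ} {t : ℝ}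
    (ht : 0 < t) {G : (Fin d → ℕ) → X} (h : HasTaylor F a t G) (hF : Hol F (ball a t))
    (ℓ : X →L[ℂ] Y) {S : ℝ} (hS : ∀ z ∈ ball a t, ‖ℓ (F z)‖ ≤ S)
    (γ : Fin d → ℕ) : ‖ℓ (G γ)‖ ≤ S / t ^ deg γ :=
  (h.map ℓ).bound ht (hF.map ℓ) hS γ

/-! ### sums of power series are holomorphic -/

lemma Hol.of_differentiableOn {F : (Fin d → ℂ) → X} {Ω : Set (Fin d → ℂ)} (hΩ : IsOpen Ω)
    (h : DifferentiableOn ℂ F Ω) : Hol F Ω := by
  refine ⟨h.continuousOn, fun z hz i => ?_⟩
  have h1 := h.differentiableAt (hΩ.mem_nhds hz)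
  have h2 : DifferentiableAt ℂ (Function.update z i) (z i) :=
    (hasDerivAt_update z i (z i)).differentiableAt
  refine DifferentiableAt.comp (z i) ?_ h2
  rw [Function.update_eq_self]
  exact h1

lemma Hol.of_differentiable {F : (Fin d → ℂ) → X} (Ω : Set (Fin d → ℂ)) (h : Differentiable ℂ F) : Hol F Ω :=
  ⟨h.continuous.continuousOn, fun z _ i =>
    (h _).comp (z i) (hasDerivAt_update z i (z i)).differentiableAt⟩

lemma differentiable_mon (γ : Fin d → ℕ) : Differentiable ℂ (fun w : (Fin d → ℂ) => mon w γ) := by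
  unfold mon
  fun_prop

theorem HasTaylor.hol [CompleteSpace X] {F : (Fin d → ℂ) → X} {a : Fin d → ℂ} {t : ℝ}
    {G : (Fin d → ℕ) → X} (h : HasTaylor F a t G) : Hol F (ball a t) := by
  have hF : ∀ z ∈ ball a t, F z = ∑' γ, mon (z - a) γ • G γ := fun z hz => by
    have h1 := (h.2 (z - a) (by simpa [mem_ball, dist_eq_norm] using hz)).tsum_eq
    rw [h1]
    simp
  have hb : ∀ s, ∀ z ∈ ball a s, ∀ γ, ‖mon (z - a) γ • G γ‖ ≤ s ^ deg γ * ‖G γ‖ := by
    intro s z hz γ
    rw [mem_ball, dist_eq_norm] at hz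
    rw [norm_smul]
    gcongr
    exact (ty_norm_mon_le _ _).trans (pow_le_pow_left₀ (norm_nonneg _) hz.le _)
  refine ⟨?_, ?_⟩
  · intro z hz
    obtain ⟨s, hs1, hs2⟩ := exists_between (mem_ball.mp hz)
    have h0 : 0 ≤ s := dist_nonneg.trans hs1.le
    have h1 : ContinuousOn (fun z => ∑' γ, mon (z - a) γ • G γ) (ball a s) :=
      continuousOn_tsum (fun γ => (((differentiable_mon γ).continuous.comp
        (continuous_id.sub continuous_const)).smul continuous_const).continuousOn)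
        (h.1 s h0 hs2) (fun γ z hz => hb s z hz γ)
    have h2 : ContinuousAt F z := by
      refine (h1.continuousAt (isOpen_ball.mem_nhds hs1)).congr ?_
      filter_upwards [isOpen_ball.mem_nhds hz] with y hy using (hF y hy).symm
    exact h2.continuousWithinAt
  · intro z hz i
    obtain ⟨s, hs1, hs2⟩ := exists_between (mem_ball.mp hz)
    have h0 : 0 < s := dist_nonneg.trans_lt hs1
    have hup : ∀ x ∈ ball (a i) s, Function.update z i x ∈ ball a s := by
      intro x hx
      rw [mem_ball, dist_pi_lt_iff h0]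
      intro j
      by_cases hj : j = i
      · subst hj
        rw [Function.update_self]
        exact hx
      · rw [Function.update_of_ne hj]
        exact (dist_pi_lt_iff h0).mp hs1 j
    have h1 : DifferentiableOn ℂ (fun x => ∑' γ, mon (Function.update z i x - a) γ • G γ)
        (ball (a i) s) := by
      refine Complex.differentiableOn_tsum_of_summable_norm (h.1 s h0.le hs2) (fun γ => ?_)
        isOpen_ball (fun γ x hx => hb s _ (hup x hx) γ)
      refine Differentiable.differentiableOn (Differentiable.smul_const ?_ _)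
      refine (differentiable_mon γ).comp (Differentiable.sub_const ?_ _)
      exact fun x => (hasDerivAt_update z i x).differentiableAt
    have hzi : z i ∈ ball (a i) s := (dist_pi_lt_iff h0).mp hs1 i
    refine (h1.differentiableAt (isOpen_ball.mem_nhds hzi)).congr_of_eventuallyEq ?_
    filter_upwards [isOpen_ball.mem_nhds hzi] with x hx
    exact hF _ (ball_subset_ball hs2.le (hup x hx))

/-! ### operations on holomorphic functions -/

section operations

variable {F F' : (Fin d → ℂ) → X} {Ω Ω' : Set (Fin d → ℂ)}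

lemma Hol.of_subset (h : Hol F Ω) (hs : Ω' ⊆ Ω) : Hol F Ω' :=
  ⟨h.1.mono hs, fun z hz => h.2 z (hs hz)⟩

lemma Hol.congr (h : Hol F Ω) (hΩ : IsOpen Ω) (he : ∀ z ∈ Ω, F' z = F z) : Hol F' Ω := by
  refine ⟨h.1.congr he, fun z hz i => (h.2 z hz i).congr_of_eventuallyEq ?_⟩
  have h1 : ContinuousAt (Function.update z i) (z i) :=
    (hasDerivAt_update z i (z i)).continuousAt
  have h2 : Function.update z i (z i) ∈ Ω := by rwa [Function.update_eq_self]
  filter_upwards [h1 (hΩ.mem_nhds h2)] with x hx using he _ hx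

/-- being holomorphic is a local property -/
lemma Hol.of_local (h : ∀ z ∈ Ω, ∃ U, IsOpen U ∧ z ∈ U ∧ Hol F U) : Hol F Ω := by
  refine ⟨fun z hz => ?_, fun z hz => ?_⟩
  · obtain ⟨U, hU, hzU, hF⟩ := h z hz
    exact (hF.1.continuousAt (hU.mem_nhds hzU)).continuousWithinAt
  · obtain ⟨U, -, hzU, hF⟩ := h z hz
    exact hF.2 z hzU

lemma hol_const (c : X) (Ω : Set (Fin d → ℂ)) : Hol (fun _ => c) Ω :=
  Hol.of_differentiable Ω (differentiable_const c)

lemma hol_coord (i : Fin d) (Ω : Set (Fin d → ℂ)) : Hol (fun z => z i) Ω :=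
  Hol.of_differentiable Ω (by fun_prop)

lemma Hol.add (h : Hol F Ω) (h' : Hol F' Ω) : Hol (fun z => F z + F' z) Ω :=
  ⟨h.1.add h'.1, fun z hz i => (h.2 z hz i).add (h'.2 z hz i)⟩

lemma Hol.sub (h : Hol F Ω) (h' : Hol F' Ω) : Hol (fun z => F z - F' z) Ω :=
  ⟨h.1.sub h'.1, fun z hz i => (h.2 z hz i).sub (h'.2 z hz i)⟩

lemma Hol.neg (h : Hol F Ω) : Hol (fun z => -F z) Ω :=
  ⟨h.1.neg, fun z hz i => (h.2 z hz i).neg⟩

lemma Hol.const_smul (h : Hol F Ω) (c : ℂ) : Hol (fun z => c • F z) Ω :=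
  ⟨h.1.const_smul c, fun z hz i => (h.2 z hz i).const_smul c⟩

lemma Hol.smul {φ : (Fin d → ℂ) → ℂ} (hφ : Hol φ Ω) (h : Hol F Ω) : Hol (fun z => φ z • F z) Ω :=
  ⟨hφ.1.smul h.1, fun z hz i => (hφ.2 z hz i).smul (h.2 z hz i)⟩

lemma Hol.mul {φ ψ : (Fin d → ℂ) → ℂ} (hφ : Hol φ Ω) (h : Hol ψ Ω) : Hol (fun z => φ z * ψ z) Ω :=
  hφ.smul h

lemma Hol.sum {ι : Type*} {s : Finset ι} {f : ι → (Fin d → ℂ) → X} (h : ∀ i ∈ s, Hol (f i) Ω) :
    Hol (fun z => ∑ i ∈ s, f i z) Ω :=
  ⟨continuousOn_finsetSum s fun i hi => (h i hi).1, fun z hz l =>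
    DifferentiableAt.fun_sum fun i hi => (h i hi).2 z hz l⟩

lemma hol_pi {ι : Type*} [Fintype ι] {f : (Fin d → ℂ) → ι → ℂ} :
    Hol f Ω ↔ ∀ i, Hol (fun z => f z i) Ω := by
  constructor
  · intro h i
    exact h.map (ContinuousLinearMap.proj (R := ℂ) i)
  · intro h
    refine ⟨continuousOn_pi.mpr fun i => (h i).1, fun z hz l => ?_⟩
    exact differentiableAt_pi.mpr fun i => (h i).2 z hz l

/-- composition with an entire function of one variable -/
lemma Hol.comp_entire {φ : (Fin d → ℂ) → ℂ} {g : ℂ → X} (hg : Differentiable ℂ g) (h : Hol φ Ω) :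
    Hol (fun z => g (φ z)) Ω :=
  ⟨hg.continuous.comp_continuousOn h.1, fun z hz i => (hg _).comp (z i) (h.2 z hz i)⟩

lemma Hol.cexp {φ : (Fin d → ℂ) → ℂ} (h : Hol φ Ω) : Hol (fun z => Complex.exp (φ z)) Ω :=
  Hol.comp_entire Complex.differentiable_exp h

/-- composition with a function of one variable, holomorphic on an open set -/
lemma Hol.comp_one {φ : (Fin d → ℂ) → ℂ} {g : ℂ → X} {W : Set ℂ} (hW : IsOpen W)
    (hg : DifferentiableOn ℂ g W) (h : Hol φ Ω) (hm : ∀ z ∈ Ω, φ z ∈ W) :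
    Hol (fun z => g (φ z)) Ω :=
  ⟨hg.continuousOn.comp h.1 hm, fun z hz i =>
    DifferentiableAt.comp (z i) (by
      rw [Function.update_eq_self]
      exact hg.differentiableAt (hW.mem_nhds (hm z hz))) (h.2 z hz i)⟩

lemma hol_mon (γ : Fin d → ℕ) (Ω : Set (Fin d → ℂ)) : Hol (fun z => mon z γ) Ω :=
  Hol.of_differentiable Ω (differentiable_mon γ)

lemma hol_ev (f : Pol d X) (Ω : Set (Fin d → ℂ)) : Hol (fun z => ev z f) Ω := by
  have h : ∀ z : Fin d → ℂ, ev z f = ∑ γ ∈ f.support, mon z γ • f γ := fun z => by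
    simp [ev, Finsupp.sum]
  simp only [h]
  exact Hol.sum fun γ _ => (hol_mon γ Ω).smul (hol_const _ Ω)

lemma hol_dotc (a : Fin d → ℂ) (Ω : Set (Fin d → ℂ)) : Hol (fun z => dotc z a) Ω := by
  unfold dotc
  exact Hol.sum fun i _ => (hol_coord i Ω).mul (hol_const _ Ω)

lemma hol_exp_dotc (a : Fin d → ℂ) (Ω : Set (Fin d → ℂ)) :
    Hol (fun z => Complex.exp (dotc z a)) Ω := (hol_dotc a Ω).cexp

/-- translation -/
lemma Hol.translate (h : Hol F Ω) (a : Fin d → ℂ) : Hol (fun z => F (a + z)) {z | a + z ∈ Ω} := by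
  refine ⟨h.1.comp (by fun_prop) fun z hz => hz, fun z hz i => ?_⟩
  have h1 := h.2 _ hz i
  have h2 : ∀ x, Function.update (a + z) i (a i + x) = a + Function.update z i x := fun x => by
    funext j
    by_cases hj : j = i
    · subst hj
      simp
    · simp [Function.update_of_ne hj]
  have h3 : DifferentiableAt ℂ (fun x : ℂ => F (Function.update (a + z) i (a i + x))) (z i) :=
    DifferentiableAt.comp (z i) (f := fun x : ℂ => a i + x)
      (g := fun s => F (Function.update (a + z) i s)) h1 (by fun_prop)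
  simpa only [h2] using h3

/-- the one variable slices -/
lemma Hol.slice (h : Hol F Ω) (z : Fin d → ℂ) (i : Fin d) :
    ∀ x, Function.update z i x ∈ Ω → DifferentiableAt ℂ (fun s => F (Function.update z i s)) x := by
  intro x hx
  have h1 := h.2 _ hx i
  simpa only [Function.update_idem, Function.update_self] using h1

/-- locally uniform limits -/
lemma Hol.of_tendsto {ι : Type*} {p : Filter ι} [p.NeBot] {f : ι → (Fin d → ℂ) → X} (hΩ : IsOpen Ω)
    (h : ∀ᶠ n in p, Hol (f n) Ω) (hl : TendstoLocallyUniformlyOn f F p Ω) [CompleteSpace X] :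
    Hol F Ω := by
  refine ⟨hl.continuousOn (h.mono fun n hn => hn.1).frequently, fun z hz i => ?_⟩
  have hc : Continuous (Function.update z i) :=
    continuous_iff_continuousAt.mpr fun x => (hasDerivAt_update z i x).continuousAt
  have hU : IsOpen {x | Function.update z i x ∈ Ω} := hΩ.preimage hc
  have h1 : TendstoLocallyUniformlyOn (fun n x => f n (Function.update z i x))
      (fun x => F (Function.update z i x)) p {x | Function.update z i x ∈ Ω} :=
    hl.comp (Function.update z i) (fun x hx => hx) hc.continuousOn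
  have h2 := h1.differentiableOn (h.mono fun n hn x hx =>
    (hn.slice z i x hx).differentiableWithinAt) hU
  exact h2.differentiableAt (hU.mem_nhds (by
    show Function.update z i (z i) ∈ Ω
    rwa [Function.update_eq_self]))

/-- holomorphic parameter integrals -/
lemma Hol.integral [CompleteSpace X] {α : Type*} [MeasurableSpace α] {μ : Measure α}
    {f : (Fin d → ℂ) → α → X} (hΩ : IsOpen Ω) (hmeas : ∀ z ∈ Ω, AEStronglyMeasurable (f z) μ)
    (hol : ∀ᵐ p ∂μ, Hol (fun z => f z p) Ω)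
    (hb : ∀ z ∈ Ω, ∃ V ∈ 𝓝 z, ∃ bound : α → ℝ, Integrable bound μ ∧
      ∀ᵐ p ∂μ, ∀ y ∈ V, ‖f y p‖ ≤ bound p) :
    Hol (fun z => ∫ p, f z p ∂μ) Ω := by
  refine ⟨fun z hz => ?_, fun z hz i => ?_⟩
  · obtain ⟨V, hV, bound, hbi, hb⟩ := hb z hz
    refine (continuousAt_of_dominated (bound := bound) ?_ ?_ hbi ?_).continuousWithinAt
    · filter_upwards [hΩ.mem_nhds hz] with y hy using hmeas y hy
    · filter_upwards [hV] with y hy
      filter_upwards [hb] with p hp using hp y hy
    · filter_upwards [hol] with p hp using hp.1.continuousAt (hΩ.mem_nhds hz)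
  · obtain ⟨V, hV, bound, hbi, hb⟩ := hb z hz
    have hc : Continuous (Function.update z i) :=
      continuous_iff_continuousAt.mpr fun x => (hasDerivAt_update z i x).continuousAt
    have h1 : (Function.update z i) ⁻¹' (V ∩ Ω) ∈ 𝓝 (z i) := by
      refine hc.continuousAt.preimage_mem_nhds ?_
      rw [Function.update_eq_self]
      exact inter_mem hV (hΩ.mem_nhds hz)
    obtain ⟨ρ, hρ, hsub⟩ := Metric.mem_nhds_iff.mp h1
    refine differentiableAt_integral (f := fun x p => f (Function.update z i x) p) hρ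
      (bound := bound) (fun x hx => hmeas _ (hsub hx).2) ?_ ?_ hbi
    · filter_upwards [hol] with p hp x hx
      exact (hp.slice z i x (hsub hx).2).differentiableWithinAt
    · filter_upwards [hb] with p hp x hx using hp _ (hsub hx).1

end operations

/-! ### the statements of the blueprint -/

section taylor

universe u

variable {E : Type u} [NormedAddCommGroup E] [NormedSpace ℂ E] [CompleteSpace E]

theorem taylor {F : (Fin d → ℂ) → E} {a : Fin d → ℂ} {t : ℝ} (ht : 0 < t)
    (hF : Hol F (Metric.ball a t)) :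
    ∃ G : (Fin d → ℕ) → E, (∀ s, 0 ≤ s → s < t → Summable fun γ => s ^ deg γ * ‖G γ‖) ∧
      ∀ w : Fin d → ℂ, ‖w‖ < t → HasSum (fun γ => mon w γ • G γ) (F (a + w)) :=
  exists_hasTaylor ht hF

theorem taylor_entire {F : (Fin d → ℂ) → E} (hF : Hol F Set.univ) :
    ∃ G : (Fin d → ℕ) → E, (∀ s, 0 ≤ s → Summable fun γ => s ^ deg γ * ‖G γ‖) ∧
      ∀ w : Fin d → ℂ, HasSum (fun γ => mon w γ • G γ) (F w) := by
  have h1 : ∀ t : ℝ, 0 < t → ∃ G : (Fin d → ℕ) → E, HasTaylor F 0 t G := fun t ht =>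
    exists_hasTaylor ht (hF.of_subset (Set.subset_univ _))
  obtain ⟨G, hG⟩ := h1 1 one_pos
  have h2 : ∀ t : ℝ, 1 ≤ t → HasTaylor F 0 t G := fun t ht => by
    obtain ⟨G', hG'⟩ := h1 t (by linarith)
    rw [HasTaylor.unique one_pos hG (hG'.of_le ht)]
    exact hG'
  refine ⟨G, fun s hs => (h2 (s + 1) (by linarith)).1 s hs (by linarith), fun w => ?_⟩
  have h3 := (h2 (‖w‖ + 1) (by linarith [norm_nonneg w])).2 w (by linarith)
  rwa [zero_add] at h3

omit [CompleteSpace E] in
lemma ty_summable [CompleteSpace E] {G : (Fin d → ℕ) → E} {t : ℝ}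
    (hG : ∀ s, 0 ≤ s → s < t → Summable fun γ => s ^ deg γ * ‖G γ‖) {w : Fin d → ℂ}
    (hw : ‖w‖ < t) : Summable fun γ => mon w γ • G γ := by
  refine Summable.of_norm_bounded (hG ‖w‖ (norm_nonneg _) hw) fun γ => ?_
  rw [norm_smul]
  exact mul_le_mul_of_nonneg_right (ty_norm_mon_le w γ) (norm_nonneg _)

lemma hasTaylor_tsum {G : (Fin d → ℕ) → E} {t : ℝ} (a : Fin d → ℂ)
    (hG : ∀ s, 0 ≤ s → s < t → Summable fun γ => s ^ deg γ * ‖G γ‖) :
    HasTaylor (fun z => ∑' γ, mon (z - a) γ • G γ) a t G := by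
  refine ⟨hG, fun w hw => ?_⟩
  simp only [add_sub_cancel_left]
  exact (ty_summable hG hw).hasSum

theorem hol_tsum {G : (Fin d → ℕ) → E} {t : ℝ} (a : Fin d → ℂ)
    (hG : ∀ s, 0 ≤ s → s < t → Summable fun γ => s ^ deg γ * ‖G γ‖) :
    Hol (fun z => ∑' γ, mon (z - a) γ • G γ) (Metric.ball a t) :=
  (hasTaylor_tsum a hG).hol

theorem cauchy_bound {G : (Fin d → ℕ) → E} {t S : ℝ} (ht : 0 < t)
    (hG : ∀ s, 0 ≤ s → s < t → Summable fun γ => s ^ deg γ * ‖G γ‖)
    (hS : ∀ w : Fin d → ℂ, ‖w‖ < t → ‖∑' γ, mon w γ • G γ‖ ≤ S) (γ : Fin d → ℕ) :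
    ‖G γ‖ ≤ S / t ^ deg γ := by
  refine (hasTaylor_tsum 0 hG).bound ht (hol_tsum 0 hG) (fun z hz => ?_) γ
  refine hS (z - 0) ?_
  simpa using hz

end taylor

end Pool.Agent.Lib.MP_15f9af_an.AD
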