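import Mathlib
import Pool.Agent.Lib.MP_15f9af_an.AD.Defs
import Pool.Agent.Lib.MP_15f9af_an.AD.PolBasic
import Pool.Agent.Lib.MP_15f9af_an.AD.Taylor
import Pool.Agent.Lib.MP_15f9af_an.AD.Level

/-!
# Approximation of admissible functions by elements of the module
-/

namespace Pool.Agent.Lib.MP_15f9af_an.AD

open scoped ENNReal NNReal
open MeasureTheory Filter Topology

universe u v

variable {d : ℕ}

section series
variable {F : Type*} [NormedAddCommGroup F] [NormedSpace ℂ F]

theorem ap_hasSum_congr {ι : Type*} {G : Type*} [AddCommMonoid G] [TopologicalSpace G]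
    {f g : ι → G} {x : G} (h : ∀ b, f b = g b) (hf : HasSum f x) : HasSum g x := by
  rwa [← funext h]

open Classical in
/-- shift of a family of coefficients -/
noncomputable def shf {F : Type*} [Zero F] (β : Fin d → ℕ) (g : (Fin d → ℕ) → F)
    (κ : Fin d → ℕ) : F :=
  if β ≤ κ then g (κ - β) else 0

/-- the coefficients of degree larger than `N` -/
noncomputable def tl {F : Type*} [Zero F] (N : ℕ) (g : (Fin d → ℕ) → F) (κ : Fin d → ℕ) : F :=
  if deg κ ≤ N then 0 else g κ

theorem ap_shf_add {F : Type*} [Zero F] (β γ : Fin d → ℕ) (g : (Fin d → ℕ) → F) :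
    shf β g (γ + β) = g γ := by
  unfold shf
  rw [if_pos (le_add_of_nonneg_left bot_le), add_tsub_cancel_right]

theorem ap_shf_of_not_le {F : Type*} [Zero F] {β κ : Fin d → ℕ} (h : ¬ β ≤ κ)
    (g : (Fin d → ℕ) → F) : shf β g κ = 0 := by
  unfold shf
  rw [if_neg h]

theorem ap_hasSum_mon {w : Fin d → ℂ} {g : (Fin d → ℕ) → F} {S : F}
    (h : HasSum (fun γ => mon w γ • g γ) S) (β : Fin d → ℕ) :
    HasSum (fun κ => mon w κ • shf β g κ) (mon w β • S) := by
  have hinj : Function.Injective (fun γ : Fin d → ℕ => γ + β) := add_left_injective β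
  refine (hinj.hasSum_iff ?_).1 ?_
  · intro κ hκ
    have : ¬ β ≤ κ := fun h => hκ ⟨κ - β, tsub_add_cancel_of_le h⟩
    rw [ap_shf_of_not_le this, smul_zero]
  · have h2 := h.const_smul (mon w β)
    refine ap_hasSum_congr (fun γ => ?_) h2
    show mon w β • (mon w γ • g γ) = mon w (γ + β) • shf β g (γ + β)
    rw [ap_shf_add, mon_add, smul_smul, mul_comm]

theorem ap_hasSum_norm {s : ℝ} {g : (Fin d → ℕ) → F} {S : ℝ}
    (h : HasSum (fun γ => s ^ deg γ * ‖g γ‖) S) (β : Fin d → ℕ) :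
    HasSum (fun κ => s ^ deg κ * ‖shf β g κ‖) (s ^ deg β * S) := by
  have hinj : Function.Injective (fun γ : Fin d → ℕ => γ + β) := add_left_injective β
  refine (hinj.hasSum_iff ?_).1 ?_
  · intro κ hκ
    have : ¬ β ≤ κ := fun h => hκ ⟨κ - β, tsub_add_cancel_of_le h⟩
    rw [ap_shf_of_not_le this, norm_zero, mul_zero]
  · have h2 := h.mul_left (s ^ deg β)
    refine ap_hasSum_congr (fun γ => ?_) h2
    show s ^ deg β * (s ^ deg γ * ‖g γ‖) = s ^ deg (γ + β) * ‖shf β g (γ + β)‖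
    rw [ap_shf_add, deg_add, pow_add]
    ring

theorem ap_summable_sum {s : ℝ} (hs : 0 ≤ s) (B : Finset (Fin d → ℕ))
    (g : (Fin d → ℕ) → (Fin d → ℕ) → F)
    (h : ∀ β ∈ B, Summable fun γ => s ^ deg γ * ‖g β γ‖) :
    (Summable fun κ => s ^ deg κ * ‖∑ β ∈ B, shf β (g β) κ‖) ∧
    ∑' κ, s ^ deg κ * ‖∑ β ∈ B, shf β (g β) κ‖ ≤
      ∑ β ∈ B, s ^ deg β * ∑' γ, s ^ deg γ * ‖g β γ‖ := by
  have h1 : ∀ β ∈ B, HasSum (fun κ => s ^ deg κ * ‖shf β (g β) κ‖)
      (s ^ deg β * ∑' γ, s ^ deg γ * ‖g β γ‖) := fun β hβ => ap_hasSum_norm (h β hβ).hasSum β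
  have h2 := hasSum_sum h1
  have h3 : ∀ κ, s ^ deg κ * ‖∑ β ∈ B, shf β (g β) κ‖ ≤
      ∑ β ∈ B, s ^ deg κ * ‖shf β (g β) κ‖ := by
    intro κ
    rw [← Finset.mul_sum]
    exact mul_le_mul_of_nonneg_left (norm_sum_le _ _) (by positivity)
  have h4 : Summable fun κ => s ^ deg κ * ‖∑ β ∈ B, shf β (g β) κ‖ :=
    Summable.of_nonneg_of_le (fun κ => by positivity) h3 h2.summable
  exact ⟨h4, (h4.tsum_le_tsum h3 h2.summable).trans_eq h2.tsum_eq⟩

theorem ap_hasSum_sum {w : Fin d → ℂ} (B : Finset (Fin d → ℕ))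
    {g : (Fin d → ℕ) → (Fin d → ℕ) → F} {S : (Fin d → ℕ) → F}
    (h : ∀ β ∈ B, HasSum (fun γ => mon w γ • g β γ) (S β)) :
    HasSum (fun κ => mon w κ • ∑ β ∈ B, shf β (g β) κ) (∑ β ∈ B, mon w β • S β) := by
  have h2 := hasSum_sum fun β hβ => ap_hasSum_mon (h β hβ) β
  refine ap_hasSum_congr (fun κ => ?_) h2
  rw [Finset.smul_sum]

theorem ap_tail_tendsto {s : ℝ} {g : (Fin d → ℕ) → F}
    (h : Summable fun γ => s ^ deg γ * ‖g γ‖) :
    Tendsto (fun N => ∑' γ, s ^ deg γ * ‖tl N g γ‖) atTop (𝓝 0) := by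
  have h1 : Tendsto (fun N => ∑' γ, s ^ deg γ * ‖tl N g γ‖) atTop
      (𝓝 (∑' _ : Fin d → ℕ, (0 : ℝ))) := by
    refine tendsto_tsum_of_dominated_convergence (bound := fun γ => ‖s ^ deg γ * ‖g γ‖‖) h.norm
      ?_ ?_
    · intro γ
      refine tendsto_const_nhds.congr' ?_
      filter_upwards [eventually_ge_atTop (deg γ)] with N hN
      unfold tl
      rw [if_pos hN, norm_zero, mul_zero]
    · refine Eventually.of_forall fun N γ => ?_
      unfold tl
      split_ifs
      · rw [norm_zero, mul_zero, norm_zero]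
        exact norm_nonneg _
      · exact le_rfl
  rwa [tsum_zero] at h1

theorem ap_unique [CompleteSpace F] {t : ℝ} (ht : 0 < t) {G : (Fin d → ℕ) → F}
    (hG : Summable fun γ => t ^ deg γ * ‖G γ‖)
    (h0 : ∀ w : Fin d → ℂ, ‖w‖ < t → HasSum (fun γ => mon w γ • G γ) 0) (γ : Fin d → ℕ) :
    G γ = 0 := by
  have h1 := cauchy_bound (G := G) (S := 0) ht ?_ ?_ γ
  · rw [zero_div] at h1
    exact norm_le_zero_iff.1 h1
  · intro s hs0 hst
    refine Summable.of_nonneg_of_le (fun κ => by positivity) (fun κ => ?_) hG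
    exact mul_le_mul_of_nonneg_right (pow_le_pow_left₀ hs0 hst.le _) (norm_nonneg _)
  · intro w hw
    rw [(h0 w hw).tsum_eq, norm_zero]

end series

section pol
variable {E : Type*} [AddCommGroup E] [Module ℂ E]

/-- the coefficients of `∑ z^γ T_γ` -/
theorem ap_sum_shift_apply (N : ℕ) (B : Finset (Fin d → ℕ)) (T : (Fin d → ℕ) → Pol d E)
    (hT : ∀ γ, (T γ).support ⊆ B) (κ : Fin d → ℕ) :
    (∑ γ ∈ degLe d N, shift γ (T γ)) κ =
      ∑ β ∈ B, shf β (fun γ => if deg γ ≤ N then T γ β else 0) κ := by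
  classical
  have h1 : ∀ γ, shift γ (T γ) κ = ∑ β ∈ B, if γ + β = κ then T γ β else 0 := by
    intro γ
    have h2 : T γ = ∑ β ∈ B, Finsupp.single β (T γ β) := by
      conv_lhs => rw [← Finsupp.sum_single (T γ)]
      rw [Finsupp.sum_of_support_subset _ (hT γ)]
      intro β _
      simp
    conv_lhs => rw [h2]
    rw [map_sum, Finsupp.finsetSum_apply]
    refine Finset.sum_congr rfl fun β _ => ?_
    rw [shift_single, Finsupp.single_apply]
  rw [Finsupp.finsetSum_apply]
  simp_rw [h1]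
  rw [Finset.sum_comm]
  refine Finset.sum_congr rfl fun β _ => ?_
  by_cases hβ : β ≤ κ
  · have h3 : ∀ γ : Fin d → ℕ, γ + β = κ ↔ κ - β = γ := by
      intro γ
      constructor
      · rintro rfl
        rw [add_tsub_cancel_right]
      · rintro rfl
        exact tsub_add_cancel_of_le hβ
    simp_rw [h3]
    rw [Finset.sum_ite_eq]
    unfold shf
    rw [if_pos hβ]
    simp only [mem_degLe]
  · rw [ap_shf_of_not_le hβ]
    refine Finset.sum_eq_zero fun γ _ => ?_
    rw [if_neg]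
    rintro rfl
    exact hβ (le_add_of_nonneg_left bot_le)

theorem ap_mapc_id (f : Pol d E) : mapc (LinearMap.id : E →ₗ[ℂ] E) f = f := by
  ext α
  simp [mapc]

/-- `∑ z^γ T_a f_γ` is in `T_a M` -/
theorem ap_exists_mem {M : Submodule ℂ (Pol d E)} (hM : IsMod M) (a : Fin d → ℂ)
    (s : Finset (Fin d → ℕ)) (c : (Fin d → ℕ) → ℂ) (f : (Fin d → ℕ) → Pol d E)
    (hf : ∀ γ, f γ ∈ M) :
    ∃ g ∈ M, recentre a g = ∑ γ ∈ s, shift γ (c γ • recentre a (f γ)) := by
  have h1 : ∑ γ ∈ s, shift γ (c γ • recentre a (f γ)) ∈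
      M.map (mapc (LinearMap.id : E →ₗ[ℂ] E) ∘ₗ recentre a) := by
    refine Submodule.sum_mem _ fun γ _ => ?_
    refine isMod_map_recentre hM _ _ γ _ ?_
    refine Submodule.smul_mem _ _ ⟨f γ, hf γ, ?_⟩
    rw [LinearMap.comp_apply, ap_mapc_id]
  obtain ⟨g, hg, hg'⟩ := h1
  rw [LinearMap.comp_apply, ap_mapc_id] at hg'
  exact ⟨g, hg, hg'⟩

end pol

theorem ap_dotc_hol (a : Fin d → ℂ) :
    Hol (fun w : Fin d → ℂ => Complex.exp (-dotc w a)) Set.univ := by
  refine ⟨?_, fun z _ i => ?_⟩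
  · refine Continuous.continuousOn ?_
    unfold dotc
    fun_prop
  · refine DifferentiableAt.cexp (DifferentiableAt.neg ?_)
    unfold dotc
    refine DifferentiableAt.fun_sum fun j _ => ?_
    refine DifferentiableAt.mul_const ?_ _
    by_cases h : j = i
    · subst h
      simp
    · simp [Function.update_of_ne h]

section approx
variable {K : Type u} [NormedAddCommGroup K] [InnerProductSpace ℂ K] [FiniteDimensional ℂ K]

theorem approx_zero (M : Submodule ℂ (Pol d K)) (hM : IsMod M) :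
    Approx M (fun U F => ∃ f ∈ M, ∀ z ∈ U, F z = ev z f) := by
  classical
  intro t ht0 ht1
  refine ⟨t, ht0, le_rfl, fun a F _ ⟨f, hfM, hF⟩ G hG hsum ε hε => ?_⟩
  obtain ⟨e, he1, he2⟩ := taylor_entire (ap_dotc_hol a)
  set B : Finset (Fin d → ℕ) := (recentre a f).support with hB
  set p : Pol d K := recentre a f with hp
  -- the coefficients of the product
  have hsummable : ∀ β ∈ B, Summable fun γ => t ^ deg γ * ‖e γ • p β‖ := by
    intro β _
    have := (he1 t ht0.le).mul_right ‖p β‖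
    refine this.congr fun γ => ?_
    rw [norm_smul, mul_assoc]
  have hprod := ap_summable_sum ht0.le B (fun β γ => e γ • p β) hsummable
  have hG' : ∀ κ, G κ = ∑ β ∈ B, shf β (fun γ => e γ • p β) κ := by
    intro κ
    rw [← sub_eq_zero]
    refine ap_unique ht0 (G := fun κ => G κ - ∑ β ∈ B, shf β (fun γ => e γ • p β) κ) ?_ ?_ κ
    · refine Summable.of_nonneg_of_le (fun κ => by positivity) (fun κ => ?_) (hG.add hprod.1)
      rw [← mul_add]
      exact mul_le_mul_of_nonneg_left (norm_sub_le _ _) (by positivity)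
    · intro w hw
      have h1 := hsum w hw
      have hz : a + w ∈ Metric.ball a t := by
        rw [mem_ball_iff_norm]
        simpa using hw
      rw [hF _ hz] at h1
      have h2 : HasSum (fun κ => mon w κ • ∑ β ∈ B, shf β (fun γ => e γ • p β) κ)
          (∑ β ∈ B, mon w β • (Complex.exp (-dotc w a) • p β)) := by
        refine ap_hasSum_sum B fun β _ => ?_
        have := (he2 w).smul_const (p β)
        refine ap_hasSum_congr (fun γ => ?_) this
        rw [smul_eq_mul, mul_smul]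
      have h3 : ∑ β ∈ B, mon w β • (Complex.exp (-dotc w a) • p β) =
          Complex.exp (-dotc w a) • ev (a + w) f := by
        rw [← ev_recentre, lv_ev_eq_sum w (recentre a f) (Finset.Subset.refl _),
          Finset.smul_sum]
        refine Finset.sum_congr rfl fun β _ => ?_
        rw [smul_comm]
      rw [h3] at h2
      have h4 := h1.sub h2
      rw [sub_self] at h4
      refine ap_hasSum_congr (fun κ => ?_) h4
      rw [smul_sub]
  -- choose the degree of the truncation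
  set S : ℝ := ∑ β ∈ B, ‖p β‖ with hS
  have hlim : Tendsto (fun N => (∑' γ, t ^ deg γ * ‖tl N e γ‖) * S) atTop (𝓝 0) := by
    have := (ap_tail_tendsto (he1 t ht0.le)).mul_const S
    rwa [zero_mul] at this
  obtain ⟨N, hN⟩ := (hlim.eventually (ge_mem_nhds hε)).exists
  obtain ⟨c, hc, hc'⟩ := ap_exists_mem hM a (degLe d N) e (fun _ => f) (fun _ => hfM)
  refine ⟨c, hc, ?_⟩
  have hdiff : ∀ κ, G κ - recentre a c κ = ∑ β ∈ B, shf β (fun γ => tl N e γ • p β) κ := by
    intro κ
    rw [hG' κ, hc', ap_sum_shift_apply N B _ (fun γ => Finsupp.support_smul) κ,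
      ← Finset.sum_sub_distrib]
    refine Finset.sum_congr rfl fun β _ => ?_
    by_cases hβ : β ≤ κ
    · simp only [shf, if_pos hβ, tl]
      by_cases h : deg (κ - β) ≤ N
      · simp [h, hp]
      · simp [h]
    · rw [ap_shf_of_not_le hβ, ap_shf_of_not_le hβ, ap_shf_of_not_le hβ, sub_zero]
  have hb1 : ∀ β ∈ B, Summable fun γ => t ^ deg γ * ‖tl N e γ • p β‖ := by
    intro β hβ
    refine Summable.of_nonneg_of_le (fun κ => by positivity) (fun γ => ?_) (hsummable β hβ)
    refine mul_le_mul_of_nonneg_left ?_ (by positivity)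
    unfold tl
    split_ifs
    · simp
    · exact le_rfl
  have hb2 := ap_summable_sum ht0.le B (fun β γ => tl N e γ • p β) hb1
  simp_rw [hdiff]
  refine hb2.2.trans (le_trans ?_ hN)
  rw [hS, Finset.mul_sum]
  refine Finset.sum_le_sum fun β _ => ?_
  have h5 : ∑' γ, t ^ deg γ * ‖tl N e γ • p β‖ = (∑' γ, t ^ deg γ * ‖tl N e γ‖) * ‖p β‖ := by
    rw [← tsum_mul_right]
    refine tsum_congr fun γ => ?_
    rw [norm_smul, mul_assoc]
  rw [h5]
  refine mul_le_of_le_one_left ?_ (pow_le_one₀ ht0.le ht1)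
  exact mul_nonneg (tsum_nonneg fun γ => by positivity) (norm_nonneg _)

end approx

section next
variable {E : Type u} {V : Type u} [NormedAddCommGroup E] [NormedSpace ℂ E]
  [FiniteDimensional ℂ E] [NormedAddCommGroup V] [NormedSpace ℂ V] [FiniteDimensional ℂ V]

/-- the `β`-coefficient of the recentred polynomial -/
noncomputable def apP (M : Submodule ℂ (Pol d E)) (m : ℕ) (a : Fin d → ℂ) (β : Fin d → ℕ) :
    Wsp M m →L[ℂ] E :=
  LinearMap.toContinuousLinearMap
    (Finsupp.lapply β ∘ₗ recentre a ∘ₗ toPol m ∘ₗ (Wsp M m).subtype)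

theorem apP_apply (M : Submodule ℂ (Pol d E)) (m : ℕ) (a : Fin d → ℂ) (β : Fin d → ℕ)
    (v : Wsp M m) : apP M m a β v = recentre a (toPol m (v : degLe d m → E)) β := rfl

theorem ap_support_subset {m : ℕ} {f : Pol d E} (hf : f ∈ polLe d E m) :
    f.support ⊆ degLe d m := by
  intro α hα
  rw [Finsupp.mem_support_iff] at hα
  rw [mem_degLe]
  by_contra h
  exact hα (hf α (by omega))

theorem ap_Dop_eq (M : Submodule ℂ (Pol d E)) (m : ℕ) (a w : Fin d → ℂ) (v : Wsp M m) :
    Dop M m (a + w) v = ∑ β ∈ degLe d m, mon w β • apP M m a β v := by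
  rw [lv_Dop_apply, ← ev_recentre,
    lv_ev_eq_sum w _ (ap_support_subset (recentre_polLe (toPol_mem _)))]
  rfl

theorem ap_next {τ : (Fin d → ℂ) → E →L[ℂ] V} (hτ : Moderate τ) {M : Submodule ℂ (Pol d E)}
    (hM : IsMod M) {m : ℕ} {r C : ℝ} (hr0 : 0 < r) (hr1 : r ≤ 1) (hC : 0 ≤ C)
    (hm : ∀ (a : Fin d → ℂ) (t : ℝ), 0 < t → t ≤ 1 → ∀ f ∈ M, ∃ c : Pol d (Wsp M m),
        (∀ w, Dop M m (a + w) (ev w c) = ev (a + w) f) ∧
        (c.sum fun γ q => (r * t) ^ deg γ * ‖tauNext τ M m a q‖) ≤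
          C / t ^ m * l1 t (mapc (τ a : E →ₗ[ℂ] V) (recentre a f))) :
    Approx (relM M m) (fun U F => ∀ z ∈ U, Dop M m z (F z) = 0) := by
  classical
  intro t ht0 ht1
  refine ⟨r * t, by positivity, mul_le_of_le_one_left ht0.le hr1, ?_⟩
  intro a F _ hF G hG hsum ε hε
  -- the inverse bound of the norm at `a`
  obtain ⟨K', hK'0, hK'⟩ : ∃ K' : ℝ, 0 ≤ K' ∧ ∀ v : Wsp M m, ‖v‖ ≤ K' * ‖tauNext τ M m a v‖ := by
    obtain ⟨A, e, hA, hg⟩ := (moderate_tauNext hτ M m).growth
    obtain ⟨c, hc, hinj⟩ := (moderate_tauNext hτ M m).inj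
    refine ⟨c * (A * (1 + ‖(0 : Fin d → ℂ) - a‖) ^ e), by positivity, fun v => ?_⟩
    refine (hinj v).trans ?_
    rw [mul_assoc]
    exact mul_le_mul_of_nonneg_left (hg 0 a v) hc
  -- the coefficients of the identity `D G = 0` vanish
  have hsummable : ∀ β ∈ degLe d m, Summable fun γ => t ^ deg γ * ‖apP M m a β (G γ)‖ := by
    intro β _
    refine Summable.of_nonneg_of_le (fun κ => by positivity) (fun γ => ?_)
      (hG.mul_left ‖apP M m a β‖)
    calc t ^ deg γ * ‖apP M m a β (G γ)‖ ≤ t ^ deg γ * (‖apP M m a β‖ * ‖G γ‖) :=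
          mul_le_mul_of_nonneg_left (ContinuousLinearMap.le_opNorm _ _) (by positivity)
      _ = ‖apP M m a β‖ * (t ^ deg γ * ‖G γ‖) := by ring
  have hH : ∀ κ, ∑ β ∈ degLe d m, shf β (fun γ => apP M m a β (G γ)) κ = 0 := by
    intro κ
    refine ap_unique ht0
      (ap_summable_sum ht0.le (degLe d m) (fun β γ => apP M m a β (G γ)) hsummable).1 ?_ κ
    intro w hw
    have h1 := hsum w hw
    have hz : a + w ∈ Metric.ball a t := by
      rw [mem_ball_iff_norm]
      simpa using hw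
    have h2 := ap_hasSum_sum (w := w) (degLe d m) (g := fun β γ => apP M m a β (G γ))
      (S := fun β => apP M m a β (Complex.exp (-dotc w a) • F (a + w))) (fun β _ => by
        have := (apP M m a β).hasSum h1
        refine ap_hasSum_congr (fun γ => ?_) this
        show apP M m a β (mon w γ • G γ) = _
        rw [map_smul])
    rwa [← ap_Dop_eq, map_smul, hF _ hz, smul_zero] at h2
  -- the truncation
  set Kc : ℝ := ‖τ a‖ * ∑ β ∈ degLe d m, ‖apP M m a β‖ with hKc
  have hKc0 : 0 ≤ Kc := by positivity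
  have hlim : Tendsto (fun N => (1 + K' * (C / t ^ m * Kc)) *
      ∑' γ, t ^ deg γ * ‖tl N G γ‖) atTop (𝓝 0) := by
    have := (ap_tail_tendsto hG).const_mul (1 + K' * (C / t ^ m * Kc))
    rwa [mul_zero] at this
  obtain ⟨N, hN⟩ := (hlim.eventually (ge_mem_nhds hε)).exists
  obtain ⟨f, hf, hf'⟩ := ap_exists_mem hM a (degLe d N) (fun _ => 1)
    (fun γ => toPol m (G γ : degLe d m → E)) (fun γ => (G γ).2)
  simp only [one_smul] at hf'
  obtain ⟨c, hc1, hc2⟩ := hm a t ht0 ht1 f hf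
  set GN : Pol d (Wsp M m) := ∑ γ ∈ degLe d N, Finsupp.single γ (G γ) with hGN
  have hGNapply : ∀ κ, GN κ = if deg κ ≤ N then G κ else 0 := by
    intro κ
    rw [hGN, Finsupp.finsetSum_apply]
    simp_rw [Finsupp.single_apply]
    rw [Finset.sum_ite_eq']
    simp only [mem_degLe]
  have hevGN : ∀ w, Dop M m (a + w) (ev w GN) = ev (a + w) f := by
    intro w
    rw [← ev_recentre a w f, hf', hGN, map_sum, map_sum, map_sum]
    refine Finset.sum_congr rfl fun γ _ => ?_
    rw [ev_single, map_smul, ev_shift, lv_Dop_apply, ev_recentre]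
  -- the norm of the truncated value
  have hcoef : ∀ κ, recentre a f κ =
      - ∑ β ∈ degLe d m, shf β (fun γ => apP M m a β (tl N G γ)) κ := by
    intro κ
    rw [hf', ap_sum_shift_apply N (degLe d m) _
      (fun γ => ap_support_subset (recentre_polLe (toPol_mem _))) κ, eq_neg_iff_add_eq_zero,
      ← Finset.sum_add_distrib]
    refine Eq.trans (Finset.sum_congr rfl fun β _ => ?_) (hH κ)
    by_cases hβ : β ≤ κ
    · simp only [shf, if_pos hβ, tl]
      by_cases h : deg (κ - β) ≤ N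
      · rw [if_pos h, if_pos h, map_zero, add_zero]
        rfl
      · rw [if_neg h, if_neg h, zero_add]
    · rw [ap_shf_of_not_le hβ, ap_shf_of_not_le hβ, ap_shf_of_not_le hβ, add_zero]
  have htlS : Summable fun γ => t ^ deg γ * ‖tl N G γ‖ := by
    refine Summable.of_nonneg_of_le (fun κ => by positivity) (fun γ => ?_) hG
    refine mul_le_mul_of_nonneg_left ?_ (by positivity)
    unfold tl
    split_ifs
    · simp
    · exact le_rfl
  have htl : ∀ β ∈ degLe d m, Summable fun γ => t ^ deg γ * ‖apP M m a β (tl N G γ)‖ := by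
    intro β _
    refine Summable.of_nonneg_of_le (fun κ => by positivity) (fun γ => ?_)
      (htlS.mul_left ‖apP M m a β‖)
    calc t ^ deg γ * ‖apP M m a β (tl N G γ)‖ ≤ t ^ deg γ * (‖apP M m a β‖ * ‖tl N G γ‖) :=
          mul_le_mul_of_nonneg_left (ContinuousLinearMap.le_opNorm _ _) (by positivity)
      _ = ‖apP M m a β‖ * (t ^ deg γ * ‖tl N G γ‖) := by ring
  have hsum2 := ap_summable_sum ht0.le (degLe d m) (fun β γ => apP M m a β (tl N G γ)) htl
  set T : ℝ := ∑' γ, t ^ deg γ * ‖tl N G γ‖ with hT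
  have hT0 : 0 ≤ T := tsum_nonneg fun γ => by positivity
  have hl1 : l1 t (mapc (τ a : E →ₗ[ℂ] V) (recentre a f)) ≤ Kc * T := by
    have h1 : l1 t (mapc (τ a : E →ₗ[ℂ] V) (recentre a f)) =
        ∑ κ ∈ (recentre a f).support, t ^ deg κ * ‖τ a (recentre a f κ)‖ := by
      unfold l1 mapc
      rw [Finsupp.mapRange.linearMap_apply, Finsupp.sum_mapRange_index (by intro κ; simp)]
      rfl
    rw [h1]
    have h2 : ∀ κ, t ^ deg κ * ‖τ a (recentre a f κ)‖ ≤ ‖τ a‖ *
        (t ^ deg κ * ‖∑ β ∈ degLe d m, shf β (fun γ => apP M m a β (tl N G γ)) κ‖) := by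
      intro κ
      rw [hcoef κ, map_neg, norm_neg]
      calc _ ≤ t ^ deg κ * (‖τ a‖ *
            ‖∑ β ∈ degLe d m, shf β (fun γ => apP M m a β (tl N G γ)) κ‖) :=
            mul_le_mul_of_nonneg_left (ContinuousLinearMap.le_opNorm _ _) (by positivity)
        _ = _ := by ring
    refine (Finset.sum_le_sum fun κ _ => h2 κ).trans ?_
    rw [← Finset.mul_sum]
    refine le_trans (mul_le_mul_of_nonneg_left
      (hsum2.1.sum_le_tsum _ fun κ _ => by positivity) (norm_nonneg _)) ?_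
    rw [hKc, mul_assoc]
    refine mul_le_mul_of_nonneg_left (hsum2.2.trans ?_) (norm_nonneg _)
    rw [Finset.sum_mul]
    refine Finset.sum_le_sum fun β _ => ?_
    have h3 : ∑' γ, t ^ deg γ * ‖apP M m a β (tl N G γ)‖ ≤ ‖apP M m a β‖ * T := by
      rw [hT, ← tsum_mul_left]
      refine (htl β ‹_›).tsum_le_tsum (fun γ => ?_) (htlS.mul_left _)
      calc t ^ deg γ * ‖apP M m a β (tl N G γ)‖ ≤ t ^ deg γ * (‖apP M m a β‖ * ‖tl N G γ‖) :=
            mul_le_mul_of_nonneg_left (ContinuousLinearMap.le_opNorm _ _) (by positivity)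
        _ = ‖apP M m a β‖ * (t ^ deg γ * ‖tl N G γ‖) := by ring
    refine le_trans ?_ h3
    refine mul_le_of_le_one_left ?_ (pow_le_one₀ ht0.le ht1)
    exact tsum_nonneg fun γ => by positivity
  -- the approximation
  refine ⟨recentre (-a) (GN - c), ?_, ?_⟩
  · intro z
    rw [ev_recentre]
    have hz : z = a + (-a + z) := by abel
    conv_lhs => rw [hz]
    rw [map_sub, map_sub, neg_add_cancel_left, hevGN, hc1, sub_self]
  · rw [recentre_recentre, add_neg_cancel, recentre_zero]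
    have hrt0 : 0 ≤ r * t := by positivity
    have hrt : r * t ≤ t := mul_le_of_le_one_left ht0.le hr1
    have hcsum : HasSum (fun γ => (r * t) ^ deg γ * ‖c γ‖)
        (c.sum fun γ q => (r * t) ^ deg γ * ‖q‖) := by
      unfold Finsupp.sum
      refine hasSum_sum_of_ne_finset_zero fun γ hγ => ?_
      rw [Finsupp.notMem_support_iff.1 hγ, norm_zero, mul_zero]
    have h1 : ∀ γ, (r * t) ^ deg γ * ‖G γ - (GN - c) γ‖ ≤
        t ^ deg γ * ‖tl N G γ‖ + (r * t) ^ deg γ * ‖c γ‖ := by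
      intro γ
      have h2 : G γ - (GN - c) γ = tl N G γ + c γ := by
        rw [Finsupp.sub_apply, hGNapply]
        unfold tl
        split_ifs <;> abel
      rw [h2]
      calc (r * t) ^ deg γ * ‖tl N G γ + c γ‖ ≤ (r * t) ^ deg γ * (‖tl N G γ‖ + ‖c γ‖) :=
            mul_le_mul_of_nonneg_left (norm_add_le _ _) (by positivity)
        _ = (r * t) ^ deg γ * ‖tl N G γ‖ + (r * t) ^ deg γ * ‖c γ‖ := by ring
        _ ≤ _ := by
            have := mul_le_mul_of_nonneg_right (pow_le_pow_left₀ hrt0 hrt (deg γ))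
              (norm_nonneg (tl N G γ))
            linarith
    have h3 : Summable fun γ => (r * t) ^ deg γ * ‖G γ - (GN - c) γ‖ :=
      Summable.of_nonneg_of_le (fun κ => by positivity) h1 (htlS.add hcsum.summable)
    have h4 := h3.tsum_le_tsum h1 (htlS.add hcsum.summable)
    rw [(htlS.hasSum.add hcsum).tsum_eq] at h4
    refine h4.trans (le_trans ?_ hN)
    have h5 : (c.sum fun γ q => (r * t) ^ deg γ * ‖q‖) ≤ K' * (C / t ^ m * (Kc * T)) := by
      refine le_trans ?_ (mul_le_mul_of_nonneg_left (hc2.trans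
        (mul_le_mul_of_nonneg_left hl1 (by positivity))) hK'0)
      unfold Finsupp.sum
      rw [Finset.mul_sum]
      refine Finset.sum_le_sum fun γ _ => ?_
      calc (r * t) ^ deg γ * ‖c γ‖ ≤ (r * t) ^ deg γ * (K' * ‖tauNext τ M m a (c γ)‖) :=
            mul_le_mul_of_nonneg_left (hK' _) (by positivity)
        _ = K' * ((r * t) ^ deg γ * ‖tauNext τ M m a (c γ)‖) := by ring
    calc _ ≤ T + K' * (C / t ^ m * (Kc * T)) := by linarith
      _ = (1 + K' * (C / t ^ m * Kc)) * T := by ring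

end next

namespace Level

/-- AP for the next level -/
theorem approx_next (X : Level.{u} d) :
    Approx (relM X.M X.m) (fun U F => ∀ z ∈ U, Dop X.M X.m z (F z) = 0) := by
  obtain ⟨r, C, hr0, hr1, hC, h⟩ := X.m_spec
  exact ap_next X.hτ X.hM hr0 hr1 hC h

/-- the next level -/
noncomputable def next (X : Level.{u} d) : Level.{u} d where
  E := Wsp X.M X.m
  V := degLe d X.m → X.V
  τ := tauNext X.τ X.M X.m
  M := relM X.M X.m
  Adm := fun U F => ∀ z ∈ U, Dop X.M X.m z (F z) = 0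
  hτ := moderate_tauNext X.hτ X.M X.m
  hM := isMod_relM X.M X.m
  mono := fun _ _ _ h hF z hz => hF z (h hz)
  approx := approx_next X

end Level

section zero
variable {K : Type u} [NormedAddCommGroup K] [InnerProductSpace ℂ K] [FiniteDimensional ℂ K]

/-- level zero -/
noncomputable def zeroLevel (M : Submodule ℂ (Pol d K)) (hM : IsMod M) : Level.{u} d where
  E := K
  V := K
  τ := fun _ => ContinuousLinearMap.id ℂ K
  M := M
  Adm := fun U F => ∃ f ∈ M, ∀ z ∈ U, F z = ev z f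
  hτ := ⟨continuous_const, ⟨1, 0, zero_le_one, fun z w v => by simp⟩,
    ⟨1, zero_le_one, fun v => by simp⟩⟩
  hM := hM
  mono := fun _ _ _ h ⟨f, hf, hF⟩ => ⟨f, hf, fun z hz => hF z (h hz)⟩
  approx := approx_zero M hM

end zero

end Pool.Agent.Lib.MP_15f9af_an.AD
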