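import Mathlib
import Pool.Agent.Lib.MP_15f9af_an.AD.Defs

/-!
# Gaussian Parseval identity

`∫ ‖F(z)‖² e^{-|z|²} dz = π^d ∑ γ! ‖G_γ‖²` for entire functions `F(z) = ∑ z^γ G_γ`.
The proof averages over the torus.
-/

namespace Pool.Agent.Lib.MP_15f9af_an.AD

open scoped ENNReal NNReal
open MeasureTheory

universe u v

variable {d : ℕ}

/-! ### one variable -/

theorem ps_integral_pow (k : ℕ) :
    ∫ x : ℂ, ‖x‖ ^ (2 * k) * Real.exp (-‖x‖ ^ 2) = Real.pi * (k.factorial : ℝ) := by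
  have h := Complex.integral_rpow_mul_exp_neg_rpow (p := 2) (q := 2 * k) (by norm_num)
    (by have : (0 : ℝ) ≤ 2 * k := by positivity
        linarith)
  have h1 : ∀ x : ℂ, ‖x‖ ^ (2 * k) * Real.exp (-‖x‖ ^ 2) =
      ‖x‖ ^ (2 * k : ℝ) * Real.exp (-‖x‖ ^ (2 : ℝ)) := by
    intro x
    have e1 : ‖x‖ ^ (2 * k : ℝ) = ‖x‖ ^ (2 * k) := by
      have : (2 * k : ℝ) = ((2 * k : ℕ) : ℝ) := by push_cast; ring
      rw [this, Real.rpow_natCast]
    have e2 : ‖x‖ ^ (2 : ℝ) = ‖x‖ ^ 2 := by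
      rw [← Real.rpow_natCast]; norm_num
    rw [e1, e2]
  simp_rw [h1]
  rw [h]
  have e3 : ((2 * (k : ℝ) + 2) / 2) = (k : ℝ) + 1 := by ring
  rw [e3, Real.Gamma_nat_eq_factorial]
  ring

theorem ps_integrable_pow (k : ℕ) :
    Integrable fun x : ℂ => ‖x‖ ^ (2 * k) * Real.exp (-‖x‖ ^ 2) := by
  by_contra h
  have h0 := integral_undef h
  rw [ps_integral_pow] at h0
  have : (0 : ℝ) < Real.pi * (k.factorial : ℝ) := by positivity
  linarith

/-! ### products -/

theorem ps_prod (z : Fin d → ℂ) (γ : Fin d → ℕ) :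
    ‖mon z γ‖ ^ 2 * Real.exp (-nsq z) =
      ∏ j, (‖z j‖ ^ (2 * γ j) * Real.exp (-‖z j‖ ^ 2)) := by
  rw [Finset.prod_mul_distrib, ← Real.exp_sum, Finset.sum_neg_distrib]
  unfold mon nsq
  rw [norm_prod, ← Finset.prod_pow]
  congr 1
  refine Finset.prod_congr rfl fun j _ => ?_
  rw [norm_pow, ← pow_mul, mul_comm]

theorem ps_integrable_mon (γ : Fin d → ℕ) :
    Integrable fun z : Fin d → ℂ => ‖mon z γ‖ ^ 2 * Real.exp (-nsq z) := by
  simp_rw [ps_prod]
  exact Integrable.fintype_prod (μ := fun _ => volume) (f := fun (j : Fin d) (x : ℂ) =>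
    ‖x‖ ^ (2 * γ j) * Real.exp (-‖x‖ ^ 2)) fun j => ps_integrable_pow (γ j)

theorem ps_integral_mon (γ : Fin d → ℕ) :
    ∫ z : Fin d → ℂ, ‖mon z γ‖ ^ 2 * Real.exp (-nsq z) = Real.pi ^ d * (mfact γ : ℝ) := by
  simp_rw [ps_prod]
  rw [integral_fintype_prod_volume_eq_prod (fun (j : Fin d) (x : ℂ) =>
    ‖x‖ ^ (2 * γ j) * Real.exp (-‖x‖ ^ 2))]
  simp_rw [ps_integral_pow]
  rw [Finset.prod_mul_distrib, Finset.prod_const, Finset.card_univ, Fintype.card_fin]
  unfold mfact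
  push_cast
  rfl

theorem ps_lintegral_mon (γ : Fin d → ℕ) :
    ∫⁻ z : Fin d → ℂ, ENNReal.ofReal (‖mon z γ‖ ^ 2 * Real.exp (-nsq z)) =
      ENNReal.ofReal (Real.pi ^ d * (mfact γ : ℝ)) := by
  rw [← ps_integral_mon, ofReal_integral_eq_lintegral_ofReal (ps_integrable_mon γ)]
  filter_upwards with z
  positivity

/-! ### the torus -/

/-- the measure on the torus -/
noncomputable def psm : Measure ℝ := volume.restrict (Set.Ioc 0 (2 * Real.pi))

instance : IsFiniteMeasure psm := by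
  unfold psm
  exact ⟨by simpa using ENNReal.mul_lt_top (by simp) (by simp)⟩

theorem psm_univ : psm.real Set.univ = 2 * Real.pi := by
  unfold psm
  rw [measureReal_restrict_apply_univ]
  simp [Measure.real, Real.pi_pos.le]

/-- the characters of the torus -/
noncomputable def pch (θ : Fin d → ℝ) (γ : Fin d → ℕ) : ℂ :=
  ∏ j, Complex.exp (Complex.I * θ j) ^ γ j

theorem norm_pch (θ : Fin d → ℝ) (γ : Fin d → ℕ) : ‖pch θ γ‖ = 1 := by
  unfold pch
  rw [norm_prod]
  refine Finset.prod_eq_one fun j _ => ?_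
  rw [norm_pow, mul_comm, Complex.norm_exp_ofReal_mul_I, one_pow]

theorem ps_int_exp (n : ℤ) :
    ∫ θ, Complex.exp (n * (Complex.I * (θ : ℝ))) ∂psm = if n = 0 then (2 * Real.pi : ℂ) else 0 := by
  split_ifs with h
  · subst h
    simp [psm_univ]
  · unfold psm
    rw [← intervalIntegral.integral_of_le (by positivity)]
    have h1 : (fun θ : ℝ => Complex.exp (n * (Complex.I * (θ : ℝ)))) =
        fun θ : ℝ => Complex.exp ((n * Complex.I) * (θ : ℝ)) := by
      funext θ; congr 1; ring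
    rw [h1, integral_exp_mul_complex (by simp [h])]
    have h2 : (n : ℂ) * Complex.I * ((2 * Real.pi : ℝ) : ℂ) = n * (2 * Real.pi * Complex.I) := by
      push_cast; ring
    rw [h2, Complex.exp_int_mul_two_pi_mul_I]
    simp

theorem ps_orth (γ γ' : Fin d → ℕ) :
    ∫ θ, (starRingEnd ℂ) (pch θ γ) * pch θ γ' ∂(Measure.pi fun _ : Fin d => psm) =
      if γ = γ' then (2 * Real.pi : ℂ) ^ d else 0 := by
  have h1 : ∀ θ : Fin d → ℝ, (starRingEnd ℂ) (pch θ γ) * pch θ γ' =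
      ∏ j, Complex.exp (((γ' j - γ j : ℤ) : ℂ) * (Complex.I * (θ j : ℝ))) := by
    intro θ
    unfold pch
    rw [map_prod, ← Finset.prod_mul_distrib]
    refine Finset.prod_congr rfl fun j _ => ?_
    rw [map_pow, ← Complex.exp_conj, ← Complex.exp_nat_mul, ← Complex.exp_nat_mul,
      ← Complex.exp_add]
    congr 1
    simp only [map_mul, Complex.conj_I, Complex.conj_ofReal]
    push_cast
    ring
  simp_rw [h1]
  rw [integral_fintype_prod_eq_prod (fun (j : Fin d) (x : ℝ) =>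
    Complex.exp (((γ' j - γ j : ℤ) : ℂ) * (Complex.I * (x : ℝ))))]
  simp_rw [ps_int_exp]
  split_ifs with h
  · subst h
    simp
  · obtain ⟨j, hj⟩ := Function.ne_iff.1 h
    refine Finset.prod_eq_zero (Finset.mem_univ j) ?_
    rw [if_neg]
    omega

section torus
variable {K : Type u} [NormedAddCommGroup K] [InnerProductSpace ℂ K] [CompleteSpace K]

theorem ps_continuous_pch (γ : Fin d → ℕ) : Continuous fun θ : Fin d → ℝ => pch θ γ := by
  unfold pch
  fun_prop

omit [CompleteSpace K] in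
theorem ps_norm_term (θ : Fin d → ℝ) (c : (Fin d → ℕ) → K) (γ : Fin d → ℕ) :
    ‖pch θ γ • c γ‖ = ‖c γ‖ := by rw [norm_smul, norm_pch, one_mul]

theorem ps_torus_hasSum {c : (Fin d → ℕ) → K} (hc : Summable fun γ => ‖c γ‖) (θ : Fin d → ℝ) :
    HasSum (fun p : (Fin d → ℕ) × (Fin d → ℕ) =>
      (starRingEnd ℂ) (pch θ p.1) * pch θ p.2 * inner ℂ (c p.1) (c p.2))
      (inner ℂ (∑' γ, pch θ γ • c γ) (∑' γ, pch θ γ • c γ)) := by
  have hs : Summable fun γ => pch θ γ • c γ :=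
    Summable.of_norm (by simpa [ps_norm_term] using hc)
  have h1 : ∀ p : (Fin d → ℕ) × (Fin d → ℕ),
      (starRingEnd ℂ) (pch θ p.1) * pch θ p.2 * inner ℂ (c p.1) (c p.2) =
        inner ℂ (pch θ p.1 • c p.1) (pch θ p.2 • c p.2) := by
    intro p
    rw [inner_smul_left, inner_smul_right]; ring
  simp_rw [h1]
  have hsum : Summable fun p : (Fin d → ℕ) × (Fin d → ℕ) =>
      (inner ℂ (pch θ p.1 • c p.1) (pch θ p.2 • c p.2) : ℂ) := by
    refine Summable.of_norm_bounded (g := fun p => ‖c p.1‖ * ‖c p.2‖)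
      (hc.mul_of_nonneg hc (fun _ => norm_nonneg _) fun _ => norm_nonneg _) fun p => ?_
    refine (norm_inner_le_norm _ _).trans ?_
    rw [ps_norm_term, ps_norm_term]
  have h2 : ∀ γ, HasSum (fun γ' => (inner ℂ (pch θ γ • c γ) (pch θ γ' • c γ') : ℂ))
      (inner ℂ (pch θ γ • c γ) (∑' γ, pch θ γ • c γ)) := fun γ =>
    (innerSL ℂ (pch θ γ • c γ)).hasSum hs.hasSum
  have h3 := hsum.hasSum.prod_fiberwise h2
  have h4 : HasSum (fun γ => (inner ℂ (pch θ γ • c γ) (∑' γ, pch θ γ • c γ) : ℂ))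
      (inner ℂ (∑' γ, pch θ γ • c γ) (∑' γ, pch θ γ • c γ)) := by
    have := ((innerSL ℂ (∑' γ, pch θ γ • c γ)).hasSum hs.hasSum)
    have := this.star
    simpa [inner_conj_symm, mul_comm] using this
  have h5 := h3.unique h4
  rw [← h5]
  exact hsum.hasSum

theorem ps_torus_parseval {c : (Fin d → ℕ) → K} (hc : Summable fun γ => ‖c γ‖) :
    ∫⁻ θ, ENNReal.ofReal (‖∑' γ, pch θ γ • c γ‖ ^ 2) ∂(Measure.pi fun _ : Fin d => psm) =
      ENNReal.ofReal ((2 * Real.pi) ^ d * ∑' γ, ‖c γ‖ ^ 2) := by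
  have hcont : Continuous fun θ : Fin d → ℝ => ∑' γ, pch θ γ • c γ := by
    refine continuous_tsum (fun γ => (ps_continuous_pch γ).smul continuous_const) hc fun γ θ => ?_
    rw [ps_norm_term]
  have hint : Integrable (fun θ : Fin d → ℝ => ‖∑' γ, pch θ γ • c γ‖ ^ 2)
      (Measure.pi fun _ : Fin d => psm) := by
    refine Integrable.of_bound (hcont.norm.pow 2).aestronglyMeasurable ((∑' γ, ‖c γ‖) ^ 2) ?_
    filter_upwards with θ
    rw [norm_pow, norm_norm]
    gcongr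
    refine (norm_tsum_le_tsum_norm ?_).trans_eq ?_
    · simpa [ps_norm_term] using hc
    · simp_rw [ps_norm_term]
  rw [← ofReal_integral_eq_lintegral_ofReal hint (by filter_upwards with θ; positivity)]
  congr 1
  have h1 : ∀ p : (Fin d → ℕ) × (Fin d → ℕ), Integrable (fun θ : Fin d → ℝ =>
      (starRingEnd ℂ) (pch θ p.1) * pch θ p.2 * (inner ℂ (c p.1) (c p.2) : ℂ))
      (Measure.pi fun _ : Fin d => psm) := by
    intro p
    refine Integrable.of_bound (Continuous.aestronglyMeasurable ?_) (‖c p.1‖ * ‖c p.2‖) ?_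
    · have := ps_continuous_pch p.1
      have := ps_continuous_pch p.2
      fun_prop
    · filter_upwards with θ
      rw [norm_mul, norm_mul, RCLike.norm_conj, norm_pch, norm_pch, one_mul, one_mul]
      exact norm_inner_le_norm _ _
  have h2 : Summable fun p : (Fin d → ℕ) × (Fin d → ℕ) => ∫ θ, ‖(starRingEnd ℂ) (pch θ p.1) *
      pch θ p.2 * (inner ℂ (c p.1) (c p.2) : ℂ)‖ ∂(Measure.pi fun _ : Fin d => psm) := by
    have h3 : ∀ p : (Fin d → ℕ) × (Fin d → ℕ), ∫ θ, ‖(starRingEnd ℂ) (pch θ p.1) *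
      pch θ p.2 * (inner ℂ (c p.1) (c p.2) : ℂ)‖ ∂(Measure.pi fun _ : Fin d => psm) =
        (Measure.pi fun _ : Fin d => psm).real Set.univ * ‖(inner ℂ (c p.1) (c p.2) : ℂ)‖ := by
      intro p
      simp_rw [norm_mul, RCLike.norm_conj, norm_pch, one_mul]
      rw [integral_const, smul_eq_mul]
    simp_rw [h3]
    refine Summable.mul_left _ ?_
    refine Summable.of_nonneg_of_le (fun _ => norm_nonneg _) (fun p => norm_inner_le_norm _ _)
      (hc.mul_of_nonneg hc (fun _ => norm_nonneg _) fun _ => norm_nonneg _)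
  have h4 := hasSum_integral_of_summable_integral_norm h1 h2
  have h5 : ∀ p : (Fin d → ℕ) × (Fin d → ℕ), ∫ θ, (starRingEnd ℂ) (pch θ p.1) *
      pch θ p.2 * (inner ℂ (c p.1) (c p.2) : ℂ) ∂(Measure.pi fun _ : Fin d => psm) =
        (if p.1 = p.2 then (2 * Real.pi : ℂ) ^ d else 0) * (inner ℂ (c p.1) (c p.2) : ℂ) := by
    intro p
    rw [integral_mul_const, ps_orth]
  simp_rw [h5] at h4
  have hinj : Function.Injective fun γ : Fin d → ℕ => (γ, γ) := fun a b h => (Prod.ext_iff.1 h).1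
  rw [← hinj.hasSum_iff] at h4
  · have h6 : ∀ θ : Fin d → ℝ, ∑' p : (Fin d → ℕ) × (Fin d → ℕ), (starRingEnd ℂ) (pch θ p.1) *
        pch θ p.2 * (inner ℂ (c p.1) (c p.2) : ℂ) =
          ((‖∑' γ, pch θ γ • c γ‖ ^ 2 : ℝ) : ℂ) := by
      intro θ
      rw [(ps_torus_hasSum hc θ).tsum_eq, inner_self_eq_norm_sq_to_K]
      push_cast
      rfl
    simp_rw [h6] at h4
    rw [integral_complex_ofReal] at h4
    have h7 : (fun p : (Fin d → ℕ) × (Fin d → ℕ) =>
        (if p.1 = p.2 then (2 * Real.pi : ℂ) ^ d else 0) * (inner ℂ (c p.1) (c p.2) : ℂ)) ∘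
          (fun γ => (γ, γ)) = fun γ => (((2 * Real.pi) ^ d * ‖c γ‖ ^ 2 : ℝ) : ℂ) := by
      funext γ
      simp only [Function.comp_apply, if_true]
      rw [inner_self_eq_norm_sq_to_K]
      push_cast
      rfl
    rw [h7] at h4
    have h8 := Complex.hasSum_ofReal.1 h4
    rw [← h8.tsum_eq, tsum_mul_left]
  · rintro ⟨a, b⟩ hab
    have : a ≠ b := by
      rintro rfl
      exact hab ⟨a, rfl⟩
    simp [this]

/-! ### rotations -/

/-- rotation of the coordinates -/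
noncomputable def prot (θ : Fin d → ℝ) (z : Fin d → ℂ) : Fin d → ℂ :=
  fun j => Complex.exp (Complex.I * θ j) * z j

theorem ps_mon_prot (θ : Fin d → ℝ) (z : Fin d → ℂ) (γ : Fin d → ℕ) :
    mon (prot θ z) γ = pch θ γ * mon z γ := by
  unfold mon prot pch
  rw [← Finset.prod_mul_distrib]
  exact Finset.prod_congr rfl fun j _ => mul_pow _ _ _

theorem ps_nsq_prot (θ : Fin d → ℝ) (z : Fin d → ℂ) : nsq (prot θ z) = nsq z := by
  unfold nsq prot
  refine Finset.sum_congr rfl fun j _ => ?_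
  rw [norm_mul, mul_comm Complex.I, Complex.norm_exp_ofReal_mul_I, one_mul]

theorem ps_prot_mp (θ : Fin d → ℝ) :
    MeasurePreserving (prot θ : (Fin d → ℂ) → (Fin d → ℂ)) volume volume := by
  refine measurePreserving_pi (fun _ => volume) (fun _ => volume)
    (f := fun j x => Complex.exp (Complex.I * θ j) * x) fun j => ?_
  have h := (rotation (Circle.exp (θ j))).measurePreserving
  have h2 : (rotation (Circle.exp (θ j)) : ℂ → ℂ) = fun x => Complex.exp (Complex.I * θ j) * x := by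
    funext x
    rw [rotation_apply, Circle.coe_exp, mul_comm Complex.I]
  rw [h2] at h
  exact h

omit [CompleteSpace K] in
theorem ps_measurable {F : (Fin d → ℂ) → K} {G : (Fin d → ℕ) → K}
    (hF : ∀ w : Fin d → ℂ, HasSum (fun γ => mon w γ • G γ) (F w)) :
    Measurable fun z => ENNReal.ofReal (‖F z‖ ^ 2 * Real.exp (-nsq z)) := by
  have h1 : Measurable fun z => ‖F z‖ := by
    refine measurable_of_tendsto_metrizable' (Filter.atTop : Filter (Finset (Fin d → ℕ)))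
      (f := fun s z => ‖∑ γ ∈ s, mon z γ • G γ‖) (fun s => ?_) ?_
    · refine Continuous.measurable ?_
      unfold mon
      fun_prop
    · rw [tendsto_pi_nhds]
      intro z
      exact (hF z).norm
  have h2 : Measurable fun z : Fin d → ℂ => Real.exp (-nsq z) := by
    refine Continuous.measurable ?_
    unfold nsq
    fun_prop
  exact ((h1.pow_const 2).mul h2).ennreal_ofReal

theorem ps_main {F : (Fin d → ℂ) → K} {G : (Fin d → ℕ) → K}
    (hG : ∀ z : Fin d → ℂ, Summable fun γ => ‖mon z γ • G γ‖)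
    (hF : ∀ w : Fin d → ℂ, HasSum (fun γ => mon w γ • G γ) (F w)) :
    ∫⁻ z : Fin d → ℂ, ENNReal.ofReal (‖F z‖ ^ 2 * Real.exp (-nsq z)) =
      ∑' γ, ENNReal.ofReal (Real.pi ^ d * (mfact γ : ℝ) * ‖G γ‖ ^ 2) := by
  have hΦ := ps_measurable hF
  set Φ : (Fin d → ℂ) → ℝ≥0∞ := fun z => ENNReal.ofReal (‖F z‖ ^ 2 * Real.exp (-nsq z)) with hΦd
  set ν : Measure (Fin d → ℝ) := Measure.pi fun _ : Fin d => psm with hν
  have hu : ν Set.univ = ENNReal.ofReal ((2 * Real.pi) ^ d) := by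
    rw [hν, Measure.pi_univ]
    have : psm Set.univ = ENNReal.ofReal (2 * Real.pi) := by
      unfold psm; simp
    simp_rw [this]
    rw [Finset.prod_const, Finset.card_univ, Fintype.card_fin, ENNReal.ofReal_pow (by positivity)]
  have e1 : ∫⁻ θ, ∫⁻ z, Φ (prot θ z) ∂volume ∂ν = (∫⁻ z, Φ z) * ν Set.univ := by
    have : ∀ θ, ∫⁻ z, Φ (prot θ z) = ∫⁻ z, Φ z := fun θ => (ps_prot_mp θ).lintegral_comp hΦ
    simp_rw [this]
    rw [lintegral_const]
  have e2 : ∫⁻ θ, ∫⁻ z, Φ (prot θ z) ∂volume ∂ν = ∫⁻ z, ∫⁻ θ, Φ (prot θ z) ∂ν := by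
    refine lintegral_lintegral_swap ?_
    refine (hΦ.comp (Continuous.measurable ?_)).aemeasurable
    unfold prot
    fun_prop
  have e3 : ∀ z, ∫⁻ θ, Φ (prot θ z) ∂ν = ∑' γ, ENNReal.ofReal ((2 * Real.pi) ^ d) *
      (ENNReal.ofReal (‖mon z γ‖ ^ 2 * Real.exp (-nsq z)) * ENNReal.ofReal (‖G γ‖ ^ 2)) := by
    intro z
    have h1 : ∀ θ, Φ (prot θ z) = ENNReal.ofReal (‖∑' γ, pch θ γ • (mon z γ • G γ)‖ ^ 2) *
        ENNReal.ofReal (Real.exp (-nsq z)) := by
      intro θ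
      rw [hΦd]
      simp only
      rw [ENNReal.ofReal_mul (by positivity), ps_nsq_prot, ← (hF (prot θ z)).tsum_eq]
      simp_rw [ps_mon_prot, mul_smul]
    simp_rw [h1]
    rw [lintegral_mul_const' _ _ ENNReal.ofReal_ne_top, hν, ps_torus_parseval (hG z)]
    have hs : Summable fun γ => ‖mon z γ • G γ‖ ^ 2 := by
      refine Summable.of_norm_bounded_eventually (g := fun γ => ‖mon z γ • G γ‖) (hG z) ?_
      have := (hG z).tendsto_cofinite_zero
      filter_upwards [this.eventually (ge_mem_nhds zero_lt_one)] with γ hγ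
      rw [norm_pow, norm_norm]
      nlinarith [norm_nonneg (mon z γ • G γ)]
    rw [ENNReal.ofReal_mul (by positivity), ENNReal.ofReal_tsum_of_nonneg (fun _ => by positivity)
      hs, ← ENNReal.tsum_mul_left, ← ENNReal.tsum_mul_right]
    refine tsum_congr fun γ => ?_
    rw [mul_assoc]
    congr 1
    rw [← ENNReal.ofReal_mul (by positivity), ← ENNReal.ofReal_mul (by positivity), norm_smul]
    congr 1
    ring
  rw [e2] at e1
  simp_rw [e3] at e1
  have hm : ∀ γ : Fin d → ℕ, Measurable fun z : Fin d → ℂ =>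
      ENNReal.ofReal (‖mon z γ‖ ^ 2 * Real.exp (-nsq z)) := by
    intro γ
    refine (Continuous.measurable ?_).ennreal_ofReal
    unfold mon nsq
    fun_prop
  rw [lintegral_tsum fun γ => (((hm γ).mul_const _).const_mul _).aemeasurable] at e1
  have e4 : ∀ γ : Fin d → ℕ, ∫⁻ z : Fin d → ℂ, ENNReal.ofReal ((2 * Real.pi) ^ d) *
      (ENNReal.ofReal (‖mon z γ‖ ^ 2 * Real.exp (-nsq z)) * ENNReal.ofReal (‖G γ‖ ^ 2)) =
        ENNReal.ofReal ((2 * Real.pi) ^ d) *
          ENNReal.ofReal (Real.pi ^ d * (mfact γ : ℝ) * ‖G γ‖ ^ 2) := by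
    intro γ
    rw [lintegral_const_mul' _ _ ENNReal.ofReal_ne_top,
      lintegral_mul_const' _ _ ENNReal.ofReal_ne_top, ps_lintegral_mon,
      ← ENNReal.ofReal_mul (by positivity)]
  simp_rw [e4] at e1
  rw [ENNReal.tsum_mul_left, hu, mul_comm] at e1
  have h0 : ENNReal.ofReal ((2 * Real.pi) ^ d) ≠ 0 := by
    rw [Ne, ENNReal.ofReal_eq_zero, not_le]; positivity
  exact ((ENNReal.mul_left_inj h0 ENNReal.ofReal_ne_top).1 e1).symm

theorem ps_norm_mon_le (z : Fin d → ℂ) (γ : Fin d → ℕ) : ‖mon z γ‖ ≤ ‖z‖ ^ deg γ := by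
  unfold mon deg
  rw [norm_prod, ← Finset.prod_pow_eq_pow_sum]
  refine Finset.prod_le_prod (fun _ _ => norm_nonneg _) fun j _ => ?_
  rw [norm_pow]
  gcongr
  exact norm_le_pi_norm z j

theorem gauss_bessel {F : (Fin d → ℂ) → K} {G : (Fin d → ℕ) → K}
    (hG : ∀ s, 0 ≤ s → Summable fun γ => s ^ deg γ * ‖G γ‖)
    (hF : ∀ w : Fin d → ℂ, HasSum (fun γ => mon w γ • G γ) (F w)) (A : Finset (Fin d → ℕ)) :
    ENNReal.ofReal (Real.pi ^ d * ∑ γ ∈ A, (mfact γ : ℝ) * ‖G γ‖ ^ 2) ≤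
      ∫⁻ z : Fin d → ℂ, ENNReal.ofReal (‖F z‖ ^ 2 * Real.exp (-nsq z)) := by
  rw [ps_main (G := G) _ hF]
  · rw [Finset.mul_sum, ENNReal.ofReal_sum_of_nonneg fun _ _ => by positivity]
    simp_rw [← mul_assoc]
    exact ENNReal.sum_le_tsum A
  · intro z
    refine Summable.of_nonneg_of_le (fun _ => norm_nonneg _) (fun γ => ?_)
      (hG ‖z‖ (norm_nonneg z))
    rw [norm_smul]
    gcongr
    exact ps_norm_mon_le z γ

theorem gauss_parseval (f : Pol d K) :
    ∫⁻ z : Fin d → ℂ, ENNReal.ofReal (‖ev z f‖ ^ 2 * Real.exp (-nsq z)) =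
      ENNReal.ofReal (Real.pi ^ d * f.sum fun α v => (mfact α : ℝ) * ‖v‖ ^ 2) := by
  rw [ps_main (G := f) (F := fun z => ev z f)]
  · rw [tsum_eq_sum (s := f.support), Finsupp.sum, Finset.mul_sum,
      ENNReal.ofReal_sum_of_nonneg fun _ _ => by positivity]
    · simp_rw [← mul_assoc]
    · intro γ hγ
      rw [Finsupp.notMem_support_iff.1 hγ]
      simp
  · intro z
    refine summable_of_ne_finset_zero (s := f.support) fun γ hγ => ?_
    rw [Finsupp.notMem_support_iff.1 hγ]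
    simp
  · intro z
    have : ev z f = ∑ γ ∈ f.support, mon z γ • f γ := by
      unfold ev
      rw [Finsupp.lsum_apply, Finsupp.sum]
      rfl
    rw [this]
    refine hasSum_sum_of_ne_finset_zero fun γ hγ => ?_
    rw [Finsupp.notMem_support_iff.1 hγ]
    simp

end torus

end Pool.Agent.Lib.MP_15f9af_an.AD
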