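import Mathlib
import Pool.Agent.Lib.MP_15f9af_an.AD.Defs
import Pool.Agent.Lib.MP_15f9af_an.AD.PolBasic
import Pool.Agent.Lib.MP_15f9af_an.AD.Parseval
import Pool.Agent.Lib.MP_15f9af_an.AD.Level
import Pool.Agent.Lib.MP_15f9af_an.AD.Approx

/-!
# Arveson–Douglas: Bessel's inequality for the derivative part of a lifting
-/

namespace Pool.Agent.Lib.MP_15f9af_an.AD

open scoped ENNReal NNReal
open MeasureTheory Filter Topology

universe u v

variable {d : ℕ}

variable {K : Type u} [NormedAddCommGroup K] [InnerProductSpace ℂ K] [FiniteDimensional ℂ K]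

/-- the multi-index `e_i` -/
lemma fb_inc_zero_apply (i j : Fin d) : inc i (0 : Fin d → ℕ) j = if j = i then 1 else 0 := by
  by_cases h : j = i
  · subst h
    simp
  · rw [inc_ne h, if_neg h]
    rfl

lemma fb_deg_inc_zero (i : Fin d) : deg (inc i (0 : Fin d → ℕ)) = 1 := by
  rw [deg_inc, deg_zero]

lemma fb_binc (w : Fin d → ℂ) (α : Fin d → ℕ) (i : Fin d) :
    binc w α (inc i 0) = (α i : ℂ) * mon w (dec i α) := by
  unfold binc mon
  rw [Finset.prod_mul_distrib]
  have h1 : ∏ j, ((α j).choose (inc i (0 : Fin d → ℕ) j) : ℂ) = (α i : ℂ) := by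
    rw [Finset.prod_eq_single i]
    · rw [fb_inc_zero_apply, if_pos rfl, Nat.choose_one_right]
    · intro j _ hj
      rw [fb_inc_zero_apply, if_neg hj, Nat.choose_zero_right, Nat.cast_one]
    · intro h
      exact absurd (Finset.mem_univ i) h
  rw [h1]
  congr 1
  refine Finset.prod_congr rfl fun j _ => ?_
  by_cases hj : j = i
  · subst hj
    rw [fb_inc_zero_apply, if_pos rfl, dec_same]
  · rw [fb_inc_zero_apply, if_neg hj, dec_ne hj, Nat.sub_zero]

/-- the `e_i` component of the Taylor coefficients -/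
lemma fb_recentre (w : Fin d → ℂ) (i : Fin d) {m : ℕ} {q : Pol d K} (hq : q ∈ polLe d K m) :
    recentre w q (inc i 0) = ∑ β ∈ degLe d m, (β i : ℂ) • mon w (dec i β) • q β := by
  classical
  rw [lv_recentre_apply_polLe hq w (inc i 0)]
  refine Finset.sum_congr rfl fun β _ => ?_
  split_ifs with h
  · rw [fb_binc, smul_smul]
  · have h1 : β i = 0 := by
      by_contra h2
      refine h fun j => ?_
      rw [fb_inc_zero_apply]
      split_ifs with hj
      · subst hj
        exact Nat.one_le_iff_ne_zero.mpr h2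
      · exact Nat.zero_le _
    rw [h1, Nat.cast_zero, zero_smul]

/-- Bessel's inequality for the coefficients of the derivative part -/
theorem fi_bessel {M : Submodule ℂ (Pol d K)} {m : ℕ} {c : (Fin d → ℂ) → Wsp M m}
    {G : (Fin d → ℕ) → Wsp M m} (hG : ∀ s, 0 ≤ s → Summable fun γ => s ^ deg γ * ‖G γ‖)
    (hc : ∀ w, HasSum (fun γ => mon w γ • G γ) (c w)) (i : Fin d) (A : Finset (Fin d → ℕ)) :
    ENNReal.ofReal (Real.pi ^ d * ∑ κ ∈ A, (mfact κ : ℝ) *
      ‖∑ β ∈ degLe d m, (β i : ℂ) •
        shf (dec i β) (fun γ => toPol m (G γ : degLe d m → K) β) κ‖ ^ 2) ≤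
      N2 (tauNext (fun _ => ContinuousLinearMap.id ℂ K) M m) c Set.univ := by
  have : CompleteSpace K := FiniteDimensional.complete ℂ K
  -- the coefficient functionals
  set ℓ : (Fin d → ℕ) → Wsp M m →L[ℂ] K := fun β => LinearMap.toContinuousLinearMap
    (Finsupp.lapply β ∘ₗ toPol m ∘ₗ (Wsp M m).subtype) with hℓ
  have hℓa : ∀ β v, ℓ β v = toPol m (v : degLe d m → K) β := fun β v => rfl
  have hcoef : ∀ β, ∀ w, HasSum (fun γ => mon w γ • toPol m (G γ : degLe d m → K) β)
      (toPol m (c w : degLe d m → K) β) := by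
    intro β w
    refine ((hc w).mapL (ℓ β)).congr_fun fun γ => ?_
    rw [map_smul, hℓa]
  have hcs : ∀ β, ∀ s, 0 ≤ s →
      Summable fun γ => s ^ deg γ * ‖toPol m (G γ : degLe d m → K) β‖ := by
    intro β s hs
    refine Summable.of_nonneg_of_le (fun γ => by positivity) (fun γ => ?_)
      ((hG s hs).mul_left ‖ℓ β‖)
    calc s ^ deg γ * ‖toPol m (G γ : degLe d m → K) β‖ ≤ s ^ deg γ * (‖ℓ β‖ * ‖G γ‖) := by
          gcongr
          exact (ℓ β).le_opNorm _
      _ = ‖ℓ β‖ * (s ^ deg γ * ‖G γ‖) := by ring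
  set b : (Fin d → ℂ) → K := fun w => recentre w (toPol m (c w : degLe d m → K)) (inc i 0) with hb
  have hbsum : ∀ w, HasSum (fun κ => mon w κ • ∑ β ∈ degLe d m, (β i : ℂ) •
      shf (dec i β) (fun γ => toPol m (G γ : degLe d m → K) β) κ) (b w) := by
    intro w
    rw [hb]
    simp only
    rw [fb_recentre w i (toPol_mem _)]
    refine (hasSum_sum fun β _ =>
      (ap_hasSum_mon (hcoef β w) (dec i β)).const_smul (β i : ℂ)).congr_fun fun κ => ?_
    rw [Finset.smul_sum]
    exact Finset.sum_congr rfl fun β _ => smul_comm _ _ _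
  have hbs : ∀ s, 0 ≤ s → Summable fun κ => s ^ deg κ * ‖∑ β ∈ degLe d m, (β i : ℂ) •
      shf (dec i β) (fun γ => toPol m (G γ : degLe d m → K) β) κ‖ := by
    intro s hs
    have h1 := hasSum_sum fun β (_ : β ∈ degLe d m) =>
      (ap_hasSum_norm (hcs β s hs).hasSum (dec i β)).mul_left (β i : ℝ)
    refine Summable.of_nonneg_of_le (fun κ => by positivity) (fun κ => ?_) h1.summable
    calc s ^ deg κ * ‖∑ β ∈ degLe d m, (β i : ℂ) •
          shf (dec i β) (fun γ => toPol m (G γ : degLe d m → K) β) κ‖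
        ≤ s ^ deg κ * ∑ β ∈ degLe d m, (β i : ℝ) *
          ‖shf (dec i β) (fun γ => toPol m (G γ : degLe d m → K) β) κ‖ := by
          gcongr
          refine (norm_sum_le _ _).trans (Finset.sum_le_sum fun β _ => ?_)
          rw [norm_smul, Complex.norm_natCast]
      _ = _ := by
          rw [Finset.mul_sum]
          exact Finset.sum_congr rfl fun β _ => by ring
  refine (gauss_bessel hbs hbsum A).trans ?_
  rw [N2, Measure.restrict_univ]
  refine lintegral_mono fun z => ?_
  rw [Wt]
  refine ENNReal.ofReal_le_ofReal ?_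
  have hle : ‖b z‖ ≤ ‖tauNext (fun _ => ContinuousLinearMap.id ℂ K) M m z (c z)‖ := by
    rcases Nat.eq_zero_or_pos m with hm | hm
    · have h1 : b z = 0 := by
        rw [hb]
        simp only
        rw [fb_recentre z i (toPol_mem _)]
        refine Finset.sum_eq_zero fun β hβ => ?_
        have h2 : deg β ≤ 0 := by
          rw [← hm]
          exact mem_degLe.mp hβ
        have h3 : β i = 0 := by
          have : β i ≤ deg β := Finset.single_le_sum (fun j _ => Nat.zero_le (β j))
            (Finset.mem_univ i)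
          omega
        rw [h3, Nat.cast_zero, zero_smul]
      rw [h1, norm_zero]
      exact norm_nonneg _
    · have h1 : inc i (0 : Fin d → ℕ) ∈ degLe d m := by
        rw [mem_degLe, fb_deg_inc_zero]
        exact hm
      have h2 := norm_le_pi_norm (tauNext (fun _ => ContinuousLinearMap.id ℂ K) M m z (c z))
        ⟨inc i 0, h1⟩
      rw [lv_tauNext_apply] at h2
      exact h2
  gcongr

end Pool.Agent.Lib.MP_15f9af_an.AD
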