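import Mathlib
import Pool.Agent.Lib.MP_15f9af_an.AD.Defs
import Pool.Agent.Lib.MP_15f9af_an.Compress
import Pool.Agent.Lib.MP_15f9af_an.Schatten

/-!
# From polynomials to the Drury-Arveson space: the local bound from the inequality (AD)
-/

namespace Pool.Agent.Lib.MP_15f9af_an.AD

open scoped ENNReal NNReal

universe u v

variable {d : ℕ} {K : Type u} [NormedAddCommGroup K] [InnerProductSpace ℂ K]

/-- polynomials as elements of the Drury-Arveson space -/
noncomputable def toDA : Pol d K →ₗ[ℂ] DA d K where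
  toFun := fun f => ⟨fun α => ((Real.sqrt (zw α) : ℝ) : ℂ) • f α, by
    refine Memℓp.of_exponent_ge (q := 0) (memℓp_zero ?_) zero_le
    refine f.support.finite_toSet.subset fun α hα => ?_
    simp only [Set.mem_ofPred_eq] at hα
    rw [Finset.mem_coe, Finsupp.mem_support_iff]
    intro h
    exact hα (by rw [h, smul_zero])⟩
  map_add' := fun f g => by
    ext α
    simp only [lp.coeFn_add, Pi.add_apply, Finsupp.add_apply, smul_add]
  map_smul' := fun c f => by
    ext α
    simp only [lp.coeFn_smul, Pi.smul_apply, Finsupp.smul_apply, RingHom.id_apply]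
    rw [smul_comm]

theorem toDA_apply (f : Pol d K) (α : Fin d → ℕ) :
    toDA f α = ((Real.sqrt (zw α) : ℝ) : ℂ) • f α := rfl

theorem fi_sq (α : Fin d → ℕ) : ((Real.sqrt (zw α) : ℝ) : ℂ) ≠ 0 := by
  rw [Ne, Complex.ofReal_eq_zero, Real.sqrt_eq_zero']
  exact not_le.2 (zw_pos α)

theorem exists_toDA {n : ℕ} {R : DA d K} (hR : R ∈ homog d K n) :
    ∃ f : Pol d K, toDA f = R ∧ ∀ α, deg α ≠ n → f α = 0 := by
  have hfin : (Function.support fun α => (((Real.sqrt (zw α) : ℝ) : ℂ))⁻¹ • R α).Finite := by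
    refine (finite_deg (d := d) n).subset fun α hα => ?_
    by_contra h
    exact hα (by simp only; rw [hR α h, smul_zero])
  refine ⟨Finsupp.ofSupportFinite _ hfin, ?_, ?_⟩
  · ext α
    rw [toDA_apply, Finsupp.ofSupportFinite_coe, smul_smul, mul_inv_cancel₀ (fi_sq α), one_smul]
  · intro α h
    rw [Finsupp.ofSupportFinite_coe, hR α h, smul_zero]

theorem fi_comp_apply (n : ℕ) (f : Pol d K) (α : Fin d → ℕ) :
    comp n f α = if deg α = n then f α else 0 := by
  unfold comp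
  simp only [LinearMap.coe_mk, AddHom.coe_mk]
  rw [Finsupp.filter_apply]

theorem fi_comp_eq_iff {n : ℕ} {f : Pol d K} : comp n f = f ↔ ∀ α, deg α ≠ n → f α = 0 := by
  constructor
  · intro h α hα
    rw [← h, fi_comp_apply, if_neg hα]
  · intro h
    ext α
    rw [fi_comp_apply]
    split_ifs with h1
    · rfl
    · exact (h α h1).symm

theorem toDA_comp (n : ℕ) (f : Pol d K) : toDA (comp n f) = cut (· = n) (toDA f) := by
  ext α
  rw [toDA_apply, fi_comp_apply]
  by_cases h : deg α = n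
  · rw [if_pos h, cut_apply_pos _ _ _ h, toDA_apply]
  · rw [if_neg h, cut_apply_neg _ _ _ h, smul_zero]

theorem toDA_mem_homog {n : ℕ} {f : Pol d K} (h : ∀ α, deg α ≠ n → f α = 0) :
    toDA f ∈ homog d K n := by
  intro α hα
  rw [toDA_apply, h α hα, smul_zero]

theorem fi_shift_apply (γ : Fin d → ℕ) (f : Pol d K) (α : Fin d → ℕ) :
    shift γ f (γ + α) = f α := by
  unfold shift
  rw [Finsupp.lmapDomain_apply]
  exact Finsupp.mapDomain_apply (add_right_injective γ) f α

theorem fi_shift_apply_not (γ : Fin d → ℕ) (f : Pol d K) {α : Fin d → ℕ} (h : ¬ γ ≤ α) :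
    shift γ f α = 0 := by
  unfold shift
  rw [Finsupp.lmapDomain_apply]
  refine Finsupp.mapDomain_of_notMem_range _ _ ?_
  rintro ⟨β, rfl⟩
  exact h (fun j => Nat.le_add_right _ _)

theorem toDA_shift (i : Fin d) (f : Pol d K) :
    toDA (shift (Pi.single i 1) f) = Mz i (toDA f) := by
  ext α
  rw [toDA_apply]
  by_cases h0 : α i = 0
  · rw [Mz_apply_zero i _ α h0, fi_shift_apply_not, smul_zero]
    intro hle
    have := hle i
    rw [h0] at this
    simp at this
  · obtain ⟨β, rfl⟩ : ∃ β, α = inc i β := ⟨dec i α, (inc_dec i α h0).symm⟩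
    have hb : inc i β = Pi.single i 1 + β := by
      funext j
      by_cases hj : j = i
      · subst hj; simp [add_comm]
      · rw [inc_ne hj]; simp [hj]
    rw [Mz_apply_inc, toDA_apply, smul_smul, hb, fi_shift_apply, ← hb, zw_inc,
      Real.sqrt_mul (zw_pos β).le]
    congr 1
    push_cast
    ring

theorem fi_shift_zero (f : Pol d K) : shift 0 f = f := by
  unfold shift
  rw [Finsupp.lmapDomain_apply]
  simp only [zero_add]
  exact Finsupp.mapDomain_id

theorem fi_shift_shift (γ γ' : Fin d → ℕ) (f : Pol d K) :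
    shift γ (shift γ' f) = shift (γ + γ') f := by
  unfold shift
  simp only [Finsupp.lmapDomain_apply]
  rw [← Finsupp.mapDomain_comp]
  congr 1
  funext α
  simp [add_assoc]

/-- the polynomials in `L` -/
noncomputable def polOf (L : Submodule ℂ (DA d K)) : Submodule ℂ (Pol d K) := L.comap toDA

theorem isMod_polOf {L : Submodule ℂ (DA d K)} (hL : IsGradedSubmodule L) : IsMod (polOf L) := by
  intro γ
  induction h : deg γ generalizing γ with
  | zero =>
    intro f hf
    have : γ = 0 := by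
      funext j
      have := le_deg j γ
      simp only [Pi.zero_apply]
      omega
    rw [this, fi_shift_zero]
    exact hf
  | succ n ih =>
    intro f hf
    have hne : ∃ i, γ i ≠ 0 := by
      by_contra hcon
      push Not at hcon
      have : deg γ = 0 := by
        unfold deg
        exact Finset.sum_eq_zero fun j _ => hcon j
      omega
    obtain ⟨i, hi⟩ := hne
    have h1 : γ = Pi.single i 1 + dec i γ := by
      funext j
      by_cases hj : j = i
      · subst hj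
        rw [Pi.add_apply, Pi.single_eq_same, dec_same]
        omega
      · rw [Pi.add_apply, dec_ne hj]; simp [hj]
    have h2 : deg (dec i γ) = n := by
      have := deg_dec i γ hi
      omega
    have h3 := ih (dec i γ) h2 f hf
    rw [h1, ← fi_shift_shift]
    change toDA (shift (Pi.single i 1) (shift (dec i γ) f)) ∈ L
    rw [toDA_shift]
    exact hL.invariant i _ h3

theorem polOf_comp {L : Submodule ℂ (DA d K)} (hL : IsGradedSubmodule L) {f : Pol d K}
    (hf : f ∈ polOf L) (n : ℕ) : comp n f ∈ polOf L := by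
  change toDA (comp n f) ∈ L
  rw [toDA_comp]
  exact cut_mem_of_mem hL _ hf

theorem inner_toDA (f g : Pol d K) {n : ℕ} (hf : ∀ α, deg α ≠ n → f α = 0) :
    inner ℂ (toDA f) (toDA g) = ((n.factorial : ℝ) : ℂ)⁻¹ * fock f g := by
  rw [lp.inner_eq_tsum, tsum_eq_sum (s := f.support)]
  · unfold fock
    rw [Finsupp.sum, Finset.mul_sum]
    refine Finset.sum_congr rfl fun α hα => ?_
    have hd : deg α = n := by
      by_contra h
      exact (Finsupp.mem_support_iff.1 hα) (hf α h)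
    rw [toDA_apply, toDA_apply, inner_smul_left, inner_smul_right, Complex.conj_ofReal,
      ← mul_assoc, ← Complex.ofReal_mul, Real.mul_self_sqrt (zw_pos α).le, zw, hd]
    push_cast
    field_simp
  · intro α hα
    rw [toDA_apply, Finsupp.notMem_support_iff.1 hα, smul_zero, inner_zero_left]

theorem fi_pd_apply (i : Fin d) (f : Pol d K) (β : Fin d → ℕ) :
    pd i f β = ((β i + 1 : ℕ) : ℂ) • f (inc i β) := by
  unfold pd
  rw [Finsupp.lsum_apply, Finsupp.sum, Finsupp.finsetSum_apply]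
  rw [Finset.sum_eq_single (inc i β)]
  · simp
  · intro α _ hne
    simp only [LinearMap.smul_apply, Finsupp.lsingle_apply, Finsupp.smul_apply]
    by_cases h0 : α i = 0
    · rw [h0]; simp
    · rw [Finsupp.single_apply, if_neg, smul_zero]
      intro h
      exact hne (by rw [← h, inc_dec i α h0])
  · intro h
    rw [Finsupp.notMem_support_iff.1 h]
    simp

theorem inner_Dz_toDA (i : Fin d) (f h : Pol d K) {n : ℕ} (hh : ∀ α, deg α ≠ n → h α = 0) :
    inner ℂ (toDA h) (Dz i (toDA f)) =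
      ((((n + 1 : ℕ) : ℝ) * (n.factorial : ℝ) : ℝ) : ℂ)⁻¹ * fock h (pd i f) := by
  rw [lp.inner_eq_tsum, tsum_eq_sum (s := h.support)]
  · unfold fock
    rw [Finsupp.sum, Finset.mul_sum]
    refine Finset.sum_congr rfl fun α hα => ?_
    have hd : deg α = n := by
      by_contra h'
      exact (Finsupp.mem_support_iff.1 hα) (hh α h')
    rw [toDA_apply, Dz_apply, toDA_apply, fi_pd_apply, smul_smul, inner_smul_left, inner_smul_right,
      inner_smul_right, Complex.conj_ofReal, zw_inc, Real.sqrt_mul (zw_pos α).le]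
    have h1 : Real.sqrt (((α i + 1 : ℕ) : ℝ) / ((deg α + 1 : ℕ) : ℝ)) *
        Real.sqrt (((α i + 1 : ℕ) : ℝ) / ((deg α + 1 : ℕ) : ℝ)) =
        ((α i + 1 : ℕ) : ℝ) / ((deg α + 1 : ℕ) : ℝ) := Real.mul_self_sqrt (by positivity)
    have h2 : Real.sqrt (zw α) * Real.sqrt (zw α) = zw α := Real.mul_self_sqrt (zw_pos α).le
    have h3 : Real.sqrt (zw α) * (Real.sqrt (((α i + 1 : ℕ) : ℝ) / ((deg α + 1 : ℕ) : ℝ)) *
        (Real.sqrt (zw α) * Real.sqrt (((α i + 1 : ℕ) : ℝ) / ((deg α + 1 : ℕ) : ℝ)))) =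
        zw α * (((α i + 1 : ℕ) : ℝ) / ((deg α + 1 : ℕ) : ℝ)) := by
      have hgen : ∀ a b x y : ℝ, b * b = x → a * a = y → a * (b * (a * b)) = y * x := by
        intro a b x y hx hy
        rw [← hx, ← hy]
        ring
      exact hgen _ _ _ _ h1 h2
    rw [← Complex.ofReal_mul, ← mul_assoc ((Real.sqrt (zw α) : ℝ) : ℂ), ← Complex.ofReal_mul, h3,
      zw, hd]
    push_cast
    field_simp
  · intro α hα
    rw [toDA_apply, Finsupp.notMem_support_iff.1 hα, smul_zero, inner_zero_left]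

theorem fi_fock_self_re {n : ℕ} {f : Pol d K} (hf : ∀ α, deg α ≠ n → f α = 0) :
    (fock f f).re = (n.factorial : ℝ) * ‖toDA f‖ ^ 2 := by
  have hn : ((n.factorial : ℝ) : ℂ) ≠ 0 := by
    rw [Ne, Complex.ofReal_eq_zero]
    exact_mod_cast (Nat.factorial_pos n).ne'
  have h1 := inner_toDA f f hf
  rw [inner_self_eq_norm_sq_to_K] at h1
  have h2 : fock f f = (((n.factorial : ℝ) * ‖toDA f‖ ^ 2 : ℝ) : ℂ) := by
    rw [eq_inv_mul_iff_mul_eq₀ hn] at h1
    rw [← h1]
    push_cast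
    rfl
  rw [h2, Complex.ofReal_re]

/-- The local bound follows from the inequality (AD) for the polynomials in `L`. -/
theorem localBound_of_ad [CompleteSpace K] {L : Submodule ℂ (DA d K)} (hL : IsGradedSubmodule L)
    {C : ℝ} (hC : 0 ≤ C)
    (had : ∀ (i : Fin d) (n : ℕ) (f h : Pol d K), f ∈ polOf L → comp (n + 1) f = f →
      comp n h = h → (∀ g ∈ polOf L, comp n g = g → fock g h = 0) →
      ‖fock h (pd i f)‖ ≤ C * Real.sqrt (fock h h).re * Real.sqrt (fock f f).re) :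
    LocalBound L (C ^ 2) := by
  intro i n h hh hhn
  refine ⟨Lᗮ.starProjection (Mz i h), Submodule.starProjection_apply_mem _ _, ?_⟩
  set R := Mz i h - Lᗮ.starProjection (Mz i h) with hRdef
  have hRo : R ∈ Lᗮᗮ := Submodule.sub_starProjection_mem_orthogonal (K := Lᗮ) (Mz i h)
  have hRL : R ∈ L := by
    rw [Submodule.orthogonal_orthogonal_eq_closure,
      IsClosed.submodule_topologicalClosure_eq hL.closed] at hRo
    exact hRo
  have hM : cut (· = n + 1) (Mz i h) = Mz i h := by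
    rw [cut_Mz, cut_homog hhn]
  have hRh : R ∈ homog d K (n + 1) := by
    have : cut (· = n + 1) R = R := by
      rw [hRdef, map_sub, ← starProjection_cut hL, hM]
    rw [← this]
    exact cut_mem_homog _ _
  obtain ⟨h', hh', hh0⟩ := exists_toDA hhn
  obtain ⟨f, hf, hf0⟩ := exists_toDA hRh
  have hn : (0 : ℝ) < (n.factorial : ℝ) := by exact_mod_cast Nat.factorial_pos n
  have e1 : inner ℂ R R = inner ℂ (Mz i h) R := by
    have : inner ℂ (Lᗮ.starProjection (Mz i h)) R = 0 :=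
      (Submodule.mem_orthogonal _ _).1 hRo _ (Submodule.starProjection_apply_mem _ _)
    conv_lhs => rw [hRdef]
    rw [inner_sub_left, this, sub_zero]
  have e2 : inner ℂ R R =
      ((((n + 1 : ℕ) : ℝ) * (n.factorial : ℝ) : ℝ) : ℂ)⁻¹ * fock h' (pd i f) := by
    rw [e1, inner_Mz, ← inner_Dz_toDA i f h' hh0, hh', hf]
  have e3 := had i n f h' (by change toDA f ∈ L; rw [hf]; exact hRL) (fi_comp_eq_iff.2 hf0)
    (fi_comp_eq_iff.2 hh0) (by
      intro g hg hgn
      have h1 := inner_toDA g h' (fi_comp_eq_iff.1 hgn)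
      have h2 : inner ℂ (toDA g) (toDA h') = 0 := by
        rw [hh']
        exact (Submodule.mem_orthogonal _ _).1 hh _ hg
      rw [h2] at h1
      rcases mul_eq_zero.1 h1.symm with h3 | h3
      · exact absurd h3 (inv_ne_zero (by rw [Ne, Complex.ofReal_eq_zero]; exact hn.ne'))
      · exact h3)
  rw [fi_fock_self_re hh0, fi_fock_self_re hf0, hh', hf] at e3
  have e4 : ‖R‖ ^ 2 = (((n + 1 : ℕ) : ℝ) * (n.factorial : ℝ))⁻¹ * ‖fock h' (pd i f)‖ := by
    have h1 : ‖R‖ ^ 2 = ‖inner ℂ R R‖ := by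
      rw [inner_self_eq_norm_sq_to_K]
      simp
    rw [h1, e2, norm_mul, norm_inv, Complex.norm_real, Real.norm_eq_abs,
      abs_of_pos (by positivity)]
  have e5 : Real.sqrt ((n.factorial : ℝ) * ‖h‖ ^ 2) *
      Real.sqrt (((n + 1).factorial : ℝ) * ‖R‖ ^ 2) =
      (n.factorial : ℝ) * Real.sqrt ((n + 1 : ℕ) : ℝ) * (‖h‖ * ‖R‖) := by
    rw [← Real.sqrt_mul (by positivity)]
    have h1 : (n.factorial : ℝ) * ‖h‖ ^ 2 * (((n + 1).factorial : ℝ) * ‖R‖ ^ 2) =
        ((n + 1 : ℕ) : ℝ) * ((n.factorial : ℝ) * (‖h‖ * ‖R‖)) ^ 2 := by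
      rw [Nat.factorial_succ]
      push_cast
      ring
    rw [h1, Real.sqrt_mul (by positivity), Real.sqrt_sq (by positivity)]
    ring
  have hs : Real.sqrt ((n + 1 : ℕ) : ℝ) * Real.sqrt ((n + 1 : ℕ) : ℝ) = ((n + 1 : ℕ) : ℝ) :=
    Real.mul_self_sqrt (by positivity)
  have hs0 : 0 < Real.sqrt ((n + 1 : ℕ) : ℝ) := Real.sqrt_pos.2 (by positivity)
  have e6 : ‖R‖ ^ 2 * Real.sqrt ((n + 1 : ℕ) : ℝ) ≤ C * ‖h‖ * ‖R‖ := by
    rw [e4]
    have h2 : ‖fock h' (pd i f)‖ ≤
        C * ((n.factorial : ℝ) * Real.sqrt ((n + 1 : ℕ) : ℝ) * (‖h‖ * ‖R‖)) := by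
      rw [← e5, ← mul_assoc]
      exact e3
    calc (((n + 1 : ℕ) : ℝ) * (n.factorial : ℝ))⁻¹ * ‖fock h' (pd i f)‖ *
          Real.sqrt ((n + 1 : ℕ) : ℝ)
        ≤ (((n + 1 : ℕ) : ℝ) * (n.factorial : ℝ))⁻¹ *
          (C * ((n.factorial : ℝ) * Real.sqrt ((n + 1 : ℕ) : ℝ) * (‖h‖ * ‖R‖))) *
          Real.sqrt ((n + 1 : ℕ) : ℝ) := by gcongr
      _ = (((n + 1 : ℕ) : ℝ) * (n.factorial : ℝ))⁻¹ * ((n.factorial : ℝ) *
          (Real.sqrt ((n + 1 : ℕ) : ℝ) * Real.sqrt ((n + 1 : ℕ) : ℝ))) * (C * ‖h‖ * ‖R‖) := by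
          ring
      _ = C * ‖h‖ * ‖R‖ := by
          rw [hs]
          have : (((n + 1 : ℕ) : ℝ) * (n.factorial : ℝ)) ≠ 0 := by positivity
          rw [mul_comm (n.factorial : ℝ) ((n + 1 : ℕ) : ℝ), inv_mul_cancel₀ this, one_mul]
  have e7 : ‖R‖ * Real.sqrt ((n + 1 : ℕ) : ℝ) ≤ C * ‖h‖ := by
    rcases (norm_nonneg R).eq_or_lt with h0 | h0
    · rw [← h0, zero_mul]
      positivity
    · refine le_of_mul_le_mul_right ?_ h0
      calc ‖R‖ * Real.sqrt ((n + 1 : ℕ) : ℝ) * ‖R‖ = ‖R‖ ^ 2 * Real.sqrt ((n + 1 : ℕ) : ℝ) := by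
            ring
        _ ≤ C * ‖h‖ * ‖R‖ := e6
  have e8 : ‖R‖ ^ 2 * ((n + 1 : ℕ) : ℝ) ≤ C ^ 2 * ‖h‖ ^ 2 := by
    have := pow_le_pow_left₀ (by positivity) e7 2
    calc ‖R‖ ^ 2 * ((n + 1 : ℕ) : ℝ) = (‖R‖ * Real.sqrt ((n + 1 : ℕ) : ℝ)) ^ 2 := by
          rw [mul_pow, sq (Real.sqrt _), hs]
      _ ≤ (C * ‖h‖) ^ 2 := this
      _ = C ^ 2 * ‖h‖ ^ 2 := mul_pow _ _ _
  rw [div_mul_eq_mul_div, le_div_iff₀ (by positivity)]
  push_cast at e8
  exact e8

/-- The local bound for all graded submodules, from the inequality (AD) for all graded modules of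
polynomials. -/
theorem exists_localBound_of_ad [FiniteDimensional ℂ K]
    (had : ∀ M : Submodule ℂ (Pol d K), IsMod M → (∀ f ∈ M, ∀ n, comp n f ∈ M) →
      ∃ C : ℝ, 0 ≤ C ∧ ∀ (i : Fin d) (n : ℕ) (f h : Pol d K), f ∈ M → comp (n + 1) f = f →
        comp n h = h → (∀ g ∈ M, comp n g = g → fock g h = 0) →
        ‖fock h (pd i f)‖ ≤ C * Real.sqrt (fock h h).re * Real.sqrt (fock f f).re)
    (L : Submodule ℂ (DA d K)) (hL : IsGradedSubmodule L) :
    ∃ C : ℝ, 0 ≤ C ∧ LocalBound L C := by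
  have : CompleteSpace K := FiniteDimensional.complete ℂ K
  obtain ⟨C, hC, h⟩ := had (polOf L) (isMod_polOf hL) (fun f hf n => polOf_comp hL hf n)
  exact ⟨C ^ 2, sq_nonneg C, localBound_of_ad hL hC h⟩

end Pool.Agent.Lib.MP_15f9af_an.AD
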