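import Mathlib
import Pool.Agent.Lib.MP_15f9af_an.AD.Defs
import Pool.Agent.Lib.MP_15f9af_an.AD.PolBasic
import Pool.Agent.Lib.MP_15f9af_an.AD.Approx
import Pool.Agent.Lib.MP_15f9af_an.AD.Transfer

/-!
# The derivative of a homogeneous element of a graded module: algebraic part
-/

namespace Pool.Agent.Lib.MP_15f9af_an.AD

open scoped ENNReal NNReal

universe u

variable {d : ℕ} {K : Type u} [NormedAddCommGroup K] [InnerProductSpace ℂ K]
  [FiniteDimensional ℂ K]

theorem fi_Dop_eq (M : Submodule ℂ (Pol d K)) (m : ℕ) (w : Fin d → ℂ) (v : Wsp M m) :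
    Dop M m w v = ∑ β ∈ degLe d m, mon w β • toPol m (v : degLe d m → K) β := by
  rw [lv_Dop_apply, lv_ev_eq_sum w _ (ap_support_subset (toPol_mem _))]

theorem fi_norm_toPol_le {M : Submodule ℂ (Pol d K)} {m : ℕ} (v : Wsp M m) (β : Fin d → ℕ) :
    ‖toPol m (v : degLe d m → K) β‖ ≤ ‖v‖ := by
  rw [toPol_apply]
  split_ifs with h
  · exact norm_le_pi_norm (v : degLe d m → K) ⟨β, h⟩
  · rw [norm_zero]
    exact norm_nonneg _

theorem fi_coeff {M : Submodule ℂ (Pol d K)} {m : ℕ} {G : (Fin d → ℕ) → Wsp M m}
    {c : (Fin d → ℂ) → Wsp M m} {f : Pol d K}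
    (hG : ∀ s : ℝ, 0 ≤ s → Summable fun γ => s ^ deg γ * ‖G γ‖)
    (hc : ∀ w, HasSum (fun γ => mon w γ • G γ) (c w)) (hD : ∀ z, Dop M m z (c z) = ev z f)
    (κ : Fin d → ℕ) :
    f κ = ∑ β ∈ degLe d m, shf β (fun γ => toPol m (G γ : degLe d m → K) β) κ := by
  classical
  have : CompleteSpace K := FiniteDimensional.complete ℂ K
  rw [← sub_eq_zero]
  have hs : ∀ β ∈ degLe d m, Summable fun γ =>
      (1 : ℝ) ^ deg γ * ‖toPol m (G γ : degLe d m → K) β‖ := by
    intro β _
    refine Summable.of_nonneg_of_le (fun γ => by positivity) (fun γ => ?_) (hG 1 zero_le_one)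
    exact mul_le_mul_of_nonneg_left (fi_norm_toPol_le _ _) (by positivity)
  have hs2 := (ap_summable_sum zero_le_one (degLe d m)
    (fun β γ => toPol m (G γ : degLe d m → K) β) hs).1
  have hf : HasSum (fun κ => (1 : ℝ) ^ deg κ * ‖f κ‖)
      (∑ κ ∈ f.support, (1 : ℝ) ^ deg κ * ‖f κ‖) := by
    refine hasSum_sum_of_ne_finset_zero fun γ hγ => ?_
    rw [Finsupp.notMem_support_iff.1 hγ, norm_zero, mul_zero]
  refine ap_unique (t := 1) one_pos
    (G := fun κ => f κ - ∑ β ∈ degLe d m, shf β (fun γ => toPol m (G γ : degLe d m → K) β) κ)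
    ?_ ?_ κ
  · refine Summable.of_nonneg_of_le (fun κ => by positivity) (fun κ => ?_) (hf.summable.add hs2)
    rw [← mul_add]
    exact mul_le_mul_of_nonneg_left (norm_sub_le _ _) (by positivity)
  · intro w _
    have h1 : HasSum (fun κ => mon w κ • f κ) (ev w f) := by
      rw [lv_ev_eq_sum w f (Finset.Subset.refl _)]
      refine hasSum_sum_of_ne_finset_zero fun γ hγ => ?_
      rw [Finsupp.notMem_support_iff.1 hγ, smul_zero]
    have h2 := ap_hasSum_sum (w := w) (degLe d m)
      (g := fun β γ => toPol m (G γ : degLe d m → K) β)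
      (S := fun β => toPol m (c w : degLe d m → K) β) (fun β _ => by
        have h3 := (apP M m 0 β).hasSum (hc w)
        rw [apP_apply, recentre_zero] at h3
        refine ap_hasSum_congr (fun γ => ?_) h3
        show apP M m 0 β (mon w γ • G γ) = _
        rw [map_smul, apP_apply, recentre_zero])
    rw [← fi_Dop_eq, hD] at h2
    have h4 := h1.sub h2
    rw [sub_self] at h4
    refine ap_hasSum_congr (fun κ => ?_) h4
    rw [smul_sub]

theorem fi_shift_dec {γ : Fin d → ℕ} {i : Fin d} (h : γ i ≠ 0) (g : Pol d K) (κ : Fin d → ℕ) :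
    shift (dec i γ) g κ = shift γ g (inc i κ) := by
  have h1 : ∀ α : Fin d → ℕ, inc i α = inc i 0 + α := by
    intro α
    funext j
    unfold inc
    by_cases hj : j = i
    · subst hj
      rw [Pi.add_apply, Function.update_self, Function.update_self]
      simp [add_comm]
    · rw [Pi.add_apply, Function.update_of_ne hj, Function.update_of_ne hj]
      simp
  have h2 : shift γ g = shift (inc i 0) (shift (dec i γ) g) := by
    rw [shift_shift, ← h1, inc_dec i γ h]
  rw [h2, h1 κ, shift_apply_add]

theorem fi_split {M : Submodule ℂ (Pol d K)} (hM : IsMod M)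
    (hgr : ∀ f ∈ M, ∀ n, comp n f ∈ M) {m : ℕ} (G : (Fin d → ℕ) → Wsp M m) (i : Fin d) (n : ℕ)
    {f : Pol d K} (hf : comp (n + 1) f = f)
    (hfG : ∀ κ, f κ = ∑ β ∈ degLe d m, shf β (fun γ => toPol m (G γ : degLe d m → K) β) κ) :
    ∃ A ∈ M, comp n A = A ∧ (∀ κ, deg κ ≠ n → pd i f κ = 0) ∧
      ∀ κ, deg κ = n → pd i f κ = A κ + ∑ β ∈ degLe d m,
        (β i : ℂ) • shf (dec i β) (fun γ => toPol m (G γ : degLe d m → K) β) κ := by
  classical
  set q : (Fin d → ℕ) → Pol d K := fun γ => toPol m (G γ : degLe d m → K) with hq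
  have hqM : ∀ γ, q γ ∈ M := fun γ => (G γ).2
  set A : Pol d K := ∑ γ ∈ degLe d (n + 1),
    (γ i : ℂ) • shift (dec i γ) (comp (n + 1 - deg γ) (q γ)) with hA
  have hAκ : ∀ κ, A κ = ∑ γ ∈ degLe d (n + 1),
      shift γ ((γ i : ℂ) • comp (n + 1 - deg γ) (q γ)) (inc i κ) := by
    intro κ
    rw [hA, Finsupp.finsetSum_apply]
    refine Finset.sum_congr rfl fun γ _ => ?_
    by_cases h : γ i = 0
    · rw [h, Nat.cast_zero, zero_smul, zero_smul, map_zero]
      rfl
    · rw [Finsupp.smul_apply, fi_shift_dec h, map_smul, Finsupp.smul_apply]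
  have hAdeg : ∀ κ, deg κ ≠ n → A κ = 0 := by
    intro κ hκ
    rw [hAκ]
    refine Finset.sum_eq_zero fun γ hγ => ?_
    have hγ' := mem_degLe.1 hγ
    by_cases hle : γ ≤ inc i κ
    · have h1 : γ + (inc i κ - γ) = inc i κ := add_tsub_cancel_of_le hle
      have h2 := shift_apply_add γ (inc i κ - γ) ((γ i : ℂ) • comp (n + 1 - deg γ) (q γ))
      rw [h1] at h2
      rw [h2, Finsupp.smul_apply, fi_comp_apply, if_neg, smul_zero]
      intro h3
      have h4 : deg (γ + (inc i κ - γ)) = deg (inc i κ) := by rw [h1]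
      rw [deg_add, deg_inc] at h4
      omega
    · exact shift_apply_of_not_le hle _
  refine ⟨A, ?_, ?_, ?_, ?_⟩
  · rw [hA]
    refine Submodule.sum_mem _ fun γ _ => Submodule.smul_mem _ _ (hM _ _ (hgr _ (hqM γ) _))
  · exact fi_comp_eq_iff.2 hAdeg
  · intro κ hκ
    rw [fi_pd_apply, fi_comp_eq_iff.1 hf (inc i κ) (by rw [deg_inc]; omega), smul_zero]
  · intro κ hκ
    have h1 : A κ = ∑ β ∈ degLe d m, shf β (fun γ => if deg γ ≤ n + 1 then
        ((γ i : ℂ) • comp (n + 1 - deg γ) (q γ)) β else 0) (inc i κ) := by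
      rw [hAκ, ← Finsupp.finsetSum_apply]
      refine ap_sum_shift_apply (n + 1) (degLe d m)
        (fun γ => (γ i : ℂ) • comp (n + 1 - deg γ) (q γ)) (fun γ => ?_) (inc i κ)
      refine (Finsupp.support_smul).trans ?_
      intro α hα
      rw [Finsupp.mem_support_iff, fi_comp_apply] at hα
      have h2 : q γ α ≠ 0 := fun h3 => hα (by rw [h3, ite_self])
      exact ap_support_subset (toPol_mem _) (Finsupp.mem_support_iff.2 h2)
    rw [fi_pd_apply, hfG, h1, Finset.smul_sum, ← Finset.sum_add_distrib]
    refine Finset.sum_congr rfl fun β _ => ?_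
    by_cases hβ : β ≤ inc i κ
    · have h2 : inc i κ - β + β = inc i κ := tsub_add_cancel_of_le hβ
      have h3 : deg (inc i κ - β) + deg β = n + 1 := by
        rw [← deg_add, h2, deg_inc, hκ]
      have h4 : (inc i κ - β) i + β i = κ i + 1 := by
        have := congrFun h2 i
        rwa [Pi.add_apply, inc_same] at this
      simp only [shf, if_pos hβ]
      rw [if_pos (by omega), Finsupp.smul_apply, fi_comp_apply, if_pos (by omega)]
      by_cases h5 : β i = 0
      · rw [h5, Nat.cast_zero, zero_smul, add_zero, ← h4, h5, add_zero]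
      · have h6 : dec i β ≤ κ := by
          intro j
          by_cases hj : j = i
          · rw [hj]
            have h7 : dec i β i = β i - 1 := Function.update_self _ _ _
            rw [h7]
            have h8 := hβ i
            rw [inc_same] at h8
            exact Nat.sub_le_iff_le_add.2 h8
          · have h7 : dec i β j = β j := Function.update_of_ne hj _ _
            have h8 := hβ j
            have h9 : inc i κ j = κ j := Function.update_of_ne hj _ _
            rw [h7]
            rwa [h9] at h8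
        have h7 : κ - dec i β = inc i κ - β := by
          funext j
          rw [Pi.sub_apply, Pi.sub_apply]
          by_cases hj : j = i
          · rw [hj]
            have h8 : dec i β i = β i - 1 := Function.update_self _ _ _
            rw [h8, inc_same]
            omega
          · have h8 : dec i β j = β j := Function.update_of_ne hj _ _
            have h9 : inc i κ j = κ j := Function.update_of_ne hj _ _
            rw [h8, h9]
        rw [if_pos h6, h7, ← add_smul, ← Nat.cast_add, h4]
    · rw [ap_shf_of_not_le hβ, ap_shf_of_not_le hβ, smul_zero, zero_add]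
      by_cases h5 : β i = 0
      · rw [h5, Nat.cast_zero, zero_smul]
      · rw [ap_shf_of_not_le, smul_zero]
        intro h6
        apply hβ
        intro j
        by_cases hj : j = i
        · rw [hj, inc_same]
          have h7 : dec i β i = β i - 1 := Function.update_self _ _ _
          have h8 := h6 i
          rw [h7] at h8
          exact Nat.sub_le_iff_le_add.1 h8
        · have h7 : dec i β j = β j := Function.update_of_ne hj _ _
          have h8 := h6 j
          have h9 : inc i κ j = κ j := Function.update_of_ne hj _ _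
          rw [h9]
          rwa [h7] at h8

end Pool.Agent.Lib.MP_15f9af_an.AD
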