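import Mathlib
import Pool.Agent.Lib.MP_15f9af_an.AD.Defs

/-!
# The partition of unity `chi` and its `∂̄`-derivative `dchi`
-/

namespace Pool.Agent.Lib.MP_15f9af_an.AD

open scoped ENNReal NNReal

/-- the one dimensional bump -/
noncomputable def buB (s : ℝ) : ℝ := Real.smoothTransition (s + 1) - Real.smoothTransition s

theorem buB_nonneg (s : ℝ) : 0 ≤ buB s := by
  unfold buB
  rcases le_total s 0 with h | h
  · rw [Real.smoothTransition.zero_of_nonpos h]
    have := Real.smoothTransition.nonneg (s + 1)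
    linarith
  · rw [Real.smoothTransition.one_of_one_le (by linarith : (1 : ℝ) ≤ s + 1)]
    have := Real.smoothTransition.le_one s
    linarith

theorem buB_le_one (s : ℝ) : buB s ≤ 1 := by
  unfold buB
  have h1 := Real.smoothTransition.le_one (s + 1)
  have h2 := Real.smoothTransition.nonneg s
  linarith

theorem buB_supp {s : ℝ} (h : buB s ≠ 0) : |s| < 1 := by
  by_contra hs
  apply h
  unfold buB
  rcases le_abs.mp (not_lt.mp hs) with h1 | h1
  · rw [Real.smoothTransition.one_of_one_le h1,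
      Real.smoothTransition.one_of_one_le (by linarith : (1 : ℝ) ≤ s + 1), sub_self]
  · rw [Real.smoothTransition.zero_of_nonpos (by linarith : s ≤ 0),
      Real.smoothTransition.zero_of_nonpos (by linarith : s + 1 ≤ 0), sub_self]

theorem chi_eq_buB (δ : ℝ) (k : ℤ × ℤ) (x : ℂ) :
    chi δ k x = buB (x.re / δ - k.1) * buB (x.im / δ - k.2) := rfl

theorem hasSum_buB (s : ℝ) : HasSum (fun k : ℤ => buB (s - k)) 1 := by
  have h : ∀ k : ℤ, k ∉ ({⌊s⌋, ⌊s⌋ + 1} : Finset ℤ) → buB (s - k) = 0 := by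
    intro k hk
    by_contra hne
    have h1 := buB_supp hne
    rw [abs_lt] at h1
    have h2 := Int.floor_le s
    have h3 := Int.lt_floor_add_one s
    apply hk
    have h4 : (⌊s⌋ : ℝ) < k + 1 := by linarith [h1.1, h1.2]
    have h5 : (k : ℝ) < ⌊s⌋ + 1 + 1 := by linarith [h1.1, h1.2]
    have h4' : ⌊s⌋ < k + 1 := by exact_mod_cast h4
    have h5' : k < ⌊s⌋ + 1 + 1 := by exact_mod_cast h5
    have : k = ⌊s⌋ ∨ k = ⌊s⌋ + 1 := by omega
    simpa using this
  have h1 : HasSum _ _ (SummationFilter.unconditional _) := hasSum_sum_of_ne_finset_zero h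
  convert h1 using 1
  rw [Finset.sum_pair (by omega)]
  unfold buB
  have h2 := Int.floor_le s
  have h3 := Int.lt_floor_add_one s
  push_cast
  rw [Real.smoothTransition.one_of_one_le (by linarith : (1 : ℝ) ≤ s - ⌊s⌋ + 1),
    Real.smoothTransition.zero_of_nonpos (by linarith : s - (⌊s⌋ + 1) ≤ (0 : ℝ))]
  have : s - ((⌊s⌋ : ℝ) + 1) + 1 = s - ⌊s⌋ := by ring
  rw [this]
  ring

theorem buB_contDiff (n : ℕ) : ContDiff ℝ n buB := by
  unfold buB
  have h : ContDiff ℝ n Real.smoothTransition := Real.smoothTransition.contDiff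
  exact (h.comp (contDiff_id.add contDiff_const)).sub h

theorem chi_contDiff {δ : ℝ} (hδ : 0 < δ) (k : ℤ × ℤ) (n : ℕ) :
    ContDiff ℝ n (chi δ k) := by
  have h1 : ContDiff ℝ n fun x : ℂ => buB (x.re / δ - k.1) :=
    (buB_contDiff n).comp ((Complex.reCLM.contDiff.div_const δ).sub contDiff_const)
  have h2 : ContDiff ℝ n fun x : ℂ => buB (x.im / δ - k.2) :=
    (buB_contDiff n).comp ((Complex.imCLM.contDiff.div_const δ).sub contDiff_const)
  exact h1.mul h2

theorem dchi_contDiff {δ : ℝ} (hδ : 0 < δ) (k : ℤ × ℤ) (n : ℕ) :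
    ContDiff ℝ n (dchi δ k) := by
  have h1 : ContDiff ℝ n (fderiv ℝ (chi δ k)) :=
    (chi_contDiff hδ k (n + 1)).fderiv_right (by norm_cast)
  have h2 : ContDiff ℝ n fun x => fderiv ℝ (chi δ k) x 1 := h1.clm_apply contDiff_const
  have h3 : ContDiff ℝ n fun x => fderiv ℝ (chi δ k) x Complex.I := h1.clm_apply contDiff_const
  unfold dchi
  exact (Complex.ofRealCLM.contDiff.comp h2).add
    (contDiff_const.mul (Complex.ofRealCLM.contDiff.comp h3))

theorem chi_nonneg {δ : ℝ} (hδ : 0 < δ) (k : ℤ × ℤ) (x : ℂ) : 0 ≤ chi δ k x :=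
  mul_nonneg (buB_nonneg _) (buB_nonneg _)

theorem chi_le_one {δ : ℝ} (hδ : 0 < δ) (k : ℤ × ℤ) (x : ℂ) : chi δ k x ≤ 1 :=
  mul_le_one₀ (buB_le_one _) (buB_nonneg _) (buB_le_one _)

theorem bu_abs_iff {δ : ℝ} (hδ : 0 < δ) (u : ℝ) (k : ℤ) :
    |u / δ - k| < 1 ↔ |u - δ * k| < δ := by
  have h : u - δ * k = δ * (u / δ - k) := by field_simp
  rw [h, abs_mul, abs_of_pos hδ]
  constructor
  · intro h1
    nlinarith
  · intro h1
    by_contra h2
    push Not at h2
    nlinarith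

/-- the support is the open square of side `2δ` -/
theorem chi_supp {δ : ℝ} (hδ : 0 < δ) {k : ℤ × ℤ} {x : ℂ} (h : chi δ k x ≠ 0) :
    |x.re - δ * k.1| < δ ∧ |x.im - δ * k.2| < δ := by
  rw [chi_eq_buB] at h
  exact ⟨(bu_abs_iff hδ _ _).mp (buB_supp (left_ne_zero_of_mul h)),
    (bu_abs_iff hδ _ _).mp (buB_supp (right_ne_zero_of_mul h))⟩

theorem dchi_supp {δ : ℝ} (hδ : 0 < δ) {k : ℤ × ℤ} {x : ℂ} (h : dchi δ k x ≠ 0) :
    |x.re - δ * k.1| < δ ∧ |x.im - δ * k.2| < δ := by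
  by_contra hx
  apply h
  have h0 : chi δ k x = 0 := by
    by_contra hne
    exact hx (chi_supp hδ hne)
  have hmin : IsLocalMin (chi δ k) x :=
    Filter.Eventually.of_forall fun y => by
      rw [h0]
      exact chi_nonneg hδ k y
  have hf := hmin.fderiv_eq_zero
  unfold dchi
  rw [hf]
  simp

theorem hasSum_chi {δ : ℝ} (hδ : 0 < δ) (x : ℂ) : HasSum (fun k => chi δ k x) 1 := by
  have h1 := hasSum_buB (x.re / δ)
  have h2 := hasSum_buB (x.im / δ)
  have h3 := h1.mul h2 (h1.summable.mul_of_nonneg h2.summable (fun _ => buB_nonneg _)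
    (fun _ => buB_nonneg _))
  rw [one_mul] at h3
  exact h3

/-- a finite set of lattice points containing all those whose square comes near `x` -/
noncomputable def buNear (δ : ℝ) (x : ℂ) : Finset (ℤ × ℤ) :=
  (Finset.Icc (⌊x.re / δ⌋ - 3) (⌊x.re / δ⌋ + 3)) ×ˢ
    (Finset.Icc (⌊x.im / δ⌋ - 3) (⌊x.im / δ⌋ + 3))

theorem bu_floor {s : ℝ} {k : ℤ} (h : |s - k| < 2) : k ∈ Finset.Icc (⌊s⌋ - 3) (⌊s⌋ + 3) := by
  rw [abs_lt] at h
  have h2 := Int.floor_le s
  have h3 := Int.lt_floor_add_one s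
  have h4 : (⌊s⌋ : ℝ) < k + 2 := by linarith [h.1, h.2]
  have h5 : (k : ℝ) < ⌊s⌋ + 3 := by linarith [h.1, h.2]
  have h4' : ⌊s⌋ < k + 2 := by exact_mod_cast h4
  have h5' : k < ⌊s⌋ + 3 := by exact_mod_cast h5
  rw [Finset.mem_Icc]
  omega

theorem bu_abs_two {δ : ℝ} (hδ : 0 < δ) {u v : ℝ} {k : ℤ} (huv : |v - u| < δ)
    (h : |v - δ * k| < δ) : |u / δ - k| < 2 := by
  have h1 : u / δ - k = (u - δ * k) / δ := by field_simp
  rw [h1, abs_div, abs_of_pos hδ, div_lt_iff₀ hδ]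
  have h2 : |u - δ * k| ≤ |v - u| + |v - δ * k| := by
    have : u - δ * k = -(v - u) + (v - δ * k) := by ring
    rw [this]
    refine (abs_add_le _ _).trans ?_
    rw [abs_neg]
  linarith

theorem bu_mem_near {δ : ℝ} (hδ : 0 < δ) {x y : ℂ} (hy : ‖y - x‖ < δ) {k : ℤ × ℤ}
    (h1 : |y.re - δ * k.1| < δ) (h2 : |y.im - δ * k.2| < δ) : k ∈ buNear δ x := by
  have hr : |y.re - x.re| < δ := by
    have := Complex.abs_re_le_norm (y - x)
    rw [Complex.sub_re] at this
    linarith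
  have hi : |y.im - x.im| < δ := by
    have := Complex.abs_im_le_norm (y - x)
    rw [Complex.sub_im] at this
    linarith
  exact Finset.mem_product.mpr ⟨bu_floor (bu_abs_two hδ hr h1), bu_floor (bu_abs_two hδ hi h2)⟩

theorem sum_chi_near {δ : ℝ} (hδ : 0 < δ) {x y : ℂ} (hy : ‖y - x‖ < δ) :
    ∑ k ∈ buNear δ x, chi δ k y = 1 := by
  have h : ∀ k : ℤ × ℤ, k ∉ buNear δ x → chi δ k y = 0 := by
    intro k hk
    by_contra hne
    obtain ⟨h1, h2⟩ := chi_supp hδ hne
    exact hk (bu_mem_near hδ hy h1 h2)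
  exact (hasSum_sum_of_ne_finset_zero h).unique (hasSum_chi hδ y)

theorem sum_fderiv_chi {δ : ℝ} (hδ : 0 < δ) (x : ℂ) :
    ∑ k ∈ buNear δ x, fderiv ℝ (chi δ k) x = 0 := by
  have hd : ∀ k, DifferentiableAt ℝ (chi δ k) x := fun k =>
    ((chi_contDiff hδ k 1).differentiable (by norm_num)).differentiableAt
  have h1 : fderiv ℝ (fun y => ∑ k ∈ buNear δ x, chi δ k y) x =
      ∑ k ∈ buNear δ x, fderiv ℝ (chi δ k) x := fderiv_fun_sum fun k _ => hd k
  rw [← h1]
  have h2 : (fun y => ∑ k ∈ buNear δ x, chi δ k y) =ᶠ[nhds x] fun _ => (1 : ℝ) := by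
    filter_upwards [Metric.ball_mem_nhds x hδ] with y hy
    rw [Metric.mem_ball, dist_eq_norm] at hy
    exact sum_chi_near hδ hy
  rw [h2.fderiv_eq]
  simp

theorem hasSum_dchi {δ : ℝ} (hδ : 0 < δ) (x : ℂ) : HasSum (fun k => dchi δ k x) 0 := by
  have h : ∀ k : ℤ × ℤ, k ∉ buNear δ x → dchi δ k x = 0 := by
    intro k hk
    by_contra hne
    obtain ⟨h1, h2⟩ := dchi_supp hδ hne
    exact hk (bu_mem_near hδ (by simpa using hδ) h1 h2)
  have h1 : HasSum _ _ (SummationFilter.unconditional _) := hasSum_sum_of_ne_finset_zero h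
  convert h1 using 1
  unfold dchi
  have h2 := sum_fderiv_chi hδ x
  have h3 : ∑ k ∈ buNear δ x, fderiv ℝ (chi δ k) x 1 = 0 := by
    have := congrArg (fun L : ℂ →L[ℝ] ℝ => L 1) h2
    simpa using this
  have h4 : ∑ k ∈ buNear δ x, fderiv ℝ (chi δ k) x Complex.I = 0 := by
    have := congrArg (fun L : ℂ →L[ℝ] ℝ => L Complex.I) h2
    simpa using this
  rw [Finset.sum_add_distrib, ← Finset.mul_sum, ← Complex.ofReal_sum, ← Complex.ofReal_sum, h3, h4]
  simp

theorem chi_translate {δ : ℝ} (hδ : 0 < δ) (k : ℤ × ℤ) (x : ℂ) :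
    chi δ k x = chi δ 0 (x - lat δ k) := by
  rw [chi_eq_buB, chi_eq_buB]
  have h1 : (x - lat δ k).re / δ - ((0 : ℤ × ℤ).1 : ℝ) = x.re / δ - k.1 := by
    simp only [lat, Complex.sub_re, Prod.fst_zero, Int.cast_zero, sub_zero]
    field_simp
  have h2 : (x - lat δ k).im / δ - ((0 : ℤ × ℤ).2 : ℝ) = x.im / δ - k.2 := by
    simp only [lat, Complex.sub_im, Prod.snd_zero, Int.cast_zero, sub_zero]
    field_simp
  rw [h1, h2]

theorem dchi_translate {δ : ℝ} (hδ : 0 < δ) (k : ℤ × ℤ) (x : ℂ) :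
    dchi δ k x = dchi δ 0 (x - lat δ k) := by
  have h1 : fderiv ℝ (chi δ k) x = fderiv ℝ (chi δ 0) (x - lat δ k) := by
    have h2 : chi δ k = fun y => chi δ 0 (y - lat δ k) := funext fun y => chi_translate hδ k y
    rw [h2, fderiv_comp_sub]
  unfold dchi
  rw [h1]

theorem dchi_bound {δ : ℝ} (hδ : 0 < δ) : ∃ B : ℝ, ∀ k x, ‖dchi δ k x‖ ≤ B := by
  have hc : Continuous (dchi δ 0) := (dchi_contDiff hδ 0 0).continuous
  have hs : HasCompactSupport (dchi δ 0) := by
    refine HasCompactSupport.of_support_subset_isCompact (isCompact_closedBall (0 : ℂ) (2 * δ)) ?_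
    intro x hx
    obtain ⟨h1, h2⟩ := dchi_supp hδ (Function.mem_support.mp hx)
    rw [mem_closedBall_zero_iff]
    simp only [Prod.fst_zero, Prod.snd_zero, Int.cast_zero, mul_zero, sub_zero] at h1 h2
    have := Complex.norm_le_abs_re_add_abs_im x
    linarith
  obtain ⟨B, hB⟩ := hc.bounded_above_of_compact_support hs
  exact ⟨B, fun k x => by rw [dchi_translate hδ]; exact hB _⟩

end Pool.Agent.Lib.MP_15f9af_an.AD
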