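import Mathlib
import Pool.Agent.Lib.MP_15f9af_an.AD.Defs

/-!
# Gaussian sums over a lattice
-/

namespace Pool.Agent.Lib.MP_15f9af_an.AD

open scoped ENNReal NNReal
open MeasureTheory

theorem bg_int_bound {δ : ℝ} (hδ : 0 < δ) (x R : ℝ) :
    {k : ℤ | |x - δ * k| < R}.Finite := by
  apply Set.Finite.subset (Set.finite_Icc (-⌈(R + |x|) / δ⌉) ⌈(R + |x|) / δ⌉)
  intro k hk
  have hk' : |x - δ * k| < R := hk
  have h1 : |(k : ℝ)| ≤ (R + |x|) / δ := by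
    rw [le_div_iff₀ hδ]
    have : |δ * (k : ℝ)| ≤ |x - δ * k| + |x| := by
      have h := abs_sub_abs_le_abs_sub (δ * (k : ℝ)) x
      rw [abs_sub_comm] at h
      linarith
    rw [abs_mul, abs_of_pos hδ] at this
    linarith
  have h2 := Int.le_ceil ((R + |x|) / δ)
  rw [abs_le] at h1
  rw [Set.mem_Icc]
  constructor
  · have : (-(⌈(R + |x|) / δ⌉ : ℝ)) ≤ (k : ℝ) := by linarith [h1.1]
    exact_mod_cast this
  · have : (k : ℝ) ≤ (⌈(R + |x|) / δ⌉ : ℝ) := by linarith [h1.2]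
    exact_mod_cast this

theorem finite_near {δ : ℝ} (hδ : 0 < δ) (x : ℂ) (R : ℝ) :
    {k : ℤ × ℤ | |x.re - δ * k.1| < R ∧ |x.im - δ * k.2| < R}.Finite :=
  ((bg_int_bound hδ x.re R).prod (bg_int_bound hδ x.im R)).subset fun _ hk => ⟨hk.1, hk.2⟩

/-- `(1 + r)^m e^{-r²/2} ≤ m! e² e^{-r²/4}` -/
theorem gau_le (m : ℕ) (y : ℂ) :
    gau m y ≤ (m.factorial * Real.exp 2) * Real.exp (-‖y‖ ^ 2 / 4) := by
  unfold gau
  set r := ‖y‖ with hr
  have hr0 : 0 ≤ r := norm_nonneg y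
  have h1 : (1 + r) ^ m ≤ m.factorial * Real.exp (1 + r) := by
    have := Real.pow_div_factorial_le_exp (1 + r) (by linarith) m
    rw [div_le_iff₀ (by positivity)] at this
    linarith
  have h2 : Real.exp (1 + r) * Real.exp (-r ^ 2 / 2) ≤ Real.exp 2 * Real.exp (-r ^ 2 / 4) := by
    rw [← Real.exp_add, ← Real.exp_add]
    apply Real.exp_le_exp.2
    nlinarith [sq_nonneg (r - 2)]
  calc (1 + r) ^ m * Real.exp (-r ^ 2 / 2)
      ≤ (m.factorial * Real.exp (1 + r)) * Real.exp (-r ^ 2 / 2) := by gcongr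
    _ = m.factorial * (Real.exp (1 + r) * Real.exp (-r ^ 2 / 2)) := by ring
    _ ≤ m.factorial * (Real.exp 2 * Real.exp (-r ^ 2 / 4)) := by gcongr
    _ = _ := by ring

/-- one-dimensional bound -/
noncomputable def bgv (δ R : ℝ) (k : ℤ) : ℝ :=
  Real.exp (R ^ 2 / 4) * Real.exp (-δ ^ 2 / 8) ^ k.natAbs

theorem bgv_nonneg (δ R : ℝ) (k : ℤ) : 0 ≤ bgv δ R k := by unfold bgv; positivity

theorem summable_bgv {δ : ℝ} (hδ : 0 < δ) (R : ℝ) : Summable (bgv δ R) := by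
  unfold bgv
  apply Summable.mul_left
  have h0 : 0 ≤ Real.exp (-δ ^ 2 / 8) := (Real.exp_pos _).le
  have h1 : Real.exp (-δ ^ 2 / 8) < 1 := by
    rw [Real.exp_lt_one_iff]
    have : 0 < δ ^ 2 := by positivity
    linarith
  apply Summable.of_nat_of_neg
  · simpa using summable_geometric_of_lt_one h0 h1
  · simpa using summable_geometric_of_lt_one h0 h1

theorem exp_le_bgv {δ R s : ℝ} (hs : |s| ≤ R) (k : ℤ) :
    Real.exp (-(s - δ * k) ^ 2 / 4) ≤ bgv δ R k := by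
  unfold bgv
  rw [← Real.exp_nat_mul, ← Real.exp_add]
  apply Real.exp_le_exp.2
  have h1 : ((k.natAbs : ℕ) : ℝ) ≤ (k : ℝ) ^ 2 := by
    have h2 : ((k.natAbs : ℕ) : ℝ) = |(k : ℝ)| := by
      rw [Nat.cast_natAbs, Int.cast_abs]
    rw [h2]
    rcases eq_or_ne k 0 with rfl | hk
    · simp
    · have h3 : (1 : ℝ) ≤ |(k : ℝ)| := by
        have : (1 : ℤ) ≤ |k| := Int.one_le_abs hk
        exact_mod_cast this
      nlinarith [sq_abs (k : ℝ)]
  have h2 : s ^ 2 ≤ R ^ 2 := sq_le_sq' (by linarith [abs_le.1 hs |>.1]) (abs_le.1 hs).2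
  have h3 : 0 ≤ δ ^ 2 := sq_nonneg δ
  nlinarith [sq_nonneg (δ * k - 2 * s), mul_le_mul_of_nonneg_left h1 h3]

/-- two-dimensional bound -/
noncomputable def bgw (m : ℕ) (δ R : ℝ) (k : ℤ × ℤ) : ℝ :=
  (m.factorial * Real.exp 2) * (bgv δ R k.1 * bgv δ R k.2)

theorem bgw_nonneg (m : ℕ) (δ R : ℝ) (k : ℤ × ℤ) : 0 ≤ bgw m δ R k := by
  unfold bgw
  have := bgv_nonneg δ R k.1
  have := bgv_nonneg δ R k.2
  positivity

theorem summable_bgw {δ : ℝ} (hδ : 0 < δ) (m : ℕ) (R : ℝ) : Summable (bgw m δ R) := by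
  unfold bgw
  apply Summable.mul_left
  exact (summable_bgv hδ R).mul_of_nonneg (summable_bgv hδ R) (bgv_nonneg δ R) (bgv_nonneg δ R)

theorem gau_le_bgw (m : ℕ) {δ R : ℝ} {x : ℂ} (h1 : |x.re| ≤ R) (h2 : |x.im| ≤ R) (k : ℤ × ℤ) :
    gau m (x - lat δ k) ≤ bgw m δ R k := by
  refine (gau_le m _).trans ?_
  unfold bgw
  have h3 : Real.exp (-‖x - lat δ k‖ ^ 2 / 4) =
      Real.exp (-(x.re - δ * k.1) ^ 2 / 4) * Real.exp (-(x.im - δ * k.2) ^ 2 / 4) := by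
    rw [← Real.exp_add]
    congr 1
    rw [← Complex.normSq_eq_norm_sq, Complex.normSq_apply]
    simp only [lat, Complex.sub_re, Complex.sub_im]
    ring
  rw [h3]
  have h4 := exp_le_bgv (δ := δ) h1 k.1
  have h5 := exp_le_bgv (δ := δ) h2 k.2
  have h6 := bgv_nonneg δ R k.1
  gcongr

theorem gau_nonneg' (m : ℕ) (y : ℂ) : 0 ≤ gau m y := by unfold gau; positivity

theorem gau_sum_unif {δ : ℝ} (hδ : 0 < δ) (m : ℕ) (R : ℝ) :
    ∃ u : ℤ × ℤ → ℝ, Summable u ∧ ∀ x : ℂ, ‖x‖ ≤ R → ∀ k, gau m (x - lat δ k) ≤ u k :=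
  ⟨bgw m δ R, summable_bgw hδ m R, fun x hx k =>
    gau_le_bgw m ((Complex.abs_re_le_norm x).trans hx) ((Complex.abs_im_le_norm x).trans hx) k⟩

theorem gau_sum {δ : ℝ} (hδ : 0 < δ) (m : ℕ) :
    ∃ C : ℝ, 0 ≤ C ∧ ∀ x : ℂ, Summable (fun k : ℤ × ℤ => gau m (x - lat δ k)) ∧
      ∑' k : ℤ × ℤ, gau m (x - lat δ k) ≤ C := by
  have hS := summable_bgw hδ m δ
  refine ⟨∑' k, bgw m δ δ k, tsum_nonneg (bgw_nonneg m δ δ), fun x => ?_⟩
  set j : ℤ × ℤ := (⌊x.re / δ⌋, ⌊x.im / δ⌋) with hj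
  have hb : ∀ s : ℝ, |s - δ * ⌊s / δ⌋| ≤ δ := by
    intro s
    have h1 := Int.floor_le (s / δ)
    have h2 := Int.lt_floor_add_one (s / δ)
    rw [le_div_iff₀ hδ] at h1
    rw [div_lt_iff₀ hδ] at h2
    rw [abs_le]
    constructor <;> nlinarith
  have h1 : ∀ k, gau m (x - lat δ k) ≤ bgw m δ δ (k - j) := by
    intro k
    have h2 : x - lat δ k = (x - lat δ j) - lat δ (k - j) := by
      apply Complex.ext
      · simp [lat]; ring
      · simp [lat]; ring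
    rw [h2]
    apply gau_le_bgw
    · simpa [lat, hj] using hb x.re
    · simpa [lat, hj] using hb x.im
  have h3 : Summable fun k : ℤ × ℤ => bgw m δ δ (k - j) :=
    (Equiv.subRight j).summable_iff.2 hS
  have h4 : ∑' k : ℤ × ℤ, bgw m δ δ (k - j) = ∑' k, bgw m δ δ k :=
    (Equiv.subRight j).tsum_eq (bgw m δ δ)
  have h5 : Summable (fun k : ℤ × ℤ => gau m (x - lat δ k)) :=
    Summable.of_nonneg_of_le (fun k => gau_nonneg' m _) h1 h3
  exact ⟨h5, (h5.tsum_le_tsum h1 h3).trans h4.le⟩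

theorem gau_integral (m : ℕ) : ∫⁻ y : ℂ, ENNReal.ofReal (gau m y) < ∞ := by
  have h1 : Integrable (fun y : ℂ => Complex.exp (-(1 / 4 : ℂ) * ‖y‖ ^ 2 + 0 * inner ℝ (0 : ℂ) y)) :=
    GaussianFourier.integrable_cexp_neg_mul_sq_norm_add (by norm_num) 0 0
  have h2 : Integrable (fun y : ℂ => (m.factorial * Real.exp 2) * Real.exp (-‖y‖ ^ 2 / 4)) := by
    apply Integrable.const_mul
    refine h1.norm.congr (Filter.Eventually.of_forall fun y => ?_)
    simp only [zero_mul, add_zero, Complex.norm_exp]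
    congr 1
    have : (-(1 / 4 : ℂ) * (‖y‖ : ℂ) ^ 2) = ((-‖y‖ ^ 2 / 4 : ℝ) : ℂ) := by push_cast; ring
    rw [this, Complex.ofReal_re]
  refine (lintegral_mono fun y => ENNReal.ofReal_le_ofReal (gau_le m y)).trans_lt ?_
  exact h2.lintegral_lt_top

theorem overlap {δ : ℝ} (hδ : 0 < δ) (R : ℝ) :
    ∃ C : ℝ≥0, ∀ x : ℂ,
      ∑' k : ℤ × ℤ, (Metric.ball (lat δ k) R).indicator (fun _ => (1 : ℝ≥0∞)) x ≤ C := by
  obtain ⟨C, hC, hs⟩ := gau_sum hδ 0
  refine ⟨Real.toNNReal (Real.exp (R ^ 2 / 2) * C), fun x => ?_⟩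
  have h1 : ∀ k : ℤ × ℤ, (Metric.ball (lat δ k) R).indicator (fun _ => (1 : ℝ≥0∞)) x ≤
      ENNReal.ofReal (Real.exp (R ^ 2 / 2) * gau 0 (x - lat δ k)) := by
    intro k
    by_cases hx : x ∈ Metric.ball (lat δ k) R
    · rw [Set.indicator_of_mem hx, ← ENNReal.ofReal_one]
      apply ENNReal.ofReal_le_ofReal
      rw [Metric.mem_ball, dist_eq_norm] at hx
      unfold gau
      rw [pow_zero, one_mul, ← Real.exp_add]
      apply Real.one_le_exp
      have := norm_nonneg (x - lat δ k)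
      nlinarith
    · rw [Set.indicator_of_notMem hx]; exact bot_le
  refine (ENNReal.tsum_le_tsum h1).trans ?_
  have h2 := (hs x).1.mul_left (Real.exp (R ^ 2 / 2))
  rw [← ENNReal.ofReal_tsum_of_nonneg (fun k => mul_nonneg (Real.exp_pos _).le (gau_nonneg' 0 _)) h2,
    tsum_mul_left]
  rw [ENNReal.ofReal]
  exact_mod_cast Real.toNNReal_le_toNNReal (mul_le_mul_of_nonneg_left (hs x).2 (Real.exp_pos _).le)

end Pool.Agent.Lib.MP_15f9af_an.AD
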