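import Mathlib
import Pool.Agent.Lib.MP_15f9af_an.AD.Defs

/-!
# The twisted Cauchy transform in one of the variables

`CTData.continuousOn`, `CTData.differentiableAt`, `CTData.dbar`, `CTData.norm_le`.
-/

namespace Pool.Agent.Lib.MP_15f9af_an.AD

open MeasureTheory Metric Set Filter Topology
open scoped ENNReal NNReal Convolution

universe u v

variable {d : ℕ}

section kernel

/-! ### the kernel -/

theorem cy_locallyIntegrable_inv : LocallyIntegrable (fun ζ : ℂ => ((Real.pi : ℂ) * ζ)⁻¹) volume := by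
  have hm : Measurable (fun ζ : ℂ => ((Real.pi : ℂ) * ζ)⁻¹) := by fun_prop
  refine locallyIntegrable_of_norm_le_rpow (C := Real.pi⁻¹) (α := 1) ?_ ?_ ?_ ?_
  · rw [Complex.finrank_real_complex]; norm_num
  · rw [Complex.finrank_real_complex]; norm_num
  · refine Eventually.of_forall fun x => ?_
    rw [mul_inv, norm_mul, norm_inv, norm_inv, Real.rpow_neg_one]
    simp [abs_of_pos Real.pi_pos]
  · exact hm.aestronglyMeasurable

theorem cy_locallyIntegrable_ker (q : ℂ) :
    LocallyIntegrable (fun ζ : ℂ => ((Real.pi : ℂ) * ζ)⁻¹ *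
      Complex.exp (ζ * (starRingEnd ℂ) q)) volume := by
  have := cy_locallyIntegrable_inv.mul_continuous
    (g := fun ζ : ℂ => Complex.exp (ζ * (starRingEnd ℂ) q)) (by fun_prop)
  exact this

theorem cy_integrableOn_inv (y : ℂ) (r : ℝ) :
    IntegrableOn (fun ζ : ℂ => ‖ζ‖⁻¹) (ball y r) volume := by
  have h : LocallyIntegrable (fun ζ : ℂ => ‖ζ‖⁻¹) volume := by
    have hm : Measurable (fun ζ : ℂ => ‖ζ‖⁻¹) := by fun_prop
    refine locallyIntegrable_of_norm_le_rpow (C := 1) (α := 1) ?_ ?_ ?_ hm.aestronglyMeasurable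
    · rw [Complex.finrank_real_complex]; norm_num
    · rw [Complex.finrank_real_complex]; norm_num
    · refine Eventually.of_forall fun x => ?_
      rw [Real.rpow_neg_one, norm_inv, norm_norm, one_mul]
  exact (h.integrableOn_isCompact (isCompact_closedBall y r)).mono_set ball_subset_closedBall

theorem cy_integral_inv_zero {r : ℝ} (hr : 0 < r) :
    ∫ ζ in ball (0 : ℂ) r, ‖ζ‖⁻¹ = 2 * Real.pi * r := by
  have h1 : ∫ ζ in ball (0 : ℂ) r, ‖ζ‖⁻¹
      = ∫ ζ : ℂ, (fun t : ℝ => (Iio r).indicator (fun t => t⁻¹) t) ‖ζ‖ := by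
    rw [← integral_indicator measurableSet_ball]
    congr 1
    ext ζ
    by_cases hζ : ‖ζ‖ < r
    · simp [indicator, hζ]
    · simp [indicator, hζ]
  rw [h1, integral_fun_norm_addHaar, Complex.finrank_real_complex]
  have h2 : ∫ y in Ioi (0 : ℝ), y ^ (2 - 1) • (Iio r).indicator (fun t => t⁻¹) y = r := by
    have : ∀ y ∈ Ioi (0 : ℝ), y ^ (2 - 1) • (Iio r).indicator (fun t => t⁻¹) y
        = (Iio r).indicator (fun _ => (1 : ℝ)) y := by
      intro y hy
      have hy' : y ≠ 0 := ne_of_gt hy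
      by_cases hyr : y < r
      · simp [indicator, hyr, hy']
      · simp [indicator, hyr]
    rw [setIntegral_congr_fun measurableSet_Ioi this, setIntegral_indicator measurableSet_Iio]
    simp [Ioi_inter_Iio, hr.le]
  rw [h2]
  have h3 : (volume : Measure ℂ).real (ball 0 1) = Real.pi := by
    rw [measureReal_def, Complex.volume_ball]
    simp
  rw [h3]
  simp only [smul_eq_mul, nsmul_eq_mul]
  push_cast
  ring

theorem cy_integral_inv_le {r : ℝ} (hr : 0 < r) (y : ℂ) :
    ∫ ζ in ball y r, ‖ζ‖⁻¹ ≤ 3 * Real.pi * r := by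
  have hle : ∀ ζ : ℂ, ‖ζ‖⁻¹ ≤ (ball (0 : ℂ) r).indicator (fun ζ => ‖ζ‖⁻¹) ζ + r⁻¹ := by
    intro ζ
    by_cases hζ : ‖ζ‖ < r
    · have : ζ ∈ ball (0 : ℂ) r := by simpa using hζ
      rw [indicator_of_mem this]
      have := inv_pos.2 hr
      linarith
    · have : ζ ∉ ball (0 : ℂ) r := by simpa using hζ
      rw [indicator_of_notMem this, zero_add]
      push Not at hζ
      exact inv_anti₀ hr hζ
  have hi : Integrable ((ball (0 : ℂ) r).indicator (fun ζ => ‖ζ‖⁻¹)) volume :=
    (integrable_indicator_iff measurableSet_ball).2 (cy_integrableOn_inv 0 r)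
  have hc : IntegrableOn (fun _ : ℂ => r⁻¹) (ball y r) volume :=
    integrableOn_const (by exact measure_ball_lt_top.ne)
  calc ∫ ζ in ball y r, ‖ζ‖⁻¹
      ≤ ∫ ζ in ball y r, ((ball (0 : ℂ) r).indicator (fun ζ => ‖ζ‖⁻¹) ζ + r⁻¹) :=
        integral_mono (cy_integrableOn_inv y r) (hi.integrableOn.add hc) hle
    _ = (∫ ζ in ball y r, (ball (0 : ℂ) r).indicator (fun ζ => ‖ζ‖⁻¹) ζ)
          + ∫ ζ in ball y r, r⁻¹ := integral_add hi.integrableOn hc
    _ ≤ (∫ ζ, (ball (0 : ℂ) r).indicator (fun ζ => ‖ζ‖⁻¹) ζ) + ∫ ζ in ball y r, r⁻¹ := by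
        refine add_le_add (setIntegral_le_integral hi (Eventually.of_forall fun ζ => ?_)) le_rfl
        exact indicator_nonneg (fun _ _ => by positivity) _
    _ = 2 * Real.pi * r + Real.pi * r := by
        rw [integral_indicator measurableSet_ball, cy_integral_inv_zero hr, setIntegral_const,
          measureReal_def, Complex.volume_ball]
        simp only [ENNReal.toReal_mul, ENNReal.toReal_pow, ENNReal.toReal_ofReal hr.le,
          ENNReal.coe_toReal, NNReal.coe_real_pi, smul_eq_mul]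
        field_simp
    _ = 3 * Real.pi * r := by ring

end kernel

section one

variable {E : Type u} [NormedAddCommGroup E] [NormedSpace ℂ E]

/-- convolutions with a locally integrable kernel depend holomorphically on a parameter -/
theorem cy_differentiableAt_param {κ : ℂ → ℂ} (hκ : LocallyIntegrable κ volume)
    {g : ℂ → ℂ → E} {x₀ y : ℂ} {R : ℝ} (hR : 0 < R) {K : Set ℂ} (hK : IsCompact K)
    (hcont : ContinuousOn (Function.uncurry g) (closedBall x₀ (2 * R) ×ˢ univ))
    (hzero : ∀ x ∈ closedBall x₀ (2 * R), ∀ w, w ∉ K → g x w = 0)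
    (hdiff : ∀ w, ∀ x ∈ ball x₀ (2 * R), DifferentiableAt ℂ (fun x => g x w) x) :
    DifferentiableAt ℂ (fun x => ∫ ζ, κ ζ • g x (y - ζ)) x₀ := by
  obtain ⟨M, hM0, hM⟩ : ∃ M : ℝ, 0 ≤ M ∧ ∀ x ∈ closedBall x₀ (2 * R), ∀ w, ‖g x w‖ ≤ M := by
    obtain ⟨M, hM⟩ := ((isCompact_closedBall x₀ (2 * R)).prod hK).exists_bound_of_continuousOn
      (hcont.mono (prod_mono_right (subset_univ K)))
    refine ⟨max M 0, le_max_right _ _, fun x hx w => ?_⟩
    by_cases hw : w ∈ K
    · exact (hM (x, w) ⟨hx, hw⟩).trans (le_max_left _ _)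
    · rw [hzero x hx w hw, norm_zero]; exact le_max_right _ _
  have hsub : ∀ x ∈ ball x₀ R, closedBall x R ⊆ closedBall x₀ (2 * R) := by
    intro x hx
    refine closedBall_subset_closedBall' ?_
    have := mem_ball.1 hx
    linarith
  have hsub' : ∀ x ∈ ball x₀ R, ball x R ⊆ ball x₀ (2 * R) := by
    intro x hx
    refine ball_subset_ball' ?_
    have := mem_ball.1 hx
    linarith
  have hbb : ball x₀ R ⊆ ball x₀ (2 * R) := ball_subset_ball (by linarith)
  have hbc : ball x₀ R ⊆ closedBall x₀ (2 * R) := hbb.trans ball_subset_closedBall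
  have hgc : ∀ x ∈ closedBall x₀ (2 * R), Continuous (g x) := by
    intro x hx
    have : Continuous fun w => Function.uncurry g (x, w) :=
      hcont.comp_continuous (by fun_prop) fun w => ⟨hx, mem_univ _⟩
    exact this
  have hderiv : ∀ x ∈ ball x₀ R, ∀ w, ‖deriv (fun x => g x w) x‖ ≤ M / R := by
    intro x hx w
    refine Complex.norm_deriv_le_of_forall_mem_sphere_norm_le hR ?_ fun z hz => ?_
    · refine ⟨fun z hz => (hdiff w z (hsub' x hx hz)).differentiableWithinAt, ?_⟩
      rw [closure_ball x hR.ne']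
      have : ContinuousOn (fun z => Function.uncurry g (z, w)) (closedBall x R) :=
        hcont.comp (by fun_prop) fun z hz => ⟨hsub x hx hz, mem_univ _⟩
      exact this
    · exact hM z (hsub x hx (sphere_subset_closedBall hz)) w
  have hderiv0 : ∀ x ∈ ball x₀ R, ∀ w, w ∉ K → deriv (fun x => g x w) x = 0 := by
    intro x hx w hw
    have : (fun x => g x w) =ᶠ[𝓝 x] fun _ => 0 := by
      filter_upwards [isOpen_ball.mem_nhds hx] with z hz
      exact hzero z (hbc hz) w hw
    rw [this.deriv_eq, deriv_const]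
  -- the domination
  set K' : Set ℂ := (fun w => y - w) '' K with hK'def
  have hK' : IsCompact K' := hK.image (by fun_prop)
  have hmem : ∀ ζ, ζ ∉ K' → y - ζ ∉ K := by
    intro ζ hζ h
    exact hζ ⟨y - ζ, h, by simp⟩
  have hκK : IntegrableOn κ K' volume := hκ.integrableOn_isCompact hK'
  have hbi : ∀ c : ℝ, Integrable (K'.indicator fun ζ => ‖κ ζ‖ * c) volume := by
    intro c
    exact (integrable_indicator_iff hK'.measurableSet).2 (hκK.norm.mul_const c)
  have hκm : AEStronglyMeasurable κ volume := hκ.aestronglyMeasurable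
  have hFm : ∀ x ∈ closedBall x₀ (2 * R),
      AEStronglyMeasurable (fun ζ => κ ζ • g x (y - ζ)) volume := by
    intro x hx
    have h1 : Continuous fun ζ => g x (y - ζ) := (hgc x hx).comp (by fun_prop)
    exact hκm.smul h1.aestronglyMeasurable
  have hx₀ : x₀ ∈ ball x₀ R := mem_ball_self hR
  have hFi : Integrable (fun ζ => κ ζ • g x₀ (y - ζ)) volume := by
    refine (hbi M).mono' (hFm x₀ (hbc hx₀)) (Eventually.of_forall fun ζ => ?_)
    by_cases hζ : ζ ∈ K'
    · rw [indicator_of_mem hζ, norm_smul]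
      exact mul_le_mul_of_nonneg_left (hM x₀ (hbc hx₀) _) (norm_nonneg _)
    · rw [indicator_of_notMem hζ, hzero x₀ (hbc hx₀) _ (hmem ζ hζ), smul_zero, norm_zero]
  have hF'm : AEStronglyMeasurable (fun ζ => κ ζ • deriv (fun x => g x (y - ζ)) x₀) volume := by
    have hd : ∀ w, HasDerivAt (fun x => g x w) (deriv (fun x => g x w) x₀) x₀ := fun w =>
      (hdiff w x₀ (hbb hx₀)).hasDerivAt
    -- difference quotients
    have hcd : AEStronglyMeasurable (fun ζ => deriv (fun x => g x (y - ζ)) x₀) volume := by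
      have hseq : Tendsto (fun n : ℕ => (R : ℂ) / ((n : ℂ) + 1 + 1)) atTop (𝓝[≠] 0) := by
        refine tendsto_nhdsWithin_iff.2 ⟨?_, Eventually.of_forall fun n => ?_⟩
        · have h1 : Tendsto (fun n : ℕ => (R : ℂ) * (((n : ℂ) + 1)⁻¹)) atTop (𝓝 (R * 0)) :=
            (tendsto_const_nhds).mul (by
              have := tendsto_one_div_add_atTop_nhds_zero_nat (𝕜 := ℂ)
              simpa using this)
          rw [mul_zero] at h1
          have h2 := h1.comp (tendsto_add_atTop_nat 1)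
          refine h2.congr fun n => ?_
          simp only [Function.comp_apply]
          push_cast
          rw [div_eq_mul_inv]
        · have h1 : ((n : ℂ) + 1 + 1) ≠ 0 := by exact_mod_cast (by omega : n + 1 + 1 ≠ 0)
          exact div_ne_zero (by exact_mod_cast hR.ne') h1
      have hin : ∀ n : ℕ, x₀ + (R : ℂ) / ((n : ℂ) + 1 + 1) ∈ closedBall x₀ (2 * R) := by
        intro n
        rw [mem_closedBall, dist_eq_norm, add_sub_cancel_left, norm_div]
        have h1 : ‖((n : ℂ) + 1 + 1)‖ = (n : ℝ) + 1 + 1 := by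
          have : ((n : ℂ) + 1 + 1) = ((n + 1 + 1 : ℕ) : ℂ) := by push_cast; ring
          rw [this, Complex.norm_natCast]; push_cast; ring
        rw [h1, Complex.norm_real, Real.norm_eq_abs, abs_of_pos hR]
        have h2 : (1 : ℝ) ≤ (n : ℝ) + 1 + 1 := by have : (0:ℝ) ≤ n := Nat.cast_nonneg n; linarith
        calc R / ((n : ℝ) + 1 + 1) ≤ R := div_le_self hR.le h2
          _ ≤ 2 * R := by linarith
      refine aestronglyMeasurable_of_tendsto_ae atTop
        (f := fun (n : ℕ) ζ => ((R : ℂ) / ((n : ℂ) + 1 + 1))⁻¹ •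
          (g (x₀ + (R : ℂ) / ((n : ℂ) + 1 + 1)) (y - ζ) - g x₀ (y - ζ))) (fun n => ?_)
        (Eventually.of_forall fun ζ => ?_)
      · have h1 : Continuous fun ζ => ((R : ℂ) / ((n : ℂ) + 1 + 1))⁻¹ •
            (g (x₀ + (R : ℂ) / ((n : ℂ) + 1 + 1)) (y - ζ) - g x₀ (y - ζ)) := by
          have a1 : Continuous fun ζ => g (x₀ + (R : ℂ) / ((n : ℂ) + 1 + 1)) (y - ζ) :=
            (hgc _ (hin n)).comp (by fun_prop)
          have a2 : Continuous fun ζ => g x₀ (y - ζ) := (hgc _ (hbc hx₀)).comp (by fun_prop)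
          exact (a1.sub a2).const_smul _
        exact h1.aestronglyMeasurable
      · exact (hd (y - ζ)).tendsto_slope_zero.comp hseq
    exact hκm.smul hcd
  refine (hasDerivAt_integral_of_dominated_loc_of_deriv_le (μ := volume)
    (F := fun x ζ => κ ζ • g x (y - ζ))
    (F' := fun x ζ => κ ζ • deriv (fun x => g x (y - ζ)) x)
    (bound := K'.indicator fun ζ => ‖κ ζ‖ * (M / R)) (isOpen_ball.mem_nhds hx₀)
    ?_ hFi hF'm ?_ (hbi _) ?_).2.differentiableAt
  · filter_upwards [isOpen_ball.mem_nhds hx₀] with x hx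
    exact hFm x (hbc hx)
  · refine Eventually.of_forall fun ζ x hx => ?_
    by_cases hζ : ζ ∈ K'
    · rw [indicator_of_mem hζ, norm_smul]
      exact mul_le_mul_of_nonneg_left (hderiv x hx _) (norm_nonneg _)
    · rw [indicator_of_notMem hζ, hderiv0 x hx _ (hmem ζ hζ), smul_zero, norm_zero]
  · refine Eventually.of_forall fun ζ x hx => ?_
    exact ((hdiff (y - ζ) x (hbb hx)).hasDerivAt).const_smul (κ ζ)

/-- the point `e^{iθ}` -/
noncomputable def cyu (θ : ℝ) : ℂ := (Real.cos θ : ℂ) + (Real.sin θ : ℂ) * Complex.I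

theorem cyu_continuous : Continuous cyu := by
  unfold cyu; fun_prop

theorem cyu_hasDerivAt (θ : ℝ) : HasDerivAt cyu (Complex.I * cyu θ) θ := by
  have h1 : HasDerivAt (fun θ : ℝ => (Real.cos θ : ℂ)) ((-Real.sin θ : ℝ) : ℂ) θ :=
    (Real.hasDerivAt_cos θ).ofReal_comp
  have h2 : HasDerivAt (fun θ : ℝ => (Real.sin θ : ℂ)) ((Real.cos θ : ℝ) : ℂ) θ :=
    (Real.hasDerivAt_sin θ).ofReal_comp
  have h3 := h1.add (h2.mul_const Complex.I)
  have h4 : Complex.I * cyu θ = ((-Real.sin θ : ℝ) : ℂ) + ((Real.cos θ : ℝ) : ℂ) * Complex.I := by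
    unfold cyu
    rw [mul_add, mul_comm Complex.I ((Real.sin θ : ℂ) * Complex.I), mul_assoc, Complex.I_mul_I]
    push_cast; ring
  rw [h4]
  exact h3

/-- the Cauchy–Pompeiu formula at the origin -/
theorem cy_pompeiu [CompleteSpace E] {H : ℂ → E} (hH : ContDiff ℝ 1 H) (hs : HasCompactSupport H) :
    ∫ ζ : ℂ, ((Real.pi : ℂ) * ζ)⁻¹ • (fderiv ℝ H ζ 1 + Complex.I • fderiv ℝ H ζ Complex.I)
      = (-2 : ℂ) • H 0 := by
  obtain ⟨R₀, hR₀pos, hR₀⟩ : ∃ R₀ : ℝ, 0 < R₀ ∧ ∀ x : ℂ, R₀ < ‖x‖ → H x = 0 := by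
    obtain ⟨R₀, hR₀, h⟩ := hs.isCompact.isBounded.exists_pos_norm_le
    refine ⟨R₀, hR₀, fun x hx => ?_⟩
    by_contra hne
    exact absurd (h x (subset_tsupport _ hne)) (not_le.2 hx)
  have hdiff : Differentiable ℝ H := hH.differentiable one_ne_zero
  have hfc : Continuous (fderiv ℝ H) := hH.continuous_fderiv one_ne_zero
  have hf0 : ∀ x : ℂ, R₀ < ‖x‖ → fderiv ℝ H x = 0 := by
    intro x hx
    have : H =ᶠ[𝓝 x] fun _ => 0 := by
      filter_upwards [(isOpen_lt continuous_const continuous_norm).mem_nhds hx] with y hy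
      exact hR₀ y hy
    rw [this.fderiv_eq]
    exact fderiv_const_apply _
  have hun : ∀ θ, ‖cyu θ‖ = 1 := by
    intro θ
    have : cyu θ = Complex.exp (θ * Complex.I) := by
      rw [Complex.exp_mul_I, cyu]; push_cast; ring
    rw [this, Complex.norm_exp_ofReal_mul_I]
  set e : ℝ × ℝ → ℂ := fun p => (p.1 : ℂ) * cyu p.2 with he
  have hec : Continuous e := by
    have := cyu_continuous
    fun_prop
  have hen : ∀ p : ℝ × ℝ, ‖e p‖ = |p.1| := by
    intro p; rw [he]; simp only [norm_mul, hun, mul_one, Complex.norm_real, Real.norm_eq_abs]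
  set A : ℝ × ℝ → E := fun p => fderiv ℝ H (e p) (cyu p.2) with hA
  set B : ℝ × ℝ → E := fun p => fderiv ℝ H (e p) (Complex.I * cyu p.2) with hB
  have hAc : Continuous A := by
    have h1 := cyu_continuous
    exact (hfc.comp hec).clm_apply (h1.comp continuous_snd)
  have hBc : Continuous B := by
    have h1 := cyu_continuous
    exact (hfc.comp hec).clm_apply (continuous_const.mul (h1.comp continuous_snd))
  set T : Set (ℝ × ℝ) := Ioi (0 : ℝ) ×ˢ Ioo (-Real.pi) Real.pi with hT
  have hTm : MeasurableSet T := measurableSet_Ioi.prod measurableSet_Ioo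
  have hint : ∀ f : ℝ × ℝ → E, Continuous f → (∀ p : ℝ × ℝ, R₀ < p.1 → f p = 0) →
      IntegrableOn f T volume := by
    intro f hf h0
    have h1 : IntegrableOn f (Icc (0 : ℝ) R₀ ×ˢ Icc (-Real.pi) Real.pi) volume :=
      hf.continuousOn.integrableOn_compact (isCompact_Icc.prod isCompact_Icc)
    refine h1.of_forall_sdiff_eq_zero hTm fun p hp => ?_
    obtain ⟨⟨hp1, hp2⟩, hp3⟩ := hp
    refine h0 p ?_
    by_contra hle
    push Not at hle
    exact hp3 ⟨⟨le_of_lt hp1, hle⟩, ⟨hp2.1.le, hp2.2.le⟩⟩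
  have hA0 : ∀ p : ℝ × ℝ, R₀ < p.1 → A p = 0 := by
    intro p hp
    rw [hA]
    simp only
    rw [hf0 (e p) (by rw [hen]; exact hp.trans_le (le_abs_self _))]
    rfl
  have hB0 : ∀ p : ℝ × ℝ, R₀ < p.1 → B p = 0 := by
    intro p hp
    rw [hB]
    simp only
    rw [hf0 (e p) (by rw [hen]; exact hp.trans_le (le_abs_self _))]
    rfl
  have hAi := hint A hAc hA0
  have hBi := hint B hBc hB0
  -- the two integrals
  have hIA : ∫ p in T, A p = (2 * Real.pi) • (-H 0) := by
    rw [hT, Measure.volume_eq_prod]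
    rw [hT, Measure.volume_eq_prod] at hAi
    rw [setIntegral_prod _ hAi, integral_integral_swap (f := fun r θ => A (r, θ))]
    · have hin : ∀ θ : ℝ, ∫ r in Ioi (0 : ℝ), A (r, θ) = -H 0 := by
        intro θ
        have hd : ∀ r : ℝ, HasDerivAt (fun r : ℝ => H (e (r, θ))) (A (r, θ)) r := by
          intro r
          have h1 : HasDerivAt (fun r : ℝ => e (r, θ)) (cyu θ) r := by
            have := (hasDerivAt_id r).ofReal_comp.mul_const (cyu θ)
            simpa using this
          exact (hdiff (e (r, θ))).hasFDerivAt.comp_hasDerivAt r h1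
        have hi : IntegrableOn (fun r => A (r, θ)) (Ioi (0 : ℝ)) volume := by
          have h1 : IntegrableOn (fun r => A (r, θ)) (Icc (0 : ℝ) R₀) volume :=
            (hAc.comp (by fun_prop : Continuous fun r : ℝ => (r, θ))).continuousOn.integrableOn_compact
              isCompact_Icc
          refine h1.of_forall_sdiff_eq_zero measurableSet_Ioi fun r hr => ?_
          refine hA0 (r, θ) ?_
          by_contra hle
          push Not at hle
          exact hr.2 ⟨le_of_lt hr.1, hle⟩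
        have ht : Tendsto (fun r : ℝ => H (e (r, θ))) atTop (𝓝 0) := by
          refine tendsto_const_nhds.congr' ?_
          filter_upwards [Ioi_mem_atTop R₀] with r hr
          exact (hR₀ _ (by rw [hen]; exact (mem_Ioi.1 hr).trans_le (le_abs_self _))).symm
        have := integral_Ioi_of_hasDerivAt_of_tendsto' (fun r _ => hd r) hi ht
        rw [this, zero_sub]
        simp [he]
      simp only [hin]
      rw [setIntegral_const, measureReal_def, Real.volume_Ioo]
      rw [ENNReal.toReal_ofReal (by have := Real.pi_pos; linarith)]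
      congr 1
      ring
    · rw [Measure.prod_restrict]
      exact hAi
  have hIB : ∫ p in T, B p = 0 := by
    rw [hT, Measure.volume_eq_prod]
    rw [hT, Measure.volume_eq_prod] at hBi
    rw [setIntegral_prod _ hBi]
    have hin : ∀ r ∈ Ioi (0 : ℝ), ∫ θ in Ioo (-Real.pi) Real.pi, B (r, θ) = 0 := by
      intro r hr
      have hr' : (r : ℝ) ≠ 0 := ne_of_gt hr
      have hd : ∀ θ : ℝ, HasDerivAt (fun θ : ℝ => H (e (r, θ))) (r • B (r, θ)) θ := by
        intro θ
        have h1 : HasDerivAt (fun θ : ℝ => e (r, θ)) ((r : ℂ) * (Complex.I * cyu θ)) θ :=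
          (cyu_hasDerivAt θ).const_mul (r : ℂ)
        have h2 := (hdiff (e (r, θ))).hasFDerivAt.comp_hasDerivAt θ h1
        have h3 : r • B (r, θ) = fderiv ℝ H (e (r, θ)) ((r : ℂ) * (Complex.I * cyu θ)) := by
          rw [hB]
          simp only
          rw [← map_smul]
          congr 1
        rw [h3]
        exact h2
      have hc : Continuous fun θ : ℝ => r • B (r, θ) :=
        (hBc.comp (by fun_prop : Continuous fun θ : ℝ => (r, θ))).const_smul r
      have h1 : ∫ θ in (-Real.pi)..Real.pi, r • B (r, θ) = 0 := by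
        rw [intervalIntegral.integral_eq_sub_of_hasDerivAt (fun θ _ => hd θ)
          (hc.intervalIntegrable _ _)]
        rw [sub_eq_zero]
        congr 1
        simp [he, cyu]
      rw [intervalIntegral.integral_smul] at h1
      have h2 := (smul_eq_zero.1 h1).resolve_left hr'
      rw [intervalIntegral.integral_of_le (by have := Real.pi_pos; linarith),
        integral_Ioc_eq_integral_Ioo] at h2
      exact h2
    rw [setIntegral_congr_fun measurableSet_Ioi hin]
    simp
  rw [← Complex.integral_comp_polarCoord_symm]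
  have hcongr : ∀ p ∈ T, p.1 • ((fun ζ : ℂ => ((Real.pi : ℂ) * ζ)⁻¹ •
      (fderiv ℝ H ζ 1 + Complex.I • fderiv ℝ H ζ Complex.I)) (Complex.polarCoord.symm p))
      = ((Real.pi : ℂ)⁻¹) • (A p + Complex.I • B p) := by
    intro p hp
    have hp0 : (p.1 : ℂ) ≠ 0 := by
      have : (0 : ℝ) < p.1 := hp.1
      exact_mod_cast this.ne'
    have hsym : Complex.polarCoord.symm p = e p := by
      rw [Complex.polarCoord_symm_apply, he]
      rfl
    have hu1 : cyu p.2 = (Real.cos p.2) • (1 : ℂ) + (Real.sin p.2) • Complex.I := by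
      unfold cyu; simp
    have hu2 : Complex.I * cyu p.2 = (-Real.sin p.2) • (1 : ℂ) + (Real.cos p.2) • Complex.I := by
      unfold cyu
      simp only [Complex.real_smul]
      rw [mul_add, mul_comm Complex.I ((Real.sin p.2 : ℂ) * Complex.I), mul_assoc, Complex.I_mul_I]
      push_cast; ring
    have hinv : (cyu p.2)⁻¹ = (Real.cos p.2 : ℂ) - (Real.sin p.2 : ℂ) * Complex.I := by
      have hne : cyu p.2 ≠ 0 := by
        intro h; have := hun p.2; rw [h, norm_zero] at this; exact zero_ne_one this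
      refine inv_eq_of_mul_eq_one_right ?_
      have h2 : (Real.cos p.2 : ℂ) ^ 2 + (Real.sin p.2 : ℂ) ^ 2 = 1 := by
        exact_mod_cast Real.cos_sq_add_sin_sq p.2
      unfold cyu
      linear_combination h2 - (Real.sin p.2 : ℂ) ^ 2 * Complex.I_mul_I
    simp only
    rw [hsym]
    set D := fderiv ℝ H (e p) with hD
    have hA' : A p = (Real.cos p.2) • D 1 + (Real.sin p.2) • D Complex.I := by
      rw [hA]
      simp only
      rw [hu1, map_add, map_smul, map_smul]
    have hB' : B p = (-Real.sin p.2) • D 1 + (Real.cos p.2) • D Complex.I := by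
      rw [hB]
      simp only
      rw [hu2, map_add, map_smul, map_smul]
    rw [hA', hB']
    have hpi : (Real.pi : ℂ) ≠ 0 := by exact_mod_cast Real.pi_pos.ne'
    have hne : cyu p.2 ≠ 0 := by
      intro h; have := hun p.2; rw [h, norm_zero] at this; exact zero_ne_one this
    have hsc : (p.1 : ℂ) * ((Real.pi : ℂ) * e p)⁻¹
        = (Real.pi : ℂ)⁻¹ * ((Real.cos p.2 : ℂ) - (Real.sin p.2 : ℂ) * Complex.I) := by
      rw [← hinv, he]
      field_simp
    rw [← Complex.coe_smul p.1, smul_smul, hsc]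
    simp only [← Complex.coe_smul]
    push_cast
    match_scalars
    · ring
    · linear_combination (-(Real.pi : ℂ)⁻¹ * Complex.sin p.2) * Complex.I_mul_I
  have hT' : polarCoord.target = T := rfl
  rw [hT', setIntegral_congr_fun hTm hcongr, integral_smul, integral_add hAi, hIA]
  · rw [integral_smul, hIB, smul_zero, add_zero, ← Complex.coe_smul, smul_smul, smul_neg,
      ← neg_smul]
    have hpi : (Real.pi : ℂ) ≠ 0 := by exact_mod_cast Real.pi_pos.ne'
    congr 1
    push_cast
    field_simp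
  · exact hBi.smul Complex.I

/-- the Cauchy transform solves the dbar equation -/
theorem cy_dbar_conv [CompleteSpace E] {h : ℂ → E} (hh : ContDiff ℝ 1 h) (hs : HasCompactSupport h)
    (x : ℂ) : ∃ L : ℂ →L[ℝ] E,
      HasFDerivAt (fun x => ∫ ζ : ℂ, ((Real.pi : ℂ) * ζ)⁻¹ • h (x - ζ)) L x ∧
        L 1 + Complex.I • L Complex.I = (2 : ℂ) • h x := by
  set κ : ℂ → ℂ := fun ζ => ((Real.pi : ℂ) * ζ)⁻¹ with hκ
  have hκi : LocallyIntegrable κ volume := cy_locallyIntegrable_inv
  set M : ℂ →L[ℝ] E →L[ℝ] E := ContinuousLinearMap.lsmul ℝ ℂ with hM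
  have hM' : ∀ (c : ℂ) (v : E), M c v = c • v := fun c v => rfl
  have hder := hs.hasFDerivAt_convolution_right M hκi hh x
  refine ⟨_, hder, ?_⟩
  have hfc : Continuous (fderiv ℝ h) := hh.continuous_fderiv one_ne_zero
  have hfs : HasCompactSupport (fderiv ℝ h) := hs.fderiv ℝ
  have hap : ∀ v : ℂ, (κ ⋆[M.precompR ℂ, volume] fderiv ℝ h) x v
      = ∫ ζ : ℂ, κ ζ • fderiv ℝ h (x - ζ) v := by
    intro v
    rw [convolution_precompR_apply M hκi hfs hfc x v]
    rfl
  have hint : ∀ v : ℂ, Integrable (fun ζ : ℂ => κ ζ • fderiv ℝ h (x - ζ) v) volume := by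
    intro v
    have hcs : HasCompactSupport (fun a => fderiv ℝ h a v) := hs.fderiv_apply ℝ v
    have hcc : Continuous (fun a => fderiv ℝ h a v) := hfc.clm_apply continuous_const
    exact hcs.convolutionExists_right M hκi hcc x
  have hi2 : Integrable (fun ζ : ℂ => Complex.I • (κ ζ • fderiv ℝ h (x - ζ) Complex.I)) volume :=
    (hint Complex.I).smul Complex.I
  rw [hap, hap, ← integral_smul, ← integral_add (hint 1) hi2]
  have hH : ContDiff ℝ 1 (fun ζ : ℂ => h (x - ζ)) := hh.comp (by fun_prop)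
  have hHs : HasCompactSupport (fun ζ : ℂ => h (x - ζ)) :=
    hs.comp_homeomorph (Homeomorph.subLeft x)
  have hpom := cy_pompeiu hH hHs
  have hfd : ∀ ζ v : ℂ, fderiv ℝ (fun ζ : ℂ => h (x - ζ)) ζ v = -(fderiv ℝ h (x - ζ) v) := by
    intro ζ v
    have h1 : HasFDerivAt (fun ζ : ℂ => x - ζ) (-(ContinuousLinearMap.id ℝ ℂ)) ζ :=
      (hasFDerivAt_id ζ).const_sub x
    have h2 := ((hh.differentiable one_ne_zero) (x - ζ)).hasFDerivAt.comp ζ h1
    have h3 : fderiv ℝ (fun ζ : ℂ => h (x - ζ)) ζ = _ := h2.fderiv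
    rw [h3]
    simp
  simp only [hfd, sub_zero] at hpom
  have hneg : (fun ζ : ℂ => κ ζ • fderiv ℝ h (x - ζ) 1 +
      Complex.I • (κ ζ • fderiv ℝ h (x - ζ) Complex.I))
      = fun ζ => -(κ ζ • (-(fderiv ℝ h (x - ζ) 1) + Complex.I • -(fderiv ℝ h (x - ζ) Complex.I))) := by
    ext ζ
    module
  have h4 : ∫ ζ : ℂ, (κ ζ • fderiv ℝ h (x - ζ) 1 +
      Complex.I • (κ ζ • fderiv ℝ h (x - ζ) Complex.I)) = (2 : ℂ) • h x := by
    rw [hneg, integral_neg, hpom]
    module
  exact h4

end one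

variable {E : Type u} [NormedAddCommGroup E] [NormedSpace ℂ E]

/-! ### the transform `CT` -/

section CT

/-- the kernel -/
noncomputable def cyker (q ζ : ℂ) : ℂ :=
  ((Real.pi : ℂ) * ζ)⁻¹ * Complex.exp (ζ * (starRingEnd ℂ) q)

/-- the function `ψ f`, as a function of the point and of the value of `z_i` -/
noncomputable def cyG (i : Fin d) (ψ : ℂ → ℂ) (f : (Fin d → ℂ) → E) (z : Fin d → ℂ) (w : ℂ) : E :=
  ψ w • f (Function.update z i w)

variable {i : Fin d} {q : ℂ} {ρ' ρ : ℝ} {ψ : ℂ → ℂ} {U : Set (Fin d → ℂ)} {f : (Fin d → ℂ) → E}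

theorem cy_CT_eq (i : Fin d) (q : ℂ) (ψ : ℂ → ℂ) (f : (Fin d → ℂ) → E) (z : Fin d → ℂ) :
    CT i q ψ f z = ∫ ζ : ℂ, cyker q ζ • cyG i ψ f z (z i - ζ) := by
  unfold CT cyker cyG
  simp only [mul_smul]

theorem CTData.isOpen' (h : CTData i q ρ' ρ ψ U f) : IsOpen (U ∩ {z | ‖z i - q‖ < ρ}) :=
  h.isOpen.inter (isOpen_lt (by fun_prop) continuous_const)

theorem CTData.continuousOn_G (h : CTData i q ρ' ρ ψ U f) :
    ContinuousOn (Function.uncurry (cyG i ψ f)) (U ×ˢ univ) := by
  rintro ⟨p, w⟩ ⟨hp, -⟩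
  have hup : Continuous fun pw : (Fin d → ℂ) × ℂ => Function.update pw.1 i pw.2 :=
    continuous_fst.update i continuous_snd
  apply ContinuousAt.continuousWithinAt
  rcases lt_or_ge ‖w - q‖ ρ with hw | hw
  · have hmem : Function.update p i w ∈ U ∩ {z | ‖z i - q‖ < ρ} :=
      ⟨h.cyl p hp w, by simpa using hw⟩
    have h1 : ContinuousAt f (Function.update p i w) :=
      h.hol.1.continuousAt (h.isOpen'.mem_nhds hmem)
    have h2 : ContinuousAt (fun pw : (Fin d → ℂ) × ℂ => f (Function.update pw.1 i pw.2)) (p, w) :=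
      ContinuousAt.comp (f := fun pw : (Fin d → ℂ) × ℂ => Function.update pw.1 i pw.2)
        (g := f) h1 hup.continuousAt
    exact (h.smooth.continuous.comp continuous_snd).continuousAt.smul h2
  · have h0 : Function.uncurry (cyG i ψ f) =ᶠ[𝓝 (p, w)] fun _ => 0 := by
      have hO : IsOpen {pw : (Fin d → ℂ) × ℂ | ρ' < ‖pw.2 - q‖} :=
        isOpen_lt continuous_const (by fun_prop)
      filter_upwards [hO.mem_nhds (show ρ' < ‖w - q‖ from h.lt.trans_le hw)] with pw hpw
      have hpw' : ρ' ≤ ‖pw.2 - q‖ := le_of_lt hpw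
      simp only [Function.uncurry, cyG, h.zero pw.2 hpw', zero_smul]
    exact continuousAt_const.congr h0.symm

theorem CTData.G_zero (h : CTData i q ρ' ρ ψ U f) (z : Fin d → ℂ) {w : ℂ}
    (hw : w ∉ closedBall q ρ') : cyG i ψ f z w = 0 := by
  have h1 : ρ' ≤ ‖w - q‖ := by
    rw [mem_closedBall, dist_eq_norm] at hw
    exact (not_le.1 hw).le
  rw [cyG, h.zero w h1, zero_smul]

theorem CTData.continuousOn (h : CTData i q ρ' ρ ψ U f) : ContinuousOn (CT i q ψ f) U := by
  have h1 := continuousOn_convolution_right_with_param_comp (μ := (volume : Measure ℂ))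
    (ContinuousLinearMap.lsmul ℂ ℂ : ℂ →L[ℂ] E →L[ℂ] E) (s := U) (v := fun z : Fin d → ℂ => z i)
    (by fun_prop) (g := cyG i ψ f) (isCompact_closedBall q ρ')
    (fun p x _ hx => h.G_zero p hx) (cy_locallyIntegrable_ker q) h.continuousOn_G
  refine h1.congr fun z _ => ?_
  rw [cy_CT_eq]
  rfl

theorem CTData.differentiableAt (h : CTData i q ρ' ρ ψ U f) {z : Fin d → ℂ} (hz : z ∈ U)
    {k : Fin d} (hk : k ≠ i) :
    DifferentiableAt ℂ (fun x => CT i q ψ f (Function.update z k x)) (z k) := by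
  have hopen : IsOpen {x : ℂ | Function.update z k x ∈ U} :=
    h.isOpen.preimage (continuous_const.update k continuous_id)
  have hzk : z k ∈ {x : ℂ | Function.update z k x ∈ U} := by
    simpa using hz
  obtain ⟨ε, hε, hball⟩ := Metric.isOpen_iff.1 hopen (z k) hzk
  have hR : 0 < ε / 3 := by positivity
  have hsub : ∀ x ∈ closedBall (z k) (2 * (ε / 3)), Function.update z k x ∈ U := by
    intro x hx
    refine hball (mem_ball.2 (lt_of_le_of_lt (mem_closedBall.1 hx) (by linarith)))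
  have hcongr : (fun x => CT i q ψ f (Function.update z k x))
      = fun x => ∫ ζ : ℂ, cyker q ζ • cyG i ψ f (Function.update z k x) (z i - ζ) := by
    ext x
    rw [cy_CT_eq, Function.update_of_ne hk.symm]
  rw [hcongr]
  refine cy_differentiableAt_param (κ := cyker q)
    (g := fun x w => cyG i ψ f (Function.update z k x) w) (cy_locallyIntegrable_ker q) hR
    (isCompact_closedBall q ρ') ?_ (fun x _ w hw => h.G_zero _ hw) ?_
  · have hmap1 : Continuous fun xw : ℂ × ℂ => Function.update z k xw.1 :=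
      continuous_const.update k continuous_fst
    have hmap : Continuous fun xw : ℂ × ℂ => (Function.update z k xw.1, xw.2) :=
      hmap1.prodMk continuous_snd
    have := h.continuousOn_G.comp (t := U ×ˢ univ) (s := closedBall (z k) (2 * (ε / 3)) ×ˢ univ)
      hmap.continuousOn (fun xw hxw => ⟨hsub _ hxw.1, mem_univ _⟩)
    exact this
  · intro w x hx
    have hx' := hsub x (ball_subset_closedBall hx)
    rcases lt_or_ge ‖w - q‖ ρ with hw | hw
    · have hmem : Function.update (Function.update z k x) i w ∈ U ∩ {z | ‖z i - q‖ < ρ} :=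
        ⟨h.cyl _ hx' w, by simpa using hw⟩
      have h1 := h.hol.2 _ hmem k
      have h2 : Function.update (Function.update z k x) i w k = x := by
        rw [Function.update_of_ne hk, Function.update_self]
      rw [h2] at h1
      have h3 : (fun x' => f (Function.update (Function.update (Function.update z k x) i w) k x'))
          = fun x' => f (Function.update (Function.update z k x') i w) := by
        ext x'
        rw [Function.update_comm hk.symm, Function.update_idem]
      rw [h3] at h1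
      exact h1.const_smul (ψ w)
    · have h0 : ψ w = 0 := h.zero w (h.lt.le.trans hw)
      simp only [cyG, h0, zero_smul]
      exact differentiableAt_const _

/-- the function of one variable of which we take the Cauchy transform -/
noncomputable def cyh (i : Fin d) (q : ℂ) (ψ : ℂ → ℂ) (f : (Fin d → ℂ) → E) (z : Fin d → ℂ)
    (w : ℂ) : E :=
  (Complex.exp (-(w * (starRingEnd ℂ) q)) * ψ w) • f (Function.update z i w)

theorem CTData.contDiff_h [CompleteSpace E] (h : CTData i q ρ' ρ ψ U f) {z : Fin d → ℂ} (hz : z ∈ U) :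
    ContDiff ℝ 1 (cyh i q ψ f z) := by
  rw [contDiff_iff_contDiffAt]
  intro w
  rcases lt_or_ge ‖w - q‖ ρ with hw | hw
  · have hd : DifferentiableOn ℂ (fun x => f (Function.update z i x)) (ball q ρ) := by
      intro x hx
      have hmem : Function.update z i x ∈ U ∩ {z | ‖z i - q‖ < ρ} := by
        refine ⟨h.cyl z hz x, ?_⟩
        have : ‖x - q‖ < ρ := by rw [← dist_eq_norm]; exact mem_ball.1 hx
        simpa using this
      have h1 := h.hol.2 _ hmem i
      rw [Function.update_self] at h1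
      have h3 : (fun x' => f (Function.update (Function.update z i x) i x'))
          = fun x' => f (Function.update z i x') := by
        ext x'
        rw [Function.update_idem]
      rw [h3] at h1
      exact h1.differentiableWithinAt
    have hw' : w ∈ ball q ρ := by rw [mem_ball, dist_eq_norm]; exact hw
    have h1 : ContDiffAt ℂ 1 (fun x => f (Function.update z i x)) w :=
      (hd.contDiffOn isOpen_ball).contDiffAt (isOpen_ball.mem_nhds hw')
    have h2 : ContDiffAt ℝ 1 (fun x => f (Function.update z i x)) w := h1.restrict_scalars ℝ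
    have h3 : ContDiff ℝ 1 (fun w : ℂ => Complex.exp (-(w * (starRingEnd ℂ) q)) * ψ w) := by
      have h4 : ContDiff ℝ 1 (fun w : ℂ => Complex.exp (-(w * (starRingEnd ℂ) q))) := by
        fun_prop
      exact h4.mul h.smooth
    exact h3.contDiffAt.smul h2
  · have h0 : cyh i q ψ f z =ᶠ[𝓝 w] fun _ => 0 := by
      have hO : IsOpen {w : ℂ | ρ' < ‖w - q‖} := isOpen_lt continuous_const (by fun_prop)
      filter_upwards [hO.mem_nhds (show ρ' < ‖w - q‖ from h.lt.trans_le hw)] with x hx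
      have hx' : ρ' ≤ ‖x - q‖ := le_of_lt hx
      simp only [cyh, h.zero x hx', mul_zero, zero_smul]
    exact contDiffAt_const.congr_of_eventuallyEq h0

theorem CTData.hasCompactSupport_h (h : CTData i q ρ' ρ ψ U f) (z : Fin d → ℂ) :
    HasCompactSupport (cyh i q ψ f z) := by
  refine HasCompactSupport.intro (isCompact_closedBall q ρ') fun x hx => ?_
  have h1 : ρ' ≤ ‖x - q‖ := by
    rw [mem_closedBall, dist_eq_norm] at hx
    exact (not_le.1 hx).le
  simp only [cyh, h.zero x h1, mul_zero, zero_smul]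

theorem cy_CT_update (i : Fin d) (q : ℂ) (ψ : ℂ → ℂ) (f : (Fin d → ℂ) → E) (z : Fin d → ℂ)
    (x : ℂ) : CT i q ψ f (Function.update z i x)
      = Complex.exp (x * (starRingEnd ℂ) q) •
          ∫ ζ : ℂ, ((Real.pi : ℂ) * ζ)⁻¹ • cyh i q ψ f z (x - ζ) := by
  rw [← integral_smul]
  unfold CT cyh
  congr 1
  ext ζ
  rw [Function.update_self, Function.update_idem, smul_smul, smul_smul]
  congr 1
  have : Complex.exp (ζ * (starRingEnd ℂ) q) = Complex.exp (x * (starRingEnd ℂ) q) *
      Complex.exp (-((x - ζ) * (starRingEnd ℂ) q)) := by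
    rw [← Complex.exp_add]
    congr 1
    ring
  rw [this]
  ring

theorem CTData.dbar [CompleteSpace E] (h : CTData i q ρ' ρ ψ U f) {z : Fin d → ℂ} (hz : z ∈ U) :
    ∃ L : ℂ →L[ℝ] E, HasFDerivAt (fun x => CT i q ψ f (Function.update z i x)) L (z i) ∧
      L 1 + Complex.I • L Complex.I = (2 : ℂ) • (ψ (z i) • f z) := by
  obtain ⟨L, hL, hL2⟩ := cy_dbar_conv (h.contDiff_h hz) (h.hasCompactSupport_h z) (z i)
  have hcongr : (fun x => CT i q ψ f (Function.update z i x))
      = fun x => Complex.exp (x * (starRingEnd ℂ) q) •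
          ∫ ζ : ℂ, ((Real.pi : ℂ) * ζ)⁻¹ • cyh i q ψ f z (x - ζ) := by
    ext x
    exact cy_CT_update i q ψ f z x
  rw [hcongr]
  have hexp : HasDerivAt (fun x : ℂ => Complex.exp (x * (starRingEnd ℂ) q))
      (Complex.exp (z i * (starRingEnd ℂ) q) * (starRingEnd ℂ) q) (z i) := by
    have h1 : HasDerivAt (fun x : ℂ => x * (starRingEnd ℂ) q) ((starRingEnd ℂ) q) (z i) := by
      simpa using (hasDerivAt_id (z i)).mul_const ((starRingEnd ℂ) q)
    exact h1.cexp
  have hexp' := hexp.hasFDerivAt.restrictScalars ℝ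
  refine ⟨_, hexp'.smul hL, ?_⟩
  set v : E := ∫ ζ : ℂ, ((Real.pi : ℂ) * ζ)⁻¹ • cyh i q ψ f z (z i - ζ) with hv
  simp only [add_apply, smul_apply,
    ContinuousLinearMap.smulRight_apply, ContinuousLinearMap.coe_restrictScalars']
  set c : ℂ := Complex.exp (z i * (starRingEnd ℂ) q) with hc
  have hce : c * Complex.exp (-(z i * (starRingEnd ℂ) q)) = 1 := by
    rw [hc, ← Complex.exp_add, add_neg_cancel, Complex.exp_zero]
  have hh : cyh i q ψ f z (z i) = (Complex.exp (-(z i * (starRingEnd ℂ) q)) * ψ (z i)) • f z := by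
    unfold cyh
    rw [Function.update_eq_self]
  have e1 : c • (L 1 + Complex.I • L Complex.I) = (2 : ℂ) • (ψ (z i) • f z) := by
    rw [hL2, hh, smul_comm c (2 : ℂ), smul_smul c, ← mul_assoc, hce, one_mul]
  rw [← e1]
  simp only [ContinuousLinearMap.toSpanSingleton_apply, smul_eq_mul, one_mul]
  generalize (starRingEnd ℂ) q = p
  match_scalars
  · ring
  · linear_combination (c * p) * Complex.I_mul_I
  · ring

theorem CTData.norm_le [CompleteSpace E] {V : Type v} [NormedAddCommGroup V]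
    [NormedSpace ℂ V] [CompleteSpace V] (h : CTData i q ρ' ρ ψ U f) {z : Fin d → ℂ} (hz : z ∈ U)
    (L₀ : E →L[ℂ] V) {B : ℝ}
    (hB : ∀ w, ‖w - q‖ < ρ' →
      ‖ψ w‖ * ‖L₀ (f (Function.update z i w))‖ * Real.exp (-‖w‖ ^ 2 / 2) ≤ B) :
    ‖L₀ (CT i q ψ f z)‖ * Real.exp (-‖z i‖ ^ 2 / 2) ≤
      4 * ρ' * Real.exp (ρ' ^ 2 / 2) * B * Real.exp (-‖z i - q‖ ^ 2 / 2) := by
  have hρ := h.pos
  have hB0 : 0 ≤ B := by
    refine le_trans ?_ (hB q (by simpa using hρ))
    positivity
  set x : ℂ := z i with hx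
  have hrhs : 0 ≤ 4 * ρ' * Real.exp (ρ' ^ 2 / 2) * B * Real.exp (-‖x - q‖ ^ 2 / 2) := by
    positivity
  set F : ℂ → E := fun ζ => (((Real.pi : ℂ) * ζ)⁻¹ * Complex.exp (ζ * (starRingEnd ℂ) q) *
    ψ (x - ζ)) • f (Function.update z i (x - ζ)) with hF
  have hCT : CT i q ψ f z = ∫ ζ : ℂ, F ζ := rfl
  by_cases hint : Integrable F volume
  swap
  · rw [hCT, integral_undef hint, map_zero, norm_zero, zero_mul]
    exact hrhs
  rw [hCT, ← L₀.integral_comp_comm hint]
  set S : ℂ → ℝ := (ball (x - q) ρ').indicator fun ζ => ‖ζ‖⁻¹ with hS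
  have hSi : Integrable S volume :=
    (integrable_indicator_iff measurableSet_ball).2 (cy_integrableOn_inv _ _)
  set c : ℝ := Real.pi⁻¹ * B * Real.exp (ρ' ^ 2 / 2) * Real.exp (-‖x - q‖ ^ 2 / 2) *
    Real.exp (‖x‖ ^ 2 / 2) with hc
  have hc0 : 0 ≤ c := by have := Real.pi_pos; positivity
  have hbound : ∀ ζ : ℂ, ‖L₀ (F ζ)‖ ≤ S ζ * c := by
    intro ζ
    by_cases hζ : ‖(x - ζ) - q‖ < ρ'
    · have hmem : ζ ∈ ball (x - q) ρ' := by
        have h0 : -(ζ - (x - q)) = x - ζ - q := by ring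
        rw [mem_ball, dist_eq_norm, ← norm_neg, h0]
        exact hζ
      rw [hS, indicator_of_mem hmem, hF]
      simp only
      rw [map_smul, norm_smul, norm_mul, norm_mul, norm_inv, norm_mul, Complex.norm_real,
        Real.norm_eq_abs, abs_of_pos Real.pi_pos, Complex.norm_exp]
      set w : ℂ := x - ζ with hw
      have h1 := hB w hζ
      have h2 : ‖ψ w‖ * ‖L₀ (f (Function.update z i w))‖ ≤ B * Real.exp (‖w‖ ^ 2 / 2) := by
        have h3 : ‖ψ w‖ * ‖L₀ (f (Function.update z i w))‖ =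
            ‖ψ w‖ * ‖L₀ (f (Function.update z i w))‖ * Real.exp (-‖w‖ ^ 2 / 2) *
              Real.exp (‖w‖ ^ 2 / 2) := by
          rw [mul_assoc _ (Real.exp _) (Real.exp _), ← Real.exp_add]
          have : -‖w‖ ^ 2 / 2 + ‖w‖ ^ 2 / 2 = 0 := by ring
          rw [this, Real.exp_zero, mul_one]
        rw [h3]
        exact mul_le_mul_of_nonneg_right h1 (Real.exp_pos _).le
      have h4 : (ζ * (starRingEnd ℂ) q).re + ‖w‖ ^ 2 / 2
          = ‖w - q‖ ^ 2 / 2 + -‖x - q‖ ^ 2 / 2 + ‖x‖ ^ 2 / 2 := by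
        have hζw : ζ = x - w := by rw [hw]; ring
        rw [hζw]
        simp only [← Complex.normSq_eq_norm_sq, Complex.normSq_apply, Complex.mul_re,
          Complex.sub_re, Complex.sub_im, Complex.conj_re, Complex.conj_im]
        ring
      have h5 : Real.exp ((ζ * (starRingEnd ℂ) q).re) * Real.exp (‖w‖ ^ 2 / 2)
          ≤ Real.exp (ρ' ^ 2 / 2) * Real.exp (-‖x - q‖ ^ 2 / 2) * Real.exp (‖x‖ ^ 2 / 2) := by
        rw [← Real.exp_add, ← Real.exp_add, ← Real.exp_add, h4]
        refine Real.exp_le_exp.2 ?_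
        have : ‖w - q‖ ^ 2 ≤ ρ' ^ 2 := by
          have := norm_nonneg (w - q)
          nlinarith
        linarith
      calc (Real.pi * ‖ζ‖)⁻¹ * Real.exp ((ζ * (starRingEnd ℂ) q).re) * ‖ψ w‖ *
            ‖L₀ (f (Function.update z i w))‖
          = (Real.pi * ‖ζ‖)⁻¹ * (Real.exp ((ζ * (starRingEnd ℂ) q).re) *
              (‖ψ w‖ * ‖L₀ (f (Function.update z i w))‖)) := by ring
        _ ≤ (Real.pi * ‖ζ‖)⁻¹ * (Real.exp ((ζ * (starRingEnd ℂ) q).re) *
              (B * Real.exp (‖w‖ ^ 2 / 2))) := by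
            have := Real.pi_pos
            gcongr
        _ = (Real.pi * ‖ζ‖)⁻¹ * B * (Real.exp ((ζ * (starRingEnd ℂ) q).re) *
              Real.exp (‖w‖ ^ 2 / 2)) := by ring
        _ ≤ (Real.pi * ‖ζ‖)⁻¹ * B * (Real.exp (ρ' ^ 2 / 2) * Real.exp (-‖x - q‖ ^ 2 / 2) *
              Real.exp (‖x‖ ^ 2 / 2)) := by
            have := Real.pi_pos
            gcongr
        _ = ‖ζ‖⁻¹ * c := by rw [hc, mul_inv]; ring
    · push Not at hζ
      rw [hF]
      simp only
      rw [h.zero _ hζ, mul_zero, zero_smul, map_zero, norm_zero]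
      refine mul_nonneg (indicator_nonneg (fun _ _ => by positivity) _) hc0
  have h1 : ‖∫ ζ : ℂ, L₀ (F ζ)‖ ≤ ∫ ζ : ℂ, S ζ * c :=
    norm_integral_le_of_norm_le (hSi.mul_const c) (Eventually.of_forall hbound)
  have h2 : ∫ ζ : ℂ, S ζ * c ≤ 3 * Real.pi * ρ' * c := by
    rw [integral_mul_const]
    refine mul_le_mul_of_nonneg_right ?_ hc0
    rw [hS, integral_indicator measurableSet_ball]
    exact cy_integral_inv_le hρ _
  have h3 : Real.exp (‖x‖ ^ 2 / 2) * Real.exp (-‖x‖ ^ 2 / 2) = 1 := by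
    rw [← Real.exp_add]
    have : ‖x‖ ^ 2 / 2 + -‖x‖ ^ 2 / 2 = 0 := by ring
    rw [this, Real.exp_zero]
  calc ‖∫ ζ : ℂ, L₀ (F ζ)‖ * Real.exp (-‖x‖ ^ 2 / 2)
      ≤ (3 * Real.pi * ρ' * c) * Real.exp (-‖x‖ ^ 2 / 2) :=
        mul_le_mul_of_nonneg_right (h1.trans h2) (Real.exp_pos _).le
    _ = 3 * ρ' * (Real.pi * Real.pi⁻¹) * B * Real.exp (ρ' ^ 2 / 2) *
          Real.exp (-‖x - q‖ ^ 2 / 2) * (Real.exp (‖x‖ ^ 2 / 2) * Real.exp (-‖x‖ ^ 2 / 2)) := by
        rw [hc]; ring
    _ = 3 * ρ' * B * Real.exp (ρ' ^ 2 / 2) * Real.exp (-‖x - q‖ ^ 2 / 2) := by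
        rw [h3, mul_inv_cancel₀ Real.pi_pos.ne']; ring
    _ ≤ 4 * ρ' * Real.exp (ρ' ^ 2 / 2) * B * Real.exp (-‖x - q‖ ^ 2 / 2) := by
        have : 0 ≤ ρ' * B * Real.exp (ρ' ^ 2 / 2) * Real.exp (-‖x - q‖ ^ 2 / 2) := by positivity
        linarith

end CT

end Pool.Agent.Lib.MP_15f9af_an.AD
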