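import Mathlib
import Pool.Agent.Lib.MP_15f9af_an.AD.Defs

/-!
# Gluing, part 1: `∂̄` in one variable, elementary inequalities for the weights
-/

namespace Pool.Agent.Lib.MP_15f9af_an.AD

open scoped ENNReal NNReal Topology
open MeasureTheory Filter

universe u v

variable {d : ℕ}

/-! ### the operator `2 ∂̄` in one variable -/

section dbar

variable {W W' : Type*} [NormedAddCommGroup W] [NormedSpace ℂ W]
  [NormedAddCommGroup W'] [NormedSpace ℂ W']

/-- `f` is real differentiable at `x` and `2 ∂̄ f (x) = c` -/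
def HasDbar (f : ℂ → W) (c : W) (x : ℂ) : Prop :=
  ∃ L : ℂ →L[ℝ] W, HasFDerivAt f L x ∧ L 1 + Complex.I • L Complex.I = c

theorem HasDbar.of_differentiableAt {f : ℂ → W} {x : ℂ} (h : DifferentiableAt ℂ f x) :
    HasDbar f 0 x := by
  refine ⟨(fderiv ℂ f x).restrictScalars ℝ, h.hasFDerivAt.restrictScalars ℝ, ?_⟩
  have h1 : (fderiv ℂ f x) Complex.I = Complex.I • (fderiv ℂ f x) 1 := by
    rw [← map_smul]; simp
  simp only [ContinuousLinearMap.coe_restrictScalars', h1, smul_smul, Complex.I_mul_I, neg_smul,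
    one_smul, add_neg_cancel]

theorem HasDbar.differentiableAt {f : ℂ → W} {x : ℂ} (h : HasDbar f 0 x) :
    DifferentiableAt ℂ f x := by
  obtain ⟨L, hL, h0⟩ := h
  have hI : L Complex.I = Complex.I • L 1 := by
    have h1 := congrArg (fun v => Complex.I • v) h0
    simp only [smul_add, smul_smul, Complex.I_mul_I, neg_smul, one_smul, smul_zero] at h1
    exact (eq_of_sub_eq_zero (by rw [sub_eq_add_neg]; exact h1)).symm
  have hlin : ∀ (c v : ℂ), L (c * v) = c • L v := by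
    have key : ∀ z : ℂ, L z = z • L 1 := by
      intro z
      have hz : z = (z.re : ℝ) • (1 : ℂ) + (z.im : ℝ) • Complex.I := by
        simp [Complex.re_add_im]
      calc L z = L ((z.re : ℝ) • (1 : ℂ) + (z.im : ℝ) • Complex.I) := by rw [← hz]
        _ = (z.re : ℝ) • L 1 + (z.im : ℝ) • L Complex.I := by rw [map_add, map_smul, map_smul]
        _ = (z.re : ℂ) • L 1 + (z.im : ℂ) • (Complex.I • L 1) := by
            rw [hI]
            congr 1
        _ = z • L 1 := by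
            rw [smul_smul, ← add_smul, Complex.re_add_im]
    intro c v
    rw [key (c * v), key v, smul_smul]
  let L' : ℂ →L[ℂ] W :=
    { toFun := L
      map_add' := L.map_add
      map_smul' := fun c v => by simpa using hlin c v
      cont := L.continuous }
  have : HasFDerivAt f L' x := by
    rw [hasFDerivAt_iff_isLittleO_nhds_zero] at hL ⊢
    exact hL
  exact this.differentiableAt

theorem HasDbar.congr {f g : ℂ → W} {c : W} {x : ℂ} (h : HasDbar f c x) (hfg : g =ᶠ[𝓝 x] f) :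
    HasDbar g c x := by
  obtain ⟨L, hL, h0⟩ := h
  exact ⟨L, hL.congr_of_eventuallyEq hfg, h0⟩

theorem HasDbar.add {f g : ℂ → W} {a b : W} {x : ℂ} (hf : HasDbar f a x) (hg : HasDbar g b x) :
    HasDbar (fun y => f y + g y) (a + b) x := by
  obtain ⟨L, hL, h0⟩ := hf
  obtain ⟨L', hL', h0'⟩ := hg
  refine ⟨L + L', hL.add hL', ?_⟩
  rw [← h0, ← h0']
  simp only [add_apply, smul_add]
  abel

theorem HasDbar.sub {f g : ℂ → W} {a b : W} {x : ℂ} (hf : HasDbar f a x) (hg : HasDbar g b x) :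
    HasDbar (fun y => f y - g y) (a - b) x := by
  obtain ⟨L, hL, h0⟩ := hf
  obtain ⟨L', hL', h0'⟩ := hg
  refine ⟨L - L', hL.sub hL', ?_⟩
  rw [← h0, ← h0']
  simp only [sub_apply, smul_sub]
  abel

theorem HasDbar.sum {ι : Type*} (s : Finset ι) {f : ι → ℂ → W} {a : ι → W} {x : ℂ}
    (h : ∀ i ∈ s, HasDbar (f i) (a i) x) :
    HasDbar (fun y => ∑ i ∈ s, f i y) (∑ i ∈ s, a i) x := by
  classical
  induction s using Finset.induction_on with
  | empty =>
    simp only [Finset.sum_empty]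
    exact HasDbar.of_differentiableAt (differentiableAt_const _)
  | insert i s hi ih =>
    simp only [Finset.sum_insert hi]
    exact (h i (Finset.mem_insert_self i s)).add
      (ih fun j hj => h j (Finset.mem_insert_of_mem hj))

theorem HasDbar.smul_hol {φ : ℂ → ℂ} {a : ℂ} {f : ℂ → W} {x : ℂ} (hφ : HasDbar φ a x)
    (hf : DifferentiableAt ℂ f x) : HasDbar (fun y => φ y • f y) (a • f x) x := by
  obtain ⟨L, hL, h0⟩ := hφ
  obtain ⟨L', hL', h0'⟩ := HasDbar.of_differentiableAt hf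
  refine ⟨φ x • L' + L.smulRight (f x), hL.smul hL', ?_⟩
  rw [← h0]
  simp only [add_apply, smul_apply, ContinuousLinearMap.smulRight_apply, smul_add, add_smul]
  have h1 : Complex.I • φ x • L' Complex.I = φ x • (Complex.I • L' Complex.I) := by
    rw [smul_comm]
  rw [h1]
  have h2 : φ x • L' 1 + φ x • (Complex.I • L' Complex.I) = 0 := by
    rw [← smul_add, h0', smul_zero]
  calc φ x • L' 1 + L 1 • f x + (φ x • Complex.I • L' Complex.I +
        Complex.I • L Complex.I • f x)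
      = (φ x • L' 1 + φ x • (Complex.I • L' Complex.I)) +
        (L 1 • f x + Complex.I • L Complex.I • f x) := by abel
    _ = L 1 • f x + (Complex.I • L Complex.I) • f x := by
        rw [h2, zero_add, smul_assoc]

theorem HasDbar.clm_apply {T : ℂ → W →L[ℂ] W'} {f : ℂ → W} {a : W} {x : ℂ}
    (hT : DifferentiableAt ℂ T x) (hf : HasDbar f a x) :
    HasDbar (fun y => T y (f y)) (T x a) x := by
  obtain ⟨L, hL, h0⟩ := hf
  have hT' : HasFDerivAt T ((fderiv ℂ T x).restrictScalars ℝ) x :=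
    hT.hasFDerivAt.restrictScalars ℝ
  let B : (W →L[ℂ] W') →L[ℝ] (W →L[ℝ] W') := ContinuousLinearMap.restrictScalarsL ℂ W W' ℝ ℝ
  have hTr : HasFDerivAt (fun y => B (T y)) (B.comp ((fderiv ℂ T x).restrictScalars ℝ)) x :=
    B.hasFDerivAt.comp x hT'
  have h1 := hTr.clm_apply hL
  refine ⟨_, h1, ?_⟩
  have h2 : (fderiv ℂ T x) Complex.I = Complex.I • (fderiv ℂ T x) 1 := by
    rw [← map_smul]; simp
  have h3 : ∀ v : ℂ, ((B (T x)).comp L + (B.comp ((fderiv ℂ T x).restrictScalars ℝ)).flip (f x)) v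
      = T x (L v) + (fderiv ℂ T x v) (f x) := fun v => rfl
  rw [h3, h3, h2, ← h0, map_add, map_smul]
  simp only [smul_apply, smul_add, smul_smul, Complex.I_mul_I, neg_smul, one_smul]
  abel

end dbar

/-! ### the weights -/

section weights

variable {E : Type u} {V : Type v} [NormedAddCommGroup E] [NormedSpace ℂ E]
  [NormedAddCommGroup V] [NormedSpace ℂ V]

/-- `‖τ_z F(z)‖ e^{-|z|²/2}` -/
noncomputable def wt (τ : (Fin d → ℂ) → E →L[ℂ] V) (F : (Fin d → ℂ) → E) (z : Fin d → ℂ) : ℝ :=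
  ‖τ z (F z)‖ * Real.exp (-nsq z / 2)

theorem wt_nonneg (τ : (Fin d → ℂ) → E →L[ℂ] V) (F : (Fin d → ℂ) → E) (z : Fin d → ℂ) :
    0 ≤ wt τ F z := by unfold wt; positivity

theorem Wt_eq (τ : (Fin d → ℂ) → E →L[ℂ] V) (F : (Fin d → ℂ) → E) (z : Fin d → ℂ) :
    Wt τ F z = ENNReal.ofReal (wt τ F z) ^ 2 := by
  unfold Wt wt
  rw [← ENNReal.ofReal_pow (by positivity), mul_pow]
  congr 2
  rw [← Real.exp_nat_mul]
  congr 1
  push_cast
  ring

theorem Wt_eq_ofReal (τ : (Fin d → ℂ) → E →L[ℂ] V) (F : (Fin d → ℂ) → E) (z : Fin d → ℂ) :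
    Wt τ F z = ENNReal.ofReal (wt τ F z ^ 2) := by
  rw [Wt_eq, ENNReal.ofReal_pow (wt_nonneg _ _ _)]

theorem wt_le_of_Wt_le {τ : (Fin d → ℂ) → E →L[ℂ] V} {F : (Fin d → ℂ) → E} {z : Fin d → ℂ}
    {T : ℝ≥0∞} (hT : T ≠ ∞) (h : Wt τ F z ≤ T) : wt τ F z ≤ Real.sqrt T.toReal := by
  apply Real.le_sqrt_of_sq_le
  rw [Wt_eq_ofReal] at h
  exact (ENNReal.ofReal_le_iff_le_toReal hT).1 h

theorem Wt_sub_le (τ : (Fin d → ℂ) → E →L[ℂ] V) (F G : (Fin d → ℂ) → E) (z : Fin d → ℂ) :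
    Wt τ (fun z => F z - G z) z ≤ 2 * Wt τ F z + 2 * Wt τ G z := by
  rw [Wt_eq_ofReal, Wt_eq_ofReal, Wt_eq_ofReal]
  have h2 : (2 : ℝ≥0∞) = ENNReal.ofReal 2 := by simp
  rw [h2, ← ENNReal.ofReal_mul (by norm_num), ← ENNReal.ofReal_mul (by norm_num),
    ← ENNReal.ofReal_add (by positivity) (by positivity)]
  apply ENNReal.ofReal_le_ofReal
  have h : wt τ (fun z => F z - G z) z ≤ wt τ F z + wt τ G z := by
    unfold wt
    rw [map_sub, ← add_mul]
    exact mul_le_mul_of_nonneg_right (norm_sub_le _ _) (Real.exp_pos _).le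
  have h0 := wt_nonneg τ (fun z => F z - G z) z
  have h1 := wt_nonneg τ F z
  have h3 := wt_nonneg τ G z
  nlinarith [sq_nonneg (wt τ F z - wt τ G z), mul_self_le_mul_self h0 h]

/-- continuity of the weight -/
theorem continuousOn_Wt {τ : (Fin d → ℂ) → E →L[ℂ] V} (hτ : Continuous τ)
    {F : (Fin d → ℂ) → E} {U : Set (Fin d → ℂ)} (hF : ContinuousOn F U) :
    ContinuousOn (Wt τ F) U := by
  have h1 : ContinuousOn (fun z => τ z (F z)) U := hτ.continuousOn.clm_apply hF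
  have h2 : Continuous fun z : Fin d → ℂ => Real.exp (-nsq z) := by
    unfold nsq; fun_prop
  exact ENNReal.continuous_ofReal.comp_continuousOn ((h1.norm.pow 2).mul h2.continuousOn)

theorem N2_mono (τ : (Fin d → ℂ) → E →L[ℂ] V) (F : (Fin d → ℂ) → E) {U U' : Set (Fin d → ℂ)}
    (h : U ⊆ U') : N2 τ F U ≤ N2 τ F U' := lintegral_mono_set h

theorem N2_congr {τ : (Fin d → ℂ) → E →L[ℂ] V} {F G : (Fin d → ℂ) → E} {U : Set (Fin d → ℂ)}
    (hU : MeasurableSet U) (h : ∀ z ∈ U, F z = G z) : N2 τ F U = N2 τ G U := by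
  unfold N2
  apply setLIntegral_congr_fun hU
  intro z hz
  simp only [Wt, h z hz]

theorem N2_sub_le {τ : (Fin d → ℂ) → E →L[ℂ] V} (hτ : Continuous τ) {F G : (Fin d → ℂ) → E}
    {U : Set (Fin d → ℂ)} (hU : MeasurableSet U) (hF : ContinuousOn F U) :
    N2 τ (fun z => F z - G z) U ≤ 2 * N2 τ F U + 2 * N2 τ G U := by
  have hm : AEMeasurable (Wt τ F) (volume.restrict U) :=
    (continuousOn_Wt hτ hF).aemeasurable hU
  calc N2 τ (fun z => F z - G z) U
      ≤ ∫⁻ z in U, (2 * Wt τ F z + 2 * Wt τ G z) := lintegral_mono fun z => Wt_sub_le τ F G z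
    _ = (∫⁻ z in U, 2 * Wt τ F z) + ∫⁻ z in U, 2 * Wt τ G z :=
        lintegral_add_left' (hm.const_mul 2) _
    _ = 2 * N2 τ F U + 2 * N2 τ G U := by
        rw [lintegral_const_mul' _ _ (by simp), lintegral_const_mul' _ _ (by simp)]
        rfl

end weights

/-! ### Cauchy–Schwarz for sums in `ℝ≥0∞` -/

theorem tsum_sq_le {ι : Type*} (x g y : ι → ℝ≥0∞) (h : ∀ i, x i ^ 2 ≤ g i * y i) :
    (∑' i, x i) ^ 2 ≤ (∑' i, g i) * ∑' i, y i := by
  have hfin : ∀ s : Finset ι, (∑ i ∈ s, x i) ^ 2 ≤ (∑ i ∈ s, g i) * ∑ i ∈ s, y i := by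
    intro s
    have h1 : ∀ i, x i ≤ g i ^ (1 / 2 : ℝ) * y i ^ (1 / 2 : ℝ) := by
      intro i
      rw [← ENNReal.mul_rpow_of_nonneg _ _ (by norm_num)]
      calc x i = (x i ^ 2) ^ (1 / 2 : ℝ) := by
            rw [← ENNReal.rpow_natCast, ← ENNReal.rpow_mul]; norm_num
        _ ≤ (g i * y i) ^ (1 / 2 : ℝ) := ENNReal.rpow_le_rpow (h i) (by norm_num)
    have h2 := ENNReal.inner_le_Lp_mul_Lq s (fun i => g i ^ (1 / 2 : ℝ)) (fun i => y i ^ (1 / 2 : ℝ))
      (p := 2) (q := 2) (by constructor <;> norm_num)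
    have h3 : ∀ a : ℝ≥0∞, (a ^ (1 / 2 : ℝ)) ^ (2 : ℝ) = a := by
      intro a
      rw [← ENNReal.rpow_mul]; norm_num
    simp only [h3] at h2
    calc (∑ i ∈ s, x i) ^ 2 ≤ (∑ i ∈ s, g i ^ (1 / 2 : ℝ) * y i ^ (1 / 2 : ℝ)) ^ 2 :=
          pow_le_pow_left' (Finset.sum_le_sum fun i _ => h1 i) 2
      _ ≤ ((∑ i ∈ s, g i) ^ (1 / 2 : ℝ) * (∑ i ∈ s, y i) ^ (1 / 2 : ℝ)) ^ 2 :=
          pow_le_pow_left' h2 2
      _ = (∑ i ∈ s, g i) * ∑ i ∈ s, y i := by
          rw [mul_pow, ← ENNReal.rpow_natCast, ← ENNReal.rpow_natCast]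
          push_cast
          rw [h3, h3]
  have ht : Tendsto (fun s : Finset ι => (∑ i ∈ s, x i) ^ 2) atTop (𝓝 ((∑' i, x i) ^ 2)) :=
    ((ENNReal.continuous_pow 2).tendsto _).comp ENNReal.summable.hasSum
  refine le_of_tendsto ht (Eventually.of_forall fun s => ?_)
  exact (hfin s).trans (mul_le_mul' (ENNReal.sum_le_tsum s) (ENNReal.sum_le_tsum s))

end Pool.Agent.Lib.MP_15f9af_an.AD
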