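import Pool.Agent.Lib.MP_15f9af_an.AD.Defs

/-!
# Sub-mean value inequalities (module SM)
-/

open MeasureTheory Metric Set
open scoped ENNReal NNReal Real

theorem sm_circle {V : Type*} [NormedAddCommGroup V] [NormedSpace ℂ V] [CompleteSpace V]
    {c : ℂ} {r ε : ℝ} (hr : 0 < r) (hε : r < ε) {G : ℂ → V}
    (hG : ∀ x ∈ ball c ε, DifferentiableAt ℂ G x) :
    ∫ θ in Ioo (-π) π, G (c + Complex.polarCoord.symm (r, θ)) = (2 * π) • G c := by
  have h1 : ContinuousOn G (closedBall c |r|) := fun x hx =>
    (hG x (by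
      rw [abs_of_pos hr] at hx
      exact lt_of_le_of_lt (mem_closedBall.mp hx) hε)).continuousAt.continuousWithinAt
  have h2 : Real.circleAverage G c r = G c := by
    apply circleAverage_of_differentiable_on_off_countable (s := ∅) countable_empty h1
    intro z hz
    apply hG z
    rw [abs_of_pos hr] at hz
    exact lt_trans (mem_ball.mp hz.1) hε
  have h3 : ∀ θ : ℝ, G (c + Complex.polarCoord.symm (r, θ)) = G (circleMap c r θ) := by
    intro θ
    congr 1
    rw [Complex.polarCoord_symm_apply, circleMap, Complex.exp_mul_I]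
    simp
  simp_rw [h3]
  rw [← integral_Ioc_eq_integral_Ioo, ← intervalIntegral.integral_of_le (by linarith [Real.pi_pos])]
  have h4 : Function.Periodic (fun θ => G (circleMap c r θ)) (2 * π) := by
    intro θ
    simp [(periodic_circleMap c r) θ]
  have h5 := h4.intervalIntegral_add_eq (-π) 0
  rw [show (-π) + 2 * π = π by ring, zero_add] at h5
  rw [h5]
  rw [Real.circleAverage_def] at h2
  rw [← h2, smul_smul, mul_inv_cancel₀ (by positivity), one_smul]

theorem sm_mean {V : Type*} [NormedAddCommGroup V] [NormedSpace ℂ V] [CompleteSpace V]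
    {c : ℂ} {ρ ε : ℝ} (hρ : 0 < ρ) (hε : ρ < ε) {G : ℂ → V}
    (hG : ∀ x ∈ ball c ε, DifferentiableAt ℂ G x) :
    ∫ x in ball c ρ, G x = (π * ρ ^ 2) • G c := by
  have hcont : ContinuousOn G (closedBall c ρ) := fun x hx =>
    (hG x (lt_of_le_of_lt (mem_closedBall.mp hx) hε)).continuousAt.continuousWithinAt
  rw [← integral_indicator measurableSet_ball, ← integral_add_left_eq_self _ c]
  rw [← Complex.integral_comp_polarCoord_symm]
  have h1 : ∀ p ∈ polarCoord.target, p.1 • (ball c ρ).indicator G (c + Complex.polarCoord.symm p) =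
      (Ioo 0 ρ ×ˢ Ioo (-π) π).indicator (fun p => p.1 • G (c + Complex.polarCoord.symm p)) p := by
    intro p hp
    have hp1 : 0 < p.1 := hp.1
    by_cases h : p.1 < ρ
    · rw [indicator_of_mem, indicator_of_mem]
      · exact ⟨⟨hp1, h⟩, hp.2⟩
      · rw [mem_ball, dist_eq_norm, add_sub_cancel_left, Complex.norm_polarCoord_symm,
          abs_of_pos hp1]
        exact h
    · rw [indicator_of_notMem, indicator_of_notMem, smul_zero]
      · exact fun h' => h h'.1.2
      · rw [mem_ball, dist_eq_norm, add_sub_cancel_left, Complex.norm_polarCoord_symm,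
          abs_of_pos hp1]
        exact h
  rw [setIntegral_congr_fun (polarCoord.open_target.measurableSet) h1]
  rw [setIntegral_indicator (measurableSet_Ioo.prod measurableSet_Ioo)]
  have h2 : polarCoord.target ∩ Ioo 0 ρ ×ˢ Ioo (-π) π = Ioo 0 ρ ×ˢ Ioo (-π) π := by
    apply inter_eq_right.mpr
    intro p hp
    exact ⟨hp.1.1, hp.2⟩
  rw [h2]
  have hint : IntegrableOn (fun p : ℝ × ℝ => p.1 • G (c + Complex.polarCoord.symm p))
      (Ioo 0 ρ ×ˢ Ioo (-π) π) := by
    have : ContinuousOn (fun p : ℝ × ℝ => p.1 • G (c + Complex.polarCoord.symm p))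
        (Icc 0 ρ ×ˢ Icc (-π) π) := by
      apply continuousOn_fst.smul
      apply hcont.comp
      · simp_rw [Complex.polarCoord_symm_apply]
        fun_prop
      · intro p hp
        rw [mem_closedBall, dist_eq_norm, add_sub_cancel_left, Complex.norm_polarCoord_symm,
          abs_of_nonneg hp.1.1]
        exact hp.1.2
    exact (this.integrableOn_compact (isCompact_Icc.prod isCompact_Icc)).mono_set
      (prod_mono Ioo_subset_Icc_self Ioo_subset_Icc_self)
  rw [Measure.volume_eq_prod] at hint ⊢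
  rw [setIntegral_prod _ hint]
  have h3 : ∀ r ∈ Ioo 0 ρ, ∫ θ in Ioo (-π) π, r • G (c + Complex.polarCoord.symm (r, θ)) =
      r • (2 * π) • G c := by
    intro r hr
    rw [integral_smul, sm_circle hr.1 (hr.2.trans hε) hG]
  rw [setIntegral_congr_fun measurableSet_Ioo h3]
  rw [integral_smul_const, ← integral_Ioc_eq_integral_Ioo,
    ← intervalIntegral.integral_of_le hρ.le, integral_id, smul_smul]
  congr 1
  ring

/-- sub-mean value inequality in one variable -/
theorem sm_sub {V : Type*} [NormedAddCommGroup V] [NormedSpace ℂ V] [CompleteSpace V]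
    {c : ℂ} {ρ ε : ℝ} (hρ : 0 < ρ) (hε : ρ < ε) {G : ℂ → V}
    (hG : ∀ x ∈ ball c ε, DifferentiableAt ℂ G x) :
    (π * ρ ^ 2) * ‖G c‖ ^ 2 ≤ ∫ x in ball c ρ, ‖G x‖ ^ 2 := by
  have hcont : ContinuousOn G (closedBall c ρ) := fun x hx =>
    (hG x (lt_of_le_of_lt (mem_closedBall.mp hx) hε)).continuousAt.continuousWithinAt
  have hi1 : IntegrableOn (fun x => ‖G x‖) (ball c ρ) :=
    (hcont.norm.integrableOn_compact (isCompact_closedBall c ρ)).mono_set ball_subset_closedBall
  have hi2 : IntegrableOn (fun x => ‖G x‖ ^ 2) (ball c ρ) :=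
    ((hcont.norm.pow 2).integrableOn_compact (isCompact_closedBall c ρ)).mono_set
      ball_subset_closedBall
  have h1 : (π * ρ ^ 2) * ‖G c‖ ≤ ∫ x in ball c ρ, ‖G x‖ := by
    have := norm_integral_le_integral_norm (μ := volume.restrict (ball c ρ)) G
    rwa [sm_mean hρ hε hG, norm_smul, Real.norm_of_nonneg (by positivity)] at this
  have hvol : (volume (ball c ρ)).toReal = π * ρ ^ 2 := by
    rw [Complex.volume_ball]
    simp [hρ.le, mul_comm]
  have h2 : ∫ x in ball c ρ, (2 * ‖G c‖ * ‖G x‖ - ‖G c‖ ^ 2) ≤ ∫ x in ball c ρ, ‖G x‖ ^ 2 := by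
    apply integral_mono
    · exact (hi1.const_mul _).sub (integrableOn_const (by simp [Complex.volume_ball]; exact ENNReal.mul_ne_top (by simp) (by simp)) )
    · exact hi2
    · intro x
      have := sq_nonneg (‖G x‖ - ‖G c‖)
      simp only
      nlinarith
  rw [integral_sub (hi1.const_mul _) (integrableOn_const (by simp [Complex.volume_ball]; exact ENNReal.mul_ne_top (by simp) (by simp))), integral_const_mul, setIntegral_const, Measure.real, hvol] at h2
  have h3 := mul_le_mul_of_nonneg_left h1 (show 0 ≤ 2 * ‖G c‖ by positivity)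
  simp only [smul_eq_mul] at h2
  nlinarith

namespace Pool.Agent.Lib.MP_15f9af_an.AD

universe u v
variable {d : ℕ} {E : Type u} {V : Type v} [NormedAddCommGroup E] [NormedSpace ℂ E]
  [NormedAddCommGroup V] [NormedSpace ℂ V]

theorem sm_nsq (i : Fin d) (z : Fin d → ℂ) (x : ℂ) :
    nsq (Function.update z i x) = nsq z + 2 * ((x - z i) * (starRingEnd ℂ) (z i)).re
      + ‖x - z i‖ ^ 2 := by
  have h1 : nsq (Function.update z i x) = ‖x‖ ^ 2 + ∑ j ∈ Finset.univ.erase i, ‖z j‖ ^ 2 := by
    unfold nsq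
    rw [← Finset.add_sum_erase _ _ (Finset.mem_univ i)]
    congr 1
    · simp
    · apply Finset.sum_congr rfl
      intro j hj
      rw [Function.update_of_ne (Finset.ne_of_mem_erase hj)]
  have h2 : nsq z = ‖z i‖ ^ 2 + ∑ j ∈ Finset.univ.erase i, ‖z j‖ ^ 2 := by
    unfold nsq
    rw [← Finset.add_sum_erase _ _ (Finset.mem_univ i)]
  rw [h1, h2]
  have h3 : ‖x‖ ^ 2 = ‖z i‖ ^ 2 + 2 * ((x - z i) * (starRingEnd ℂ) (z i)).re
      + ‖x - z i‖ ^ 2 := by
    simp only [← Complex.normSq_eq_norm_sq, Complex.normSq_apply, Complex.mul_re, Complex.sub_re,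
      Complex.sub_im, Complex.conj_re, Complex.conj_im]
    ring
  rw [h3]
  ring

theorem sm_norm_update (i : Fin d) (z : Fin d → ℂ) (x : ℂ) :
    ‖z - Function.update z i x‖ ≤ ‖x - z i‖ := by
  rw [pi_norm_le_iff_of_nonneg (norm_nonneg _)]
  intro j
  by_cases h : j = i
  · subst h
    simp [norm_sub_rev]
  · simp [Function.update_of_ne h]

theorem submean_one [CompleteSpace E] [CompleteSpace V] {τ : (Fin d → ℂ) → E →L[ℂ] V}
    (hτ : Moderate τ) {ε : ℝ} (hε : 0 < ε) :
    ∃ K : ℝ≥0, ∀ (i : Fin d) (z : Fin d → ℂ) (F : (Fin d → ℂ) → E),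
      (∀ x ∈ Metric.ball (z i) ε, DifferentiableAt ℂ (fun x => F (Function.update z i x)) x) →
      Wt τ F z ≤ K * ∫⁻ x in Metric.ball (z i) ε, Wt τ F (Function.update z i x) := by
  obtain ⟨A, m, hA, hgr⟩ := hτ.growth
  have hρ : 0 < ε / 2 := by linarith
  set B : ℝ := (A * (1 + ε) ^ m) ^ 2 * Real.exp (ε ^ 2) with hB
  have hB0 : 0 ≤ B := by positivity
  set κ : ℝ := (π * (ε / 2) ^ 2)⁻¹ * B with hκ
  have hκ0 : 0 ≤ κ := by positivity
  refine ⟨κ.toNNReal, fun i z F hF => ?_⟩
  set c := z i with hc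
  set G : ℂ → V := fun x => Complex.exp (-((x - c) * (starRingEnd ℂ) c)) •
    τ z (F (Function.update z i x)) with hG
  have hGd : ∀ x ∈ ball c ε, DifferentiableAt ℂ G x := by
    intro x hx
    apply DifferentiableAt.smul
    · fun_prop
    · exact (τ z).differentiableAt.comp x (hF x hx)
  have hnG : ∀ x, ‖G x‖ ^ 2 = Real.exp (-(2 * ((x - c) * (starRingEnd ℂ) c).re)) *
      ‖τ z (F (Function.update z i x))‖ ^ 2 := by
    intro x
    rw [hG]
    simp only [norm_smul, mul_pow, Complex.norm_exp, Complex.neg_re]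
    rw [← Real.exp_nat_mul]
    congr 2
    push_cast
    ring
  have hGc : ‖G c‖ ^ 2 = ‖τ z (F z)‖ ^ 2 := by
    rw [hnG]
    simp [hc]
  have hmain := sm_sub hρ (by linarith : ε / 2 < ε) hGd
  have hpt : ∀ x ∈ ball c (ε / 2), ‖G x‖ ^ 2 * Real.exp (-nsq z) ≤
      B * (‖τ (Function.update z i x) (F (Function.update z i x))‖ ^ 2 *
        Real.exp (-nsq (Function.update z i x))) := by
    intro x hx
    have hx' : ‖x - c‖ < ε := by
      have := mem_ball_iff_norm.mp hx
      linarith
    have h1 : ‖τ z (F (Function.update z i x))‖ ≤ A * (1 + ε) ^ m *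
        ‖τ (Function.update z i x) (F (Function.update z i x))‖ := by
      refine (hgr z (Function.update z i x) _).trans ?_
      have := (sm_norm_update i z x).trans hx'.le
      gcongr
    have h2 : Real.exp (-(2 * ((x - c) * (starRingEnd ℂ) c).re)) * Real.exp (-nsq z) ≤
        Real.exp (ε ^ 2) * Real.exp (-nsq (Function.update z i x)) := by
      rw [← Real.exp_add, ← Real.exp_add, sm_nsq]
      apply Real.exp_le_exp.mpr
      have : ‖x - z i‖ ^ 2 ≤ ε ^ 2 := by
        gcongr
      rw [← hc] at this ⊢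
      linarith
    rw [hnG, hB]
    calc Real.exp (-(2 * ((x - c) * (starRingEnd ℂ) c).re)) *
          ‖τ z (F (Function.update z i x))‖ ^ 2 * Real.exp (-nsq z)
        = ‖τ z (F (Function.update z i x))‖ ^ 2 *
          (Real.exp (-(2 * ((x - c) * (starRingEnd ℂ) c).re)) * Real.exp (-nsq z)) := by ring
      _ ≤ (A * (1 + ε) ^ m *
        ‖τ (Function.update z i x) (F (Function.update z i x))‖) ^ 2 *
        (Real.exp (ε ^ 2) * Real.exp (-nsq (Function.update z i x))) := by
          gcongr
      _ = _ := by ring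
  -- the inequality of integrals
  have hcontG : ContinuousOn G (closedBall c (ε / 2)) := fun x hx =>
    (hGd x (lt_of_le_of_lt (mem_closedBall.mp hx) (by linarith))).continuousAt.continuousWithinAt
  have hi2 : IntegrableOn (fun x => ‖G x‖ ^ 2) (ball c (ε / 2)) :=
    ((hcontG.norm.pow 2).integrableOn_compact (isCompact_closedBall c (ε / 2))).mono_set
      ball_subset_closedBall
  have hstep : ENNReal.ofReal ((π * (ε / 2) ^ 2) * ‖G c‖ ^ 2) ≤
      ∫⁻ x in ball c (ε / 2), ENNReal.ofReal (‖G x‖ ^ 2) := by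
    rw [← ofReal_integral_eq_lintegral_ofReal hi2 (by
      filter_upwards with x
      positivity)]
    exact ENNReal.ofReal_le_ofReal hmain
  have hW : Wt τ F z = ENNReal.ofReal ((π * (ε / 2) ^ 2)⁻¹ * Real.exp (-nsq z)) *
      ENNReal.ofReal ((π * (ε / 2) ^ 2) * ‖G c‖ ^ 2) := by
    rw [← ENNReal.ofReal_mul (by positivity), Wt, hGc]
    congr 1
    have : (π * (ε / 2) ^ 2) ≠ 0 := by positivity
    field_simp
  rw [hW]
  calc ENNReal.ofReal ((π * (ε / 2) ^ 2)⁻¹ * Real.exp (-nsq z)) *
      ENNReal.ofReal ((π * (ε / 2) ^ 2) * ‖G c‖ ^ 2)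
      ≤ ENNReal.ofReal ((π * (ε / 2) ^ 2)⁻¹ * Real.exp (-nsq z)) *
        ∫⁻ x in ball c (ε / 2), ENNReal.ofReal (‖G x‖ ^ 2) := by gcongr
    _ = ∫⁻ x in ball c (ε / 2), ENNReal.ofReal ((π * (ε / 2) ^ 2)⁻¹ * Real.exp (-nsq z)) *
        ENNReal.ofReal (‖G x‖ ^ 2) := by
          rw [lintegral_const_mul' _ _ ENNReal.ofReal_ne_top]
    _ ≤ ∫⁻ x in ball c (ε / 2), (κ.toNNReal : ℝ≥0∞) * Wt τ F (Function.update z i x) := by
          apply setLIntegral_mono' measurableSet_ball
          intro x hx
          rw [← ENNReal.ofReal_mul (by positivity), Wt]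
          change _ ≤ ENNReal.ofReal κ * _
          rw [← ENNReal.ofReal_mul hκ0]
          apply ENNReal.ofReal_le_ofReal
          have h5 := mul_le_mul_of_nonneg_left (hpt x hx)
            (show 0 ≤ (π * (ε / 2) ^ 2)⁻¹ by positivity)
          rw [hκ]
          linarith
    _ = κ.toNNReal * ∫⁻ x in ball c (ε / 2), Wt τ F (Function.update z i x) := by
          rw [lintegral_const_mul' _ _ ENNReal.coe_ne_top]
    _ ≤ κ.toNNReal * ∫⁻ x in ball c ε, Wt τ F (Function.update z i x) := by
          gcongr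
          linarith

theorem sm_meas {τ : (Fin d → ℂ) → E →L[ℂ] V} (hτ : Continuous τ) {U : Set (Fin d → ℂ)}
    (hU : IsOpen U) {F : (Fin d → ℂ) → E} (hF : ContinuousOn F U) :
    Measurable (U.indicator (Wt τ F)) := by
  classical
  have h1 : ContinuousOn (Wt τ F) U := by
    unfold Wt
    apply ENNReal.continuous_ofReal.comp_continuousOn
    apply ContinuousOn.mul
    · apply ContinuousOn.pow
      apply ContinuousOn.norm
      exact hτ.continuousOn.clm_apply hF
    · apply Continuous.continuousOn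
      unfold nsq
      fun_prop
  have h2 : U.indicator (Wt τ F) = U.piecewise (Wt τ F) 0 := by
    ext x
    simp [Set.indicator, Set.piecewise]
  rw [h2]
  exact h1.measurable_piecewise continuousOn_const hU.measurableSet

theorem submean [CompleteSpace E] [CompleteSpace V] {τ : (Fin d → ℂ) → E →L[ℂ] V}
    (hτ : Moderate τ) {ε : ℝ} (hε : 0 < ε) :
    ∃ K : ℝ≥0, ∀ (z : Fin d → ℂ) (F : (Fin d → ℂ) → E), Hol F (Metric.ball z ε) →
      Wt τ F z ≤ K * N2 τ F (Metric.ball z ε) := by
  classical
  obtain ⟨K, hK⟩ := submean_one hτ hε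
  refine ⟨K ^ d, fun z F hF => ?_⟩
  set g : (Fin d → ℂ) → ℝ≥0∞ := (ball z ε).indicator (Wt τ F) with hg
  have hgm : Measurable g := sm_meas hτ.cont isOpen_ball hF.1
  have key : ∀ S : Finset (Fin d), ∀ w ∈ ball z ε, (∀ j ∈ S, w j = z j) →
      Wt τ F w ≤ (K : ℝ≥0∞) ^ S.card * (∫⋯∫⁻_S, g ∂fun _ => (volume : Measure ℂ)) w := by
    intro S
    induction S using Finset.induction_on with
    | empty =>
      intro w hw _
      simp [hg, hw]
    | insert i S hi ih =>
      intro w hw hwz
      have hwi : w i = z i := hwz i (Finset.mem_insert_self i S)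
      have hup : ∀ x ∈ ball (w i) ε, Function.update w i x ∈ ball z ε := by
        intro x hx
        rw [mem_ball, dist_pi_lt_iff hε] at hw ⊢
        intro j
        by_cases h : j = i
        · subst h
          rw [Function.update_self, ← hwi]
          exact hx
        · rw [Function.update_of_ne h]
          exact hw j
      refine (hK i w F ?_).trans ?_
      · intro x hx
        have := hF.2 _ (hup x hx) i
        simpa using this
      · rw [Finset.card_insert_of_notMem hi, pow_succ', mul_assoc]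
        gcongr
        rw [lmarginal_insert _ hgm hi, ← lintegral_const_mul' _ _ (by simp)]
        refine (setLIntegral_mono' measurableSet_ball (fun x hx => ?_)).trans
          (setLIntegral_le_lintegral (ball (w i) ε) _)
        apply ih _ (hup x hx)
        intro j hj
        have : j ≠ i := fun h => hi (h ▸ hj)
        rw [Function.update_of_ne this]
        exact hwz j (Finset.mem_insert_of_mem hj)
  have h := key Finset.univ z (mem_ball_self hε) (fun _ _ => rfl)
  rw [Finset.card_univ, Fintype.card_fin] at h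
  refine h.trans ?_
  rw [← lintegral_eq_lmarginal_univ, ← volume_pi, hg,
    lintegral_indicator measurableSet_ball, N2]
  push_cast
  exact le_rfl

theorem lintegral_update (i : Fin d) {g : (Fin d → ℂ) → ℝ≥0∞} (hg : Measurable g)
    {k : ℂ → ℝ≥0∞} (hk : Measurable k) :
    ∫⁻ z : Fin d → ℂ, k (z i) * ∫⁻ w : ℂ, g (Function.update z i w) =
      (∫⁻ x, k x) * ∫⁻ z, g z := by
  classical
  have hG : Measurable fun z : Fin d → ℂ => ∫⁻ w : ℂ, g (Function.update z i w) := by
    have : Measurable fun p : (Fin d → ℂ) × ℂ => g (Function.update p.1 i p.2) := by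
      apply hg.comp
      exact measurable_update'
    exact this.lintegral_prod_right'
  have hH : Measurable fun z : Fin d → ℂ => k (z i) * ∫⁻ w : ℂ, g (Function.update z i w) :=
    (hk.comp (measurable_pi_apply i)).mul hG
  rw [volume_pi, lintegral_eq_lmarginal_univ (0 : Fin d → ℂ),
    lintegral_eq_lmarginal_univ (0 : Fin d → ℂ),
    lmarginal_erase' _ hH (Finset.mem_univ i), lmarginal_erase' _ hg (Finset.mem_univ i)]
  have h1 : (fun x : Fin d → ℂ => ∫⁻ xi : ℂ, k (Function.update x i xi i) *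
      ∫⁻ w : ℂ, g (Function.update (Function.update x i xi) i w)) =
      fun x => (∫⁻ x, k x) * ∫⁻ w : ℂ, g (Function.update x i w) := by
    ext x
    simp only [Function.update_self, Function.update_idem]
    rw [lintegral_mul_const _ hk]
  rw [h1]
  simp only [lmarginal]
  rw [lintegral_const_mul]
  exact hG.comp (measurable_updateFinset)

end Pool.Agent.Lib.MP_15f9af_an.AD
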