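import Mathlib
import Pool.Agent.Lib.MP_15f9af_an.AD.Glue1
import Pool.Agent.Lib.MP_15f9af_an.AD.BumpGau
import Pool.Agent.Lib.MP_15f9af_an.AD.Cauchy
import Pool.Agent.Lib.MP_15f9af_an.AD.SubMean
import Pool.Agent.Lib.MP_15f9af_an.AD.BumpChi

/-!
# Gluing, part 2: geometry of the sets `Om S a t`, the key estimate for the Cauchy transform
-/

namespace Pool.Agent.Lib.MP_15f9af_an.AD

open scoped ENNReal NNReal Topology
open MeasureTheory Filter

universe u v

variable {d : ℕ}

theorem isOpen_Om (S : Finset (Fin d)) (a : Fin d → ℂ) (t : ℝ) : IsOpen (Om S a t) := by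
  have : Om S a t = ⋂ i : Fin d, {z : Fin d → ℂ | i ∉ S → ‖z i - a i‖ < t} := by
    ext z; simp [Om]
  rw [this]
  apply isOpen_iInter_of_finite
  intro i
  by_cases hi : i ∈ S
  · simp [hi]
  · simp only [hi, not_false_eq_true, forall_const]
    exact isOpen_lt (by fun_prop) continuous_const

theorem Om_mono (S : Finset (Fin d)) (a : Fin d → ℂ) {t t' : ℝ} (h : t ≤ t') :
    Om S a t ⊆ Om S a t' := fun _ hz i hi => (hz i hi).trans_le h

theorem Om_update_subset {S : Finset (Fin d)} (i : Fin d) (a : Fin d → ℂ)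
    (c : ℂ) (t : ℝ) : Om S (Function.update a i c) t ⊆ Om (insert i S) a t := by
  intro z hz j hj
  rw [Finset.mem_insert, not_or] at hj
  have := hz j hj.2
  rwa [Function.update_of_ne hj.1] at this

theorem mem_Om_update {S : Finset (Fin d)} {i : Fin d} {a : Fin d → ℂ} {c : ℂ} {t : ℝ}
    {z : Fin d → ℂ} (hz : z ∈ Om (insert i S) a t) (hc : ‖z i - c‖ < t) :
    z ∈ Om S (Function.update a i c) t := by
  intro j hj
  by_cases hji : j = i
  · subst hji; rwa [Function.update_self]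
  · rw [Function.update_of_ne hji]
    exact hz j (by simp [hji, hj])

theorem norm_lt_of_mem_Om {S : Finset (Fin d)} {i : Fin d} (hi : i ∉ S) {a : Fin d → ℂ} {c : ℂ}
    {t : ℝ} {z : Fin d → ℂ} (hz : z ∈ Om S (Function.update a i c) t) : ‖z i - c‖ < t := by
  have := hz i hi
  rwa [Function.update_self] at this

theorem update_mem_Om {S : Finset (Fin d)} {i : Fin d} {a : Fin d → ℂ} {t : ℝ}
    {z : Fin d → ℂ} (hz : z ∈ Om (insert i S) a t) (x : ℂ) :
    Function.update z i x ∈ Om (insert i S) a t := by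
  intro j hj
  have hji : j ≠ i := by
    rintro rfl; exact hj (Finset.mem_insert_self _ _)
  rw [Function.update_of_ne hji]
  exact hz j hj

theorem norm_sub_update (z : Fin d → ℂ) (i : Fin d) (c : ℂ) :
    ‖z - Function.update z i c‖ ≤ ‖z i - c‖ := by
  rw [pi_norm_le_iff_of_nonneg (norm_nonneg _)]
  intro j
  by_cases hj : j = i
  · subst hj; simp
  · simp [Function.update_of_ne hj]

theorem norm_update_sub_update (z : Fin d → ℂ) (i : Fin d) (c w : ℂ) :
    ‖Function.update z i c - Function.update z i w‖ ≤ ‖c - w‖ := by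
  rw [pi_norm_le_iff_of_nonneg (norm_nonneg _)]
  intro j
  by_cases hj : j = i
  · subst hj; simp
  · simp [Function.update_of_ne hj]

theorem nsq_update (z : Fin d → ℂ) (i : Fin d) (w : ℂ) :
    nsq (Function.update z i w) = nsq z - ‖z i‖ ^ 2 + ‖w‖ ^ 2 := by
  unfold nsq
  rw [← Finset.add_sum_erase Finset.univ _ (Finset.mem_univ i),
    ← Finset.add_sum_erase Finset.univ (fun j => ‖z j‖ ^ 2) (Finset.mem_univ i)]
  have : ∑ x ∈ Finset.univ.erase i, ‖Function.update z i w x‖ ^ 2 =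
      ∑ x ∈ Finset.univ.erase i, ‖z x‖ ^ 2 :=
    Finset.sum_congr rfl fun x hx => by rw [Function.update_of_ne (Finset.ne_of_mem_erase hx)]
  rw [this, Function.update_self]
  ring

theorem nsq_nonneg (z : Fin d → ℂ) : 0 ≤ nsq z := by unfold nsq; positivity

theorem gau_nonneg (m : ℕ) (y : ℂ) : 0 ≤ gau m y := by unfold gau; positivity

section key

variable {E : Type u} {V : Type v} [NormedAddCommGroup E] [NormedSpace ℂ E] [CompleteSpace E]
  [NormedAddCommGroup V] [NormedSpace ℂ V] [CompleteSpace V]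

/-- the key estimate -/
theorem key_estimate {τ : (Fin d → ℂ) → E →L[ℂ] V} (hτ : Moderate τ) {ρ' : ℝ} (hρ' : 0 < ρ')
    {B : ℝ} (hB : 0 ≤ B) :
    ∃ (m : ℕ) (C : ℝ), 0 ≤ C ∧ ∀ {i : Fin d} {c : ℂ} {ρ : ℝ} {ψ : ℂ → ℂ} {U : Set (Fin d → ℂ)}
      {f : (Fin d → ℂ) → E}, CTData i c ρ' ρ ψ U f → (∀ x, ‖ψ x‖ ≤ B) → ∀ {z : Fin d → ℂ},
      z ∈ U → ∀ {T : ℝ}, (∀ w, ‖w - c‖ < ρ' → wt τ f (Function.update z i w) ≤ T) →
      wt τ (CT i c ψ f) z ≤ C * gau m (z i - c) * T := by
  obtain ⟨A, m, hA, hgr⟩ := hτ.growth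
  refine ⟨m, 4 * ρ' * Real.exp (ρ' ^ 2 / 2) * (B * A * (1 + ρ') ^ m) * A, by positivity, ?_⟩
  intro i c ρ ψ U f h hψ z hz T hT
  have hT0 : 0 ≤ T := (wt_nonneg τ f _).trans (hT c (by simpa using hρ'))
  set N : ℝ := (nsq z - ‖z i‖ ^ 2) / 2 with hN
  have hexp : ∀ w : ℂ, Real.exp (-‖w‖ ^ 2 / 2) =
      Real.exp (-nsq (Function.update z i w) / 2) * Real.exp N := by
    intro w
    rw [← Real.exp_add, nsq_update, hN]
    congr 1
    ring
  have hB1 : ∀ w, ‖w - c‖ < ρ' →
      ‖ψ w‖ * ‖τ (Function.update z i c) (f (Function.update z i w))‖ *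
        Real.exp (-‖w‖ ^ 2 / 2) ≤ B * A * (1 + ρ') ^ m * T * Real.exp N := by
    intro w hw
    have h1 : ‖τ (Function.update z i c) (f (Function.update z i w))‖ ≤
        A * (1 + ρ') ^ m * ‖τ (Function.update z i w) (f (Function.update z i w))‖ := by
      refine (hgr _ (Function.update z i w) _).trans ?_
      have h2 : ‖Function.update z i c - Function.update z i w‖ ≤ ρ' := by
        refine (norm_update_sub_update z i c w).trans ?_
        rw [norm_sub_rev]; exact hw.le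
      gcongr
    have h3 := hT w hw
    unfold wt at h3
    calc ‖ψ w‖ * ‖τ (Function.update z i c) (f (Function.update z i w))‖ *
          Real.exp (-‖w‖ ^ 2 / 2)
        ≤ B * (A * (1 + ρ') ^ m * ‖τ (Function.update z i w) (f (Function.update z i w))‖) *
          (Real.exp (-nsq (Function.update z i w) / 2) * Real.exp N) := by
          rw [hexp w]
          gcongr
          exact hψ w
      _ = B * A * (1 + ρ') ^ m * (‖τ (Function.update z i w) (f (Function.update z i w))‖ *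
          Real.exp (-nsq (Function.update z i w) / 2)) * Real.exp N := by ring
      _ ≤ B * A * (1 + ρ') ^ m * T * Real.exp N := by gcongr
  have h4 := h.norm_le hz (τ (Function.update z i c)) hB1
  have h5 : ‖τ z (CT i c ψ f z)‖ ≤
      A * (1 + ‖z i - c‖) ^ m * ‖τ (Function.update z i c) (CT i c ψ f z)‖ := by
    refine (hgr z (Function.update z i c) _).trans ?_
    have := norm_sub_update z i c
    gcongr
  have h6 : Real.exp (-nsq z / 2) = Real.exp (-‖z i‖ ^ 2 / 2) * Real.exp (-N) := by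
    rw [← Real.exp_add, hN]
    congr 1
    ring
  have h7 : Real.exp N * Real.exp (-N) = 1 := by rw [← Real.exp_add]; simp
  unfold wt gau
  calc ‖τ z (CT i c ψ f z)‖ * Real.exp (-nsq z / 2)
      ≤ (A * (1 + ‖z i - c‖) ^ m * ‖τ (Function.update z i c) (CT i c ψ f z)‖) *
        (Real.exp (-‖z i‖ ^ 2 / 2) * Real.exp (-N)) := by rw [h6]; gcongr
    _ = A * (1 + ‖z i - c‖) ^ m * (‖τ (Function.update z i c) (CT i c ψ f z)‖ *
        Real.exp (-‖z i‖ ^ 2 / 2)) * Real.exp (-N) := by ring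
    _ ≤ A * (1 + ‖z i - c‖) ^ m * (4 * ρ' * Real.exp (ρ' ^ 2 / 2) *
        (B * A * (1 + ρ') ^ m * T * Real.exp N) * Real.exp (-‖z i - c‖ ^ 2 / 2)) *
        Real.exp (-N) := by gcongr
    _ = 4 * ρ' * Real.exp (ρ' ^ 2 / 2) * (B * A * (1 + ρ') ^ m) * A *
        ((1 + ‖z i - c‖) ^ m * Real.exp (-‖z i - c‖ ^ 2 / 2)) * T *
        (Real.exp N * Real.exp (-N)) := by ring
    _ = _ := by rw [h7, mul_one]

end key

end Pool.Agent.Lib.MP_15f9af_an.AD
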