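import Mathlib
import Pool.Agent.Lib.MP_15f9af_an.AD.Glue2

/-!
# Gluing, part 3: sums of twisted Cauchy transforms over a lattice
-/

set_option linter.unusedSectionVars false

namespace Pool.Agent.Lib.MP_15f9af_an.AD

open scoped ENNReal NNReal Topology
open MeasureTheory Filter

universe u v

variable {d : ℕ}

/-- lattice points near `x` -/
noncomputable def near {δ : ℝ} (hδ : 0 < δ) (x : ℂ) : Finset (ℤ × ℤ) :=
  (finite_near hδ x (2 * δ)).toFinset

theorem mem_near {δ : ℝ} (hδ : 0 < δ) (x : ℂ) (k : ℤ × ℤ) :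
    k ∈ near hδ x ↔ |x.re - δ * k.1| < 2 * δ ∧ |x.im - δ * k.2| < 2 * δ := by
  unfold near
  simp

theorem norm_sub_lat_lt {δ R : ℝ} {x : ℂ} {k : ℤ × ℤ} (h1 : |x.re - δ * k.1| < R)
    (h2 : |x.im - δ * k.2| < R) : ‖x - lat δ k‖ < 3 / 2 * R := by
  have hR : 0 < R := (abs_nonneg _).trans_lt h1
  have h : ‖x - lat δ k‖ ^ 2 < (3 / 2 * R) ^ 2 := by
    rw [← Complex.normSq_eq_norm_sq, Complex.normSq_apply]
    have e1 : (x - lat δ k).re = x.re - δ * k.1 := by simp [lat]
    have e2 : (x - lat δ k).im = x.im - δ * k.2 := by simp [lat]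
    rw [e1, e2]
    have h3 := abs_lt.1 h1
    have h4 := abs_lt.1 h2
    nlinarith [mul_pos (sub_pos.2 h3.1) (sub_pos.2 h3.2), mul_pos (sub_pos.2 h4.1) (sub_pos.2 h4.2)]
  exact lt_of_pow_lt_pow_left₀ 2 (by positivity) h

variable {E : Type u} {V : Type v} [NormedAddCommGroup E] [NormedSpace ℂ E] [CompleteSpace E]
  [NormedAddCommGroup V] [NormedSpace ℂ V] [CompleteSpace V]

/-- data for a sum of Cauchy transforms -/
structure CSum (τ : (Fin d → ℂ) → E →L[ℂ] V) (S : Finset (Fin d)) (i : Fin d) (a : Fin d → ℂ)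
    (δ B : ℝ) (ψ : ℤ × ℤ → ℂ → ℂ) (f : ℤ × ℤ → (Fin d → ℂ) → E) (Nmax : ℝ≥0∞) : Prop where
  notMem : i ∉ S
  pos : 0 < δ
  smooth : ∀ l, ContDiff ℝ 1 (ψ l)
  bound : ∀ l x, ‖ψ l x‖ ≤ B
  supp : ∀ l x, ψ l x ≠ 0 → |x.re - δ * l.1| < δ ∧ |x.im - δ * l.2| < δ
  hol : ∀ l, Hol (f l) (Om S (Function.update a i (lat δ l)) (4 * δ))
  ne_top : Nmax ≠ ∞
  le_max : ∀ l, N2 τ (f l) (Om S (Function.update a i (lat δ l)) (4 * δ)) ≤ Nmax

/-- the sum of the Cauchy transforms -/
noncomputable def csum (i : Fin d) (δ : ℝ) (ψ : ℤ × ℤ → ℂ → ℂ)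
    (f : ℤ × ℤ → (Fin d → ℂ) → E) (z : Fin d → ℂ) : E := ∑' l, CT i (lat δ l) (ψ l) (f l) z

namespace CSum

variable {τ : (Fin d → ℂ) → E →L[ℂ] V} {S : Finset (Fin d)} {i : Fin d} {a : Fin d → ℂ}
    {δ B : ℝ} {ψ : ℤ × ℤ → ℂ → ℂ} {f : ℤ × ℤ → (Fin d → ℂ) → E} {Nmax : ℝ≥0∞}

theorem data (h : CSum τ S i a δ B ψ f Nmax) (l : ℤ × ℤ) :
    CTData i (lat δ l) (2 * δ) (4 * δ) (ψ l) (Om (insert i S) a (4 * δ)) (f l) where
  pos := by have := h.pos; positivity
  lt := by have := h.pos; linarith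
  smooth := h.smooth l
  zero := by
    intro x hx
    by_contra hne
    obtain ⟨h1, h2⟩ := h.supp l x hne
    have h3 := norm_sub_lat_lt h1 h2
    have := h.pos
    linarith
  isOpen := isOpen_Om _ _ _
  cyl := fun z hz x => update_mem_Om hz x
  hol := by
    have hsub : Om (insert i S) a (4 * δ) ∩ {z | ‖z i - lat δ l‖ < 4 * δ} ⊆
        Om S (Function.update a i (lat δ l)) (4 * δ) := fun z hz => mem_Om_update hz.1 hz.2
    exact ⟨(h.hol l).1.mono hsub, fun z hz k => (h.hol l).2 z (hsub hz) k⟩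

theorem B_nonneg (h : CSum τ S i a δ B ψ f Nmax) : 0 ≤ B :=
  (norm_nonneg _).trans (h.bound 0 0)

/-- locally uniform summable bounds -/
theorem local_bound (hτ : Moderate τ) (h : CSum τ S i a δ B ψ f Nmax) {z₀ : Fin d → ℂ}
    (hz₀ : z₀ ∈ Om (insert i S) a (4 * δ)) :
    ∃ (r : ℝ) (M : ℤ × ℤ → ℝ), 0 < r ∧ Metric.ball z₀ r ⊆ Om (insert i S) a (4 * δ) ∧
      Summable M ∧ ∀ z ∈ Metric.ball z₀ r, ∀ l, ‖CT i (lat δ l) (ψ l) (f l) z‖ ≤ M l := by
  have hδ := h.pos
  obtain ⟨ε₁, hε₁, hball⟩ := Metric.isOpen_iff.1 (isOpen_Om (insert i S) a (4 * δ)) z₀ hz₀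
  set ε : ℝ := min (ε₁ / 2) (2 * δ) with hε
  have hεpos : 0 < ε := by rw [hε]; exact lt_min (by positivity) (by positivity)
  have hε1 : ε ≤ ε₁ / 2 := min_le_left _ _
  have hε2 : ε ≤ 2 * δ := min_le_right _ _
  obtain ⟨K, hK⟩ := submean hτ hεpos
  obtain ⟨m, C, hC, hkey⟩ := key_estimate hτ (show 0 < 2 * δ by positivity) h.B_nonneg
  obtain ⟨A, m', hA, hgr⟩ := hτ.growth
  obtain ⟨c, hc, hinj⟩ := hτ.inj
  set R : ℝ := ‖z₀‖ + ε with hR
  have hRpos : 0 ≤ R := by positivity
  obtain ⟨u, hu, hu'⟩ := gau_sum_unif hδ m R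
  set T : ℝ := Real.sqrt ((K * Nmax).toReal) with hT
  have hTtop : (K * Nmax : ℝ≥0∞) ≠ ∞ := ENNReal.mul_ne_top ENNReal.coe_ne_top h.ne_top
  refine ⟨ε, fun l => c * (A * (1 + R) ^ m') * (Real.exp (d * R ^ 2 / 2) * (C * u l * T)), hεpos,
    ?_, ?_, ?_⟩
  · exact (Metric.ball_subset_ball (by linarith)).trans hball
  · refine Summable.mul_left _ (Summable.mul_left _ ?_)
    exact (hu.mul_left C).mul_right T
  · intro z hz l
    have hzz : ‖z - z₀‖ < ε := by simpa [dist_eq_norm] using hz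
    have hzR : ‖z‖ ≤ R := by
      calc ‖z‖ = ‖(z - z₀) + z₀‖ := by simp
        _ ≤ ‖z - z₀‖ + ‖z₀‖ := norm_add_le _ _
        _ ≤ R := by rw [hR]; linarith
    have hzΩ : z ∈ Om (insert i S) a (4 * δ) :=
      hball (Metric.ball_subset_ball (show ε ≤ ε₁ by linarith) hz)
    have hwt : ∀ w, ‖w - lat δ l‖ < 2 * δ → wt τ (f l) (Function.update z i w) ≤ T := by
      intro w hw
      have hsub : Metric.ball (Function.update z i w) ε ⊆
          Om S (Function.update a i (lat δ l)) (4 * δ) := by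
        intro y hy
        have hy' : ‖y - Function.update z i w‖ < ε := by simpa [dist_eq_norm] using hy
        intro j hj
        have hyj : ‖y j - Function.update z i w j‖ < ε := (norm_le_pi_norm _ j).trans_lt hy'
        by_cases hji : j = i
        · subst hji
          rw [Function.update_self] at hyj ⊢
          calc ‖y j - lat δ l‖ = ‖(y j - w) + (w - lat δ l)‖ := by ring_nf
            _ ≤ ‖y j - w‖ + ‖w - lat δ l‖ := norm_add_le _ _
            _ < 4 * δ := by linarith
        · rw [Function.update_of_ne hji] at hyj ⊢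
          have hmem : Function.update z₀ j (y j) ∈ Om (insert i S) a (4 * δ) := by
            apply hball
            rw [Metric.mem_ball, dist_eq_norm, norm_sub_rev]
            refine (norm_sub_update z₀ j (y j)).trans_lt ?_
            have h1 : ‖z j - z₀ j‖ < ε := (norm_le_pi_norm (z - z₀) j).trans_lt hzz
            calc ‖z₀ j - y j‖ = ‖(y j - z j) + (z j - z₀ j)‖ := by
                  rw [norm_sub_rev]; ring_nf
              _ ≤ ‖y j - z j‖ + ‖z j - z₀ j‖ := norm_add_le _ _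
              _ < ε₁ := by linarith
          have := hmem j (by simp [hji, hj])
          rwa [Function.update_self] at this
      have hHol : Hol (f l) (Metric.ball (Function.update z i w) ε) :=
        ⟨(h.hol l).1.mono hsub, fun y hy k => (h.hol l).2 y (hsub hy) k⟩
      refine wt_le_of_Wt_le hTtop ((hK _ _ hHol).trans ?_)
      exact mul_le_mul_right ((N2_mono τ (f l) hsub).trans (h.le_max l)) _
    have h1 := hkey (h.data l) (h.bound l) hzΩ hwt
    have hT0 : 0 ≤ T := Real.sqrt_nonneg _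
    have h2 : wt τ (CT i (lat δ l) (ψ l) (f l)) z ≤ C * u l * T := by
      refine h1.trans ?_
      have h3 : ‖z i‖ ≤ R := (norm_le_pi_norm z i).trans hzR
      have h4 := hu' (z i) h3 l
      gcongr
    have h5 : ‖τ z (CT i (lat δ l) (ψ l) (f l) z)‖ ≤ Real.exp (d * R ^ 2 / 2) * (C * u l * T) := by
      have h6 : nsq z ≤ d * R ^ 2 := by
        unfold nsq
        calc ∑ j, ‖z j‖ ^ 2 ≤ ∑ _j : Fin d, R ^ 2 := by
              apply Finset.sum_le_sum
              intro j _
              have := (norm_le_pi_norm z j).trans hzR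
              gcongr
          _ = d * R ^ 2 := by simp
      have h7 : ‖τ z (CT i (lat δ l) (ψ l) (f l) z)‖ =
          Real.exp (nsq z / 2) * wt τ (CT i (lat δ l) (ψ l) (f l)) z := by
        unfold wt
        have : Real.exp (nsq z / 2) * Real.exp (-nsq z / 2) = 1 := by
          rw [← Real.exp_add]
          simp only [neg_div, add_neg_cancel, Real.exp_zero]
        calc _ = ‖τ z (CT i (lat δ l) (ψ l) (f l) z)‖ *
              (Real.exp (nsq z / 2) * Real.exp (-nsq z / 2)) := by rw [this, mul_one]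
          _ = _ := by ring
      rw [h7]
      have h8 : 0 ≤ wt τ (CT i (lat δ l) (ψ l) (f l)) z := wt_nonneg _ _ _
      gcongr
    calc ‖CT i (lat δ l) (ψ l) (f l) z‖
        ≤ c * ‖τ 0 (CT i (lat δ l) (ψ l) (f l) z)‖ := hinj _
      _ ≤ c * (A * (1 + ‖(0 : Fin d → ℂ) - z‖) ^ m' *
          ‖τ z (CT i (lat δ l) (ψ l) (f l) z)‖) := by gcongr; exact hgr _ _ _
      _ ≤ c * (A * (1 + R) ^ m' * (Real.exp (d * R ^ 2 / 2) * (C * u l * T))) := by
          have : ‖(0 : Fin d → ℂ) - z‖ ≤ R := by simpa using hzR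
          gcongr
      _ = c * (A * (1 + R) ^ m') * (Real.exp (d * R ^ 2 / 2) * (C * u l * T)) := by ring

theorem summable (hτ : Moderate τ) (h : CSum τ S i a δ B ψ f Nmax) {z : Fin d → ℂ}
    (hz : z ∈ Om (insert i S) a (4 * δ)) :
    Summable fun l => CT i (lat δ l) (ψ l) (f l) z := by
  obtain ⟨r, M, hr, -, hM, hb⟩ := h.local_bound hτ hz
  exact Summable.of_norm_bounded hM (hb z (Metric.mem_ball_self hr))

theorem continuousOn (hτ : Moderate τ) (h : CSum τ S i a δ B ψ f Nmax) :
    ContinuousOn (csum i δ ψ f) (Om (insert i S) a (4 * δ)) := by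
  intro z hz
  obtain ⟨r, M, hr, hsub, hM, hb⟩ := h.local_bound hτ hz
  have h1 : ContinuousOn (csum i δ ψ f) (Metric.ball z r) := by
    unfold csum
    exact continuousOn_tsum (fun l => (h.data l).continuousOn.mono hsub) hM
      (fun l y hy => hb y hy l)
  exact (h1.continuousAt (Metric.ball_mem_nhds z hr)).continuousWithinAt

theorem update_mem_ball {z : Fin d → ℂ} {r : ℝ} {k : Fin d} {x : ℂ}
    (hx : x ∈ Metric.ball (z k) r) : Function.update z k x ∈ Metric.ball z r := by
  rw [Metric.mem_ball, dist_eq_norm, norm_sub_rev]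
  refine (norm_sub_update z k x).trans_lt ?_
  rw [norm_sub_rev]
  simpa [dist_eq_norm] using hx

theorem differentiableAt (hτ : Moderate τ) (h : CSum τ S i a δ B ψ f Nmax) {z : Fin d → ℂ}
    (hz : z ∈ Om (insert i S) a (4 * δ)) {k : Fin d} (hk : k ≠ i) :
    DifferentiableAt ℂ (fun x => csum i δ ψ f (Function.update z k x)) (z k) := by
  obtain ⟨r, M, hr, hsub, hM, hb⟩ := h.local_bound hτ hz
  have h1 : DifferentiableOn ℂ (fun x => csum i δ ψ f (Function.update z k x))
      (Metric.ball (z k) r) := by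
    unfold csum
    refine Complex.differentiableOn_tsum_of_summable_norm hM (fun l x hx => ?_) Metric.isOpen_ball
      (fun l x hx => hb _ (update_mem_ball hx) l)
    have h2 := (h.data l).differentiableAt (hsub (update_mem_ball hx)) hk
    simp only [Function.update_idem, Function.update_self] at h2
    exact h2.differentiableWithinAt
  exact h1.differentiableAt (Metric.ball_mem_nhds _ hr)

theorem hasDbar (hτ : Moderate τ) (h : CSum τ S i a δ B ψ f Nmax) {z : Fin d → ℂ}
    (hz : z ∈ Om (insert i S) a (4 * δ)) :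
    HasDbar (fun x => csum i δ ψ f (Function.update z i x))
      (∑ l ∈ near h.pos (z i), (2 : ℂ) • (ψ l (z i) • f l z)) (z i) := by
  obtain ⟨r, M, hr, hsub, hM, hb⟩ := h.local_bound hτ hz
  have hδ := h.pos
  set r' : ℝ := min r δ with hr'
  have hr'pos : 0 < r' := lt_min hr hδ
  set s := near h.pos (z i) with hs
  -- the finite part
  have h1 : HasDbar (fun x => ∑ l ∈ s, CT i (lat δ l) (ψ l) (f l) (Function.update z i x))
      (∑ l ∈ s, (2 : ℂ) • (ψ l (z i) • f l z)) (z i) :=
    HasDbar.sum s fun l _ => (h.data l).dbar hz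
  -- the rest
  have h2 : DifferentiableOn ℂ (fun x => ∑' l : {l // l ∉ s},
      CT i (lat δ (l : ℤ × ℤ)) (ψ l) (f l) (Function.update z i x)) (Metric.ball (z i) r') := by
    refine Complex.differentiableOn_tsum_of_summable_norm
      (hM.comp_injective Subtype.coe_injective) (fun l x hx => ?_) Metric.isOpen_ball
      (fun l x hx => hb _ (update_mem_ball
        (Metric.ball_subset_ball (min_le_left _ _) hx)) l)
    have hxr : x ∈ Metric.ball (z i) r := Metric.ball_subset_ball (min_le_left _ _) hx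
    have hxδ : ‖x - z i‖ < δ := by
      have := Metric.ball_subset_ball (min_le_right r δ) hx
      simpa [dist_eq_norm] using this
    have hψ : ψ l x = 0 := by
      by_contra hne
      obtain ⟨h3, h4⟩ := h.supp l x hne
      refine l.2 ((mem_near h.pos (z i) (l : ℤ × ℤ)).2 ?_)
      have h5 : |x.re - (z i).re| ≤ ‖x - z i‖ := by
        have := Complex.abs_re_le_norm (x - z i)
        simpa using this
      have h6 : |x.im - (z i).im| ≤ ‖x - z i‖ := by
        have := Complex.abs_im_le_norm (x - z i)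
        simpa using this
      rw [abs_lt] at h3 h4
      rw [abs_le] at h5 h6
      rw [abs_lt, abs_lt]
      refine ⟨⟨?_, ?_⟩, ⟨?_, ?_⟩⟩ <;> linarith [h3.1, h3.2, h4.1, h4.2, h5.1, h5.2, h6.1, h6.2]
    have h3 := (h.data l).dbar (hsub (update_mem_ball hxr))
    simp only [Function.update_idem, Function.update_self, hψ, zero_smul, smul_zero] at h3
    exact (HasDbar.differentiableAt h3).differentiableWithinAt
  have h3 : HasDbar (fun x => ∑' l : {l // l ∉ s},
      CT i (lat δ (l : ℤ × ℤ)) (ψ l) (f l) (Function.update z i x)) 0 (z i) :=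
    HasDbar.of_differentiableAt (h2.differentiableAt (Metric.ball_mem_nhds _ hr'pos))
  have h4 := h1.add h3
  rw [add_zero] at h4
  refine h4.congr ?_
  filter_upwards [Metric.ball_mem_nhds (z i) hr] with x hx
  have hsum : Summable fun l => CT i (lat δ l) (ψ l) (f l) (Function.update z i x) :=
    Summable.of_norm_bounded hM (hb _ (update_mem_ball hx))
  unfold csum
  exact (hsum.sum_add_tsum_subtype_compl s).symm

end CSum

end Pool.Agent.Lib.MP_15f9af_an.AD
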