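import Mathlib
import Pool.Agent.Lib.MP_15f9af_an.AD.Glue3

/-!
# Gluing, part 4: the norm of a sum of twisted Cauchy transforms
-/

set_option linter.unusedSectionVars false

namespace Pool.Agent.Lib.MP_15f9af_an.AD

open scoped ENNReal NNReal Topology
open MeasureTheory Filter

universe u v

variable {d : ℕ}

variable {E : Type u} {V : Type v} [NormedAddCommGroup E] [NormedSpace ℂ E] [CompleteSpace E]
  [NormedAddCommGroup V] [NormedSpace ℂ V] [CompleteSpace V]

theorem gau_pos (m : ℕ) (y : ℂ) : 0 < gau m y := by unfold gau; positivity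

theorem measurable_gau (m : ℕ) : Measurable fun y : ℂ => ENNReal.ofReal (gau m y) := by
  unfold gau
  fun_prop

/-- the size of a sum is at most the sum of the sizes -/
theorem ofReal_wt_tsum_le (τ : (Fin d → ℂ) → E →L[ℂ] V) {ι : Type*}
    (F : ι → (Fin d → ℂ) → E) (z : Fin d → ℂ) :
    ENNReal.ofReal (wt τ (fun z => ∑' l, F l z) z) ≤ ∑' l, ENNReal.ofReal (wt τ (F l) z) := by
  by_cases hs : Summable fun l => F l z
  · have h1 : ∀ v : E, ENNReal.ofReal (‖τ z v‖ * Real.exp (-nsq z / 2)) =
        ENNReal.ofReal (Real.exp (-nsq z / 2)) * ‖τ z v‖ₑ := by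
      intro v
      rw [mul_comm, ENNReal.ofReal_mul (Real.exp_pos _).le, ofReal_norm]
    unfold wt
    simp only [h1]
    rw [ENNReal.tsum_mul_left, (τ z).map_tsum hs]
    exact mul_le_mul_right (enorm_tsum_le_tsum_enorm) _
  · unfold wt
    simp only [tsum_eq_zero_of_not_summable hs, map_zero, norm_zero, zero_mul,
      ENNReal.ofReal_zero]
    exact bot_le

theorem csum_N2_le {τ : (Fin d → ℂ) → E →L[ℂ] V} (hτ : Moderate τ) {δ : ℝ} (hδ : 0 < δ)
    {B : ℝ} (hB : 0 ≤ B) : ∃ C : ℝ≥0, ∀ {S : Finset (Fin d)} {i : Fin d} {a : Fin d → ℂ}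
      {ψ : ℤ × ℤ → ℂ → ℂ} {f : ℤ × ℤ → (Fin d → ℂ) → E} {Nmax : ℝ≥0∞},
      CSum τ S i a δ B ψ f Nmax →
      N2 τ (csum i δ ψ f) (Om (insert i S) a (4 * δ)) ≤
        C * ∑' l, N2 τ (f l) (Om S (Function.update a i (lat δ l)) (4 * δ)) := by
  obtain ⟨K, hK⟩ := submean_one (τ := τ) hτ (show 0 < 2 * δ by positivity)
  obtain ⟨m, C, hC, hkey⟩ := key_estimate hτ (show 0 < 2 * δ by positivity) hB
  obtain ⟨Cg, hCg, hg⟩ := gau_sum hδ m
  set Cc : ℝ≥0∞ := ENNReal.ofReal ((C + 1) ^ 2) * (K + 1) with hCc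
  set Ig : ℝ≥0∞ := ∫⁻ y : ℂ, ENNReal.ofReal (gau m y) with hIg
  have hIg' : Ig < ∞ := gau_integral m
  have hCc0 : Cc ≠ 0 := by
    rw [hCc]
    refine mul_ne_zero ?_ ?_
    · rw [Ne, ENNReal.ofReal_eq_zero, not_le]; positivity
    · simp
  have hCctop : Cc ≠ ∞ := by
    rw [hCc]
    exact ENNReal.mul_ne_top ENNReal.ofReal_ne_top (by simp)
  have htot : ENNReal.ofReal Cg * (Cc * Ig) ≠ ∞ :=
    ENNReal.mul_ne_top ENNReal.ofReal_ne_top (ENNReal.mul_ne_top hCctop hIg'.ne)
  refine ⟨(ENNReal.ofReal Cg * (Cc * Ig)).toNNReal, ?_⟩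
  intro S i a ψ f Nmax h
  rw [ENNReal.coe_toNNReal htot]
  set Ω := Om (insert i S) a (4 * δ) with hΩ
  set hl : ℤ × ℤ → (Fin d → ℂ) → ℝ≥0∞ := fun l =>
    (Om S (Function.update a i (lat δ l)) (4 * δ)).indicator (Wt τ (f l)) with hhl
  have hmeas : ∀ l, Measurable (hl l) := by
    intro l
    classical
    have hopen := isOpen_Om S (Function.update a i (lat δ l)) (4 * δ)
    have h1 := (continuousOn_Wt hτ.cont (h.hol l).1)
    have h3 := h1.measurable_piecewise (g := (0 : (Fin d → ℂ) → ℝ≥0∞))
      continuous_zero.continuousOn hopen.measurableSet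
    rw [Set.piecewise_eq_indicator] at h3
    exact h3
  -- pointwise bound
  have hpt : ∀ z ∈ Ω, Wt τ (csum i δ ψ f) z ≤ ENNReal.ofReal Cg *
      ∑' l, Cc * (ENNReal.ofReal (gau m (z i - lat δ l)) *
        ∫⁻ x : ℂ, hl l (Function.update z i x)) := by
    intro z hz
    rw [Wt_eq]
    have h1 : ENNReal.ofReal (wt τ (csum i δ ψ f) z) ≤
        ∑' l, ENNReal.ofReal (wt τ (CT i (lat δ l) (ψ l) (f l)) z) :=
      ofReal_wt_tsum_le τ (fun l => CT i (lat δ l) (ψ l) (f l)) z
    refine (pow_le_pow_left' h1 2).trans ?_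
    have h2 : ∀ l, ENNReal.ofReal (wt τ (CT i (lat δ l) (ψ l) (f l)) z) ^ 2 ≤
        ENNReal.ofReal (gau m (z i - lat δ l)) * (Cc * (ENNReal.ofReal (gau m (z i - lat δ l)) *
        ∫⁻ x : ℂ, hl l (Function.update z i x))) := by
      intro l
      set g : ℝ≥0∞ := ENNReal.ofReal (gau m (z i - lat δ l)) with hgdef
      have hg0 : g ≠ 0 := by
        rw [hgdef, Ne, ENNReal.ofReal_eq_zero, not_le]; exact gau_pos _ _
      set J : ℝ≥0∞ := ∫⁻ x : ℂ, hl l (Function.update z i x) with hJ
      by_cases hJtop : J = ∞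
      · rw [hJtop, ENNReal.mul_top hg0, ENNReal.mul_top hCc0, ENNReal.mul_top hg0]
        exact le_top
      have hKJ : (K : ℝ≥0∞) * J ≠ ∞ := ENNReal.mul_ne_top ENNReal.coe_ne_top hJtop
      have hwt : ∀ w, ‖w - lat δ l‖ < 2 * δ →
          wt τ (f l) (Function.update z i w) ≤ Real.sqrt ((K : ℝ≥0∞) * J).toReal := by
        intro w hw
        apply wt_le_of_Wt_le hKJ
        have hmem : ∀ x ∈ Metric.ball w (2 * δ), Function.update z i x ∈
            Om S (Function.update a i (lat δ l)) (4 * δ) := by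
          intro x hx
          refine mem_Om_update (update_mem_Om hz x) ?_
          rw [Function.update_self]
          have hx' : ‖x - w‖ < 2 * δ := by simpa [dist_eq_norm] using hx
          calc ‖x - lat δ l‖ = ‖(x - w) + (w - lat δ l)‖ := by ring_nf
            _ ≤ ‖x - w‖ + ‖w - lat δ l‖ := norm_add_le _ _
            _ < 4 * δ := by linarith
        have h3 := hK i (Function.update z i w) (f l) (by
          intro x hx
          rw [Function.update_self] at hx
          have h4 := (h.hol l).2 _ (hmem x hx) i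
          simp only [Function.update_idem, Function.update_self] at h4 ⊢
          exact h4)
        refine h3.trans (mul_le_mul_right ?_ _)
        simp only [Function.update_idem, Function.update_self]
        rw [hJ, ← lintegral_indicator Metric.isOpen_ball.measurableSet]
        apply lintegral_mono
        intro x
        by_cases hx : x ∈ Metric.ball w (2 * δ)
        · simp only [hhl, Set.indicator_of_mem hx, Set.indicator_of_mem (hmem x hx)]
          exact le_rfl
        · simp only [Set.indicator_of_notMem hx]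
          exact bot_le
      have h5 := hkey (h.data l) (h.bound l) hz hwt
      have h6 : 0 ≤ wt τ (CT i (lat δ l) (ψ l) (f l)) z := wt_nonneg _ _ _
      have h7 := gau_nonneg m (z i - lat δ l)
      calc ENNReal.ofReal (wt τ (CT i (lat δ l) (ψ l) (f l)) z) ^ 2
          ≤ ENNReal.ofReal (C * gau m (z i - lat δ l) *
              Real.sqrt ((K : ℝ≥0∞) * J).toReal) ^ 2 :=
            pow_le_pow_left' (ENNReal.ofReal_le_ofReal h5) 2
        _ = ENNReal.ofReal ((C ^ 2) * (gau m (z i - lat δ l) ^ 2) *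
              ((K : ℝ≥0∞) * J).toReal) := by
            rw [← ENNReal.ofReal_pow (by positivity)]
            congr 1
            rw [mul_pow, mul_pow, Real.sq_sqrt ENNReal.toReal_nonneg]
        _ = ENNReal.ofReal (C ^ 2) * (g * g) * (K * J) := by
            have h8 : ENNReal.ofReal (gau m (z i - lat δ l) ^ 2) = g * g := by
              rw [ENNReal.ofReal_pow h7, pow_two]
            rw [ENNReal.ofReal_mul (by positivity), ENNReal.ofReal_mul (by positivity),
              ENNReal.ofReal_toReal hKJ, h8]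
        _ ≤ ENNReal.ofReal ((C + 1) ^ 2) * (g * g) * ((K + 1) * J) := by
            gcongr
            · linarith
            · exact le_self_add
        _ = g * (Cc * (g * J)) := by rw [hCc]; ring
    refine (tsum_sq_le _ _ _ h2).trans ?_
    refine mul_le_mul_left ?_ _
    rw [← ENNReal.ofReal_tsum_of_nonneg (fun k => gau_nonneg m _) (hg (z i)).1]
    exact ENNReal.ofReal_le_ofReal (hg (z i)).2
  have hmeasJ : ∀ l, Measurable fun z : Fin d → ℂ => ∫⁻ x : ℂ, hl l (Function.update z i x) := by
    intro l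
    have h1 : Measurable fun p : (Fin d → ℂ) × ℂ => hl l (Function.update p.1 i p.2) :=
      (hmeas l).comp (measurable_update' (a := i))
    exact h1.lintegral_prod_right'
  have hmg : ∀ l, Measurable fun x : ℂ => ENNReal.ofReal (gau m (x - lat δ l)) := fun l =>
    (measurable_gau m).comp (measurable_id.sub_const _)
  calc N2 τ (csum i δ ψ f) Ω
      ≤ ∫⁻ z in Ω, ENNReal.ofReal Cg *
        ∑' l, Cc * (ENNReal.ofReal (gau m (z i - lat δ l)) *
          ∫⁻ x : ℂ, hl l (Function.update z i x)) :=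
        setLIntegral_mono' (isOpen_Om _ _ _).measurableSet hpt
    _ ≤ ∫⁻ z : Fin d → ℂ, ENNReal.ofReal Cg *
        ∑' l, Cc * (ENNReal.ofReal (gau m (z i - lat δ l)) *
          ∫⁻ x : ℂ, hl l (Function.update z i x)) := setLIntegral_le_lintegral _ _
    _ = ENNReal.ofReal Cg * ∑' l, ∫⁻ z : Fin d → ℂ, Cc * (ENNReal.ofReal (gau m (z i - lat δ l)) *
          ∫⁻ x : ℂ, hl l (Function.update z i x)) := by
        rw [lintegral_const_mul' _ _ ENNReal.ofReal_ne_top, lintegral_tsum]
        intro l
        exact (((hmg l).comp (measurable_pi_apply i)).mul (hmeasJ l)).const_mul _ |>.aemeasurable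
    _ = ENNReal.ofReal Cg * ∑' l, Cc * (Ig *
          N2 τ (f l) (Om S (Function.update a i (lat δ l)) (4 * δ))) := by
        congr 1
        apply tsum_congr
        intro l
        rw [lintegral_const_mul' _ _ hCctop, lintegral_update i (hmeas l) (hmg l)]
        congr 2
        · rw [hIg]
          exact lintegral_sub_right_eq_self (fun y => ENNReal.ofReal (gau m y)) (lat δ l)
        · rw [hhl, lintegral_indicator (isOpen_Om _ _ _).measurableSet]
          rfl
    _ = _ := by
        rw [ENNReal.tsum_mul_left, ENNReal.tsum_mul_left]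
        ring

end Pool.Agent.Lib.MP_15f9af_an.AD
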