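import Mathlib
import Pool.Agent.Lib.MP_15f9af_an.AD.Glue4

/-!
# Gluing, part 5: sums against the partition of unity
-/

set_option linter.unusedSectionVars false

namespace Pool.Agent.Lib.MP_15f9af_an.AD

open scoped ENNReal NNReal Topology
open MeasureTheory Filter

universe u v

variable {d : ℕ}

section general

variable {E : Type u} {V : Type v} [NormedAddCommGroup E] [NormedSpace ℂ E]
  [NormedAddCommGroup V] [NormedSpace ℂ V]

theorem measurable_indicator_Wt {τ : (Fin d → ℂ) → E →L[ℂ] V} (hτ : Continuous τ)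
    {F : (Fin d → ℂ) → E} {U : Set (Fin d → ℂ)} (hU : IsOpen U) (hF : ContinuousOn F U) :
    Measurable (U.indicator (Wt τ F)) := by
  classical
  have h3 := (continuousOn_Wt hτ hF).measurable_piecewise (g := (0 : (Fin d → ℂ) → ℝ≥0∞))
    continuous_zero.continuousOn hU.measurableSet
  rwa [Set.piecewise_eq_indicator] at h3

theorem N2_eq (τ : (Fin d → ℂ) → E →L[ℂ] V) (F : (Fin d → ℂ) → E) {U : Set (Fin d → ℂ)}
    (hU : IsOpen U) : N2 τ F U = ∫⁻ z, U.indicator (Wt τ F) z := by
  rw [lintegral_indicator hU.measurableSet]; rfl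

theorem Hol.mono {F : (Fin d → ℂ) → E} {U U' : Set (Fin d → ℂ)} (h : Hol F U) (hU : U' ⊆ U) :
    Hol F U' := ⟨h.1.mono hU, fun z hz k => h.2 z (hU hz) k⟩

/-- bounded overlap -/
theorem tsum_N2_le {τ : (Fin d → ℂ) → E →L[ℂ] V} (hτ : Continuous τ) {δ : ℝ} (hδ : 0 < δ)
    (t : ℝ) : ∃ C : ℝ≥0, ∀ {S : Finset (Fin d)} {i : Fin d} (_ : i ∉ S) (a : Fin d → ℂ)
      (F : (Fin d → ℂ) → E), ContinuousOn F (Om (insert i S) a t) →
      ∑' k, N2 τ F (Om S (Function.update a i (lat δ k)) t) ≤ C * N2 τ F (Om (insert i S) a t) := by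
  obtain ⟨C, hC⟩ := overlap hδ t
  refine ⟨C, ?_⟩
  intro S i hi a F hF
  have h1 : ∀ k, N2 τ F (Om S (Function.update a i (lat δ k)) t) =
      ∫⁻ z, (Om S (Function.update a i (lat δ k)) t).indicator (Wt τ F) z := fun k =>
    N2_eq τ F (isOpen_Om _ _ _)
  have h2 : ∀ k, Measurable ((Om S (Function.update a i (lat δ k)) t).indicator (Wt τ F)) :=
    fun k => measurable_indicator_Wt hτ (isOpen_Om _ _ _)
      (hF.mono (Om_update_subset i a (lat δ k) t))
  simp only [h1]
  rw [← lintegral_tsum fun k => (h2 k).aemeasurable, N2_eq τ F (isOpen_Om _ _ _),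
    ← lintegral_const_mul' _ _ ENNReal.coe_ne_top]
  apply lintegral_mono
  intro z
  by_cases hz : z ∈ Om (insert i S) a t
  · simp only [Set.indicator_of_mem hz]
    calc ∑' k, (Om S (Function.update a i (lat δ k)) t).indicator (Wt τ F) z
        ≤ ∑' k, (Metric.ball (lat δ k) t).indicator (fun _ => (1 : ℝ≥0∞)) (z i) * Wt τ F z := by
          apply ENNReal.tsum_le_tsum
          intro k
          by_cases hk : z ∈ Om S (Function.update a i (lat δ k)) t
          · have h3 : z i ∈ Metric.ball (lat δ k) t := by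
              rw [Metric.mem_ball, dist_eq_norm]
              exact norm_lt_of_mem_Om hi hk
            rw [Set.indicator_of_mem hk, Set.indicator_of_mem h3, one_mul]
          · rw [Set.indicator_of_notMem hk]
            exact bot_le
      _ = (∑' k, (Metric.ball (lat δ k) t).indicator (fun _ => (1 : ℝ≥0∞)) (z i)) * Wt τ F z :=
          ENNReal.tsum_mul_right
      _ ≤ C * Wt τ F z := mul_le_mul_left (hC (z i)) _
  · have h3 : ∀ k, z ∉ Om S (Function.update a i (lat δ k)) t := fun k hk =>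
      hz (Om_update_subset i a (lat δ k) t hk)
    simp only [Set.indicator_of_notMem (h3 _), tsum_zero]
    exact bot_le

theorem Wt_sum_le (τ : (Fin d → ℂ) → E →L[ℂ] V) {ι : Type*} (s : Finset ι)
    (F : ι → (Fin d → ℂ) → E) (z : Fin d → ℂ) :
    Wt τ (fun z => ∑ e ∈ s, F e z) z ≤ (s.card : ℝ≥0∞) * ∑ e ∈ s, Wt τ (F e) z := by
  simp only [Wt_eq_ofReal]
  rw [← ENNReal.ofReal_sum_of_nonneg (fun e _ => by positivity), ← ENNReal.ofReal_natCast,
    ← ENNReal.ofReal_mul (by positivity)]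
  apply ENNReal.ofReal_le_ofReal
  have h1 : wt τ (fun z => ∑ e ∈ s, F e z) z ≤ ∑ e ∈ s, wt τ (F e) z := by
    unfold wt
    rw [map_sum, ← Finset.sum_mul]
    exact mul_le_mul_of_nonneg_right (norm_sum_le _ _) (Real.exp_pos _).le
  calc wt τ (fun z => ∑ e ∈ s, F e z) z ^ 2 ≤ (∑ e ∈ s, wt τ (F e) z) ^ 2 := by
        have := wt_nonneg τ (fun z => ∑ e ∈ s, F e z) z
        gcongr
    _ ≤ _ := sq_sum_le_card_mul_sum_sq

theorem N2_sum_le {τ : (Fin d → ℂ) → E →L[ℂ] V} (hτ : Continuous τ) {ι : Type*} (s : Finset ι)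
    {F : ι → (Fin d → ℂ) → E} {U : Set (Fin d → ℂ)} (hU : IsOpen U)
    (hF : ∀ e ∈ s, ContinuousOn (F e) U) :
    N2 τ (fun z => ∑ e ∈ s, F e z) U ≤ (s.card : ℝ≥0∞) * ∑ e ∈ s, N2 τ (F e) U := by
  calc N2 τ (fun z => ∑ e ∈ s, F e z) U
      ≤ ∫⁻ z in U, (s.card : ℝ≥0∞) * ∑ e ∈ s, Wt τ (F e) z :=
        lintegral_mono fun z => Wt_sum_le τ s F z
    _ = (s.card : ℝ≥0∞) * ∑ e ∈ s, N2 τ (F e) U := by
        rw [lintegral_const_mul' _ _ (by simp), lintegral_finsetSum']
        · rfl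
        · intro e he
          exact (continuousOn_Wt hτ (hF e he)).aemeasurable hU.measurableSet

end general

theorem hasDbar_chi {δ : ℝ} (hδ : 0 < δ) (k : ℤ × ℤ) (x : ℂ) :
    HasDbar (fun y => (chi δ k y : ℂ)) (dchi δ k x) x := by
  have h1 : DifferentiableAt ℝ (chi δ k) x :=
    ((chi_contDiff hδ k 1).differentiable (by norm_num)) x
  refine ⟨Complex.ofRealCLM.comp (fderiv ℝ (chi δ k) x), ?_, ?_⟩
  · exact Complex.ofRealCLM.hasFDerivAt.comp x h1.hasFDerivAt
  · simp [dchi]

section psum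

variable {E : Type u} {V : Type v} [NormedAddCommGroup E] [NormedSpace ℂ E] [CompleteSpace E]
  [NormedAddCommGroup V] [NormedSpace ℂ V] [CompleteSpace V]

/-- the sum against the partition of unity -/
noncomputable def psum (i : Fin d) (δ : ℝ) (f : ℤ × ℤ → (Fin d → ℂ) → E) (z : Fin d → ℂ) : E :=
  ∑' k, (chi δ k (z i) : ℂ) • f k z

variable {S : Finset (Fin d)} {i : Fin d} {a : Fin d → ℂ} {δ : ℝ}
  {f : ℤ × ℤ → (Fin d → ℂ) → E}

theorem chi_eq_zero_of_notMem_near {δ : ℝ} (hδ : 0 < δ) {x y : ℂ} (hxy : ‖y - x‖ < δ)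
    {k : ℤ × ℤ} (hk : k ∉ near hδ x) : chi δ k y = 0 := by
  by_contra hne
  obtain ⟨h3, h4⟩ := chi_supp hδ hne
  apply hk
  rw [mem_near]
  have h5 : |y.re - x.re| ≤ ‖y - x‖ := by simpa using Complex.abs_re_le_norm (y - x)
  have h6 : |y.im - x.im| ≤ ‖y - x‖ := by simpa using Complex.abs_im_le_norm (y - x)
  rw [abs_lt] at h3 h4
  rw [abs_le] at h5 h6
  rw [abs_lt, abs_lt]
  refine ⟨⟨?_, ?_⟩, ⟨?_, ?_⟩⟩ <;> linarith [h3.1, h3.2, h4.1, h4.2, h5.1, h5.2, h6.1, h6.2]

theorem psum_eq (hδ : 0 < δ) {x : ℂ} {z : Fin d → ℂ} (hz : ‖z i - x‖ < δ) :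
    psum i δ f z = ∑ k ∈ near hδ x, (chi δ k (z i) : ℂ) • f k z := by
  unfold psum
  apply tsum_eq_sum
  intro k hk
  rw [chi_eq_zero_of_notMem_near hδ hz hk]
  simp

theorem mem_Om_of_near (hδ : 0 < δ) {x : ℂ} {z : Fin d → ℂ} (hz : z ∈ Om (insert i S) a (4 * δ))
    (hzx : ‖z i - x‖ < δ) {k : ℤ × ℤ} (hk : k ∈ near hδ x) :
    z ∈ Om S (Function.update a i (lat δ k)) (4 * δ) := by
  refine mem_Om_update hz ?_
  rw [mem_near] at hk
  have h1 := norm_sub_lat_lt hk.1 hk.2
  calc ‖z i - lat δ k‖ = ‖(z i - x) + (x - lat δ k)‖ := by ring_nf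
    _ ≤ ‖z i - x‖ + ‖x - lat δ k‖ := norm_add_le _ _
    _ < 4 * δ := by linarith

theorem continuousOn_psum (hδ : 0 < δ)
    (hf : ∀ k, Hol (f k) (Om S (Function.update a i (lat δ k)) (4 * δ))) :
    ContinuousOn (psum i δ f) (Om (insert i S) a (4 * δ)) := by
  intro z₀ hz₀
  set U : Set (Fin d → ℂ) := Om (insert i S) a (4 * δ) ∩ {z | ‖z i - z₀ i‖ < δ} with hU
  have hUo : IsOpen U := by
    rw [hU]
    exact (isOpen_Om _ _ _).inter (isOpen_lt (by fun_prop) continuous_const)
  have h1 : ContinuousOn (psum i δ f) U := by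
    have h2 : ContinuousOn (fun z : Fin d → ℂ =>
        ∑ k ∈ near hδ (z₀ i), (chi δ k (z i) : ℂ) • f k z) U := by
      apply continuousOn_finsetSum
      intro k hk
      refine ContinuousOn.smul ?_ ?_
      · have := (chi_contDiff hδ k 0).continuous
        fun_prop
      · refine (hf k).1.mono ?_
        rintro z ⟨hz1, hz2⟩
        exact mem_Om_of_near hδ hz1 hz2 hk
    refine h2.congr ?_
    rintro z ⟨hz1, hz2⟩
    exact psum_eq hδ hz2
  have h3 : z₀ ∈ U := ⟨hz₀, by simpa using hδ⟩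
  exact (h1.continuousAt (hUo.mem_nhds h3)).continuousWithinAt

theorem differentiableAt_psum (hδ : 0 < δ)
    (hf : ∀ k, Hol (f k) (Om S (Function.update a i (lat δ k)) (4 * δ))) {z : Fin d → ℂ}
    (hz : z ∈ Om (insert i S) a (4 * δ)) {j : Fin d} (hj : j ≠ i) :
    DifferentiableAt ℂ (fun x => psum i δ f (Function.update z j x)) (z j) := by
  have h0 : ‖z i - z i‖ < δ := by simpa using hδ
  have h1 : (fun x => psum i δ f (Function.update z j x)) = fun x =>
      ∑ k ∈ near hδ (z i), (chi δ k (z i) : ℂ) • f k (Function.update z j x) := by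
    funext x
    have h2 : Function.update z j x i = z i := Function.update_of_ne (Ne.symm hj) _ _
    have h3 := psum_eq (f := f) hδ (x := z i) (z := Function.update z j x) (i := i)
      (by rw [h2]; exact h0)
    rw [h3, h2]
  rw [h1]
  refine DifferentiableAt.fun_sum fun k hk => ?_
  exact ((hf k).2 z (mem_Om_of_near hδ hz h0 hk) j).const_smul _

theorem hasDbar_psum (hδ : 0 < δ)
    (hf : ∀ k, Hol (f k) (Om S (Function.update a i (lat δ k)) (4 * δ))) {z : Fin d → ℂ}
    (hz : z ∈ Om (insert i S) a (4 * δ)) :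
    HasDbar (fun x => psum i δ f (Function.update z i x))
      (∑ k ∈ near hδ (z i), dchi δ k (z i) • f k z) (z i) := by
  have h0 : ‖z i - z i‖ < δ := by simpa using hδ
  have h1 : HasDbar (fun x => ∑ k ∈ near hδ (z i),
      (chi δ k x : ℂ) • f k (Function.update z i x))
      (∑ k ∈ near hδ (z i), dchi δ k (z i) • f k z) (z i) := by
    refine HasDbar.sum _ fun k hk => ?_
    have h2 := (hasDbar_chi hδ k (z i)).smul_hol ((hf k).2 z (mem_Om_of_near hδ hz h0 hk) i)
    simpa using h2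
  refine h1.congr ?_
  filter_upwards [Metric.ball_mem_nhds (z i) hδ] with x hx
  have h2 := psum_eq (f := f) hδ (x := z i) (z := Function.update z i x) (i := i)
    (by rw [Function.update_self]; simpa [dist_eq_norm] using hx)
  rw [h2, Function.update_self]

theorem N2_psum_le {τ : (Fin d → ℂ) → E →L[ℂ] V} (hτ : Continuous τ) (hδ : 0 < δ)
    (hf : ∀ k, Hol (f k) (Om S (Function.update a i (lat δ k)) (4 * δ))) :
    N2 τ (psum i δ f) (Om (insert i S) a (4 * δ)) ≤
      ∑' k, N2 τ (f k) (Om S (Function.update a i (lat δ k)) (4 * δ)) := by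
  have hpt : ∀ z ∈ Om (insert i S) a (4 * δ), Wt τ (psum i δ f) z ≤
      ∑' k, (Om S (Function.update a i (lat δ k)) (4 * δ)).indicator (Wt τ (f k)) z := by
    intro z hz
    rw [Wt_eq]
    have h1 := ofReal_wt_tsum_le τ (fun k z => (chi δ k (z i) : ℂ) • f k z) z
    refine (pow_le_pow_left' h1 2).trans ?_
    refine (tsum_sq_le _ (fun k => ENNReal.ofReal (chi δ k (z i)))
      (fun k => (Om S (Function.update a i (lat δ k)) (4 * δ)).indicator (Wt τ (f k)) z)
      fun k => ?_).trans ?_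
    · by_cases hk : chi δ k (z i) = 0
      · simp [wt, hk]
      · have hmem : z ∈ Om S (Function.update a i (lat δ k)) (4 * δ) := by
          refine mem_Om_update hz ?_
          obtain ⟨h2, h3⟩ := chi_supp hδ hk
          have := norm_sub_lat_lt h2 h3
          linarith
        rw [Set.indicator_of_mem hmem, Wt_eq]
        have h4 := chi_nonneg hδ k (z i)
        have h5 := chi_le_one hδ k (z i)
        have h6 : wt τ (fun z => (chi δ k (z i) : ℂ) • f k z) z =
            chi δ k (z i) * wt τ (f k) z := by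
          unfold wt
          rw [map_smul, norm_smul, Complex.norm_real, Real.norm_of_nonneg h4]
          ring
        rw [h6, ENNReal.ofReal_mul h4, mul_pow, pow_two (ENNReal.ofReal (chi δ k (z i)))]
        have h7 : ENNReal.ofReal (chi δ k (z i)) ≤ 1 := by
          rw [← ENNReal.ofReal_one]; exact ENNReal.ofReal_le_ofReal h5
        calc ENNReal.ofReal (chi δ k (z i)) * ENNReal.ofReal (chi δ k (z i)) *
              ENNReal.ofReal (wt τ (f k) z) ^ 2
            ≤ ENNReal.ofReal (chi δ k (z i)) * 1 * ENNReal.ofReal (wt τ (f k) z) ^ 2 := by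
              gcongr
          _ = _ := by rw [mul_one]
    · have h2 := hasSum_chi hδ (z i)
      rw [← ENNReal.ofReal_tsum_of_nonneg (fun k => chi_nonneg hδ k _) h2.summable, h2.tsum_eq]
      simp
  have hm : ∀ k, Measurable
      ((Om S (Function.update a i (lat δ k)) (4 * δ)).indicator (Wt τ (f k))) := fun k =>
    measurable_indicator_Wt hτ (isOpen_Om _ _ _) (hf k).1
  calc N2 τ (psum i δ f) (Om (insert i S) a (4 * δ))
      ≤ ∫⁻ z in Om (insert i S) a (4 * δ),
        ∑' k, (Om S (Function.update a i (lat δ k)) (4 * δ)).indicator (Wt τ (f k)) z :=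
        setLIntegral_mono' (isOpen_Om _ _ _).measurableSet hpt
    _ ≤ ∫⁻ z, ∑' k, (Om S (Function.update a i (lat δ k)) (4 * δ)).indicator (Wt τ (f k)) z :=
        setLIntegral_le_lintegral _ _
    _ = _ := by
        rw [lintegral_tsum fun k => (hm k).aemeasurable]
        exact tsum_congr fun k => (N2_eq τ (f k) (isOpen_Om _ _ _)).symm

end psum

end Pool.Agent.Lib.MP_15f9af_an.AD
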