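import Mathlib
import Pool.Agent.Lib.MP_15f9af_an.AD.Glue5

/-!
# The gluing theorem
-/

set_option linter.unusedSectionVars false

namespace Pool.Agent.Lib.MP_15f9af_an.AD

open scoped ENNReal NNReal Topology
open MeasureTheory Filter

universe u v

variable {d : ℕ}

/-- the offsets -/
noncomputable def Off : Finset (ℤ × ℤ) := Finset.Icc (-1, -1) (1, 1)

theorem mem_Off {e : ℤ × ℤ} : e ∈ Off ↔ |e.1| ≤ 1 ∧ |e.2| ≤ 1 := by
  unfold Off
  rw [Finset.mem_Icc, Prod.le_def, Prod.le_def, abs_le, abs_le]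
  simp only
  tauto

/-- neighbours -/
theorem sub_mem_Off {δ : ℝ} (hδ : 0 < δ) {k l : ℤ × ℤ} {x : ℂ}
    (hk : |x.re - δ * k.1| < δ ∧ |x.im - δ * k.2| < δ)
    (hl : |x.re - δ * l.1| < δ ∧ |x.im - δ * l.2| < δ) : k - l ∈ Off := by
  have key : ∀ (y : ℝ) (p q : ℤ), |y - δ * p| < δ → |y - δ * q| < δ → |p - q| ≤ 1 := by
    intro y p q hp hq
    rw [abs_lt] at hp hq
    have h1 : δ * ((p : ℝ) - q) < δ * 2 := by nlinarith [hp.1, hq.2]
    have h2 : δ * (-2) < δ * ((p : ℝ) - q) := by nlinarith [hp.2, hq.1]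
    have h3 : (p : ℝ) - q < 2 := lt_of_mul_lt_mul_left h1 hδ.le
    have h4 : (-2 : ℝ) < (p : ℝ) - q := lt_of_mul_lt_mul_left h2 hδ.le
    have h5 : p - q < 2 := by exact_mod_cast h3
    have h6 : -2 < p - q := by exact_mod_cast h4
    rw [abs_le]
    constructor <;> omega
  rw [mem_Off]
  exact ⟨key _ _ _ hk.1 hl.1, key _ _ _ hk.2 hl.2⟩

theorem norm_lat_sub {δ : ℝ} (hδ : 0 < δ) (l : ℤ × ℤ) {e : ℤ × ℤ} (he : e ∈ Off) :
    ‖lat δ l - lat δ (l + e)‖ ≤ 2 * δ := by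
  rw [mem_Off] at he
  have h1 : |((e.1 : ℤ) : ℝ)| ≤ 1 := by exact_mod_cast he.1
  have h2 : |((e.2 : ℤ) : ℝ)| ≤ 1 := by exact_mod_cast he.2
  have h3 : lat δ l - lat δ (l + e) = ⟨-(δ * e.1), -(δ * e.2)⟩ := by
    apply Complex.ext
    · simp [lat]; ring
    · simp [lat]; ring
  rw [h3]
  refine (Complex.norm_le_abs_re_add_abs_im _).trans ?_
  simp only [abs_neg, abs_mul, abs_of_pos hδ]
  nlinarith

section algebra

variable {W : Type*} [NormedAddCommGroup W] [NormedSpace ℂ W]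

theorem near_sum_chi {δ : ℝ} (hδ : 0 < δ) (x : ℂ) :
    ∑ l ∈ near hδ x, (chi δ l x : ℂ) = 1 := by
  have h1 : ∑ l ∈ near hδ x, chi δ l x = 1 := by
    rw [← (hasSum_chi hδ x).tsum_eq]
    symm
    apply tsum_eq_sum
    intro k hk
    exact chi_eq_zero_of_notMem_near hδ (by simpa using hδ) hk
  have h2 := congrArg (fun r : ℝ => (r : ℂ)) h1
  simpa using h2

/-- summation over the neighbours of `l` -/
theorem off_sum {δ : ℝ} (hδ : 0 < δ) {x : ℂ} {l : ℤ × ℤ} (hl : chi δ l x ≠ 0) (g : ℤ × ℤ → W) :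
    ∑ e ∈ Off, dchi δ (l + e) x • g (l + e) = ∑ k ∈ near hδ x, dchi δ k x • g k := by
  have h1 : ∑ e ∈ Off, dchi δ (l + e) x • g (l + e) = ∑' e, dchi δ (l + e) x • g (l + e) := by
    symm
    apply tsum_eq_sum
    intro e he
    have : dchi δ (l + e) x = 0 := by
      by_contra hne
      apply he
      have := sub_mem_Off hδ (dchi_supp hδ hne) (chi_supp hδ hl)
      simpa using this
    rw [this, zero_smul]
  have h2 : ∑ k ∈ near hδ x, dchi δ k x • g k = ∑' k, dchi δ k x • g k := by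
    symm
    apply tsum_eq_sum
    intro k hk
    have : dchi δ k x = 0 := by
      by_contra hne
      apply hk
      obtain ⟨h3, h4⟩ := dchi_supp hδ hne
      rw [mem_near]
      exact ⟨h3.trans (by linarith), h4.trans (by linarith)⟩
    rw [this, zero_smul]
  rw [h1, h2]
  exact (Equiv.addLeft l).tsum_eq (fun k => dchi δ k x • g k)

theorem near_sum_dchi {δ : ℝ} (hδ : 0 < δ) (x : ℂ) :
    ∑ k ∈ near hδ x, dchi δ k x = 0 := by
  rw [← (hasSum_dchi hδ x).tsum_eq]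
  symm
  apply tsum_eq_sum
  intro k hk
  by_contra hne
  apply hk
  obtain ⟨h3, h4⟩ := dchi_supp hδ hne
  rw [mem_near]
  exact ⟨h3.trans (by linarith), h4.trans (by linarith)⟩

/-- the identity `∑_{l,e} χ_l ∂̄χ_{l+e} (g_{l+e} - g_l) = ∑_k ∂̄χ_k g_k` -/
theorem cocycle_identity {δ : ℝ} (hδ : 0 < δ) (x : ℂ) (g : ℤ × ℤ → W) :
    ∑ e ∈ Off, ∑ l ∈ near hδ x, ((chi δ l x : ℂ) * dchi δ (l + e) x) • (g (l + e) - g l) =
      ∑ k ∈ near hδ x, dchi δ k x • g k := by
  rw [Finset.sum_comm]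
  have h1 : ∀ l ∈ near hδ x, ∑ e ∈ Off,
      ((chi δ l x : ℂ) * dchi δ (l + e) x) • (g (l + e) - g l) =
      (chi δ l x : ℂ) • ∑ k ∈ near hδ x, dchi δ k x • g k := by
    intro l _
    by_cases hl : chi δ l x = 0
    · simp [hl]
    · have h2 := off_sum hδ hl g
      have h3 : ∑ e ∈ Off, dchi δ (l + e) x • g l = 0 := by
        rw [off_sum hδ hl (fun _ => g l), ← Finset.sum_smul, near_sum_dchi hδ, zero_smul]
      rw [← h2, Finset.smul_sum]
      have h4 : ∑ e ∈ Off, ((chi δ l x : ℂ) * dchi δ (l + e) x) • (g (l + e) - g l) =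
          ∑ e ∈ Off, (chi δ l x : ℂ) • dchi δ (l + e) x • g (l + e) -
            (chi δ l x : ℂ) • ∑ e ∈ Off, dchi δ (l + e) x • g l := by
        rw [Finset.smul_sum, ← Finset.sum_sub_distrib]
        refine Finset.sum_congr rfl fun e _ => ?_
        rw [mul_smul, smul_sub, smul_sub]
      rw [h4, h3, smul_zero, sub_zero]
  rw [Finset.sum_congr rfl h1, ← Finset.sum_smul, near_sum_chi, one_smul]

end algebra

section glue

variable {E₀ E₁ E₂ V₀ V₁ V₂ : Type u}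
  [NormedAddCommGroup E₀] [NormedSpace ℂ E₀] [FiniteDimensional ℂ E₀]
  [NormedAddCommGroup E₁] [NormedSpace ℂ E₁] [FiniteDimensional ℂ E₁]
  [NormedAddCommGroup E₂] [NormedSpace ℂ E₂] [FiniteDimensional ℂ E₂]
  [NormedAddCommGroup V₀] [NormedSpace ℂ V₀] [FiniteDimensional ℂ V₀]
  [NormedAddCommGroup V₁] [NormedSpace ℂ V₁] [FiniteDimensional ℂ V₁]
  [NormedAddCommGroup V₂] [NormedSpace ℂ V₂] [FiniteDimensional ℂ V₂]

theorem N2_apply_le {τ₁ : (Fin d → ℂ) → E₁ →L[ℂ] V₁} {τ₂ : (Fin d → ℂ) → E₂ →L[ℂ] V₂}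
    {D₂ : (Fin d → ℂ) → E₂ →L[ℂ] E₁} (hc2 : ∀ z v, ‖τ₁ z (D₂ z v)‖ ≤ ‖τ₂ z v‖)
    (u : (Fin d → ℂ) → E₂) (U : Set (Fin d → ℂ)) :
    N2 τ₁ (fun z => D₂ z (u z)) U ≤ N2 τ₂ u U := by
  apply lintegral_mono
  intro z
  apply ENNReal.ofReal_le_ofReal
  have := hc2 z (u z)
  gcongr

theorem gluing {τ₀ : (Fin d → ℂ) → E₀ →L[ℂ] V₀} {τ₁ : (Fin d → ℂ) → E₁ →L[ℂ] V₁}
    {τ₂ : (Fin d → ℂ) → E₂ →L[ℂ] V₂} (h0 : Moderate τ₀) (h1 : Moderate τ₁) (h2 : Moderate τ₂)
    {D₁ : (Fin d → ℂ) → E₁ →L[ℂ] E₀} {D₂ : (Fin d → ℂ) → E₂ →L[ℂ] E₁}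
    (_hD₁ : Hol D₁ Set.univ) (hD₂ : Hol D₂ Set.univ)
    (_hc1 : ∀ z v, ‖τ₀ z (D₁ z v)‖ ≤ ‖τ₁ z v‖) (hc2 : ∀ z v, ‖τ₁ z (D₂ z v)‖ ≤ ‖τ₂ z v‖)
    (hDD : ∀ z v, D₁ z (D₂ z v) = 0)
    {Adm : Set (Fin d → ℂ) → ((Fin d → ℂ) → E₀) → Prop}
    (hmono : ∀ U U' F, U' ⊆ U → Adm U F → Adm U' F)
    {S : Finset (Fin d)} {i : Fin d} (hi : i ∉ S) (hA : Lift S Adm τ₀ τ₁ D₁)
    (hB : Lift S (fun U F => ∀ z ∈ U, D₁ z (F z) = 0) τ₁ τ₂ D₂) :
    Lift (insert i S) Adm τ₀ τ₁ D₁ := by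
  have : CompleteSpace E₁ := FiniteDimensional.complete ℂ E₁
  have : CompleteSpace E₂ := FiniteDimensional.complete ℂ E₂
  have : CompleteSpace V₁ := FiniteDimensional.complete ℂ V₁
  have : CompleteSpace V₂ := FiniteDimensional.complete ℂ V₂
  intro t ht ht1
  obtain ⟨s1, hs1, hs1t, CA, hA⟩ := hA t ht ht1
  obtain ⟨s2, hs2, hs21, CB, hB⟩ := hB (s1 / 2) (by positivity) (by linarith)
  set δ : ℝ := s2 / 4 with hδdef
  have hδ : 0 < δ := by positivity
  have h4δ : 4 * δ = s2 := by rw [hδdef]; ring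
  obtain ⟨Bd, hBd⟩ := dchi_bound hδ
  have hBd0 : 0 ≤ Bd := (norm_nonneg _).trans (hBd 0 0)
  obtain ⟨Cu, hCu⟩ := csum_N2_le h2 hδ hBd0
  obtain ⟨Co, hCo⟩ := tsum_N2_le (d := d) h0.cont hδ t
  refine ⟨s2, hs2, by linarith,
    2 * (CA * Co) + 2 * (Off.card * (Off.card * (Cu * (CB * (4 * (CA * Co)))))), ?_⟩
  intro a F hF hAdm hN
  set N : ℝ≥0∞ := N2 τ₀ F (Om (insert i S) a t) with hNdef
  set ak : ℤ × ℤ → Fin d → ℂ := fun k => Function.update a i (lat δ k) with hak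
  -- the local lifts
  have hloc : ∀ k, ∃ F' : (Fin d → ℂ) → E₁, Hol F' (Om S (ak k) s1) ∧
      (∀ z ∈ Om S (ak k) s1, D₁ z (F' z) = F z) ∧
      N2 τ₁ F' (Om S (ak k) s1) ≤ CA * N2 τ₀ F (Om S (ak k) t) := by
    intro k
    have hsub : Om S (ak k) t ⊆ Om (insert i S) a t := Om_update_subset i a (lat δ k) t
    exact hA (ak k) F (hF.mono hsub) (hmono _ _ _ hsub hAdm)
      ((N2_mono τ₀ F hsub).trans_lt hN)
  choose Fk hFkHol hFkD hFkN using hloc
  set Nk : ℤ × ℤ → ℝ≥0∞ := fun k => N2 τ₁ (Fk k) (Om S (ak k) s1) with hNk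
  have hNkle : ∀ k, Nk k ≤ CA * N := by
    intro k
    have hsub : Om S (ak k) t ⊆ Om (insert i S) a t := Om_update_subset i a (lat δ k) t
    exact (hFkN k).trans (mul_le_mul_right (N2_mono τ₀ F hsub) _)
  have hNksum : ∑' k, Nk k ≤ CA * (Co * N) := by
    calc ∑' k, Nk k ≤ ∑' k, CA * N2 τ₀ F (Om S (ak k) t) := ENNReal.tsum_le_tsum hFkN
      _ = CA * ∑' k, N2 τ₀ F (Om S (ak k) t) := ENNReal.tsum_mul_left
      _ ≤ CA * (Co * N) := mul_le_mul_right (hCo hi a F hF.1) _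
  have hCAN : (CA : ℝ≥0∞) * N ≠ ∞ := ENNReal.mul_ne_top ENNReal.coe_ne_top hN.ne
  -- geometry
  have hgeo1 : ∀ l, Om S (ak l) (s1 / 2) ⊆ Om S (ak l) s1 := fun l => Om_mono S _ (by linarith)
  have hgeo2 : ∀ l e, e ∈ Off → Om S (ak l) (s1 / 2) ⊆ Om S (ak (l + e)) s1 := by
    intro l e he z hz j hj
    have hzj := hz j hj
    by_cases hji : j = i
    · subst hji
      simp only [hak, Function.update_self] at hzj ⊢
      calc ‖z j - lat δ (l + e)‖ = ‖(z j - lat δ l) + (lat δ l - lat δ (l + e))‖ := by ring_nf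
        _ ≤ ‖z j - lat δ l‖ + ‖lat δ l - lat δ (l + e)‖ := norm_add_le _ _
        _ < s1 := by
          have := norm_lat_sub hδ l he
          linarith
    · simp only [hak, Function.update_of_ne hji] at hzj ⊢
      linarith
  have hgeo3 : ∀ l, Om S (ak l) (4 * δ) ⊆ Om S (ak l) (s1 / 2) := fun l =>
    Om_mono S _ (by linarith)
  -- the relations and their lifts
  have hrel : ∀ l e, ∃ G : (Fin d → ℂ) → E₂, Hol G (Om S (ak l) (4 * δ)) ∧
      (e ∈ Off → ∀ z ∈ Om S (ak l) (4 * δ), D₂ z (G z) = Fk (l + e) z - Fk l z) ∧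
      N2 τ₂ G (Om S (ak l) (4 * δ)) ≤ CB * (2 * Nk (l + e) + 2 * Nk l) := by
    intro l e
    by_cases he : e ∈ Off
    · have hc1 : ContinuousOn (Fk (l + e)) (Om S (ak l) (s1 / 2)) :=
        (hFkHol (l + e)).1.mono (hgeo2 l e he)
      have hc2' : ContinuousOn (Fk l) (Om S (ak l) (s1 / 2)) := (hFkHol l).1.mono (hgeo1 l)
      have hRN : N2 τ₁ (fun z => Fk (l + e) z - Fk l z) (Om S (ak l) (s1 / 2)) ≤
          2 * Nk (l + e) + 2 * Nk l := by
        refine (N2_sub_le h1.cont (isOpen_Om _ _ _).measurableSet hc1).trans ?_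
        exact add_le_add (mul_le_mul_right (N2_mono τ₁ _ (hgeo2 l e he)) _)
          (mul_le_mul_right (N2_mono τ₁ _ (hgeo1 l)) _)
      have hfin : 2 * Nk (l + e) + 2 * Nk l < ∞ := by
        have hh : ∀ k, Nk k < ∞ := fun k => (hNkle k).trans_lt hCAN.lt_top
        exact ENNReal.add_lt_top.2 ⟨ENNReal.mul_lt_top (by simp) (hh _),
          ENNReal.mul_lt_top (by simp) (hh _)⟩
      obtain ⟨G, hG1, hG2, hG3⟩ := hB (ak l) (fun z => Fk (l + e) z - Fk l z)
        ⟨hc1.sub hc2', fun z hz k => ((hFkHol (l + e)).2 z (hgeo2 l e he hz) k).sub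
          ((hFkHol l).2 z (hgeo1 l hz) k)⟩
        (fun z hz => by
          rw [map_sub, hFkD (l + e) z (hgeo2 l e he hz), hFkD l z (hgeo1 l hz), sub_self])
        (hRN.trans_lt hfin)
      rw [← h4δ] at hG1 hG2 hG3
      exact ⟨G, hG1, fun _ => hG2, hG3.trans (mul_le_mul_right hRN _)⟩
    · refine ⟨fun _ => 0, ⟨continuousOn_const, fun z _ k => differentiableAt_const _⟩,
        fun h => absurd h he, ?_⟩
      have : N2 τ₂ (fun _ => 0) (Om S (ak l) (4 * δ)) = 0 := by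
        unfold N2 Wt
        simp
      rw [this]
      exact bot_le
  choose G hGHol hGD hGN using hrel
  -- the correction term
  set ψ : ℤ × ℤ → ℤ × ℤ → ℂ → ℂ := fun e l x =>
    (1 / 2 : ℂ) * ((chi δ l x : ℂ) * dchi δ (l + e) x) with hψ
  have hCS : ∀ e, CSum τ₂ S i a δ Bd (ψ e) (fun l => G l e) (CB * (2 * (CA * N) + 2 * (CA * N))) :=
    fun e =>
    { notMem := hi
      pos := hδ
      smooth := by
        intro l
        have h3 := chi_contDiff hδ l 1
        have h4 := dchi_contDiff hδ (l + e) 1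
        have h5 : ContDiff ℝ 1 (fun x => (chi δ l x : ℂ)) :=
          Complex.ofRealCLM.contDiff.comp h3
        exact contDiff_const.mul (h5.mul h4)
      bound := by
        intro l x
        have h3 := hBd (l + e) x
        have h4 : ‖(chi δ l x : ℂ)‖ ≤ 1 := by
          rw [Complex.norm_real, Real.norm_of_nonneg (chi_nonneg hδ l x)]
          exact chi_le_one hδ l x
        have h5 : ‖(1 / 2 : ℂ)‖ = 1 / 2 := by simp
        simp only [hψ]
        rw [norm_mul, norm_mul, h5]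
        nlinarith [norm_nonneg (dchi δ (l + e) x), norm_nonneg (chi δ l x : ℂ),
          mul_le_mul h4 h3 (norm_nonneg _) zero_le_one]
      supp := by
        intro l x hne
        apply chi_supp hδ
        intro h0
        apply hne
        simp [hψ, h0]
      hol := fun l => hGHol l e
      ne_top := ENNReal.mul_ne_top ENNReal.coe_ne_top (ENNReal.add_ne_top.2
        ⟨ENNReal.mul_ne_top (by simp) hCAN, ENNReal.mul_ne_top (by simp) hCAN⟩)
      le_max := fun l => (hGN l e).trans (mul_le_mul_right (add_le_add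
        (mul_le_mul_right (hNkle _) _) (mul_le_mul_right (hNkle _) _)) _) }
  set uu : (Fin d → ℂ) → E₂ := fun z => ∑ e ∈ Off, csum i δ (ψ e) (fun l => G l e) z with huu
  have hFk4 : ∀ k, Hol (Fk k) (Om S (ak k) (4 * δ)) := fun k =>
    (hFkHol k).mono ((hgeo3 k).trans (hgeo1 k))
  have huc : ContinuousOn uu (Om (insert i S) a (4 * δ)) :=
    continuousOn_finsetSum _ fun e _ => (hCS e).continuousOn h2
  refine ⟨fun z => psum i δ Fk z - D₂ z (uu z), ?_, ?_, ?_⟩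
  · rw [← h4δ]
    refine ⟨(continuousOn_psum hδ hFk4).sub ((hD₂.1.mono (Set.subset_univ _)).clm_apply huc), ?_⟩
    intro z hz j
    by_cases hj : j = i
    · subst hj
      apply HasDbar.differentiableAt
      have h3 := hasDbar_psum hδ hFk4 hz
      have h4 : HasDbar (fun x => uu (Function.update z j x))
          (∑ e ∈ Off, ∑ l ∈ near hδ (z j), (2 : ℂ) • (ψ e l (z j) • G l e z)) (z j) := by
        refine HasDbar.sum _ fun e _ => ?_
        exact (hCS e).hasDbar h2 hz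
      have h5 := h3.sub (h4.clm_apply (hD₂.2 z (Set.mem_univ _) j))
      have h6 : (∑ k ∈ near hδ (z j), dchi δ k (z j) • Fk k z) -
          D₂ (Function.update z j (z j)) (∑ e ∈ Off, ∑ l ∈ near hδ (z j),
            (2 : ℂ) • (ψ e l (z j) • G l e z)) = 0 := by
        rw [Function.update_eq_self, map_sum]
        have h7 : ∀ e ∈ Off, D₂ z (∑ l ∈ near hδ (z j), (2 : ℂ) • (ψ e l (z j) • G l e z)) =
            ∑ l ∈ near hδ (z j), ((chi δ l (z j) : ℂ) * dchi δ (l + e) (z j)) •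
              (Fk (l + e) z - Fk l z) := by
          intro e he
          rw [map_sum]
          refine Finset.sum_congr rfl fun l hl => ?_
          have hzl : z ∈ Om S (ak l) (4 * δ) :=
            mem_Om_of_near hδ hz (by simpa using hδ) hl
          rw [map_smul, map_smul, hGD l e he z hzl, smul_smul]
          congr 1
          simp only [hψ]
          ring
        rw [Finset.sum_congr rfl h7, cocycle_identity hδ (z j) (fun k => Fk k z), sub_self]
      rw [h6] at h5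
      exact h5
    · refine (differentiableAt_psum hδ hFk4 hz hj).sub ?_
      have h3 := hD₂.2 z (Set.mem_univ _) j
      refine h3.clm_apply ?_
      exact DifferentiableAt.fun_sum fun e _ => (hCS e).differentiableAt h2 hz hj
  · intro z hz
    rw [← h4δ] at hz
    have h00 : ‖z i - z i‖ < δ := by simpa using hδ
    rw [map_sub, hDD, sub_zero, psum_eq hδ h00, map_sum]
    have h3 : ∀ k ∈ near hδ (z i), D₁ z ((chi δ k (z i) : ℂ) • Fk k z) =
        (chi δ k (z i) : ℂ) • F z := by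
      intro k hk
      rw [map_smul, hFkD k z (hgeo1 k (hgeo3 k (mem_Om_of_near hδ hz h00 hk)))]
    rw [Finset.sum_congr rfl h3, ← Finset.sum_smul, near_sum_chi, one_smul]
  · rw [← h4δ]
    have hΩ := isOpen_Om (insert i S) a (4 * δ)
    have e1 : N2 τ₁ (psum i δ Fk) (Om (insert i S) a (4 * δ)) ≤ CA * (Co * N) := by
      refine (N2_psum_le h1.cont hδ hFk4).trans (le_trans ?_ hNksum)
      exact ENNReal.tsum_le_tsum fun k => N2_mono τ₁ _ ((hgeo3 k).trans (hgeo1 k))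
    have e2 : ∀ e ∈ Off, N2 τ₂ (csum i δ (ψ e) (fun l => G l e)) (Om (insert i S) a (4 * δ)) ≤
        Cu * (CB * (4 * (CA * (Co * N)))) := by
      intro e _
      refine (hCu (hCS e)).trans (mul_le_mul_right ?_ _)
      calc ∑' l, N2 τ₂ (G l e) (Om S (Function.update a i (lat δ l)) (4 * δ))
          ≤ ∑' l, CB * (2 * Nk (l + e) + 2 * Nk l) := ENNReal.tsum_le_tsum fun l => hGN l e
        _ = CB * (2 * ∑' l, Nk (l + e) + 2 * ∑' l, Nk l) := by
            rw [ENNReal.tsum_mul_left, ENNReal.tsum_add, ENNReal.tsum_mul_left,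
              ENNReal.tsum_mul_left]
        _ = CB * (2 * ∑' l, Nk l + 2 * ∑' l, Nk l) := by
            have h9 : ∑' l, Nk (l + e) = ∑' l, Nk l := (Equiv.addRight e).tsum_eq Nk
            rw [h9]
        _ = CB * (4 * ∑' l, Nk l) := by ring
        _ ≤ CB * (4 * (CA * (Co * N))) := by gcongr
    have e3 : N2 τ₁ (fun z => D₂ z (uu z)) (Om (insert i S) a (4 * δ)) ≤
        Off.card * (Off.card * (Cu * (CB * (4 * (CA * (Co * N)))))) := by
      refine (N2_apply_le hc2 uu _).trans ?_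
      refine (N2_sum_le h2.cont Off hΩ fun e _ => (hCS e).continuousOn h2).trans ?_
      refine mul_le_mul_right ?_ _
      refine (Finset.sum_le_sum e2).trans ?_
      rw [Finset.sum_const, nsmul_eq_mul]
    refine (N2_sub_le h1.cont hΩ.measurableSet (continuousOn_psum hδ hFk4)).trans ?_
    refine (add_le_add (mul_le_mul_right e1 _) (mul_le_mul_right e3 _)).trans ?_
    apply le_of_eq
    push_cast
    ring

end glue

end Pool.Agent.Lib.MP_15f9af_an.AD
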