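import Mathlib
import Pool.Agent.Lib.MP_15f9af_an.AD.Defs
import Pool.Agent.Lib.MP_15f9af_an.AD.PolBasic
import Pool.Agent.Lib.MP_15f9af_an.AD.Taylor
import Pool.Agent.Lib.MP_15f9af_an.AD.Level
import Pool.Agent.Lib.MP_15f9af_an.AD.Approx
import Pool.Agent.Lib.MP_15f9af_an.AD.SubMean

/-!
# Arveson–Douglas: local lifting
-/

namespace Pool.Agent.Lib.MP_15f9af_an.AD

open scoped ENNReal NNReal
open MeasureTheory Filter Topology

universe u v

variable {d : ℕ}

lemma lo_Om_empty (a : Fin d → ℂ) {t : ℝ} (ht : 0 < t) : Om ∅ a t = Metric.ball a t := by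
  ext z
  rw [Metric.mem_ball, dist_pi_lt_iff ht]
  simp [Om, dist_eq_norm]

lemma lo_nsq_add (a w : Fin d → ℂ) : nsq (a + w) = nsq a + nsq w + 2 * (dotc w a).re := by
  unfold nsq dotc
  rw [Complex.re_sum, Finset.mul_sum, ← Finset.sum_add_distrib, ← Finset.sum_add_distrib]
  refine Finset.sum_congr rfl fun i _ => ?_
  rw [Pi.add_apply, add_comm (a i), ← Complex.normSq_eq_norm_sq, ← Complex.normSq_eq_norm_sq,
    ← Complex.normSq_eq_norm_sq, Complex.normSq_add]
  ring

lemma lo_nsq_nonneg (w : Fin d → ℂ) : 0 ≤ nsq w := Finset.sum_nonneg fun i _ => by positivity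

lemma lo_nsq_le {w : Fin d → ℂ} (hw : ‖w‖ ≤ 1) : nsq w ≤ d := by
  unfold nsq
  calc ∑ i, ‖w i‖ ^ 2 ≤ ∑ _i : Fin d, (1 : ℝ) := Finset.sum_le_sum fun i _ => by
        have h1 := (norm_le_pi_norm w i).trans hw
        have h2 := norm_nonneg (w i)
        nlinarith
    _ = d := by simp

section l1

variable {X : Type u} [NormedAddCommGroup X] [NormedSpace ℂ X]

lemma lo_hasSum_ev (g : Pol d X) (w : Fin d → ℂ) : HasSum (fun γ => mon w γ • g γ) (ev w g) := by
  rw [lv_ev_eq_sum w g subset_rfl]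
  refine hasSum_sum_of_ne_finset_zero fun γ hγ => ?_
  rw [Finsupp.notMem_support_iff.mp hγ, smul_zero]

omit [NormedSpace ℂ X] in
lemma lo_hasSum_l1 (g : Pol d X) (s : ℝ) : HasSum (fun γ => s ^ deg γ * ‖g γ‖) (l1 s g) := by
  rw [l1, Finsupp.sum]
  refine hasSum_sum_of_ne_finset_zero fun γ hγ => ?_
  rw [Finsupp.notMem_support_iff.mp hγ, norm_zero, mul_zero]

end l1

section lift

variable {E : Type u} {V : Type u} [NormedAddCommGroup E] [NormedSpace ℂ E]
  [FiniteDimensional ℂ E] [NormedAddCommGroup V] [NormedSpace ℂ V] [FiniteDimensional ℂ V]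

/-- the sum of the local solutions -/
lemma lo_sum {τ : (Fin d → ℂ) → E →L[ℂ] V} (hτ : Moderate τ) {M : Submodule ℂ (Pol d E)}
    {m : ℕ} {r C : ℝ} (hr : 0 < r) (hC : 0 ≤ C)
    (hm : ∀ (a : Fin d → ℂ) (t : ℝ), 0 < t → t ≤ 1 → ∀ f ∈ M, ∃ c : Pol d (Wsp M m),
        (∀ w, Dop M m (a + w) (ev w c) = ev (a + w) f) ∧
        (c.sum fun γ q => (r * t) ^ deg γ * ‖tauNext τ M m a q‖) ≤
          C / t ^ m * l1 t (mapc (τ a : E →ₗ[ℂ] V) (recentre a f)))
    (a : Fin d → ℂ) {t : ℝ} (ht : 0 < t) (ht1 : t ≤ 1) {f : ℕ → Pol d E} (hf : ∀ n, f n ∈ M)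
    {L : ℕ → ℝ} {T : ℝ} (hL : HasSum L T)
    (hfL : ∀ n, l1 t (mapc (τ a : E →ₗ[ℂ] V) (recentre a (f n))) ≤ L n) :
    ∃ H : (Fin d → ℂ) → Wsp M m, Hol H (Metric.ball 0 (r * t)) ∧
      (∀ w ∈ Metric.ball (0 : Fin d → ℂ) (r * t), HasSum (fun n => ev (a + w) (f n))
        (Dop M m (a + w) (H w))) ∧
      ∀ w ∈ Metric.ball (0 : Fin d → ℂ) (r * t), ‖tauNext τ M m a (H w)‖ ≤ C / t ^ m * T := by
  have hrt : 0 < r * t := mul_pos hr ht
  choose b hb1 hb2 using fun n => hm a t ht ht1 (f n) (hf n)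
  -- the norm of the fibre
  obtain ⟨A', e', hA', hgr'⟩ := (moderate_tauNext hτ M m).growth
  obtain ⟨c, hc, hinj⟩ := (moderate_tauNext hτ M m).inj
  set κ : ℝ := c * (A' * (1 + ‖(0 : Fin d → ℂ) - a‖) ^ e') with hκ
  have hκ0 : 0 ≤ κ := by positivity
  have hnorm : ∀ v : Wsp M m, ‖v‖ ≤ κ * ‖tauNext τ M m a v‖ := fun v => by
    refine (hinj v).trans ?_
    rw [hκ, mul_assoc]
    exact mul_le_mul_of_nonneg_left (hgr' 0 a v) hc
  have hbound : ∀ n, ((b n).sum fun γ q => (r * t) ^ deg γ * ‖tauNext τ M m a q‖) ≤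
      C / t ^ m * L n := fun n => (hb2 n).trans (by
    have h1 := hfL n
    gcongr)
  -- pointwise bounds
  have hev : ∀ n, ∀ w ∈ Metric.ball (0 : Fin d → ℂ) (r * t),
      ‖tauNext τ M m a (ev w (b n))‖ ≤ C / t ^ m * L n := by
    intro n w hw
    refine le_trans ?_ (hbound n)
    rw [lv_ev_eq_sum w (b n) subset_rfl, map_sum, Finsupp.sum]
    refine (norm_sum_le _ _).trans (Finset.sum_le_sum fun γ _ => ?_)
    rw [map_smul, norm_smul]
    have h1 : ‖w‖ ≤ r * t := by simpa using (mem_ball_zero_iff.mp hw).le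
    exact mul_le_mul_of_nonneg_right ((norm_mon_le w γ).trans
      (pow_le_pow_left₀ (norm_nonneg _) h1 _)) (norm_nonneg _)
  have hev' : ∀ n, ∀ w ∈ Metric.ball (0 : Fin d → ℂ) (r * t),
      ‖ev w (b n)‖ ≤ κ * (C / t ^ m * L n) := fun n w hw =>
    (hnorm _).trans (mul_le_mul_of_nonneg_left (hev n w hw) hκ0)
  have hsum : Summable fun n => κ * (C / t ^ m * L n) :=
    (hL.summable.mul_left _).mul_left _
  have hsw : ∀ w ∈ Metric.ball (0 : Fin d → ℂ) (r * t), Summable fun n => ev w (b n) :=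
    fun w hw => Summable.of_norm_bounded hsum fun n => hev' n w hw
  refine ⟨fun w => ∑' n, ev w (b n), ?_, ?_, ?_⟩
  · refine Hol.of_tendsto (p := atTop) (f := fun (s : Finset ℕ) w => ∑ n ∈ s, ev w (b n))
      Metric.isOpen_ball (Eventually.of_forall fun s => Hol.sum fun n _ => hol_ev (b n) _) ?_
    exact (tendstoUniformlyOn_tsum hsum hev').tendstoLocallyUniformlyOn
  · intro w hw
    have h1 := (hsw w hw).hasSum.mapL (Dop M m (a + w))
    exact h1.congr_fun fun n => (hb1 n w).symm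
  · intro w hw
    have h1 := (hsw w hw).hasSum.mapL (tauNext τ M m a)
    have h2 := hL.mul_left (C / t ^ m)
    rw [← h1.tsum_eq]
    exact tsum_of_norm_bounded h2 fun n => hev n w hw

/-- the lifting of the twisted function -/
lemma lo_twisted {τ : (Fin d → ℂ) → E →L[ℂ] V} (hτ : Moderate τ) {M : Submodule ℂ (Pol d E)}
    {m : ℕ} {r C : ℝ} (hr : 0 < r) (hr1 : r ≤ 1) (hC : 0 ≤ C)
    (hm : ∀ (a : Fin d → ℂ) (t : ℝ), 0 < t → t ≤ 1 → ∀ f ∈ M, ∃ c : Pol d (Wsp M m),
        (∀ w, Dop M m (a + w) (ev w c) = ev (a + w) f) ∧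
        (c.sum fun γ q => (r * t) ^ deg γ * ‖tauNext τ M m a q‖) ≤
          C / t ^ m * l1 t (mapc (τ a : E →ₗ[ℂ] V) (recentre a f)))
    (a : Fin d → ℂ) {t t₂ S : ℝ} (ht₂ : 0 < t₂) (ht₂t : t₂ ≤ t) (ht1 : t ≤ 1)
    (hS : 0 < S) {F : (Fin d → ℂ) → E} {G : (Fin d → ℕ) → E}
    (hGs : Summable fun γ => t ^ deg γ * ‖G γ‖)
    (hG : ∀ w : Fin d → ℂ, ‖w‖ < t → HasSum (fun γ => mon w γ • G γ) (F w))
    (hGS : ∀ γ, ‖τ a (G γ)‖ ≤ S / (2 * t) ^ deg γ)
    (happ : ∀ ε : ℝ, 0 < ε → ∃ c ∈ M, ∑' γ, t₂ ^ deg γ * ‖G γ - recentre a c γ‖ ≤ ε) :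
    ∃ H : (Fin d → ℂ) → Wsp M m, Hol H (Metric.ball 0 (r * t₂)) ∧
      (∀ w ∈ Metric.ball (0 : Fin d → ℂ) (r * t₂), Dop M m (a + w) (H w) = F w) ∧
      ∀ w ∈ Metric.ball (0 : Fin d → ℂ) (r * t₂),
        ‖tauNext τ M m a (H w)‖ ≤ C / t₂ ^ m * ((2 ^ d + 6) * S) := by
  have ht : 0 < t := ht₂.trans_le ht₂t
  set ν : ℝ := ‖τ a‖ with hν
  have hν0 : 0 ≤ ν := norm_nonneg _
  set ε : ℕ → ℝ := fun n => S / ((1 + ν) * 2 ^ n) with hε
  have hεpos : ∀ n, 0 < ε n := fun n => by positivity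
  have hνε : ∀ n, ν * ε n ≤ S * (1 / 2 : ℝ) ^ n := fun n => by
    have h1 : ν * ε n = (ν / (1 + ν)) * (S * (1 / 2 : ℝ) ^ n) := by
      simp only [hε, one_div, inv_pow]
      field_simp
    rw [h1]
    have h2 : ν / (1 + ν) ≤ 1 := by
      rw [div_le_one (by positivity)]
      linarith
    exact mul_le_of_le_one_left (by positivity) h2
  choose c hcM hc using fun n => happ (ε n) (hεpos n)
  -- summability at radius `t₂`
  have hGs₂ : Summable fun γ => t₂ ^ deg γ * ‖G γ‖ := by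
    refine Summable.of_nonneg_of_le (fun γ => by positivity) (fun γ => ?_) hGs
    gcongr
  have hds : ∀ n, Summable fun γ => t₂ ^ deg γ * ‖G γ - recentre a (c n) γ‖ := fun n => by
    refine Summable.of_nonneg_of_le (fun γ => by positivity) (fun γ => ?_)
      (hGs₂.add (lo_hasSum_l1 (recentre a (c n)) t₂).summable)
    rw [← mul_add]
    gcongr
    exact norm_sub_le _ _
  -- the telescoping sequence
  set f : ℕ → Pol d E := fun n => if n = 0 then c 0 else c n - c (n - 1) with hf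
  have hfM : ∀ n, f n ∈ M := fun n => by
    rw [hf]
    by_cases h : n = 0
    · simp [h, hcM]
    · simp only [h, if_false]
      exact M.sub_mem (hcM _) (hcM _)
  have hfs : ∀ n, ∑ k ∈ Finset.range (n + 1), f k = c n := by
    intro n
    induction n with
    | zero => simp [hf]
    | succ n ih =>
      rw [Finset.sum_range_succ, ih]
      simp [hf]
  set L : ℕ → ℝ := fun n => (if n = 0 then 2 ^ d * S else 0) +
    (S * (1 / 2 : ℝ) ^ n + S * (1 / 2 : ℝ) ^ n * 2) with hL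
  have hL0 : HasSum L ((2 ^ d + 6) * S) := by
    have h1 : HasSum (fun n : ℕ => S * (1 / 2 : ℝ) ^ n) (S * 2) :=
      hasSum_geometric_two.mul_left S
    have h2 : HasSum (fun n : ℕ => if n = 0 then (2 : ℝ) ^ d * S else 0) (2 ^ d * S) :=
      hasSum_ite_eq 0 _
    have h3 := h2.add (h1.add (h1.mul_right 2))
    convert h3 using 1
    ring
  have hτG : Summable fun γ => t₂ ^ deg γ * ‖τ a (G γ)‖ := by
    refine Summable.of_nonneg_of_le (fun γ => by positivity) (fun γ => ?_) (hGs₂.mul_left ν)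
    calc t₂ ^ deg γ * ‖τ a (G γ)‖ ≤ t₂ ^ deg γ * (ν * ‖G γ‖) := by
          gcongr
          exact (τ a).le_opNorm _
      _ = ν * (t₂ ^ deg γ * ‖G γ‖) := by ring
  have hτG2 : ∑' γ, t₂ ^ deg γ * ‖τ a (G γ)‖ ≤ 2 ^ d * S := by
    have h1 : ∀ γ, t₂ ^ deg γ * ‖τ a (G γ)‖ ≤ S * (1 / 2 : ℝ) ^ deg γ := fun γ => by
      calc t₂ ^ deg γ * ‖τ a (G γ)‖ ≤ t ^ deg γ * (S / (2 * t) ^ deg γ) := by
            have := hGS γ
            gcongr
        _ = S * (1 / 2 : ℝ) ^ deg γ := by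
            rw [mul_pow]
            simp only [one_div, inv_pow]
            field_simp
    have h2 : Summable fun γ : Fin d → ℕ => S * (1 / 2 : ℝ) ^ deg γ :=
      (summable_pow_deg (by norm_num) (by norm_num)).mul_left _
    refine (Summable.tsum_le_tsum h1 hτG h2).trans (le_of_eq ?_)
    rw [tsum_mul_left, tsum_pow_deg (by norm_num) (by norm_num)]
    norm_num
    ring
  have hfL : ∀ n, l1 t₂ (mapc (τ a : E →ₗ[ℂ] V) (recentre a (f n))) ≤ L n := by
    intro n
    rw [← (lo_hasSum_l1 (mapc (τ a : E →ₗ[ℂ] V) (recentre a (f n))) t₂).tsum_eq]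
    have hs := (lo_hasSum_l1 (mapc (τ a : E →ₗ[ℂ] V) (recentre a (f n))) t₂).summable
    rcases Nat.eq_zero_or_pos n with h | h
    · subst h
      have h1 : ∀ γ, t₂ ^ deg γ * ‖mapc (τ a : E →ₗ[ℂ] V) (recentre a (f 0)) γ‖ ≤
          t₂ ^ deg γ * ‖τ a (G γ)‖ + ν * (t₂ ^ deg γ * ‖G γ - recentre a (c 0) γ‖) := fun γ => by
        have h2 : mapc (τ a : E →ₗ[ℂ] V) (recentre a (f 0)) γ =
            τ a (G γ) - τ a (G γ - recentre a (c 0) γ) := by
          rw [mapc_apply]
          simp [hf]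
        rw [h2]
        calc t₂ ^ deg γ * ‖τ a (G γ) - τ a (G γ - recentre a (c 0) γ)‖
            ≤ t₂ ^ deg γ * (‖τ a (G γ)‖ + ν * ‖G γ - recentre a (c 0) γ‖) := by
              gcongr
              refine (norm_sub_le _ _).trans ?_
              gcongr
              exact (τ a).le_opNorm _
          _ = _ := by ring
      refine (Summable.tsum_le_tsum h1 hs (hτG.add ((hds 0).mul_left ν))).trans ?_
      rw [Summable.tsum_add hτG ((hds 0).mul_left ν), tsum_mul_left]
      have h3 : ν * ∑' γ, t₂ ^ deg γ * ‖G γ - recentre a (c 0) γ‖ ≤ ν * ε 0 := by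
        have := hc 0
        gcongr
      have h4 := hνε 0
      simp only [hL, if_true, pow_zero, mul_one] at h4 ⊢
      linarith
    · have h1 : ∀ γ, t₂ ^ deg γ * ‖mapc (τ a : E →ₗ[ℂ] V) (recentre a (f n)) γ‖ ≤
          ν * (t₂ ^ deg γ * ‖G γ - recentre a (c n) γ‖) +
          ν * (t₂ ^ deg γ * ‖G γ - recentre a (c (n - 1)) γ‖) := fun γ => by
        have h2 : mapc (τ a : E →ₗ[ℂ] V) (recentre a (f n)) γ =
            τ a (G γ - recentre a (c (n - 1)) γ) - τ a (G γ - recentre a (c n) γ) := by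
          rw [mapc_apply]
          simp [hf, h.ne']
        rw [h2]
        calc t₂ ^ deg γ * ‖τ a (G γ - recentre a (c (n - 1)) γ) - τ a (G γ - recentre a (c n) γ)‖
            ≤ t₂ ^ deg γ * (ν * ‖G γ - recentre a (c (n - 1)) γ‖ +
                ν * ‖G γ - recentre a (c n) γ‖) := by
              gcongr
              refine (norm_sub_le _ _).trans ?_
              gcongr
              · exact (τ a).le_opNorm _
              · exact (τ a).le_opNorm _
          _ = _ := by ring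
      refine (Summable.tsum_le_tsum h1 hs
        (((hds n).mul_left ν).add ((hds (n - 1)).mul_left ν))).trans ?_
      rw [Summable.tsum_add ((hds n).mul_left ν) ((hds (n - 1)).mul_left ν), tsum_mul_left,
        tsum_mul_left]
      have h3 : ν * ∑' γ, t₂ ^ deg γ * ‖G γ - recentre a (c n) γ‖ ≤ ν * ε n := by
        have := hc n
        gcongr
      have h3' : ν * ∑' γ, t₂ ^ deg γ * ‖G γ - recentre a (c (n - 1)) γ‖ ≤ ν * ε (n - 1) := by
        have := hc (n - 1)
        gcongr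
      have h4 := hνε n
      have h5 := hνε (n - 1)
      have h6 : S * (1 / 2 : ℝ) ^ (n - 1) = S * (1 / 2 : ℝ) ^ n * 2 := by
        obtain ⟨k, rfl⟩ : ∃ k, n = k + 1 := ⟨n - 1, by omega⟩
        rw [Nat.add_sub_cancel, pow_succ]
        ring
      simp only [hL, h.ne', if_false, zero_add]
      linarith
  obtain ⟨H, hH1, hH2, hH3⟩ := lo_sum hτ hr hC hm a ht₂ (ht₂t.trans ht1) hfM hL0 hfL
  refine ⟨H, hH1, fun w hw => ?_, hH3⟩
  have hw₂ : ‖w‖ ≤ t₂ := by
    have h1 := (mem_ball_zero_iff.mp hw).le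
    nlinarith
  have hwt : ‖w‖ < t := by
    have h1 := mem_ball_zero_iff.mp hw
    nlinarith
  -- the limit
  have h1 : Tendsto (fun n => ev w (recentre a (c n))) atTop (𝓝 (Dop M m (a + w) (H w))) := by
    have h2 := (hH2 w hw).tendsto_sum_nat.comp (tendsto_add_atTop_nat 1)
    refine h2.congr fun n => ?_
    simp only [Function.comp]
    rw [← map_sum, hfs, ev_recentre]
  have h2 : Tendsto (fun n => ev w (recentre a (c n))) atTop (𝓝 (F w)) := by
    rw [tendsto_iff_norm_sub_tendsto_zero]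
    have h3 : Tendsto ε atTop (𝓝 0) := by
      have h4 : ε = fun n => (S / (1 + ν)) * (1 / 2 : ℝ) ^ n := by
        funext n
        simp only [hε, one_div, inv_pow]
        field_simp
      rw [h4, ← mul_zero (S / (1 + ν))]
      exact (tendsto_pow_atTop_nhds_zero_of_lt_one (by norm_num) (by norm_num)).const_mul _
    refine squeeze_zero (fun n => norm_nonneg _) (fun n => ?_) h3
    have h4 := (hG w hwt).sub (lo_hasSum_ev (recentre a (c n)) w)
    rw [norm_sub_rev, ← h4.tsum_eq]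
    refine (tsum_of_norm_bounded (hds n).hasSum fun γ => ?_).trans (hc n)
    rw [← smul_sub, norm_smul]
    exact mul_le_mul_of_nonneg_right ((norm_mon_le w γ).trans
      (pow_le_pow_left₀ (norm_nonneg _) hw₂ _)) (norm_nonneg _)
  exact tendsto_nhds_unique h1 h2

lemma lo_norm_exp_sq (x : ℂ) : ‖Complex.exp x‖ ^ 2 = Real.exp (2 * x.re) := by
  rw [Complex.norm_exp, ← Real.exp_nat_mul]
  norm_num

/-- local lifting -/
theorem local_lift {τ : (Fin d → ℂ) → E →L[ℂ] V} (hτ : Moderate τ) {M : Submodule ℂ (Pol d E)}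
    {Adm : Set (Fin d → ℂ) → ((Fin d → ℂ) → E) → Prop}
    (hmono : ∀ U U' F, U' ⊆ U → Adm U F → Adm U' F) (happ : Approx M Adm)
    {m : ℕ} {r C : ℝ} (hr : 0 < r) (hr1 : r ≤ 1) (hC : 0 ≤ C)
    (hm : ∀ (a : Fin d → ℂ) (t : ℝ), 0 < t → t ≤ 1 → ∀ f ∈ M, ∃ c : Pol d (Wsp M m),
        (∀ w, Dop M m (a + w) (ev w c) = ev (a + w) f) ∧
        (c.sum fun γ q => (r * t) ^ deg γ * ‖tauNext τ M m a q‖) ≤
          C / t ^ m * l1 t (mapc (τ a : E →ₗ[ℂ] V) (recentre a f))) :
    Lift ∅ Adm τ (tauNext τ M m) (Dop M m) := by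
  intro t ht ht1
  have : CompleteSpace E := FiniteDimensional.complete ℂ E
  have : CompleteSpace V := FiniteDimensional.complete ℂ V
  obtain ⟨t₂, ht₂, ht₂t, happ⟩ := happ (t / 4) (by positivity) (by linarith)
  obtain ⟨A, e, hA, hgr⟩ := hτ.growth
  obtain ⟨A', e', hA', hgr'⟩ := (moderate_tauNext hτ M m).growth
  obtain ⟨c₀, hc₀, hinj⟩ := hτ.inj
  obtain ⟨K, hK⟩ := submean hτ (ε := t / 2) (by positivity)
  have hrt : r * t₂ ≤ t / 4 := by nlinarith
  have hrt0 : 0 < r * t₂ := mul_pos hr ht₂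
  set c₁ : ℝ := A ^ 2 * 4 ^ e * Real.exp d * K with hc₁
  have hc₁0 : 0 ≤ c₁ := by positivity
  set c₂ : ℝ := (A' * 2 ^ e' * (C / t₂ ^ m * (2 ^ d + 6))) ^ 2 * c₁ with hc₂
  have hc₂0 : 0 ≤ c₂ := by positivity
  refine ⟨r * t₂, hrt0, by linarith, (ENNReal.ofReal c₂ *
    volume (Metric.ball (0 : Fin d → ℂ) (r * t₂))).toNNReal, fun a F hF hAdm hI => ?_⟩
  rw [lo_Om_empty a ht] at hF hAdm hI ⊢
  rw [lo_Om_empty a hrt0]
  set I : ℝ := (N2 τ F (Metric.ball a t)).toReal with hIdef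
  have hI0 : 0 ≤ I := ENNReal.toReal_nonneg
  have hIof : N2 τ F (Metric.ball a t) = ENNReal.ofReal I := (ENNReal.ofReal_toReal hI.ne).symm
  -- sub-mean value bound
  have hsub : ∀ z ∈ Metric.ball a (t / 2), ‖τ z (F z)‖ ^ 2 * Real.exp (-nsq z) ≤ K * I := by
    intro z hz
    have hball : Metric.ball z (t / 2) ⊆ Metric.ball a t := by
      refine Metric.ball_subset_ball' ?_
      have := Metric.mem_ball.mp hz
      linarith
    have h1 := hK z F (hF.of_subset hball)
    have h2 : N2 τ F (Metric.ball z (t / 2)) ≤ N2 τ F (Metric.ball a t) :=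
      lintegral_mono_set hball
    have h3 : Wt τ F z ≤ ENNReal.ofReal (K * I) := by
      refine h1.trans ?_
      rw [ENNReal.ofReal_mul (NNReal.coe_nonneg K), ← hIof, ENNReal.ofReal_coe_nnreal]
      gcongr
    rw [Wt] at h3
    exact (ENNReal.ofReal_le_ofReal_iff (by positivity)).mp h3
  -- the twisted function
  set Ft : (Fin d → ℂ) → E := fun w => Complex.exp (-dotc w a) • F (a + w) with hFt
  have hball2 : ∀ w ∈ Metric.ball (0 : Fin d → ℂ) (t / 2), a + w ∈ Metric.ball a (t / 2) := by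
    intro w hw
    simpa [Metric.mem_ball, dist_eq_norm] using hw
  have hFtHol : Hol Ft (Metric.ball 0 (t / 2)) := by
    refine ((hol_dotc a _).neg.cexp).smul ((hF.translate a).of_subset fun w hw => ?_)
    exact Metric.ball_subset_ball (by linarith) (hball2 w hw)
  set S : ℝ := Real.sqrt (c₁ * I * Real.exp (nsq a)) with hSdef
  have hS0 : 0 ≤ S := Real.sqrt_nonneg _
  have hSsq : S ^ 2 = c₁ * I * Real.exp (nsq a) := Real.sq_sqrt (by positivity)
  have hbS : ∀ w ∈ Metric.ball (0 : Fin d → ℂ) (t / 2), ‖τ a (Ft w)‖ ≤ S := by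
    intro w hw
    have hw1 : ‖w‖ ≤ 1 := by
      have := mem_ball_zero_iff.mp hw
      linarith
    refine Real.le_sqrt_of_sq_le ?_
    have h1 := hgr a (a + w) (Ft w)
    have h2 : ‖a - (a + w)‖ = ‖w‖ := by
      rw [sub_add_cancel_left, norm_neg]
    rw [h2] at h1
    have h3 : ‖τ (a + w) (Ft w)‖ ^ 2 =
        Real.exp (nsq a + nsq w) * (‖τ (a + w) (F (a + w))‖ ^ 2 * Real.exp (-nsq (a + w))) := by
      rw [hFt]
      simp only [map_smul, norm_smul, mul_pow, lo_norm_exp_sq, Complex.neg_re]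
      rw [lo_nsq_add]
      have h4 : Real.exp (2 * -(dotc w a).re) = Real.exp (nsq a + nsq w) *
          Real.exp (-(nsq a + nsq w + 2 * (dotc w a).re)) := by
        rw [← Real.exp_add]
        congr 1
        ring
      rw [h4]
      ring
    have h5 := hsub _ (hball2 w hw)
    calc ‖τ a (Ft w)‖ ^ 2 ≤ (A * (1 + ‖w‖) ^ e * ‖τ (a + w) (Ft w)‖) ^ 2 := by
          gcongr
      _ ≤ (A * 2 ^ e * ‖τ (a + w) (Ft w)‖) ^ 2 := by
          gcongr
          linarith
      _ = A ^ 2 * 4 ^ e * ‖τ (a + w) (Ft w)‖ ^ 2 := by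
          rw [mul_pow, mul_pow, ← pow_mul, mul_comm e 2, pow_mul]
          norm_num
      _ ≤ A ^ 2 * 4 ^ e * (Real.exp (nsq a + d) * (K * I)) := by
          rw [h3]
          have h6 := lo_nsq_le hw1
          gcongr
      _ = c₁ * I * Real.exp (nsq a) := by
          rw [hc₁, Real.exp_add]
          ring
  rcases hS0.eq_or_lt with hSz | hSpos
  · -- the trivial case
    refine ⟨fun _ => 0, hol_const _ _, fun z hz => ?_, ?_⟩
    · rw [map_zero]
      have hzw : z - a ∈ Metric.ball (0 : Fin d → ℂ) (t / 2) := by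
        have h1 := Metric.mem_ball.mp hz
        rw [mem_ball_zero_iff, ← dist_eq_norm]
        linarith
      have h1 := hbS _ hzw
      rw [← hSz] at h1
      have h2 : τ a (Ft (z - a)) = 0 := norm_le_zero_iff.mp h1
      have h3 := hgr 0 a (Ft (z - a))
      rw [h2, norm_zero, mul_zero] at h3
      have h4 := hinj (Ft (z - a))
      have h5 : ‖τ 0 (Ft (z - a))‖ = 0 := le_antisymm h3 (norm_nonneg _)
      rw [h5, mul_zero] at h4
      have h6 : Ft (z - a) = 0 := norm_le_zero_iff.mp h4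
      rw [hFt] at h6
      simp only [add_sub_cancel, smul_eq_zero, Complex.exp_ne_zero, false_or] at h6
      exact h6.symm
    · have h1 : N2 (tauNext τ M m) (fun _ => 0) (Metric.ball a (r * t₂)) = 0 := by
        simp [N2, Wt]
      rw [h1]
      exact bot_le
  -- Taylor coefficients
  obtain ⟨G, hG⟩ := exists_hasTaylor (F := Ft) (a := 0) (t := t / 2) (by positivity) hFtHol
  have hG2 : ∀ w : Fin d → ℂ, ‖w‖ < t / 4 → HasSum (fun γ => mon w γ • G γ) (Ft w) := by
    intro w hw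
    have h1 := hG.2 w (by linarith)
    rwa [zero_add] at h1
  have hG1 : Summable fun γ => (t / 4) ^ deg γ * ‖G γ‖ := hG.1 _ (by positivity) (by linarith)
  have hGS : ∀ γ, ‖τ a (G γ)‖ ≤ S / (2 * (t / 4)) ^ deg γ := by
    intro γ
    have h1 := hG.bound_map (by positivity) hFtHol (τ a) hbS γ
    rwa [show 2 * (t / 4) = t / 2 by ring]
  obtain ⟨H, hH1, hH2, hH3⟩ := lo_twisted hτ hr hr1 hC hm a ht₂ ht₂t (by linarith) hSpos
    (F := Ft) hG1 hG2 hGS (happ a F (hF.of_subset (Metric.ball_subset_ball (by linarith)))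
      (hmono _ _ F (Metric.ball_subset_ball (by linarith)) hAdm) G hG1 hG2)
  have hmem : ∀ z ∈ Metric.ball a (r * t₂), z - a ∈ Metric.ball (0 : Fin d → ℂ) (r * t₂) := by
    intro z hz
    rwa [mem_ball_zero_iff, ← dist_eq_norm]
  refine ⟨fun z => Complex.exp (dotc (z - a) a) • H (z - a), ?_, fun z hz => ?_, ?_⟩
  · have h1 : Hol (fun w => Complex.exp (dotc w a) • H w) (Metric.ball 0 (r * t₂)) :=
      (hol_exp_dotc a _).smul hH1
    have h2 := (h1.translate (-a)).of_subset (Ω' := Metric.ball a (r * t₂)) fun z hz => by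
      change -a + z ∈ Metric.ball 0 (r * t₂)
      rw [neg_add_eq_sub]
      exact hmem z hz
    simpa only [neg_add_eq_sub] using h2
  · rw [map_smul]
    have h1 := hH2 _ (hmem z hz)
    rw [add_sub_cancel] at h1
    rw [h1, hFt]
    simp only [add_sub_cancel, smul_smul]
    rw [← Complex.exp_add, add_neg_cancel, Complex.exp_zero, one_smul]
  · -- the final estimate
    have hpt : ∀ z ∈ Metric.ball a (r * t₂), Wt (tauNext τ M m)
        (fun z => Complex.exp (dotc (z - a) a) • H (z - a)) z ≤ ENNReal.ofReal (c₂ * I) := by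
      intro z hz
      have hw := hmem z hz
      set w := z - a with hwdef
      have hz' : z = a + w := by rw [hwdef, add_sub_cancel]
      have hw1 : ‖w‖ ≤ 1 := by
        have := mem_ball_zero_iff.mp hw
        linarith
      rw [Wt]
      refine ENNReal.ofReal_le_ofReal ?_
      have h1 := hgr' z a (H w)
      have h2 := hH3 w hw
      rw [← hwdef] at h1
      have h3 : ‖tauNext τ M m z (H w)‖ ≤ A' * 2 ^ e' * (C / t₂ ^ m * ((2 ^ d + 6) * S)) := by
        refine h1.trans ?_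
        gcongr
        linarith
      have h4 : Real.exp (2 * (dotc w a).re) * Real.exp (-nsq z) ≤ Real.exp (-nsq a) := by
        rw [← Real.exp_add, Real.exp_le_exp, hz', lo_nsq_add]
        have := lo_nsq_nonneg w
        linarith
      calc ‖tauNext τ M m z (Complex.exp (dotc w a) • H w)‖ ^ 2 * Real.exp (-nsq z)
          = ‖tauNext τ M m z (H w)‖ ^ 2 *
              (Real.exp (2 * (dotc w a).re) * Real.exp (-nsq z)) := by
            rw [map_smul, norm_smul, mul_pow, lo_norm_exp_sq]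
            ring
        _ ≤ (A' * 2 ^ e' * (C / t₂ ^ m * ((2 ^ d + 6) * S))) ^ 2 * Real.exp (-nsq a) := by
            gcongr
        _ = (A' * 2 ^ e' * (C / t₂ ^ m * (2 ^ d + 6))) ^ 2 * S ^ 2 * Real.exp (-nsq a) := by
            ring
        _ = c₂ * I * (Real.exp (nsq a) * Real.exp (-nsq a)) := by
            rw [hSsq, hc₂]
            ring
        _ = c₂ * I := by
            rw [← Real.exp_add, add_neg_cancel, Real.exp_zero, mul_one]
    have hvol : volume (Metric.ball a (r * t₂)) =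
        volume (Metric.ball (0 : Fin d → ℂ) (r * t₂)) := by
      rw [Measure.addHaar_ball_center]
    have hfin : ENNReal.ofReal c₂ * volume (Metric.ball (0 : Fin d → ℂ) (r * t₂)) ≠ ∞ :=
      ENNReal.mul_ne_top ENNReal.ofReal_ne_top measure_ball_lt_top.ne
    calc N2 (tauNext τ M m) (fun z => Complex.exp (dotc (z - a) a) • H (z - a))
          (Metric.ball a (r * t₂))
        ≤ ∫⁻ _z in Metric.ball a (r * t₂), ENNReal.ofReal (c₂ * I) :=
          setLIntegral_mono' Metric.isOpen_ball.measurableSet hpt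
      _ = ENNReal.ofReal (c₂ * I) * volume (Metric.ball a (r * t₂)) := by
          rw [setLIntegral_const]
      _ = _ := by
          rw [hvol, ENNReal.coe_toNNReal hfin, hIof, ENNReal.ofReal_mul hc₂0]
          ring
      _ ≤ _ := le_rfl

end lift

/-- local lifting -/
theorem Level.lift_empty (X : Level.{u} d) :
    Lift ∅ X.Adm X.τ (tauNext X.τ X.M X.m) (Dop X.M X.m) := by
  obtain ⟨r, C, hr, hr1, hC, hm⟩ := X.m_spec
  exact local_lift X.hτ X.mono X.approx hr hr1 hC hm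

end Pool.Agent.Lib.MP_15f9af_an.AD
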