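import Mathlib
import Pool.Agent.Lib.MP_15f9af_an.AD.Defs
import Pool.Agent.Lib.MP_15f9af_an.AD.Taylor
import Pool.Agent.Lib.MP_15f9af_an.AD.Parseval
import Pool.Agent.Lib.MP_15f9af_an.AD.Level
import Pool.Agent.Lib.MP_15f9af_an.AD.Approx
import Pool.Agent.Lib.MP_15f9af_an.AD.Local
import Pool.Agent.Lib.MP_15f9af_an.AD.Glue

/-!
# Arveson–Douglas: lifting on all sets `Om S a t`, and the global lifting
-/

namespace Pool.Agent.Lib.MP_15f9af_an.AD

open scoped ENNReal NNReal
open MeasureTheory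

universe u v

variable {d : ℕ}

namespace Level

theorem lift (S : Finset (Fin d)) : ∀ X : Level.{u} d,
    Lift S X.Adm X.τ (tauNext X.τ X.M X.m) (Dop X.M X.m) := by
  classical
  induction S using Finset.induction_on with
  | empty => exact lift_empty
  | insert i S hi ih =>
    intro X
    have h1 := ih X
    have h2 := ih X.next
    exact gluing X.hτ (moderate_tauNext X.hτ X.M X.m) X.next.next.hτ (hol_Dop X.M X.m)
      (hol_Dop X.next.M X.next.m) (Dop_le X.τ X.M X.m) (Dop_le X.next.τ X.next.M X.next.m)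
      (Dop_Dop X.M X.m X.next.m) X.mono hi h1 h2

end Level

variable {K : Type u} [NormedAddCommGroup K] [InnerProductSpace ℂ K] [FiniteDimensional ℂ K]

/-- the global lifting for a submodule of polynomials -/
theorem global_lifting (M : Submodule ℂ (Pol d K)) (hM : IsMod M) :
    ∃ (m : ℕ) (C : ℝ≥0), ∀ f ∈ M, ∃ c : (Fin d → ℂ) → Wsp M m, Hol c Set.univ ∧
      (∀ z, Dop M m z (c z) = ev z f) ∧
      N2 (tauNext (fun _ => ContinuousLinearMap.id ℂ K) M m) c Set.univ ≤
        C * ∫⁻ z, ENNReal.ofReal (‖ev z f‖ ^ 2 * Real.exp (-nsq z)) := by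
  have : CompleteSpace K := FiniteDimensional.complete ℂ K
  set m : ℕ := (zeroLevel M hM).m with hm
  have hlift : Lift Finset.univ (fun U F => ∃ f ∈ M, ∀ z ∈ U, F z = ev z f)
      (fun _ : Fin d → ℂ => ContinuousLinearMap.id ℂ K)
      (tauNext (fun _ => ContinuousLinearMap.id ℂ K) M m) (Dop M m) :=
    (zeroLevel M hM).lift Finset.univ
  obtain ⟨t', -, -, C, h⟩ := hlift 1 one_pos le_rfl
  refine ⟨m, C, fun f hf => ?_⟩
  have hOm : ∀ (a : Fin d → ℂ) (t : ℝ), Om Finset.univ a t = Set.univ := fun a t => by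
    ext z
    simp [Om]
  have hN : N2 (fun _ : Fin d → ℂ => ContinuousLinearMap.id ℂ K) (fun z => ev z f) Set.univ =
      ∫⁻ z, ENNReal.ofReal (‖ev z f‖ ^ 2 * Real.exp (-nsq z)) := by
    rw [N2, Measure.restrict_univ]
    rfl
  obtain ⟨c, hc1, hc2, hc3⟩ := h 0 (fun z => ev z f) (hol_ev f _) ⟨f, hf, fun z _ => rfl⟩ (by
      rw [hOm, hN, gauss_parseval]
      exact ENNReal.ofReal_lt_top)
  rw [hOm] at hc1 hc2 hc3
  refine ⟨c, hc1, fun z => hc2 z (Set.mem_univ z), ?_⟩
  rw [hOm, hN] at hc3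
  exact hc3

end Pool.Agent.Lib.MP_15f9af_an.AD
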