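import Mathlib
import Pool.Agent.Lib.MP_15f9af_an.AD.Defs
import Pool.Agent.Lib.MP_15f9af_an.AD.PolBasic
import Pool.Agent.Lib.MP_15f9af_an.AD.Taylor
import Pool.Agent.Lib.MP_15f9af_an.AD.Parseval
import Pool.Agent.Lib.MP_15f9af_an.AD.GlobalLift
import Pool.Agent.Lib.MP_15f9af_an.AD.AdBessel
import Pool.Agent.Lib.MP_15f9af_an.AD.AdSplit

/-!
# Arveson–Douglas: the inequality (AD)
-/

namespace Pool.Agent.Lib.MP_15f9af_an.AD

open scoped ENNReal NNReal
open MeasureTheory Filter Topology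

universe u v

variable {d : ℕ}

variable {K : Type u} [NormedAddCommGroup K] [InnerProductSpace ℂ K]

lemma ai_fock_eq {f g : Pol d K} {s : Finset (Fin d → ℕ)} (hs : f.support ⊆ s) :
    fock f g = ∑ α ∈ s, (mfact α : ℂ) * inner ℂ (f α) (g α) := by
  rw [fock, Finsupp.sum_of_support_subset _ hs]
  intro α _
  rw [inner_zero_left, mul_zero]

lemma ai_fock_conj (f g : Pol d K) : fock f g = (starRingEnd ℂ) (fock g f) := by
  classical
  rw [ai_fock_eq (s := f.support ∪ g.support) Finset.subset_union_left,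
    ai_fock_eq (s := f.support ∪ g.support) Finset.subset_union_right, map_sum]
  refine Finset.sum_congr rfl fun α _ => ?_
  rw [map_mul, inner_conj_symm]
  congr 1
  rw [Complex.conj_natCast]

lemma ai_fock_self (f : Pol d K) :
    (fock f f).re = ∑ α ∈ f.support, (mfact α : ℝ) * ‖f α‖ ^ 2 := by
  rw [ai_fock_eq (f := f) subset_rfl, Complex.re_sum]
  refine Finset.sum_congr rfl fun α _ => ?_
  rw [inner_self_eq_norm_sq_to_K, ← Complex.ofReal_natCast, RCLike.ofReal_eq_complex_ofReal,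
    ← Complex.ofReal_pow, ← Complex.ofReal_mul, Complex.ofReal_re]

lemma ai_comp_apply {n : ℕ} {h : Pol d K} (hh : comp n h = h) {α : Fin d → ℕ} (hα : deg α ≠ n) :
    h α = 0 := by
  rw [← hh]
  change (h.filter fun α => deg α = n) α = 0
  exact Finsupp.filter_apply_neg _ _ hα

variable [FiniteDimensional ℂ K]

/-- the inequality (AD) -/
theorem ad_inequality (M : Submodule ℂ (Pol d K)) (hM : IsMod M)
    (hgr : ∀ f ∈ M, ∀ n, comp n f ∈ M) :
    ∃ C : ℝ, 0 ≤ C ∧ ∀ (i : Fin d) (n : ℕ) (f h : Pol d K), f ∈ M → comp (n + 1) f = f →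
      comp n h = h → (∀ g ∈ M, comp n g = g → fock g h = 0) →
      ‖fock h (pd i f)‖ ≤ C * Real.sqrt (fock h h).re * Real.sqrt (fock f f).re := by
  have : CompleteSpace K := FiniteDimensional.complete ℂ K
  obtain ⟨m, C, hlift⟩ := global_lifting M hM
  have : CompleteSpace (Wsp M m) := FiniteDimensional.complete ℂ (Wsp M m)
  refine ⟨Real.sqrt C, Real.sqrt_nonneg _, fun i n f h hf hfn hhn horth => ?_⟩
  obtain ⟨c, hc1, hc2, hc3⟩ := hlift f hf
  obtain ⟨G, hG1, hG2⟩ := taylor_entire hc1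
  obtain ⟨A, hAM, hAn, -, hA⟩ := fi_split hM hgr G i n hfn (fi_coeff hG1 hG2 hc2)
  set b : (Fin d → ℕ) → K := fun κ => ∑ β ∈ degLe d m, (β i : ℂ) •
    shf (dec i β) (fun γ => toPol m (G γ : degLe d m → K) β) κ with hb
  have hpi : (0 : ℝ) < Real.pi ^ d := by positivity
  -- Bessel
  have hbes : ∑ κ ∈ h.support, (mfact κ : ℝ) * ‖b κ‖ ^ 2 ≤ C * (fock f f).re := by
    have h1 := (fi_bessel hG1 hG2 i h.support).trans hc3
    rw [gauss_parseval, ← ENNReal.ofReal_coe_nnreal, ← ENNReal.ofReal_mul (NNReal.coe_nonneg C)]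
      at h1
    have h2 : 0 ≤ ∑ α ∈ f.support, (mfact α : ℝ) * ‖f α‖ ^ 2 :=
      Finset.sum_nonneg fun α _ => by positivity
    rw [ENNReal.ofReal_le_ofReal_iff (by
      rw [Finsupp.sum]
      positivity)] at h1
    rw [ai_fock_self]
    rw [Finsupp.sum] at h1
    have h3 : Real.pi ^ d * ∑ κ ∈ h.support, (mfact κ : ℝ) * ‖b κ‖ ^ 2 ≤
        Real.pi ^ d * (C * ∑ α ∈ f.support, (mfact α : ℝ) * ‖f α‖ ^ 2) := by
      refine h1.trans (le_of_eq ?_)
      ring
    exact le_of_mul_le_mul_left h3 hpi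
  -- the pairing
  have hpair : fock h (pd i f) = ∑ κ ∈ h.support, (mfact κ : ℂ) * inner ℂ (h κ) (b κ) := by
    have h0 : fock h A = 0 := by
      rw [ai_fock_conj, horth A hAM hAn, map_zero]
    have h1 : fock h (pd i f) = fock h A +
        ∑ κ ∈ h.support, (mfact κ : ℂ) * inner ℂ (h κ) (b κ) := by
      rw [ai_fock_eq (f := h) subset_rfl, ai_fock_eq (f := h) subset_rfl,
        ← Finset.sum_add_distrib]
      refine Finset.sum_congr rfl fun κ hκ => ?_
      have h2 : deg κ = n := by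
        by_contra h3
        exact (Finsupp.mem_support_iff.mp hκ) (ai_comp_apply hhn h3)
      rw [hA κ h2, inner_add_right, mul_add]
    rw [h1, h0, zero_add]
  rw [hpair]
  -- Cauchy–Schwarz
  have hCS : ‖∑ κ ∈ h.support, (mfact κ : ℂ) * inner ℂ (h κ) (b κ)‖ ≤
      Real.sqrt (∑ κ ∈ h.support, (mfact κ : ℝ) * ‖h κ‖ ^ 2) *
      Real.sqrt (∑ κ ∈ h.support, (mfact κ : ℝ) * ‖b κ‖ ^ 2) := by
    have h1 : ‖∑ κ ∈ h.support, (mfact κ : ℂ) * inner ℂ (h κ) (b κ)‖ ≤
        ∑ κ ∈ h.support, (Real.sqrt (mfact κ) * ‖h κ‖) * (Real.sqrt (mfact κ) * ‖b κ‖) := by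
      refine (norm_sum_le _ _).trans (Finset.sum_le_sum fun κ _ => ?_)
      rw [norm_mul, Complex.norm_natCast]
      calc (mfact κ : ℝ) * ‖inner ℂ (h κ) (b κ)‖ ≤ (mfact κ : ℝ) * (‖h κ‖ * ‖b κ‖) := by
            gcongr
            exact norm_inner_le_norm _ _
        _ = (Real.sqrt (mfact κ) * Real.sqrt (mfact κ)) * (‖h κ‖ * ‖b κ‖) := by
            rw [Real.mul_self_sqrt (Nat.cast_nonneg _)]
        _ = _ := by ring
    refine h1.trans ?_
    have h2 := Real.sum_mul_le_sqrt_mul_sqrt h.support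
      (fun κ => Real.sqrt (mfact κ) * ‖h κ‖) (fun κ => Real.sqrt (mfact κ) * ‖b κ‖)
    simp only [mul_pow, Real.sq_sqrt (Nat.cast_nonneg _)] at h2
    exact h2
  refine hCS.trans ?_
  rw [← ai_fock_self]
  calc Real.sqrt (fock h h).re * Real.sqrt (∑ κ ∈ h.support, (mfact κ : ℝ) * ‖b κ‖ ^ 2)
      ≤ Real.sqrt (fock h h).re * Real.sqrt (C * (fock f f).re) := by
        gcongr
    _ = _ := by
        rw [Real.sqrt_mul (NNReal.coe_nonneg C)]
        ring

end Pool.Agent.Lib.MP_15f9af_an.AD
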