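import Mathlib
import Pool.Agent.Lib.MP_15f9af_an.Space

/-!
# Counting functions of up-sets in `ℕ^d` are eventually polynomial
-/

namespace Pool.Agent.Lib.MP_15f9af_an.AD

open Polynomial Filter

/-- eventually equal to a polynomial -/
def EvPoly (f : ℕ → ℚ) : Prop := ∃ P : ℚ[X], ∀ᶠ n : ℕ in atTop, f n = P.eval (n : ℚ)

theorem EvPoly.congr {f g : ℕ → ℚ} (hf : EvPoly f) (h : ∀ᶠ n in atTop, f n = g n) :
    EvPoly g := by
  obtain ⟨P, hP⟩ := hf
  exact ⟨P, by filter_upwards [hP, h] with n h1 h2; rw [← h2, h1]⟩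

theorem EvPoly.const (c : ℚ) : EvPoly fun _ => c := ⟨C c, Eventually.of_forall fun n => by simp⟩

theorem EvPoly.add {f g : ℕ → ℚ} (hf : EvPoly f) (hg : EvPoly g) :
    EvPoly fun n => f n + g n := by
  obtain ⟨P, hP⟩ := hf
  obtain ⟨Q, hQ⟩ := hg
  exact ⟨P + Q, by filter_upwards [hP, hQ] with n h1 h2; rw [eval_add, h1, h2]⟩

theorem EvPoly.sub {f g : ℕ → ℚ} (hf : EvPoly f) (hg : EvPoly g) :
    EvPoly fun n => f n - g n := by
  obtain ⟨P, hP⟩ := hf
  obtain ⟨Q, hQ⟩ := hg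
  exact ⟨P - Q, by filter_upwards [hP, hQ] with n h1 h2; rw [eval_sub, h1, h2]⟩

theorem EvPoly.sum {ι : Type*} (s : Finset ι) {f : ι → ℕ → ℚ} (h : ∀ i ∈ s, EvPoly (f i)) :
    EvPoly fun n => ∑ i ∈ s, f i n := by
  classical
  induction s using Finset.induction_on with
  | empty => simpa using EvPoly.const 0
  | insert a s ha ih =>
    have h1 := (h a (Finset.mem_insert_self a s)).add
      (ih fun i hi => h i (Finset.mem_insert_of_mem hi))
    refine h1.congr (Eventually.of_forall fun n => ?_)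
    rw [Finset.sum_insert ha]

theorem EvPoly.comp_sub {f : ℕ → ℚ} (hf : EvPoly f) (k : ℕ) : EvPoly fun n => f (n - k) := by
  obtain ⟨P, hP⟩ := hf
  refine ⟨P.comp (X - C (k : ℚ)), ?_⟩
  filter_upwards [(tendsto_sub_atTop_nat k).eventually hP, eventually_ge_atTop k] with n h1 h2
  rw [h1, eval_comp, eval_sub, eval_X, eval_C, Nat.cast_sub h2]

theorem exists_antidiff (P : ℚ[X]) : ∃ Q : ℚ[X], ∀ x : ℚ, Q.eval (1 + x) = Q.eval x + P.eval x := by
  induction P using Polynomial.induction_on' with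
  | add p q hp hq =>
    obtain ⟨P, hP⟩ := hp
    obtain ⟨Q, hQ⟩ := hq
    refine ⟨P + Q, fun x => ?_⟩
    rw [eval_add, eval_add, eval_add, hP, hQ]
    ring
  | monomial n a =>
    refine ⟨C (a / (n + 1)) * Polynomial.bernoulli (n + 1), fun x => ?_⟩
    rw [eval_mul, eval_mul, eval_C, bernoulli_eval_one_add, eval_monomial]
    have : ((n : ℚ) + 1) ≠ 0 := by positivity
    push_cast
    rw [eval_C]
    field_simp

theorem EvPoly.sum_range {f : ℕ → ℚ} (hf : EvPoly f) :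
    EvPoly fun n => ∑ j ∈ Finset.range n, f j := by
  obtain ⟨P, hP⟩ := hf
  obtain ⟨Q, hQ⟩ := exists_antidiff P
  obtain ⟨n₀, hn₀⟩ := eventually_atTop.1 hP
  refine ⟨Q + C ((∑ j ∈ Finset.range n₀, f j) - Q.eval (n₀ : ℚ)), ?_⟩
  filter_upwards [eventually_ge_atTop n₀] with n hn
  induction n, hn using Nat.le_induction with
  | base => rw [eval_add, eval_C]; ring
  | succ n hn ih =>
    rw [Finset.sum_range_succ, ih, hn₀ n hn, eval_add, eval_add, eval_C]
    push_cast
    rw [add_comm (n : ℚ) 1, hQ, eval_C]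
    ring

/-- the number of elements of `U` of degree `n` -/
noncomputable def cnt {d : ℕ} (U : Set (Fin d → ℕ)) (n : ℕ) : ℕ :=
  {α : Fin d → ℕ | α ∈ U ∧ deg α = n}.ncard

theorem finite_deg_eq (d n : ℕ) : {α : Fin d → ℕ | deg α = n}.Finite := by
  refine (Set.finite_Iic (fun _ : Fin d => n)).subset fun α hα i => ?_
  exact (le_deg i α).trans_eq hα

theorem deg_cons {d : ℕ} (k : ℕ) (β : Fin d → ℕ) : deg (Fin.cons k β : Fin (d + 1) → ℕ) = k + deg β := by
  unfold deg
  rw [Fin.sum_univ_succ]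
  simp

theorem cnt_succ {d : ℕ} (U : Set (Fin (d + 1) → ℕ)) (n : ℕ) :
    cnt U n = ∑ k ∈ Finset.range (n + 1), cnt {β : Fin d → ℕ | (Fin.cons k β : Fin (d + 1) → ℕ) ∈ U} (n - k) := by
  classical
  unfold cnt
  have hfin : ∀ (d n : ℕ) (U : Set (Fin d → ℕ)), {α : Fin d → ℕ | α ∈ U ∧ deg α = n}.Finite :=
    fun d n U => (finite_deg_eq d n).subset fun α hα => hα.2
  have h1 : {α : Fin (d + 1) → ℕ | α ∈ U ∧ deg α = n} =
      ⋃ k ∈ Finset.range (n + 1), (fun β : Fin d → ℕ => (Fin.cons k β : Fin (d + 1) → ℕ)) ''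
        {β : Fin d → ℕ | β ∈ {β : Fin d → ℕ | (Fin.cons k β : Fin (d + 1) → ℕ) ∈ U} ∧
          deg β = n - k} := by
    ext α
    simp only [Set.mem_ofPred_eq, Finset.mem_range, Set.mem_iUnion, Set.mem_image, exists_prop]
    constructor
    · rintro ⟨hU, hd⟩
      refine ⟨α 0, ?_, Fin.tail α, ⟨?_, ?_⟩, ?_⟩
      · have := le_deg 0 α
        omega
      · rw [Fin.cons_self_tail]
        exact hU
      · have h2 := deg_cons (α 0) (Fin.tail α)
        rw [Fin.cons_self_tail] at h2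
        omega
      · exact Fin.cons_self_tail α
    · rintro ⟨k, hk, β, ⟨hU, hd⟩, rfl⟩
      refine ⟨hU, ?_⟩
      rw [deg_cons]
      omega
  rw [h1, show (⋃ k ∈ Finset.range (n + 1), (fun β : Fin d → ℕ => (Fin.cons k β : Fin (d + 1) → ℕ)) ''
        {β : Fin d → ℕ | β ∈ {β : Fin d → ℕ | (Fin.cons k β : Fin (d + 1) → ℕ) ∈ U} ∧
          deg β = n - k}) = ⋃ k ∈ (Finset.range (n + 1) : Set ℕ),
          (fun β : Fin d → ℕ => (Fin.cons k β : Fin (d + 1) → ℕ)) ''
        {β : Fin d → ℕ | β ∈ {β : Fin d → ℕ | (Fin.cons k β : Fin (d + 1) → ℕ) ∈ U} ∧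
          deg β = n - k} from rfl,
    (Finset.finite_toSet _).ncard_biUnion (fun k _ => (hfin _ _ _).image _)]
  · rw [finsum_mem_coe_finset]
    refine Finset.sum_congr rfl fun k _ => ?_
    refine Set.ncard_image_of_injective _ fun β β' h => ?_
    exact (Fin.cons_inj.1 h).2
  · intro k _ k' _ hkk'
    rw [Function.onFun, Set.disjoint_left]
    rintro _ ⟨β, _, rfl⟩ ⟨β', _, h⟩
    exact hkk' (Fin.cons_inj.1 h).1.symm

theorem EvPoly.cnt : ∀ {d : ℕ} {U : Set (Fin d → ℕ)},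
    (∀ α ∈ U, ∀ β, α ≤ β → β ∈ U) → EvPoly fun n => (cnt U n : ℚ) := by
  intro d
  induction d with
  | zero =>
    intro U _
    refine (EvPoly.const 0).congr ?_
    filter_upwards [eventually_gt_atTop 0] with n hn
    unfold AD.cnt
    have : {α : Fin 0 → ℕ | α ∈ U ∧ deg α = n} = ∅ := by
      ext α
      simp only [Set.mem_ofPred_eq, Set.mem_empty_iff_false, iff_false, not_and]
      intro _ h
      unfold deg at h
      simp at h
      omega
    rw [this, Set.ncard_empty, Nat.cast_zero]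
  | succ d ih =>
    intro U hU
    set S : ℕ → Set (Fin d → ℕ) := fun k => {β | (Fin.cons k β : Fin (d + 1) → ℕ) ∈ U} with hS
    have hcons : ∀ {k k' : ℕ} {β β' : Fin d → ℕ}, k ≤ k' → β ≤ β' →
        (Fin.cons k β : Fin (d + 1) → ℕ) ≤ Fin.cons k' β' := by
      intro k k' β β' h1 h2 j
      refine Fin.cases ?_ (fun j => ?_) j
      · simpa using h1
      · simpa using h2 j
    have hup : ∀ k, ∀ α ∈ S k, ∀ β, α ≤ β → β ∈ S k := fun k α hα β h =>
      hU _ hα _ (hcons le_rfl h)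
    have hmono : ∀ {k k'}, k ≤ k' → S k ⊆ S k' := fun h α hα => hU _ hα _ (hcons h le_rfl)
    -- the slices stabilize
    obtain ⟨k₀, hk₀⟩ : ∃ k₀, ∀ k, k₀ ≤ k → S k = S k₀ := by
      by_contra hcon
      push Not at hcon
      have hcon' : ∀ k, ∃ k', k ≤ k' ∧ ∃ β, β ∈ S k' ∧ β ∉ S k := by
        intro k
        obtain ⟨k', h1, h2⟩ := hcon k
        refine ⟨k', h1, ?_⟩
        by_contra h3
        push Not at h3
        exact h2 (Set.Subset.antisymm h3 (hmono h1))
      choose g hg b hb1 hb2 using hcon'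
      set κ : ℕ → ℕ := fun j => g^[j] 0 with hκ
      have hκs : ∀ j, κ (j + 1) = g (κ j) := fun j => Function.iterate_succ_apply' g j 0
      have hκm : Monotone κ := monotone_nat_of_le_succ fun j => by rw [hκs]; exact hg _
      obtain ⟨i, j, hij, hle⟩ := wellQuasiOrdered_le (fun j => b (κ j))
      have h1 : b (κ i) ∈ S (κ j) := by
        have h2 := hb1 (κ i)
        rw [← hκs] at h2
        exact hmono (hκm hij) h2
      exact hb2 (κ j) (hup _ _ h1 _ hle)
    -- the count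
    have h1 : ∀ᶠ n : ℕ in atTop, (∑ k ∈ Finset.range k₀, (AD.cnt (S k) (n - k) : ℚ)) +
        ∑ j ∈ Finset.range (n - k₀ + 1), (AD.cnt (S k₀) j : ℚ) = (AD.cnt U n : ℚ) := by
      filter_upwards [eventually_ge_atTop k₀] with n hn
      rw [cnt_succ, Nat.cast_sum]
      have h2 : n + 1 = k₀ + (n - k₀ + 1) := by omega
      rw [h2, Finset.sum_range_add (fun k => ((AD.cnt {β : Fin d → ℕ |
        (Fin.cons k β : Fin (d + 1) → ℕ) ∈ U} (n - k) : ℕ) : ℚ)) k₀ (n - k₀ + 1)]
      congr 1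
      rw [← Finset.sum_range_reflect (fun j => (AD.cnt (S k₀) j : ℚ)) (n - k₀ + 1)]
      refine Finset.sum_congr rfl fun j hj => ?_
      rw [Finset.mem_range] at hj
      have h3 : S (k₀ + j) = S k₀ := hk₀ _ (by omega)
      have h4 : n - (k₀ + j) = n - k₀ + 1 - 1 - j := by omega
      show (AD.cnt (S k₀) (n - k₀ + 1 - 1 - j) : ℚ) = (AD.cnt (S (k₀ + j)) (n - (k₀ + j)) : ℚ)
      rw [h3, h4]
    refine (EvPoly.add (EvPoly.sum (Finset.range k₀) (f := fun k n => (AD.cnt (S k) (n - k) : ℚ))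
      fun k _ => (ih (hup k)).comp_sub k) ?_).congr h1
    have h5 := ((ih (hup k₀)).sum_range).comp_sub k₀
    have h6 : EvPoly fun n => (AD.cnt (S k₀) (n - k₀) : ℚ) := (ih (hup k₀)).comp_sub k₀
    refine (h5.add h6).congr (Eventually.of_forall fun n => ?_)
    exact (Finset.sum_range_succ (fun j => (AD.cnt (S k₀) j : ℚ)) (n - k₀)).symm

end Pool.Agent.Lib.MP_15f9af_an.AD
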