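import Mathlib

/-!
# Dimension and leading positions

A finite dimensional space of vectors has as many leading positions as its dimension.
-/

namespace Pool.Agent.Lib.MP_15f9af_an.AD

theorem lead_finiteDimensional {ι : Type*} (s : Finset ι) (W : Submodule ℂ (ι → ℂ))
    (hW : ∀ w ∈ W, ∀ i, i ∉ s → w i = 0) : FiniteDimensional ℂ W := by
  have hinj : Function.Injective
      ((LinearMap.funLeft ℂ ℂ (fun i : s => (i : ι))).domRestrict W) := by
    intro x y hxy
    ext i
    by_cases hi : i ∈ s
    · exact congrFun hxy ⟨i, hi⟩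
    · rw [hW x x.2 i hi, hW y y.2 i hi]
  exact FiniteDimensional.of_injective _ hinj

/-- The dimension is the number of leading positions. -/
theorem finrank_eq_ncard_leads {ι : Type*} [LinearOrder ι] (s : Finset ι)
    (W : Submodule ℂ (ι → ℂ)) (hW : ∀ w ∈ W, ∀ i, i ∉ s → w i = 0) :
    Module.finrank ℂ W = {i : ι | ∃ w ∈ W, w i ≠ 0 ∧ ∀ j, j < i → w j = 0}.ncard := by
  induction s using Finset.induction_on_min generalizing W with
  | empty =>
    have h0 : W = ⊥ := by
      rw [Submodule.eq_bot_iff]
      intro w hw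
      funext i
      exact hW w hw i (Finset.notMem_empty i)
    subst h0
    rw [finrank_bot]
    symm
    rw [Set.ncard_eq_zero (Set.Finite.subset Set.finite_empty ?_)]
    · rw [Set.eq_empty_iff_forall_notMem]
      rintro i ⟨w, hw, hi, _⟩
      rw [Submodule.mem_bot] at hw
      exact hi (by rw [hw]; rfl)
    · rintro i ⟨w, hw, hi, _⟩
      rw [Submodule.mem_bot] at hw
      exact hi (by rw [hw]; rfl)
  | insert a s ha ih =>
    have hfd : FiniteDimensional ℂ W := lead_finiteDimensional _ W hW
    have has : a ∉ s := fun h => lt_irrefl a (ha a h)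
    set W' : Submodule ℂ (ι → ℂ) := W ⊓ LinearMap.ker (LinearMap.proj a : (ι → ℂ) →ₗ[ℂ] ℂ)
      with hW'def
    have hmem : ∀ w, w ∈ W' ↔ w ∈ W ∧ w a = 0 := by
      intro w
      rw [hW'def, Submodule.mem_inf, LinearMap.mem_ker, LinearMap.proj_apply]
    have hW' : ∀ w ∈ W', ∀ i, i ∉ s → w i = 0 := by
      intro w hw i hi
      have h1 := (hmem w).1 hw
      by_cases hia : i = a
      · rw [hia]; exact h1.2
      · exact hW w h1.1 i (by rw [Finset.mem_insert]; push Not; exact ⟨hia, hi⟩)
    have ih' := ih W' hW'
    -- rank-nullity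
    set φ : W →ₗ[ℂ] ℂ := (LinearMap.proj a : (ι → ℂ) →ₗ[ℂ] ℂ).domRestrict W with hφ
    have hker : Module.finrank ℂ (LinearMap.ker φ) = Module.finrank ℂ W' := by
      have e : LinearMap.ker φ = W'.comap W.subtype := by
        ext x
        rw [LinearMap.mem_ker, Submodule.mem_comap, hmem]
        constructor
        · intro h; exact ⟨x.2, h⟩
        · intro h; exact h.2
      rw [e]
      exact LinearEquiv.finrank_eq (Submodule.comapSubtypeEquivOfLe inf_le_left)
    have hrn := LinearMap.finrank_range_add_finrank_ker φ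
    rw [hker, ih'] at hrn
    have hfin : {i : ι | ∃ w ∈ W', w i ≠ 0 ∧ ∀ j, j < i → w j = 0}.Finite := by
      refine s.finite_toSet.subset ?_
      rintro i ⟨w, hw, hi, _⟩
      by_contra hcon
      exact hi (hW' w hw i hcon)
    by_cases hex : ∃ w ∈ W, w a ≠ 0
    · obtain ⟨w0, hw0, hw0a⟩ := hex
      have hr : Module.finrank ℂ (LinearMap.range φ) = 1 := by
        have : LinearMap.range φ = ⊤ := by
          apply LinearMap.range_eq_top.2
          intro c
          refine ⟨(c / w0 a) • ⟨w0, hw0⟩, ?_⟩
          change (c / w0 a) * w0 a = c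
          field_simp
        rw [this, finrank_top, Module.finrank_self]
      have hset : {i : ι | ∃ w ∈ W, w i ≠ 0 ∧ ∀ j, j < i → w j = 0} =
          insert a {i : ι | ∃ w ∈ W', w i ≠ 0 ∧ ∀ j, j < i → w j = 0} := by
        ext i
        constructor
        · rintro ⟨w, hw, hi, hj⟩
          by_cases hia : i = a
          · exact Or.inl hia
          · refine Or.inr ⟨w, (hmem w).2 ⟨hw, ?_⟩, hi, hj⟩
            have his : i ∈ s := by
              by_contra hcon
              exact hi (hW w hw i (by rw [Finset.mem_insert]; push Not; exact ⟨hia, hcon⟩))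
            exact hj a (ha i his)
        · rintro (hia | ⟨w, hw, hi, hj⟩)
          · subst hia
            refine ⟨w0, hw0, hw0a, fun j hj => ?_⟩
            refine hW w0 hw0 j ?_
            rw [Finset.mem_insert]
            rintro (h | h)
            · exact absurd h hj.ne
            · exact absurd (ha j h) (not_lt.2 hj.le)
          · exact ⟨w, ((hmem w).1 hw).1, hi, hj⟩
      rw [hset, Set.ncard_insert_of_notMem _ hfin]
      · omega
      · rintro ⟨w, hw, hi, _⟩
        exact hi ((hmem w).1 hw).2
    · push Not at hex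
      have hr : Module.finrank ℂ (LinearMap.range φ) = 0 := by
        have : LinearMap.range φ = ⊥ := by
          rw [LinearMap.range_eq_bot]
          ext x
          exact hex x x.2
        rw [this, finrank_bot]
      have hset : {i : ι | ∃ w ∈ W, w i ≠ 0 ∧ ∀ j, j < i → w j = 0} =
          {i : ι | ∃ w ∈ W', w i ≠ 0 ∧ ∀ j, j < i → w j = 0} := by
        ext i
        constructor
        · rintro ⟨w, hw, hi, hj⟩
          exact ⟨w, (hmem w).2 ⟨hw, hex w hw⟩, hi, hj⟩
        · rintro ⟨w, hw, hi, hj⟩
          exact ⟨w, ((hmem w).1 hw).1, hi, hj⟩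
      rw [hset]
      omega

end Pool.Agent.Lib.MP_15f9af_an.AD
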