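import Mathlib
import Pool.Agent.Lib.MP_15f9af_an.Bridge
import Pool.Agent.Lib.MP_15f9af_an.AD.Hilbert
import Pool.Agent.Lib.MP_15f9af_an.AD.Leads

/-!
# Existence of the Hilbert polynomial of the quotient by an invariant subspace
-/

namespace Pool.Agent.Lib.MP_15f9af_an.AD

open Polynomial Filter

universe u

variable {d : ℕ} {K : Type u} [NormedAddCommGroup K] [InnerProductSpace ℂ K]

/-- the index set of the coordinates, lexicographically ordered -/
abbrev HIdx (d N : ℕ) : Type := Lex (Lex (Fin d → ℕ) × Fin N)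

/-- the index with exponent `α` and component `i` -/
def hidx {N : ℕ} (α : Fin d → ℕ) (i : Fin N) : HIdx d N := toLex (toLex α, i)

/-- the exponent -/
def hexp {N : ℕ} (p : HIdx d N) : Fin d → ℕ := ofLex (ofLex p).1

/-- the component -/
def hcmp {N : ℕ} (p : HIdx d N) : Fin N := (ofLex p).2

theorem hidx_eta {N : ℕ} (p : HIdx d N) : hidx (hexp p) (hcmp p) = p := rfl

theorem hexp_hidx {N : ℕ} (α : Fin d → ℕ) (i : Fin N) : hexp (hidx α i) = α := rfl

theorem hcmp_hidx {N : ℕ} (α : Fin d → ℕ) (i : Fin N) : hcmp (hidx α i) = i := rfl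

theorem hidx_inj {N : ℕ} {α β : Fin d → ℕ} {i j : Fin N} (h : hidx α i = hidx β j) :
    α = β ∧ i = j := by
  constructor
  · have := congrArg hexp h
    rwa [hexp_hidx, hexp_hidx] at this
  · have := congrArg hcmp h
    rwa [hcmp_hidx, hcmp_hidx] at this

theorem lex_inc_lt {α β : Fin d → ℕ} (k : Fin d) (h : toLex α < toLex β) :
    toLex (inc k α) < toLex (inc k β) := by
  obtain ⟨l, h1, h2⟩ := h
  refine ⟨l, fun j hj => ?_, ?_⟩
  · have := h1 j hj
    show inc k α j = inc k β j
    have h3 : α j = β j := this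
    unfold inc
    by_cases hjk : j = k
    · subst hjk
      rw [Function.update_self, Function.update_self, h3]
    · rw [Function.update_of_ne hjk, Function.update_of_ne hjk, h3]
  · have h3 : α l < β l := h2
    show inc k α l < inc k β l
    unfold inc
    by_cases hlk : l = k
    · subst hlk
      rw [Function.update_self, Function.update_self]
      omega
    · rw [Function.update_of_ne hlk, Function.update_of_ne hlk]
      exact h3

theorem hidx_lt_iff {N : ℕ} {α β : Fin d → ℕ} {i j : Fin N} :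
    hidx α i < hidx β j ↔ toLex α < toLex β ∨ α = β ∧ i < j := by
  unfold hidx
  rw [Prod.Lex.toLex_lt_toLex]
  rfl

theorem hidx_inc_lt {N : ℕ} {α β : Fin d → ℕ} {i j : Fin N} (k : Fin d)
    (h : hidx (inc k α) i < hidx (inc k β) j) : hidx α i < hidx β j := by
  by_contra hcon
  rw [not_lt] at hcon
  rcases hcon.lt_or_eq with h1 | h1
  · rw [hidx_lt_iff] at h1
    have h2 : hidx (inc k β) j < hidx (inc k α) i := by
      rw [hidx_lt_iff]
      rcases h1 with h1 | ⟨h1, h3⟩
      · exact Or.inl (lex_inc_lt k h1)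
      · exact Or.inr ⟨by rw [h1], h3⟩
    exact lt_asymm h h2
  · obtain ⟨rfl, rfl⟩ := hidx_inj h1
    exact lt_irrefl _ h

theorem upset_of_inc {U : Set (Fin d → ℕ)} (h : ∀ α ∈ U, ∀ k, inc k α ∈ U) :
    ∀ α ∈ U, ∀ β, α ≤ β → β ∈ U := by
  intro α hα
  have key : ∀ n, ∀ β, deg β = n → α ≤ β → β ∈ U := by
    intro n
    induction n using Nat.strong_induction_on with
    | _ n ih =>
      intro β hβ hle
      by_cases heq : α = β
      · rwa [← heq]
      · obtain ⟨k, hk⟩ : ∃ k, α k < β k := by
          by_contra hcon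
          push Not at hcon
          exact heq (le_antisymm hle hcon)
        have hk0 : β k ≠ 0 := by omega
        have h1 : deg (dec k β) + 1 = deg β := deg_dec k β hk0
        have h2 : α ≤ dec k β := by
          intro j
          by_cases hjk : j = k
          · rw [hjk]
            have h5 : dec k β k = β k - 1 := Function.update_self _ _ _
            rw [h5]
            exact Nat.le_sub_one_of_lt hk
          · have h5 : dec k β j = β j := Function.update_of_ne hjk _ _
            rw [h5]
            exact hle j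
        have h3 := ih (deg (dec k β)) (by omega) (dec k β) rfl h2
        have h4 := h _ h3 k
        rwa [inc_dec k β hk0] at h4
  exact fun β hle => key _ β rfl hle

/-- the coordinates of `f` -/
noncomputable def coords {N : ℕ} (b : Module.Basis (Fin N) ℂ K) : DA d K →ₗ[ℂ] (HIdx d N → ℂ) where
  toFun := fun f p => b.repr (f (hexp p)) (hcmp p)
  map_add' := fun f g => by
    funext p
    simp
  map_smul' := fun c f => by
    funext p
    simp [lp.coeFn_smul]

theorem coords_apply {N : ℕ} (b : Module.Basis (Fin N) ℂ K) (f : DA d K) (p : HIdx d N) :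
    coords b f p = b.repr (f (hexp p)) (hcmp p) := rfl

theorem coords_injective {N : ℕ} (b : Module.Basis (Fin N) ℂ K) :
    Function.Injective (coords b : DA d K →ₗ[ℂ] (HIdx d N → ℂ)) := by
  intro f g h
  ext α
  apply b.repr.injective
  ext i
  have := congrFun h (hidx α i)
  rwa [coords_apply, coords_apply, hexp_hidx, hcmp_hidx] at this

theorem Mz_mem_homog {n : ℕ} {f : DA d K} (hf : f ∈ homog d K n) (k : Fin d) :
    Mz k f ∈ homog d K (n + 1) := by
  intro α hα
  by_cases h : α k = 0
  · exact Mz_apply_zero k f α h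
  · rw [Mz_apply, hf, smul_zero]
    intro h1
    have h2 := deg_dec k α h
    omega

/-- the leads of the homogeneous part of degree `n` -/
def hleads {N : ℕ} (b : Module.Basis (Fin N) ℂ K) (L : Submodule ℂ (DA d K)) (n : ℕ) :
    Set (HIdx d N) :=
  {p | ∃ w ∈ (L ⊓ homog d K n).map (coords b), w p ≠ 0 ∧ ∀ q, q < p → w q = 0}

theorem mem_hleads_deg {N : ℕ} {b : Module.Basis (Fin N) ℂ K} {L : Submodule ℂ (DA d K)} {n : ℕ}
    {p : HIdx d N} (hp : p ∈ hleads b L n) : deg (hexp p) = n := by
  obtain ⟨_, ⟨f, ⟨_, hf⟩, rfl⟩, h1, _⟩ := hp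
  by_contra h
  exact h1 (by rw [coords_apply, hf _ h, map_zero, Finsupp.zero_apply])

theorem hleads_inc {N : ℕ} {b : Module.Basis (Fin N) ℂ K} {L : Submodule ℂ (DA d K)}
    (hL : ∀ i : Fin d, ∀ f ∈ L, Mz i f ∈ L) {n : ℕ} {α : Fin d → ℕ} {i : Fin N}
    (h : hidx α i ∈ hleads b L n) (k : Fin d) : hidx (inc k α) i ∈ hleads b L (n + 1) := by
  obtain ⟨_, ⟨f, ⟨hfL, hf⟩, rfl⟩, h1, h2⟩ := h
  refine ⟨_, ⟨Mz k f, ⟨hL k f hfL, Mz_mem_homog hf k⟩, rfl⟩, ?_, ?_⟩
  · rw [coords_apply, hexp_hidx, hcmp_hidx, Mz_apply_inc, map_smul, Finsupp.smul_apply,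
      smul_eq_mul]
    refine mul_ne_zero ?_ ?_
    · rw [Complex.ofReal_ne_zero]
      exact (Real.sqrt_pos.2 (by positivity)).ne'
    · rwa [coords_apply, hexp_hidx, hcmp_hidx] at h1
  · intro q hq
    rw [← hidx_eta q] at hq ⊢
    generalize hexp q = β at hq ⊢
    generalize hcmp q = j at hq ⊢
    rw [coords_apply, hexp_hidx, hcmp_hidx]
    by_cases hβ : β k = 0
    · rw [Mz_apply_zero k f β hβ, map_zero, Finsupp.zero_apply]
    · rw [← inc_dec k β hβ] at hq ⊢
      rw [Mz_apply_inc, map_smul, Finsupp.smul_apply]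
      have h3 := h2 _ (hidx_inc_lt k hq)
      rw [coords_apply, hexp_hidx, hcmp_hidx] at h3
      rw [h3, smul_zero]

/-- the dimensions of the homogeneous parts of an invariant subspace -/
theorem evPoly_finrank [FiniteDimensional ℂ K] {L : Submodule ℂ (DA d K)}
    (hL : ∀ i : Fin d, ∀ f ∈ L, Mz i f ∈ L) :
    EvPoly fun n => (Module.finrank ℂ (L ⊓ homog d K n : Submodule ℂ (DA d K)) : ℚ) := by
  classical
  set b := Module.finBasis ℂ K with hb
  set N := Module.finrank ℂ K with hN
  set U : Fin N → Set (Fin d → ℕ) := fun i => {α | hidx α i ∈ hleads b L (deg α)} with hU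
  have hup : ∀ i, ∀ α ∈ U i, ∀ β, α ≤ β → β ∈ U i := by
    intro i
    refine upset_of_inc fun α hα k => ?_
    show hidx (inc k α) i ∈ hleads b L (deg (inc k α))
    rw [deg_inc]
    exact hleads_inc hL hα k
  have hcount : ∀ n, Module.finrank ℂ (L ⊓ homog d K n : Submodule ℂ (DA d K)) =
      ∑ i : Fin N, cnt (U i) n := by
    intro n
    have hfin : {α : Fin d → ℕ | deg α = n}.Finite := finite_deg_eq d n
    set s : Finset (HIdx d N) := (hfin.toFinset ×ˢ (Finset.univ : Finset (Fin N))).image
      (fun p => hidx p.1 p.2) with hs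
    have h1 : Module.finrank ℂ (L ⊓ homog d K n : Submodule ℂ (DA d K)) =
        Module.finrank ℂ ((L ⊓ homog d K n).map (coords b)) :=
      (LinearEquiv.finrank_eq (Submodule.equivMapOfInjective _ (coords_injective b) _))
    rw [h1, finrank_eq_ncard_leads s]
    · have h2 : {i : HIdx d N | ∃ w ∈ (L ⊓ homog d K n).map (coords b), w i ≠ 0 ∧
          ∀ j, j < i → w j = 0} = ⋃ i ∈ ((Finset.univ : Finset (Fin N)) : Set (Fin N)),
            (fun α => hidx α i) '' {α | α ∈ U i ∧ deg α = n} := by
        ext p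
        simp only [Finset.coe_univ, Set.mem_univ, Set.iUnion_true, Set.mem_iUnion, Set.mem_image]
        constructor
        · intro hp
          have hp' : p ∈ hleads b L n := hp
          refine ⟨hcmp p, hexp p, ⟨?_, mem_hleads_deg hp'⟩, hidx_eta p⟩
          show hidx (hexp p) (hcmp p) ∈ hleads b L (deg (hexp p))
          rw [hidx_eta, mem_hleads_deg hp']
          exact hp'
        · rintro ⟨i, α, ⟨h3, h4⟩, rfl⟩
          have h5 : hidx α i ∈ hleads b L (deg α) := h3
          rw [h4] at h5
          exact h5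
      rw [h2, (Finset.finite_toSet _).ncard_biUnion
        (fun i _ => (hfin.subset fun α hα => hα.2).image _)]
      · rw [finsum_mem_coe_finset]
        refine Finset.sum_congr rfl fun i _ => ?_
        exact Set.ncard_image_of_injective _ fun α β h => (hidx_inj h).1
      · intro i _ j _ hij
        rw [Function.onFun, Set.disjoint_left]
        rintro _ ⟨α, _, rfl⟩ ⟨β, _, h⟩
        exact hij (hidx_inj h).2.symm
    · rintro _ ⟨f, ⟨_, hf⟩, rfl⟩ p hp
      rw [coords_apply, hf, map_zero, Finsupp.zero_apply]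
      intro h3
      apply hp
      rw [hs, Finset.mem_image]
      exact ⟨(hexp p, hcmp p), by simp [h3], hidx_eta p⟩
  have h3 : EvPoly fun n => ∑ i : Fin N, (cnt (U i) n : ℚ) :=
    EvPoly.sum Finset.univ (f := fun i n => (cnt (U i) n : ℚ)) fun i _ => EvPoly.cnt (hup i)
  refine h3.congr (Eventually.of_forall fun n => ?_)
  rw [hcount n, Nat.cast_sum]

/-- The Hilbert polynomial of the quotient by an invariant subspace exists. -/
theorem exists_hilbPoly [FiniteDimensional ℂ K] (L : Submodule ℂ (St.H2 d K))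
    (hL : St.IsGradedSubmodule L) :
    ∃ P : Polynomial ℚ, ∀ᶠ n : ℕ in atTop, (St.hilb L n : ℚ) = P.eval (n : ℚ) := by
  have hinv := (St.invariant_iff L).1 hL.2.1
  have h1 := evPoly_finrank hinv
  have h2 : EvPoly fun n => (Module.finrank ℂ ((⊤ : Submodule ℂ (DA d K)) ⊓ homog d K n :
      Submodule ℂ (DA d K)) : ℚ) := evPoly_finrank fun i f _ => Submodule.mem_top
  have h3 := h2.sub h1
  refine h3.congr (Eventually.of_forall fun n => ?_)
  have h4 : Module.finrank ℂ (St.toLib L ⊓ homog d K n : Submodule ℂ (DA d K)) +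
      Module.finrank ℂ ((St.toLib L ⊓ homog d K n)ᗮ ⊓ homog d K n : Submodule ℂ (DA d K)) =
      Module.finrank ℂ (homog d K n) :=
    Submodule.finrank_add_inf_finrank_orthogonal inf_le_right
  rw [St.hilb_eq, Hpart, inf_comm (homog d K n), top_inf_eq, ← h4]
  push_cast
  ring

end Pool.Agent.Lib.MP_15f9af_an.AD
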