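import Mathlib
import Pool.Agent.Lib.MP_15f9af_an.Bridge
import Pool.Agent.Lib.MP_15f9af_an.AD.Transfer
import Pool.Agent.Lib.MP_15f9af_an.AD.AdIneq
import Pool.Agent.Lib.MP_15f9af_an.AD.HilbertPoly

/-!
# The Arveson–Douglas theorem: assembly
-/

namespace Pool.Agent.Lib.MP_15f9af_an.AD

universe u

variable {d : ℕ}

theorem exists_localBound {K : Type u} [NormedAddCommGroup K] [InnerProductSpace ℂ K]
    [FiniteDimensional ℂ K] (L : Submodule ℂ (DA d K)) (hL : IsGradedSubmodule L) :
    ∃ C : ℝ, 0 ≤ C ∧ LocalBound L C :=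
  exists_localBound_of_ad (fun M hM hgr => ad_inequality M hM hgr) L hL

/-- The Arveson–Douglas theorem, Douglas form. -/
theorem douglas {K : Type u} [NormedAddCommGroup K] [InnerProductSpace ℂ K]
    [FiniteDimensional ℂ K] [CompleteSpace K] (L : Submodule ℂ (St.H2 d K))
    (hL : St.IsGradedSubmodule L) : St.DouglasProperty L := by
  obtain ⟨C, hC, h⟩ := exists_localBound (St.toLib L) ((St.graded_iff L).1 hL)
  exact St.douglas_of_localBound L hL hC h

/-- The Arveson–Douglas theorem, with the existence of the Hilbert polynomial. -/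
theorem douglas_hilb {K : Type u} [NormedAddCommGroup K] [InnerProductSpace ℂ K]
    [FiniteDimensional ℂ K] [CompleteSpace K] (L : Submodule ℂ (St.H2 d K))
    (hL : St.IsGradedSubmodule L) :
    ∃ P : Polynomial ℚ,
      (∀ᶠ n : ℕ in Filter.atTop, (St.hilb L n : ℚ) = P.eval (n : ℚ)) ∧
      ∀ p : ℝ, 1 ≤ p → (P ≠ 0 → (P.natDegree : ℝ) + 1 < p) →
        ∀ i j, St.InSchatten p
          (St.selfComm (St.compress L (St.Mz i)) (St.compress L (St.Mz j))) := by
  obtain ⟨P, hP⟩ := exists_hilbPoly L hL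
  exact ⟨P, hP, douglas L hL P hP⟩

end Pool.Agent.Lib.MP_15f9af_an.AD
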