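import Mathlib
import Pool.Agent.Lib.MP_15f9af_an.AD.UDWeight

/-!
# Arveson–Douglas (helper91): the number of leading monomials is the dimension
-/

namespace Pool.Agent.Lib.MP_15f9af_an.AD.UD

variable {d N : ℕ}

/-- elements with distinct leading monomials are linearly independent -/
theorem linearIndependent_of_isLead {ι : Type*} (k : ι → K d N) (hk : Function.Injective k)
    (f : ι → K d N →₀ ℂ) (h : ∀ i, IsLead (f i) (k i)) : LinearIndependent ℂ f := by
  classical
  rw [linearIndependent_iff']
  intro s g hg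
  by_contra hcon
  push Not at hcon
  obtain ⟨i1, hi1, hgi1⟩ := hcon
  have hne : (s.filter fun i => g i ≠ 0).Nonempty := ⟨i1, by simp [hi1, hgi1]⟩
  obtain ⟨i0, hi0, hmin⟩ := Finset.exists_min_image _ (fun i => nu (k i)) hne
  rw [Finset.mem_filter] at hi0
  have h1 := DFunLike.congr_fun hg (k i0)
  rw [Finsupp.finsetSum_apply, Finset.sum_eq_single i0] at h1
  · rw [Finsupp.smul_apply, smul_eq_mul, Finsupp.zero_apply] at h1
    rcases mul_eq_zero.1 h1 with h2 | h2
    · exact hi0.2 h2
    · exact (Finsupp.mem_support_iff.1 (h i0).1) h2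
  · intro i hi hii
    rw [Finsupp.smul_apply, smul_eq_mul]
    by_cases hgi : g i = 0
    · rw [hgi, zero_mul]
    · have h2 : nu (k i0) ≤ nu (k i) := hmin i (by simp [hi, hgi])
      have h3 : nu (k i0) < nu (k i) :=
        lt_of_le_of_ne h2 fun h4 => hii (hk (nu_injective h4.symm))
      have h4 : f i (k i0) = 0 := by
        by_contra h5
        exact absurd ((h i).2 (k i0) (Finsupp.mem_support_iff.2 h5)) (not_le.2 h3)
      rw [h4, mul_zero]
  · intro h2
    exact absurd hi0.1 h2

theorem ncard_Lead_le {n : ℕ} {W : Submodule ℂ (K d N →₀ ℂ)} (hW : W ≤ Ple d N n)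
    [FiniteDimensional ℂ W] : (Lead W).ncard ≤ Module.finrank ℂ W := by
  classical
  have hfin := finite_Lead hW
  have : Fintype (Lead W) := hfin.fintype
  choose f hf hl using fun k : Lead W => k.2
  have hli : LinearIndependent ℂ f :=
    linearIndependent_of_isLead (fun k : Lead W => (k : K d N)) Subtype.val_injective f hl
  have hg : LinearIndependent ℂ (fun k : Lead W => (⟨f k, hf k⟩ : W)) :=
    LinearIndependent.of_comp W.subtype hli
  have := hg.fintype_card_le_finrank
  rwa [← Nat.card_eq_fintype_card] at this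

/-- the number of leading monomials is the dimension -/
theorem ncard_Lead_eq {n : ℕ} {W : Submodule ℂ (K d N →₀ ℂ)} (hW : W ≤ Ple d N n)
    [FiniteDimensional ℂ W] : (Lead W).ncard = Module.finrank ℂ W :=
  le_antisymm (ncard_Lead_le hW) (finrank_le_Lead hW)

end Pool.Agent.Lib.MP_15f9af_an.AD.UD
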